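import Pool.Agent.Lib.MP_7ab245_nt.Solv.Fld

set_option autoImplicit false

/-! # Module SV-DegDrop (0.6 h). Uses Fld.
`deg_drop_count`.  Write `L_m = fld α m U`.  CLAIM: for `P` as in the statement
`2^|P| [L_{m ∏P} : ℚ] ≤ [L_m : ℚ]`.  Induction on `P`; step `P ∪ {p}`, `q = ∏ P`, coprime to `p`.  It
suffices that `L_{m q p} < L_{m q}` strictly (then the degree at least halves:
`[L_{mq} : ℚ] = [L_{mqp} : ℚ] [L_{mq} : L_{mqp}]`, a divisor relation
(`IntermediateField.finrank_dvd_of_le_right` or `Module.finrank_mul_finrank`) and the fields are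
different).  If `L_{mqp} = L_{mq}` then for `a ∈ U`: `P^{mqa} ∈ L_{mqp} ≤ L_{mp}` and
`P^{mpa} ∈ L_{mp}`; with `u q + v p = 1` (Bezout, `u, v ∈ ℤ`)
`P^{ma} = (P^{mqa})^u (P^{mpa})^v ∈ L_{mp}`, so `L_m ≤ L_{mp}`, contradicting
`[L_{mp} : ℚ] < [L_m : ℚ]`. -/

namespace Pool.Agent.Lib.MP_7ab245_nt.Solv

open Module

variable {r : ℕ} (α : Fin r → ℂ)

/-- if the field does not drop from `m q` to `m q p`, it does not drop from `m` to `m p` -/
private theorem le_of_eq (hα : ∀ i, α i ≠ 0) (m p q : ℕ) (hqp : Nat.Coprime q p)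
    (U : AddSubgroup (Fin r → ℤ)) (h : fld α (m * q) U ≤ fld α (m * q * p) U) :
    fld α m U ≤ fld α (m * p) U := by
  have h1 : fld α (m * q) U ≤ fld α (m * p) U := by
    refine h.trans ?_
    rw [mul_right_comm]
    exact fld_mul_le α (m * p) q U
  unfold fld
  rw [IntermediateField.adjoin_le_iff]
  rintro _ ⟨a, ha, rfl⟩
  have hb : (1 : ℤ) = q * Nat.gcdA q p + p * Nat.gcdB q p := by
    rw [← Nat.gcd_eq_gcd_ab, hqp.gcd_eq_one]
    rfl
  have hae : a = (q : ℤ) • (Nat.gcdA q p • a) + (p : ℤ) • (Nat.gcdB q p • a) := by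
    rw [smul_smul, smul_smul, ← add_smul, ← hb, one_smul]
  rw [hae, mono_add α hα, ← mono_mul_exp, ← mono_mul_exp]
  have hU : ∀ n : ℤ, n • a ∈ U := fun n => U.zsmul_mem ha n
  change _ ∈ fld α (m * p) U
  apply mul_mem
  · apply h1
    exact IntermediateField.subset_adjoin _ _ ⟨_, hU _, rfl⟩
  · exact IntermediateField.subset_adjoin _ _ ⟨_, hU _, rfl⟩

private theorem two_mul_finrank_le (hint : ∀ i, IsIntegral ℚ (α i)) (m p : ℕ)
    (U : AddSubgroup (Fin r → ℤ)) (h : ¬ fld α m U ≤ fld α (m * p) U) :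
    2 * finrank ℚ (fld α (m * p) U) ≤ finrank ℚ (fld α m U) := by
  have hle : fld α (m * p) U ≤ fld α m U := fld_mul_le α m p U
  have := fld_finite α hint m U
  have hdvd : finrank ℚ (fld α (m * p) U) ∣ finrank ℚ (fld α m U) :=
    IntermediateField.finrank_dvd_of_le_right hle
  obtain ⟨c, hc⟩ := hdvd
  have hpos : 0 < finrank ℚ (fld α m U) := finrank_fld_pos α hint m U
  have hc0 : c ≠ 0 := by
    rintro rfl
    omega
  have hc1 : c ≠ 1 := by
    rintro rfl
    apply h
    rw [mul_one] at hc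
    rw [fld_eq α hint m p U hc.le]
  have h2 : 2 ≤ c := by omega
  rw [hc, mul_comm]
  exact Nat.mul_le_mul_left _ h2

theorem deg_drop_count (hα : ∀ i, α i ≠ 0) (hint : ∀ i, IsIntegral ℚ (α i)) (m : ℕ)
    (U : AddSubgroup (Fin r → ℤ)) (P : Finset ℕ)
    (hP : ∀ p ∈ P, p.Prime ∧ finrank ℚ (fld α (m * p) U) < finrank ℚ (fld α m U)) :
    2 ^ P.card ≤ finrank ℚ (fld α m U) := by
  classical
  have key : 2 ^ P.card * finrank ℚ (fld α (m * ∏ p ∈ P, p) U) ≤ finrank ℚ (fld α m U) := by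
    induction P using Finset.induction_on with
    | empty => rw [Finset.card_empty, Finset.prod_empty, pow_zero, one_mul, mul_one]
    | insert p P hp ih =>
      have ih' := ih fun q hq => hP q (Finset.mem_insert_of_mem hq)
      obtain ⟨hpp, hlt⟩ := hP p (Finset.mem_insert_self p P)
      have hcop : Nat.Coprime (∏ q ∈ P, q) p := by
        apply Nat.Coprime.prod_left
        intro q hq
        exact (Nat.coprime_primes (hP q (Finset.mem_insert_of_mem hq)).1 hpp).2
          (fun h => hp (h ▸ hq))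
      have hnot : ¬ fld α (m * ∏ q ∈ P, q) U ≤ fld α (m * (∏ q ∈ P, q) * p) U := by
        intro hle
        have h1 := le_of_eq α hα m p (∏ q ∈ P, q) hcop U hle
        have := fld_finite α hint (m * p) U
        have h2 := IntermediateField.finrank_le_of_le_right h1
        omega
      have h3 := two_mul_finrank_le α hint (m * ∏ q ∈ P, q) p U hnot
      rw [Finset.card_insert_of_notMem hp, Finset.prod_insert hp, mul_comm p, ← mul_assoc, pow_succ,
        mul_assoc]
      exact (Nat.mul_le_mul_left _ h3).trans ih'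
  have hpos := finrank_fld_pos α hint (m * ∏ p ∈ P, p) U
  calc 2 ^ P.card = 2 ^ P.card * 1 := (mul_one _).symm
    _ ≤ 2 ^ P.card * finrank ℚ (fld α (m * ∏ p ∈ P, p) U) := Nat.mul_le_mul_left _ hpos
    _ ≤ _ := key

end Pool.Agent.Lib.MP_7ab245_nt.Solv
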