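import Mathlib

/-! Definitions for the bound on the degree of the field generated by several multiplicatively
independent conjugates (used for Lehmer's problem and solvable Galois groups). -/

set_option autoImplicit false

namespace Pool.Agent.Lib.MP_7ab245_nt.Solv

open Module

/-- dimension over `k` of the span of the values of `φ` on `E` -/
noncomputable def vrk (k : Type*) {V Γ : Type*} [Field k] [AddCommGroup V] [Module k V]
    (φ : Γ → V) (E : Finset Γ) : ℕ :=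
  finrank k (Submodule.span k (φ '' (E : Set Γ)))

/-- the monomial `∏ α_i ^ (m a_i)` -/
noncomputable def mono {K : Type*} [Field K] {r : ℕ} (α : Fin r → K) (m : ℕ) (a : Fin r → ℤ) : K :=
  ∏ i, α i ^ ((m : ℤ) * a i)

/-- multiplicative independence -/
def MulInd {K : Type*} [Field K] {r : ℕ} (α : Fin r → K) : Prop :=
  ∀ a : Fin r → ℤ, mono α 1 a = 1 → a = 0

/-- exponent vectors with `|a_i| ≤ N` -/
noncomputable def box (r N : ℕ) : Finset (Fin r → ℤ) := Fintype.piFinset fun _ => Finset.Icc (-(N : ℤ)) N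

/-- elements of the subgroup `U` with `|a_i| ≤ N` -/
noncomputable def ball {r : ℕ} (U : AddSubgroup (Fin r → ℤ)) (N : ℕ) : Finset (Fin r → ℤ) := by
  classical exact (box r N).filter (· ∈ U)

/-- rank of the monomials `P^{ma}`, `a ∈ E` -/
noncomputable def rk (k : Type*) {K : Type*} [Field k] [Field K] [Algebra k K] {r : ℕ}
    (α : Fin r → K) (m : ℕ) (E : Finset (Fin r → ℤ)) : ℕ :=
  vrk k (mono α m) E

/-- rank of the vectors `(P^{ma})_{m ∈ Ms}`, `a ∈ E` -/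
noncomputable def rkS (k : Type*) {K : Type*} [Field k] [Field K] [Algebra k K] {r : ℕ}
    (α : Fin r → K) (Ms : Finset ℕ) (E : Finset (Fin r → ℤ)) : ℕ :=
  vrk k (fun a => (fun m : Ms => mono α (m : ℕ) a)) E

/-- value of `∑ c_a x^a` at `P^m` -/
noncomputable def ev {K : Type*} [Field K] {r : ℕ} (α : Fin r → K) (m : ℕ)
    (c : (Fin r → ℤ) →₀ ℚ) : K :=
  c.sum fun a x => (x : K) * mono α m a

/-- subgroup generated by the differences of elements of `D` -/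
def dspan {r : ℕ} (D : Finset (Fin r → ℤ)) : AddSubgroup (Fin r → ℤ) :=
  AddSubgroup.closure {x | ∃ a ∈ D, ∃ b ∈ D, x = a - b}

/-- the key inequality (KI) with constant `C` up to scale `X` for the primes in `S` -/
def KIProp {r : ℕ} (α : Fin r → ℂ) (C X : ℕ) (S : Finset ℕ) : Prop :=
  ∀ (m N : ℕ) (S' : Finset ℕ) (E : Finset (Fin r → ℤ)), 1 ≤ m → S' ⊆ S → S'.Nonempty →
    E ⊆ box r N → m * N ≤ X → rkS ℚ α (S'.image (m * ·)) E ≤ C * rk ℚ α m E

/-- the field `ℚ(P^{ma} : a ∈ U)` -/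
noncomputable def fld {r : ℕ} (α : Fin r → ℂ) (m : ℕ) (U : AddSubgroup (Fin r → ℤ)) :
    IntermediateField ℚ ℂ :=
  IntermediateField.adjoin ℚ (mono α m '' (U : Set (Fin r → ℤ)))

/-- the field `ℚ(α_1, ..., α_r)` -/
noncomputable def big {r : ℕ} (α : Fin r → ℂ) : IntermediateField ℚ ℂ :=
  IntermediateField.adjoin ℚ (Set.range α)

/-- the `p`-th cyclotomic field in `ℂ` -/
noncomputable def cyc (p : ℕ) : IntermediateField ℚ ℂ :=
  IntermediateField.adjoin ℚ {Complex.exp (2 * Real.pi * Complex.I / p)}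

/-- the monomials with exponents in `U` and norm at most `T` span a field -/
def Sat {r : ℕ} (α : Fin r → ℂ) (m : ℕ) (U : AddSubgroup (Fin r → ℤ)) (T : ℕ) : Prop :=
  Submodule.span ℚ (mono α m '' (ball U T : Set (Fin r → ℤ))) =
    Subalgebra.toSubmodule (fld α m U).toSubalgebra

/-- `F` is a nonzero relation for `P^m` supported on `ball U t` -/
def Rel {r : ℕ} (α : Fin r → ℂ) (m : ℕ) (U : AddSubgroup (Fin r → ℤ)) (t : ℕ)
    (F : (Fin r → ℤ) →₀ ℚ) : Prop :=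
  F ≠ 0 ∧ F.support ⊆ ball U t ∧ ev α m F = 0

/-- the restriction of `F` to the class `χ = j` (for `χ` defined on `U ⊇ supp F`) -/
noncomputable def part {r p : ℕ} {U : AddSubgroup (Fin r → ℤ)} (χ : U →+ ZMod p) (j : ZMod p)
    (F : (Fin r → ℤ) →₀ ℚ) : (Fin r → ℤ) →₀ ℚ := by
  classical exact F.filter fun a => ∃ h : a ∈ U, χ ⟨a, h⟩ = j

/-- the relations of `P^m` on `ball U t` are graded by `χ` -/
def Graded {r p : ℕ} (α : Fin r → ℂ) (m : ℕ) (U : AddSubgroup (Fin r → ℤ)) (t : ℕ)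
    (χ : U →+ ZMod p) : Prop :=
  ∀ F : (Fin r → ℤ) →₀ ℚ, F.support ⊆ ball U t → ev α m F = 0 → ∀ j, ev α m (part χ j F) = 0

/-- standing hypotheses of the geometric part -/
structure Env {r : ℕ} (α : Fin r → ℂ) (C e Y X : ℕ) (S : Finset ℕ) : Prop where
  ne : ∀ i, α i ≠ 0
  ind : MulInd α
  int : ∀ i, IsIntegral ℚ (α i)
  deg : finrank ℚ (big α) ≤ Y ^ e
  prime : ∀ p ∈ S, p.Prime
  lo : ∀ p ∈ S, Y < p
  hi : ∀ p ∈ S, p ≤ Y ^ 2
  card : Y ≤ S.card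
  hX : X ≤ Y ^ e
  ki : KIProp α C X S

/-- numerical conditions on the parameter `Y` (true for all large `Y` once `C * 2 ^ k < 3 ^ k`) -/
structure Num (r C e k Y : ℕ) : Prop where
  hC : 1 ≤ C
  hk : C * 2 ^ k < 3 ^ k
  h1 : 2 ^ (k + 4) ≤ Y
  h2 : 2 * C + 3 ≤ Y
  h3 : 4 * r + 5 ≤ Y
  h4 : Y ^ e * C ^ Y < (C + 1) ^ Y
  h5 : 2 * (Nat.log 2 (Y ^ e) + 1) + r * (e + 3) + C + 2 ≤ Y

/-- archimedean weight -/
noncomputable def wt {Ω : Type*} [Field Ω] [NumberField Ω] (ι : Ω →+* ℂ) {r : ℕ} (α : Fin r → Ω)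
    (σ : Ω ≃ₐ[ℚ] Ω) : ℝ :=
  ∏ i, (max 1 ‖ι (σ (α i))‖ * max 1 ‖ι (σ (α i))‖⁻¹)

/-- the exponents `b ∈ ℕ^r` with `b_1 + ... + b_r < T` -/
noncomputable def exps (r T : ℕ) : Finset (Fin r → ℕ) := by
  classical exact (Fintype.piFinset fun _ => Finset.range T).filter (fun b => ∑ i, b i < T)

/-- normalised real coordinates of `v` -/
noncomputable def coord {Ω : Type*} [Field Ω] [NumberField Ω] (ι : Ω →+* ℂ)
    (w : (Ω ≃ₐ[ℚ] Ω) → ℝ) (i : (Ω ≃ₐ[ℚ] Ω) × Bool) (v : Ω) : ℝ :=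
  if i.2 then (ι (i.1 v)).re / w i.1 else (ι (i.1 v)).im / w i.1

/-- the heights are small up to exponent `X` -/
def HtOK {Ω : Type*} [Field Ω] [NumberField Ω] (ι : Ω →+* ℂ) {r : ℕ} (α : Fin r → Ω)
    (X : ℕ) : Prop :=
  ∏ σ : Ω ≃ₐ[ℚ] Ω, wt ι α σ ^ X ≤ 2 ^ Fintype.card (Ω ≃ₐ[ℚ] Ω)

/-- Frobenius acts well on most conjugates of `α` at `p` -/
def GoodPrime {Ω : Type*} [Field Ω] [NumberField Ω] {r : ℕ} (α : Fin r → Ω) (p : ℕ) : Prop :=
  p.Prime ∧ ∃ v : Valuation Ω (WithZero (Multiplicative ℤ)), (∀ x, IsIntegral ℤ x → v x ≤ 1) ∧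
    v (p : Ω) < 1 ∧
    3 * Nat.card (Ω ≃ₐ[ℚ] Ω) ≤ 4 * Nat.card {τ : Ω ≃ₐ[ℚ] Ω //
      ∃ σ : Ω ≃ₐ[ℚ] Ω, ∀ i, v ((τ (α i)) ^ p - σ (α i)) ≤ v (p : Ω)}

end Pool.Agent.Lib.MP_7ab245_nt.Solv
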