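import Mathlib

set_option autoImplicit false

/-! # Module SV-BNumD (0.8 h). Only Mathlib.
`b_num`: `J = (6r+11) r D + 2 ≥ 19`.  Let `Y = ⌊n^{1/J}⌋` (`Nat.nthRoot` or `Nat.findGreatest`/`Nat.find`):
`Y^J ≤ n < (Y+1)^J`; it tends to infinity with `n`, so all statements need only hold for large `Y`:
* `(Y+1)^J ≤ Y^(J+1)` for large `Y` (`(1+1/Y)^J ≤ 2^J ≤ Y`);
* `2 r Y^(J-1) ≤ Y^J ≤ n`, `2 Y^(J-3) + 1 ≤ Y^J ≤ n`;
* `n^r ≤ Y^((J+1) r)`, `Y^(J-3) ≤ Y^((J+1) r)` (`r ≥ 1`);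
* `n^(rD-1) < (Y+1)^(J(rD-1)) ≤ 2^(J(rD-1)) Y^(J(rD-1))` (`≤` if `rD = 1`)
  `≤ Y^2 Y^(J(rD-1)) = Y^((J - (6r+11)) r D)` because `(J - (6r+11)) r D = J r D - (6r+11) r D` and
  `J - (6r+11) r D = 2`; and this is `< ((2 Y^(J-(6r+11)) + 1)^r)^D`. -/

namespace Pool.Agent.Lib.MP_7ab245_nt.Solv

theorem b_num (r D Y₀ : ℕ) (hr : 1 ≤ r) (hD : 1 ≤ D) (J : ℕ)
    (hJ : J = (6 * r + 11) * r * D + 2) : ∃ n₀ : ℕ, ∀ n, n₀ ≤ n → ∃ Y, Y₀ ≤ Y ∧ 1 ≤ Y ∧ 2 ≤ n ∧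
    n < (Y + 1) ^ J ∧ n < Y ^ (J + 1) ∧ 2 * r * Y ^ (J - 1) ≤ n ∧ 2 * Y ^ (J - 3) + 1 ≤ n ∧
    n ^ r ≤ Y ^ ((J + 1) * r) ∧ Y ^ (J - 3) ≤ Y ^ ((J + 1) * r) ∧
    n ^ (r * D - 1) < ((2 * Y ^ (J - (6 * r + 11)) + 1) ^ r) ^ D := by
  have hJ19 : 19 ≤ J := by
    have h1 : 1 ≤ r * D := Nat.mul_pos hr hD
    have h2 : (6 * r + 11) * (r * D) = (6 * r + 11) * r * D := by ring
    have h3 : (6 * r + 11) * 1 ≤ (6 * r + 11) * (r * D) := Nat.mul_le_mul_left _ h1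
    omega
  set m := r * D with hm
  have hm1 : 1 ≤ m := Nat.mul_pos hr hD
  set T := Y₀ + 2 ^ (J * (m - 1)) + 2 ^ J + 2 * r + 4 with hT
  refine ⟨T ^ J, fun n hn => ?_⟩
  have hex : ∃ Y, n < (Y + 1) ^ J := ⟨n, by
    calc n < n + 1 := Nat.lt_succ_self n
      _ ≤ (n + 1) ^ J := Nat.le_self_pow (by omega) _⟩
  classical
  set Y := Nat.find hex with hY
  have h1 : n < (Y + 1) ^ J := Nat.find_spec hex
  have hYT : T ≤ Y := by
    by_contra hcon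
    have h2 : (Y + 1) ^ J ≤ T ^ J := Nat.pow_le_pow_left (by omega) J
    omega
  have h2J : 0 < 2 ^ J := by positivity
  have h2J' : 0 < 2 ^ (J * (m - 1)) := by positivity
  have hY4 : 4 ≤ Y := by omega
  have hY0 : Y₀ ≤ Y := by omega
  have hYr : 2 * r ≤ Y := by omega
  have hY2 : 2 ^ J ≤ Y := by omega
  have hYK2 : 2 ^ (J * (m - 1)) ≤ Y := by omega
  have h2 : Y ^ J ≤ n := by
    have h3 := Nat.find_min hex (m := Y - 1) (by omega)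
    have h4 : Y - 1 + 1 = Y := by omega
    rw [h4] at h3
    exact Nat.le_of_not_lt h3
  have hY1 : 1 ≤ Y := by omega
  have hdouble : ∀ a, (Y + 1) ^ a ≤ 2 ^ a * Y ^ a := by
    intro a
    rw [← mul_pow]
    exact Nat.pow_le_pow_left (by omega) a
  have hn1 : n < Y ^ (J + 1) := by
    calc n < (Y + 1) ^ J := h1
      _ ≤ 2 ^ J * Y ^ J := hdouble J
      _ ≤ Y * Y ^ J := Nat.mul_le_mul_right _ hY2
      _ = Y ^ (J + 1) := (pow_succ' Y J).symm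
  refine ⟨Y, hY0, hY1, ?_, h1, hn1, ?_, ?_, ?_, ?_, ?_⟩
  · calc 2 ≤ Y := by omega
      _ ≤ Y ^ J := Nat.le_self_pow (by omega) _
      _ ≤ n := h2
  · calc 2 * r * Y ^ (J - 1) ≤ Y * Y ^ (J - 1) := Nat.mul_le_mul_right _ hYr
      _ = Y ^ J := by rw [← pow_succ', show J - 1 + 1 = J by omega]
      _ ≤ n := h2
  · have h3 : 1 ≤ Y ^ (J - 3) := Nat.one_le_pow _ _ hY1
    have h4 : 3 ≤ Y ^ 3 := by
      calc 3 ≤ Y := by omega
        _ ≤ Y ^ 3 := Nat.le_self_pow (by omega) _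
    calc 2 * Y ^ (J - 3) + 1 ≤ 3 * Y ^ (J - 3) := by omega
      _ ≤ Y ^ 3 * Y ^ (J - 3) := Nat.mul_le_mul_right _ h4
      _ = Y ^ J := by rw [← pow_add, show 3 + (J - 3) = J by omega]
      _ ≤ n := h2
  · calc n ^ r ≤ (Y ^ (J + 1)) ^ r := Nat.pow_le_pow_left hn1.le _
      _ = Y ^ ((J + 1) * r) := (pow_mul _ _ _).symm
  · apply Nat.pow_le_pow_right hY1
    calc J - 3 ≤ (J + 1) * 1 := by omega
      _ ≤ (J + 1) * r := Nat.mul_le_mul_left _ hr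
  · set E := J - (6 * r + 11) with hE
    have hE0 : 6 * r + 11 ≤ J := by
      have h2 : (6 * r + 11) * m = (6 * r + 11) * r * D := by rw [hm]; ring
      have h3 : (6 * r + 11) * 1 ≤ (6 * r + 11) * m := Nat.mul_le_mul_left _ hm1
      omega
    have hEr : E * m = J * (m - 1) + 2 := by
      have h5 : E + (6 * r + 11) = J := by omega
      have h6 : (6 * r + 11) * m + 2 = J := by rw [hJ, hm]; ring
      obtain ⟨m', hm'⟩ : ∃ m', m = m' + 1 := ⟨m - 1, by omega⟩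
      have h7 : m - 1 = m' := by omega
      rw [h7, hm']
      rw [hm'] at h6
      have h8 : E * (m' + 1) + (6 * r + 11) * (m' + 1) = J * m' + J := by
        rw [← add_mul, h5]; ring
      omega
    have h3 : n ^ (m - 1) ≤ 2 ^ (J * (m - 1)) * Y ^ (J * (m - 1)) := by
      calc n ^ (m - 1) ≤ ((Y + 1) ^ J) ^ (m - 1) := Nat.pow_le_pow_left h1.le _
        _ = (Y + 1) ^ (J * (m - 1)) := (pow_mul _ _ _).symm
        _ ≤ _ := hdouble _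
    calc n ^ (m - 1) ≤ 2 ^ (J * (m - 1)) * Y ^ (J * (m - 1)) := h3
      _ ≤ Y * Y ^ (J * (m - 1)) := Nat.mul_le_mul_right _ hYK2
      _ = Y ^ (J * (m - 1) + 1) := (pow_succ' _ _).symm
      _ ≤ Y ^ (E * m) := Nat.pow_le_pow_right hY1 (by rw [hEr]; omega)
      _ = (Y ^ E) ^ m := pow_mul _ _ _
      _ < (2 * Y ^ E + 1) ^ m := Nat.pow_lt_pow_left (by omega) (by omega)
      _ = ((2 * Y ^ E + 1) ^ r) ^ D := by rw [hm, pow_mul]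

end Pool.Agent.Lib.MP_7ab245_nt.Solv
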