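import Pool.Agent.Lib.MP_7ab245_nt.Solv.Defs

set_option autoImplicit false

/-! # Module SV-GeoNum (0.6 h). Only Defs.
`exists_k`: `(3/2)^k → ∞` (`tendsto_pow_atTop_atTop_of_one_lt`).
`num_eventually`: `Y^e C^Y < (C+1)^Y` for large `Y`: `Y^e / (1 + 1/C)^Y → 0`
(`isLittleO_pow_const_const_pow_of_one_lt` or `tendsto_pow_const_div_const_pow_of_one_lt`).  `h5`:
`Nat.log 2 (Y^e) ≤ e (Nat.log 2 Y + 1)` and `log Y = o(Y)`.  `h1`, `h2`, `h3` trivial. -/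

namespace Pool.Agent.Lib.MP_7ab245_nt.Solv

open Module

theorem exists_k (C : ℕ) : ∃ k : ℕ, C * 2 ^ k < 3 ^ k := by
  obtain ⟨k, hk⟩ := pow_unbounded_of_one_lt (C : ℝ) (by norm_num : (1 : ℝ) < 3 / 2)
  refine ⟨k, ?_⟩
  rw [div_pow, lt_div_iff₀ (by positivity)] at hk
  exact_mod_cast hk

theorem num_eventually (r C e k : ℕ) (hC : 1 ≤ C) (hk : C * 2 ^ k < 3 ^ k) :
    ∃ Y₀ : ℕ, ∀ Y, Y₀ ≤ Y → Num r C e k Y := by
  have hC0 : (0 : ℝ) < C := by exact_mod_cast hC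
  -- condition h4
  have h4 : ∀ᶠ Y : ℕ in Filter.atTop, Y ^ e * C ^ Y < (C + 1) ^ Y := by
    have h1 : (1 : ℝ) < ((C : ℝ) + 1) / C := by
      rw [lt_div_iff₀ hC0]
      linarith
    have h2 := tendsto_pow_const_div_const_pow_of_one_lt e h1
    filter_upwards [h2.eventually (gt_mem_nhds (zero_lt_one : (0 : ℝ) < 1))] with Y hY
    rw [div_lt_one (by positivity), div_pow, lt_div_iff₀ (by positivity)] at hY
    exact_mod_cast hY
  -- condition h5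
  have h5 : ∀ᶠ Y : ℕ in Filter.atTop,
      2 * (Nat.log 2 (Y ^ e) + 1) + r * (e + 3) + C + 2 ≤ Y := by
    have h1 : (1 : ℝ) < 2 := by norm_num
    -- it suffices that `2 Y^(2 e) 2^c < 2 ^ Y`
    have h2 := tendsto_pow_const_div_const_pow_of_one_lt (2 * e) h1
    have h3 : (0 : ℝ) < ((2 : ℝ) ^ (r * (e + 3) + C + 4))⁻¹ := by positivity
    filter_upwards [h2.eventually (gt_mem_nhds h3), Filter.eventually_ge_atTop 1] with Y hY hY1
    rw [lt_inv_comm₀ (by positivity) (by positivity), inv_div, lt_div_iff₀ (by positivity)] at hY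
    have hY' : 2 ^ (r * (e + 3) + C + 4) * Y ^ (2 * e) < 2 ^ Y := by exact_mod_cast hY
    have h6 : 2 ^ Nat.log 2 (Y ^ e) ≤ Y ^ e :=
      Nat.pow_log_le_self 2 (by positivity)
    have h7 : 2 ^ (2 * (Nat.log 2 (Y ^ e) + 1) + r * (e + 3) + C + 2) < 2 ^ Y := by
      refine lt_of_le_of_lt ?_ hY'
      calc 2 ^ (2 * (Nat.log 2 (Y ^ e) + 1) + r * (e + 3) + C + 2)
          = 2 ^ (r * (e + 3) + C + 4) * (2 ^ Nat.log 2 (Y ^ e)) ^ 2 := by
            rw [← pow_mul, ← pow_add]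
            congr 1
            ring
        _ ≤ 2 ^ (r * (e + 3) + C + 4) * (Y ^ e) ^ 2 := by gcongr
        _ = 2 ^ (r * (e + 3) + C + 4) * Y ^ (2 * e) := by
            rw [← pow_mul, mul_comm e 2]
    exact ((Nat.pow_lt_pow_iff_right (by norm_num)).1 h7).le
  obtain ⟨Y₁, hY₁⟩ := Filter.eventually_atTop.1 (h4.and h5)
  refine ⟨Y₁ + 2 ^ (k + 4) + (2 * C + 3) + (4 * r + 5), fun Y hY => ?_⟩
  have h8 : 0 < 2 ^ (k + 4) := by positivity
  have h6 := hY₁ Y (by omega)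
  exact ⟨hC, hk, by omega, by omega, by omega, h6.1, h6.2⟩

end Pool.Agent.Lib.MP_7ab245_nt.Solv
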