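import Pool.Agent.Lib.MP_7ab245_nt.PadicPart
import Pool.Agent.Lib.MP_7ab245_nt.PowDisc
import Pool.Agent.Lib.MP_7ab245_nt.Energy

set_option autoImplicit false

/-! # Module SV-DiscZ (1.0 h). Uses our Lib: PadicPart, PowDisc, Energy.
`exists_disc`.  `n = deg g ≥ 1`.  `PowDisc.vandermonde_int n 1 g` gives an integer `z` with
`det (vandermonde α)^2 = z` for the roots `α : Fin n → K` of `g` in any field `K` (of type `Type`).
* `K = ℂ` (`Energy.exists_roots`): `z ≠ 0` since the roots of the irreducible `g` are distinct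
  (`Matrix.det_vandermonde_ne_zero_iff`, separability), and
  `|z| = ‖det‖² ≤ n^n ∏ max(1,‖α_i‖)^{2(n-1)} = n^n M(g)^{2(n-1)}` (`Energy.vandermonde_le`,
  `Energy.prod_max_eq` with `N = 1`).
* `K = PadicAlgCl p`: `‖z‖ = ∏_i ∏_{j ≠ i} ‖β_i - β_j‖ = ∏_i ‖g'(β_i)‖` (`PowDisc.norm_vandermonde_sq`,
  derivative of a product at a root) `≤ ∏_i max ‖g'(β_i)‖ p⁻¹ ≤ (p⁻¹)^{deg G}` by
  `PadicPart.prod_max_le` with `h = derivative g`, so `p^{deg G} ∣ z` (`norm_intCast_eq`,
  `Padic.norm_int_le_pow_iff_dvd`). -/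

namespace Pool.Agent.Lib.MP_7ab245_nt.Solv

open Polynomial

private theorem DiscZ_roots {K : Type} [Field K] [IsAlgClosed K] [CharZero K] (f : ℤ[X])
    (hf : f.Monic) :
    ∃ α : Fin f.natDegree → K, Finset.univ.val.map α = (f.map (Int.castRingHom K)).roots ∧
      f.map (Int.castRingHom K) = ((Finset.univ.val.map α).map fun t => X - C t).prod := by
  classical
  set F := f.map (Int.castRingHom K) with hF
  have hFm : F.Monic := hf.map _
  have hsplit : F = (F.roots.map fun a => X - C a).prod := by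
    have := (IsAlgClosed.splits F).eq_prod_roots
    rw [hFm.leadingCoeff, C_1, one_mul] at this
    exact this
  have hcard : Multiset.card F.roots = f.natDegree := by
    rw [IsAlgClosed.card_roots_eq_natDegree, hF, hf.natDegree_map]
  obtain ⟨l, hl⟩ : ∃ l : List K, (l : Multiset K) = F.roots := ⟨F.roots.toList, by simp⟩
  have hlen : l.length = f.natDegree := by rw [← hcard, ← hl, Multiset.coe_card]
  have hmap : (Finset.univ.val.map fun i : Fin l.length => l.get i) = F.roots := by
    rw [← hl, Fin.univ_val_map]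
    simp
  rw [← hlen]
  exact ⟨fun i => l.get i, hmap, by rw [hmap]; exact hsplit⟩

private theorem DiscZ_nodup {K : Type} [Field K] [CharZero K] (g : ℤ[X]) (hg : g.Monic)
    (hirr : Irreducible g) : (g.map (algebraMap ℤ K)).roots.Nodup := by
  apply nodup_roots
  have hirrQ : Irreducible (g.map (algebraMap ℤ ℚ)) :=
    (hg.irreducible_iff_irreducible_map_fraction_map (K := ℚ)).mp hirr
  have hsep := hirrQ.separable
  have := hsep.map (f := algebraMap ℚ K)
  rw [Polynomial.map_map] at this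
  have heq : (algebraMap ℚ K).comp (algebraMap ℤ ℚ) = algebraMap ℤ K := RingHom.ext_int _ _
  rwa [heq] at this

/-- the derivative at a root -/
private theorem DiscZ_der {K : Type} [Field K] {n : ℕ} (β : Fin n → K) (i : Fin n) :
    (derivative ((Finset.univ.val.map β).map fun t => X - C t).prod).eval (β i) =
      ∏ j ∈ Finset.univ.erase i, (β i - β j) := by
  classical
  have h1 : ((Finset.univ.val.map β).map fun t => X - C t).prod = ∏ j, (X - C (β j)) := by
    rw [Multiset.map_map]
    rfl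
  rw [h1, derivative_prod_finset, eval_finsetSum, Finset.sum_eq_single i]
  · simp [eval_prod]
  · intro j _ hj
    rw [eval_mul, eval_prod, Finset.prod_eq_zero (i := i)]
    · rw [zero_mul]
    · exact Finset.mem_erase.2 ⟨hj.symm, Finset.mem_univ i⟩
    · simp
  · intro h
    exact absurd (Finset.mem_univ i) h

private theorem DiscZ_padic (g : ℤ[X]) (hg : g.Monic) (hirr : Irreducible g) (z : ℤ)
    (hz : ∀ (K : Type) [Field K] (α : Fin g.natDegree → K),
      g.map (algebraMap ℤ K) = ((Finset.univ.val.map α).map fun t => X - C t).prod →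
      (Matrix.vandermonde fun i => α i ^ 1).det ^ 2 = (z : K))
    (p : ℕ) [Fact p.Prime] (G : (ZMod p)[X]) (h1 : G ∣ g.map (Int.castRingHom (ZMod p)))
    (h2 : G ∣ derivative (g.map (Int.castRingHom (ZMod p)))) :
    (p : ℤ) ^ G.natDegree ∣ z := by
  classical
  obtain ⟨β, hβ1, hβ2⟩ := DiscZ_roots (K := PadicAlgCl p) g hg
  have h3 := hz (PadicAlgCl p) β hβ2
  simp only [pow_one] at h3
  have h4 : ‖(z : PadicAlgCl p)‖ = ∏ i, ‖(derivative (g.map (Int.castRingHom (PadicAlgCl p)))).eval
      (β i)‖ := by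
    rw [← h3, norm_pow, Energy.norm_vandermonde_sq]
    refine Finset.prod_congr rfl fun i _ => ?_
    rw [hβ2, DiscZ_der, norm_prod]
  have h5 := prod_max_le p g (derivative g) hg hirr G h1 (by rw [← derivative_map]; exact h2)
  rw [← hβ1, Multiset.map_map] at h5
  have h6 : ‖(z : PadicAlgCl p)‖ ≤ ((p : ℝ)⁻¹) ^ G.natDegree := by
    rw [h4]
    refine le_trans ?_ h5
    have h7 : (Multiset.map ((fun β => max ‖eval β (Polynomial.map
        (Int.castRingHom (PadicAlgCl p)) (derivative g))‖ (p : ℝ)⁻¹) ∘ β) Finset.univ.val).prod =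
        ∏ i, max ‖eval (β i) (Polynomial.map
        (Int.castRingHom (PadicAlgCl p)) (derivative g))‖ (p : ℝ)⁻¹ := rfl
    rw [h7]
    refine Finset.prod_le_prod (fun i _ => norm_nonneg _) fun i _ => ?_
    rw [derivative_map]
    exact le_max_left _ _
  rw [norm_intCast_eq] at h6
  have h8 : ((p : ℝ)⁻¹) ^ G.natDegree = (p : ℝ) ^ (-G.natDegree : ℤ) := by
    rw [zpow_neg, zpow_natCast, inv_pow]
  rw [h8, Padic.norm_int_le_pow_iff_dvd] at h6
  exact h6

theorem exists_disc (g : ℤ[X]) (hg : g.Monic) (hirr : Irreducible g) :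
    ∃ z : ℤ, z ≠ 0 ∧
      |(z : ℝ)| ≤ (g.natDegree : ℝ) ^ g.natDegree *
        (g.map (Int.castRingHom ℂ)).mahlerMeasure ^ (2 * (g.natDegree - 1)) ∧
      ∀ (p : ℕ) [Fact p.Prime] (G : (ZMod p)[X]), G ∣ g.map (Int.castRingHom (ZMod p)) →
        G ∣ derivative (g.map (Int.castRingHom (ZMod p))) → (p : ℤ) ^ G.natDegree ∣ z := by
  classical
  obtain ⟨z, hz⟩ := Energy.vandermonde_int g.natDegree 1 g
  obtain ⟨α, hα1, hα2⟩ := Energy.exists_roots g hg
  have hinj : Function.Injective α := by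
    have h := DiscZ_nodup (K := ℂ) g hg hirr
    have h' := Energy.injective_pow g 1 α hα1 (by simpa using h)
    simpa using h'
  have h1 := hz ℂ α hα2
  refine ⟨z, ?_, ?_, fun p _ G h2 h3 => DiscZ_padic g hg hirr z hz p G h2 h3⟩
  · rintro rfl
    rw [Int.cast_zero] at h1
    have h2 := pow_eq_zero_iff (two_ne_zero) |>.1 h1
    refine (Matrix.det_vandermonde_ne_zero_iff.2 ?_) h2
    simpa using hinj
  · have h2 := Energy.vandermonde_le (fun i => α i ^ 1)
    rw [← norm_pow, h1, Complex.norm_intCast, Energy.prod_max_eq g hg 1 α hα1, pow_one] at h2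
    exact h2

end Pool.Agent.Lib.MP_7ab245_nt.Solv
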