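import Pool.Agent.Lib.MP_7ab245_nt.Solv.GoodOf
import Pool.Agent.Lib.MP_7ab245_nt.Solv.DiscZ
import Pool.Agent.Lib.MP_7ab245_nt.Solv.PrimeCount

set_option autoImplicit false

/-! # Module SV-GoodSet (1.0 h). Uses GoodOf, DiscZ, PrimeCount.
`exists_good_set`.  Let `b = 8 r (J+3)` (`r ≥ 1`), `Y₀` large enough for `primes_between b` and for
`4 (Y+1)^J < Y^(J+3)`.  Call a prime `p ∈ (Y, Y²]` bad if it is not a `GoodPrime` for `x`; by `goodPrime_of`
(contrapositive) there is then `G_p ∣ g mod p, G_p ∣ (g mod p)'` with `8 r deg G_p > n`.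
CLAIM: fewer than `b` bad primes.  Otherwise take `b` of them, `P`.  With `z` from `exists_disc`:
`∏_{p ∈ P} p^{deg G_p} ∣ z` (pairwise coprime), so `∏ p^{8 r deg G_p} ≤ |z|^{8r}`
`≤ (n^n 2^{2(n-1)})^{8r} ≤ (4n)^{8rn}`, and the left-hand side is `≥ Y^{n b}` (`p > Y`,
`8 r deg G_p ≥ n`).  Hence `Y^b ≤ (4n)^{8r}`, `Y^{J+3} ≤ 4n < 4 (Y+1)^J`: contradiction.
So `S` = the good primes in `(Y, Y²]` has at least `Y + b - b` elements. -/

namespace Pool.Agent.Lib.MP_7ab245_nt.Solv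

open Polynomial

private theorem gs_num (J Y : ℕ) (hY : 2 ^ (J + 2) < Y) : 4 * (Y + 1) ^ J < Y ^ (J + 3) := by
  have hY1 : 1 ≤ Y := by
    have : 0 < 2 ^ (J + 2) := by positivity
    omega
  have h1 : (Y + 1) ^ J ≤ 2 ^ J * Y ^ J := by
    rw [← mul_pow]
    exact Nat.pow_le_pow_left (by omega) J
  have h2 : 0 < Y ^ J := Nat.pow_pos hY1
  calc 4 * (Y + 1) ^ J ≤ 4 * (2 ^ J * Y ^ J) := Nat.mul_le_mul_left _ h1
    _ = 2 ^ (J + 2) * Y ^ J := by ring
    _ < Y * Y ^ J := Nat.mul_lt_mul_of_pos_right hY h2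
    _ ≤ Y ^ 3 * Y ^ J := by
        refine Nat.mul_le_mul_right _ ?_
        exact Nat.le_self_pow (by norm_num) Y
    _ = Y ^ (J + 3) := by ring

/-- the numerical contradiction -/
private theorem gs_bound (r J Y n : ℕ) (hr : 1 ≤ r) (hn : 1 ≤ n) (hnY : n < (Y + 1) ^ J)
    (hY : 2 ^ (J + 2) < Y) (z : ℤ) (hz : z ≠ 0) (hzle : z.natAbs ≤ (4 * n) ^ n) (P : Finset ℕ)
    (hP : P.card = 8 * r * (J + 3)) (hPp : ∀ p ∈ P, p.Prime) (hPY : ∀ p ∈ P, Y < p) (d : ℕ → ℕ)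
    (hd : ∀ p ∈ P, (p : ℤ) ^ d p ∣ z) (hdn : ∀ p ∈ P, n < 8 * r * d p) : False := by
  have hY1 : 1 ≤ Y := by
    have : 0 < 2 ^ (J + 2) := by positivity
    omega
  have h1 : ∏ p ∈ P, p ^ d p ∣ z.natAbs := by
    rw [← Int.natCast_dvd]
    push_cast
    refine Finset.prod_dvd_of_coprime ?_ hd
    intro p hp q hq hpq
    exact IsCoprime.pow (Nat.isCoprime_iff_coprime.mpr
      ((Nat.coprime_primes (hPp p hp) (hPp q hq)).mpr hpq))
  have h2 : ∏ p ∈ P, p ^ d p ≤ (4 * n) ^ n :=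
    (Nat.le_of_dvd (Int.natAbs_pos.mpr hz) h1).trans hzle
  have h3 : (Y ^ n) ^ (8 * r * (J + 3)) ≤ (∏ p ∈ P, p ^ d p) ^ (8 * r) := by
    rw [← hP, ← Finset.prod_const, ← Finset.prod_pow]
    refine Finset.prod_le_prod' fun p hp => ?_
    rw [← pow_mul]
    calc Y ^ n ≤ p ^ n := Nat.pow_le_pow_left (hPY p hp).le n
      _ ≤ p ^ (d p * (8 * r)) := Nat.pow_le_pow_right (hPp p hp).pos (by
          have := hdn p hp
          rw [mul_comm]
          exact this.le)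
  have h4 : ((Y ^ (J + 3)) ^ (8 * r)) ^ n ≤ ((4 * n) ^ (8 * r)) ^ n := by
    calc ((Y ^ (J + 3)) ^ (8 * r)) ^ n = (Y ^ n) ^ (8 * r * (J + 3)) := by
          rw [← pow_mul, ← pow_mul, ← pow_mul]
          congr 1
          ring
      _ ≤ (∏ p ∈ P, p ^ d p) ^ (8 * r) := h3
      _ ≤ ((4 * n) ^ n) ^ (8 * r) := Nat.pow_le_pow_left h2 _
      _ = ((4 * n) ^ (8 * r)) ^ n := by rw [← pow_mul, ← pow_mul, mul_comm n]
  have h5 := (Nat.pow_le_pow_iff_left (by omega)).mp h4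
  have h6 := (Nat.pow_le_pow_iff_left (by omega)).mp h5
  have h7 := gs_num J Y hY
  omega

theorem exists_good_set (r J : ℕ) (hr : 1 ≤ r) : ∃ Y₀ : ℕ, ∀ Y, Y₀ ≤ Y →
    ∀ g : ℤ[X], g.Monic → Irreducible g → g.natDegree < (Y + 1) ^ J →
      (g.map (Int.castRingHom ℂ)).mahlerMeasure ≤ 2 →
    ∀ (Ω : Type) [Field Ω] [NumberField Ω] [IsGalois ℚ Ω],
      (g.map (algebraMap ℤ Ω)).Splits → ∀ x : Fin r → Ω, (∀ i, aeval (x i) g = 0) →
    ∃ S : Finset ℕ, Y ≤ S.card ∧ ∀ p ∈ S, Y < p ∧ p ≤ Y ^ 2 ∧ GoodPrime x p := by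
  classical
  obtain ⟨Y₁, hY₁⟩ := primes_between (8 * r * (J + 3))
  refine ⟨max Y₁ (2 ^ (J + 2) + 1), fun Y hY g hg hirr hdeg hM Ω _ _ _ hsp x hx => ?_⟩
  have hYa : Y₁ ≤ Y := (le_max_left _ _).trans hY
  have hYb : 2 ^ (J + 2) < Y := (le_max_right _ _).trans hY
  have hcount := hY₁ Y hYa
  set Pr := (Finset.Ioc Y (Y ^ 2)).filter Nat.Prime with hPr
  have hn : 1 ≤ g.natDegree := by
    rw [Nat.one_le_iff_ne_zero]
    intro h0
    have h1 := (Polynomial.Monic.natDegree_eq_zero hg).mp h0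
    rw [h1] at hirr
    exact hirr.not_isUnit isUnit_one
  obtain ⟨z, hz0, hzle, hzd⟩ := exists_disc g hg hirr
  -- the bound for `z`
  have hzle' : z.natAbs ≤ (4 * g.natDegree) ^ g.natDegree := by
    have h1 : (z.natAbs : ℝ) ≤ (4 * (g.natDegree : ℝ)) ^ g.natDegree := by
      rw [Nat.cast_natAbs, Int.cast_abs]
      refine hzle.trans ?_
      rw [mul_comm, mul_pow]
      refine mul_le_mul_of_nonneg_right ?_ (by positivity)
      calc (g.map (Int.castRingHom ℂ)).mahlerMeasure ^ (2 * (g.natDegree - 1))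
          ≤ (2 : ℝ) ^ (2 * (g.natDegree - 1)) :=
            pow_le_pow_left₀ (Polynomial.mahlerMeasure_nonneg _) hM _
        _ ≤ (2 : ℝ) ^ (2 * g.natDegree) := pow_le_pow_right₀ (by norm_num) (by omega)
        _ = 4 ^ g.natDegree := by
            rw [pow_mul]
            norm_num
    exact_mod_cast h1
  by_contra hcon
  push Not at hcon
  -- there are many bad primes
  have hbad : 8 * r * (J + 3) ≤ (Pr.filter (fun p => ¬ GoodPrime x p)).card := by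
    have h1 := Finset.card_filter_add_card_filter_not (s := Pr) (fun p => GoodPrime x p)
    have h2 : (Pr.filter (fun p => GoodPrime x p)).card < Y := by
      by_contra h3
      push Not at h3
      obtain ⟨p, hp, h4⟩ := hcon _ h3
      rw [Finset.mem_filter, hPr, Finset.mem_filter, Finset.mem_Ioc] at hp
      exact h4 hp.1.1.1 hp.1.1.2 hp.2
    omega
  obtain ⟨P, hPs, hPc⟩ := Finset.exists_subset_card_eq hbad
  have hPmem : ∀ p ∈ P, Y < p ∧ p.Prime ∧ ¬ GoodPrime x p := by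
    intro p hp
    have h1 := hPs hp
    rw [Finset.mem_filter, hPr, Finset.mem_filter, Finset.mem_Ioc] at h1
    exact ⟨h1.1.1.1, h1.1.2, h1.2⟩
  have hex : ∀ p, ∃ d : ℕ, p ∈ P → (p : ℤ) ^ d ∣ z ∧ g.natDegree < 8 * r * d := by
    intro p
    by_cases hp : p ∈ P
    · obtain ⟨_, hpp, hbadp⟩ := hPmem p hp
      have : Fact p.Prime := ⟨hpp⟩
      by_contra hno
      apply hbadp
      refine goodPrime_of g hg hirr hsp x hx p (fun G hG1 hG2 => ?_)
      by_contra h3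
      push Not at h3
      exact hno ⟨G.natDegree, fun _ => ⟨hzd p G hG1 hG2, h3⟩⟩
    · exact ⟨0, fun h => absurd h hp⟩
  choose d hd using hex
  exact gs_bound r J Y g.natDegree hr hn hdeg hYb z hz0 hzle' P hPc (fun p hp => (hPmem p hp).2.1)
    (fun p hp => (hPmem p hp).1) d (fun p hp => (hd p hp).1) (fun p hp => (hd p hp).2)

end Pool.Agent.Lib.MP_7ab245_nt.Solv
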