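import Pool.Agent.Lib.MP_7ab245_nt.Solv.NormInt

set_option autoImplicit false

/-! # Module SV-HtOf (1.0 h). Uses NormInt.
`unit_of_coeff`: a root `x` of the monic `g` with `|g(0)| = 1` is integral, nonzero and `x⁻¹` is integral:
`x (x^{n-1} + … + a_1) = -a_0 = ∓1`.
`prod_max_pow`: `(∏_σ max 1 ‖ι σ x‖)^n = M(g)^{|G|}`, `n = deg g`: the `|G|` elements `ι (σ x)` run through
the `n` complex roots of `g`, each `|G|/n` times (`G` is transitive on the roots in `Ω`; fibres of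
`σ ↦ σ x` are cosets of the stabiliser; `g` splits in `Ω`, `ι` maps the roots in `Ω` bijectively to the
roots in `ℂ`), and `M(g) = ∏ max 1 ‖z‖` over the complex roots (`mahlerMeasure_eq_leadingCoeff_mul_prod_roots`).
(There is `card_orbit_eq` in module GoodOf, if you want to use the same counting; here it is easiest to
prove: for every root `y` in `Ω`, `n · #{σ : σ x = y} = |G|`.)
`ht_ok`: `∏_σ ‖ι σ x‖ = |N(x)| = 1` for a unit, so `∏_σ max 1 ‖ι σ x‖⁻¹ = ∏_σ max 1 ‖ι σ x‖ / ‖ι σ x‖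
= ∏_σ max 1 ‖ι σ x‖`.  Hence `(∏_σ wt^X)^n = M(g)^{2 r X |G|} ≤ 2^{2rX|G|} ≤ 2^{n|G|}` if `2rX ≤ n`; take
`n`-th roots (`pow_le_pow_iff_left₀`). -/

namespace Pool.Agent.Lib.MP_7ab245_nt.Solv

open Polynomial

theorem unit_of_coeff {Ω : Type*} [Field Ω] [CharZero Ω] (g : ℤ[X]) (hg : g.Monic)
    (hd : 1 ≤ g.natDegree) (h0 : |g.coeff 0| = 1) (x : Ω) (hx : aeval x g = 0) :
    x ≠ 0 ∧ IsIntegral ℤ x ∧ IsIntegral ℤ x⁻¹ := by
  have hint : IsIntegral ℤ x := ⟨g, hg, hx⟩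
  have hsq : g.coeff 0 * g.coeff 0 = 1 := by
    rw [← abs_mul_abs_self, h0, one_mul]
  have h1 : aeval x g.divX * x + (g.coeff 0 : Ω) = 0 := by
    have h2 := congrArg (aeval x) (divX_mul_X_add g)
    rw [map_add, map_mul, aeval_X, aeval_C, hx] at h2
    simpa using h2
  have hsqΩ : (g.coeff 0 : Ω) * (g.coeff 0 : Ω) = 1 := by exact_mod_cast congrArg (Int.cast (R := Ω)) hsq
  have hx0 : x ≠ 0 := by
    intro h
    rw [h, mul_zero, zero_add] at h1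
    rw [h1, mul_zero] at hsqΩ
    exact zero_ne_one hsqΩ
  refine ⟨hx0, hint, ?_⟩
  have h3 : x⁻¹ = -((g.coeff 0 : Ω)) * aeval x g.divX := by
    rw [inv_eq_iff_eq_inv, eq_comm]
    rw [inv_eq_of_mul_eq_one_left]
    linear_combination (-(g.coeff 0 : Ω)) * h1 + hsqΩ
  rw [h3]
  have h4 : IsIntegral ℤ (aeval x g.divX) := by
    have h5 : aeval x g.divX = ((aeval (⟨x, hint⟩ : integralClosure ℤ Ω) g.divX :
        integralClosure ℤ Ω) : Ω) := by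
      rw [← Subalgebra.aeval_coe]
    rw [h5]
    exact (aeval (⟨x, hint⟩ : integralClosure ℤ Ω) g.divX).2
  have h6 : IsIntegral ℤ (-(g.coeff 0 : Ω)) := by
    have h7 : (-(g.coeff 0 : Ω)) = algebraMap ℤ Ω (-(g.coeff 0)) := by simp
    rw [h7]
    exact isIntegral_algebraMap
  exact h6.mul h4

private theorem htOf_prod {Ω : Type*} [Field Ω] [NumberField Ω] [IsGalois ℚ Ω]
    (g : ℤ[X]) (hg : g.Monic) (hirr : Irreducible g) (hsp : (g.map (algebraMap ℤ Ω)).Splits)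
    (x : Ω) (hx : aeval x g = 0) :
    ∃ c : ℕ, c * g.natDegree = Fintype.card (Ω ≃ₐ[ℚ] Ω) ∧ ∀ F : Ω → ℝ,
      ∏ σ : Ω ≃ₐ[ℚ] Ω, F (σ x) = (((g.map (algebraMap ℤ Ω)).roots.map F).prod) ^ c := by
  classical
  -- the rational polynomial
  set gQ : ℚ[X] := g.map (Int.castRingHom ℚ) with hgQ
  have hirrQ : Irreducible gQ :=
    (Polynomial.IsPrimitive.Int.irreducible_iff_irreducible_map_cast hg.isPrimitive).1 hirr
  have hmQ : gQ.Monic := hg.map _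
  have hmapQ : gQ.map (algebraMap ℚ Ω) = g.map (algebraMap ℤ Ω) := by
    rw [hgQ, Polynomial.map_map]
    congr 1
    exact RingHom.ext_int _ _
  have haevalQ : ∀ y : Ω, aeval y gQ = aeval y g := by
    intro y
    rw [aeval_def, aeval_def, ← eval_map, ← eval_map, hmapQ]
  have hsep : (g.map (algebraMap ℤ Ω)).Separable := by
    rw [← hmapQ]
    exact hirrQ.separable.map
  have hnd : (g.map (algebraMap ℤ Ω)).roots.Nodup := nodup_roots hsep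
  set R : Finset Ω := (g.map (algebraMap ℤ Ω)).roots.toFinset with hR
  have hmemR : ∀ y, y ∈ R ↔ aeval y g = 0 := by
    intro y
    rw [hR, Multiset.mem_toFinset, mem_roots (hg.map _).ne_zero, IsRoot.def, eval_map,
      ← aeval_def]
  have hcardR : R.card = g.natDegree := by
    rw [hR, Multiset.toFinset_card_of_nodup hnd, ← hsp.natDegree_eq_card_roots,
      hg.natDegree_map]
  have hmaps : ∀ σ ∈ (Finset.univ : Finset (Ω ≃ₐ[ℚ] Ω)), σ x ∈ R := by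
    intro σ _
    rw [hmemR, ← haevalQ]
    have h1 : aeval (σ x) gQ = σ (aeval x gQ) := aeval_algHom_apply σ.toAlgHom x gQ
    rw [h1, haevalQ, hx, map_zero]
  set c : ℕ := (Finset.univ.filter fun σ : Ω ≃ₐ[ℚ] Ω => σ x = x).card with hc
  have hfib : ∀ y ∈ R, (Finset.univ.filter fun σ : Ω ≃ₐ[ℚ] Ω => σ x = y).card = c := by
    intro y hy
    rw [hmemR] at hy
    have hmin : minpoly ℚ y = minpoly ℚ x := by
      rw [← minpoly.eq_of_irreducible_of_monic hirrQ (by rw [haevalQ, hy]) hmQ,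
        ← minpoly.eq_of_irreducible_of_monic hirrQ (by rw [haevalQ, hx]) hmQ]
    obtain ⟨τ, hτ⟩ := (Normal.minpoly_eq_iff_mem_orbit Ω).1 hmin
    have hτ' : τ x = y := hτ
    rw [hc]
    refine Finset.card_bij (fun σ _ => τ⁻¹ * σ) ?_ ?_ ?_
    · intro σ hσ
      rw [Finset.mem_filter] at hσ ⊢
      refine ⟨Finset.mem_univ _, ?_⟩
      show τ⁻¹ (σ x) = x
      rw [hσ.2, ← hτ']
      show (τ⁻¹ * τ) x = x
      rw [inv_mul_cancel]
      rfl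
    · intro σ _ σ' _ h
      exact mul_left_cancel h
    · intro σ hσ
      rw [Finset.mem_filter] at hσ
      refine ⟨τ * σ, ?_, by rw [inv_mul_cancel_left]⟩
      rw [Finset.mem_filter]
      refine ⟨Finset.mem_univ _, ?_⟩
      show τ (σ x) = y
      rw [hσ.2, hτ']
  refine ⟨c, ?_, fun F => ?_⟩
  · have h1 := Finset.card_eq_sum_card_fiberwise hmaps
    rw [Finset.sum_congr rfl hfib, Finset.sum_const, hcardR, Finset.card_univ, smul_eq_mul] at h1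
    rw [h1, mul_comm]
  · rw [← Finset.prod_fiberwise_of_maps_to hmaps]
    have h1 : ∀ y ∈ R, ∏ σ ∈ Finset.univ.filter (fun σ : Ω ≃ₐ[ℚ] Ω => σ x = y), F (σ x)
        = F y ^ c := by
      intro y hy
      rw [Finset.prod_congr rfl (g := fun _ => F y) (fun σ hσ => by
        rw [(Finset.mem_filter.1 hσ).2]), Finset.prod_const, hfib y hy]
    rw [Finset.prod_congr rfl h1, Finset.prod_pow]
    congr 1
    rw [Finset.prod_eq_multiset_prod, hR, Multiset.toFinset_val,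
      Multiset.dedup_eq_self.2 hnd]

theorem prod_max_pow {Ω : Type*} [Field Ω] [NumberField Ω] [IsGalois ℚ Ω] (ι : Ω →+* ℂ)
    (g : ℤ[X]) (hg : g.Monic) (hirr : Irreducible g) (hsp : (g.map (algebraMap ℤ Ω)).Splits)
    (x : Ω) (hx : aeval x g = 0) :
    (∏ σ : Ω ≃ₐ[ℚ] Ω, max 1 ‖ι (σ x)‖) ^ g.natDegree =
      (g.map (Int.castRingHom ℂ)).mahlerMeasure ^ Fintype.card (Ω ≃ₐ[ℚ] Ω) := by
  obtain ⟨c, hc, hF⟩ := htOf_prod g hg hirr hsp x hx
  rw [hF (fun y => max 1 ‖ι y‖), ← pow_mul, hc]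
  congr 1
  rw [mahlerMeasure_eq_leadingCoeff_mul_prod_roots]
  have h1 : g.map (Int.castRingHom ℂ) = (g.map (algebraMap ℤ Ω)).map ι := by
    rw [Polynomial.map_map]
    congr 1
    exact RingHom.ext_int _ _
  have h2 : (g.map (Int.castRingHom ℂ)).leadingCoeff = 1 := hg.map _
  rw [h2, norm_one, one_mul, h1, hsp.roots_map ι, Multiset.map_map]
  rfl

private theorem htOf_norm {Ω : Type*} [Field Ω] [NumberField Ω] [IsGalois ℚ Ω] (ι : Ω →+* ℂ)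
    (y : Ω) (hy0 : y ≠ 0) (hy : IsIntegral ℤ y) (hy' : IsIntegral ℤ y⁻¹) :
    ∏ σ : Ω ≃ₐ[ℚ] Ω, ‖ι (σ y)‖ = 1 := by
  obtain ⟨N, hN, -⟩ := exists_norm y hy
  obtain ⟨N', hN', -⟩ := exists_norm y⁻¹ hy'
  rw [norm_eq_prod ι y N hN]
  have h1 : (N : Ω) * (N' : Ω) = 1 := by
    rw [← hN, ← hN', ← Finset.prod_mul_distrib]
    apply Finset.prod_eq_one
    intro σ _
    rw [← map_mul, mul_inv_cancel₀ hy0, map_one]
  have h2 : N * N' = 1 := by exact_mod_cast h1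
  have h3 : IsUnit N := IsUnit.of_mul_eq_one N' h2
  have h4 : |N| = 1 := Int.isUnit_iff_abs_eq.1 h3
  exact_mod_cast h4

private theorem htOf_inv {Ω : Type*} [Field Ω] [NumberField Ω] [IsGalois ℚ Ω] (ι : Ω →+* ℂ)
    (y : Ω) (hy0 : y ≠ 0) (hy : IsIntegral ℤ y) (hy' : IsIntegral ℤ y⁻¹) :
    ∏ σ : Ω ≃ₐ[ℚ] Ω, max 1 ‖ι (σ y)‖⁻¹ = ∏ σ : Ω ≃ₐ[ℚ] Ω, max 1 ‖ι (σ y)‖ := by
  have h1 : ∀ σ : Ω ≃ₐ[ℚ] Ω, max 1 ‖ι (σ y)‖ = ‖ι (σ y)‖ * max 1 ‖ι (σ y)‖⁻¹ := by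
    intro σ
    have h2 : 0 < ‖ι (σ y)‖ := by
      rw [norm_pos_iff]
      intro h
      rw [map_eq_zero] at h
      exact hy0 ((map_eq_zero σ).1 h)
    rw [mul_max_of_nonneg _ _ h2.le, mul_one, mul_inv_cancel₀ h2.ne', max_comm]
  rw [Finset.prod_congr rfl fun σ _ => h1 σ, Finset.prod_mul_distrib,
    htOf_norm ι y hy0 hy hy', one_mul]

theorem ht_ok {Ω : Type*} [Field Ω] [NumberField Ω] [IsGalois ℚ Ω] (ι : Ω →+* ℂ) {r : ℕ}
    (g : ℤ[X]) (hg : g.Monic) (hirr : Irreducible g) (hd : 1 ≤ g.natDegree)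
    (h0 : |g.coeff 0| = 1)
    (hM : (g.map (Int.castRingHom ℂ)).mahlerMeasure ≤ 2)
    (hsp : (g.map (algebraMap ℤ Ω)).Splits) (x : Fin r → Ω) (hx : ∀ i, aeval (x i) g = 0)
    (X : ℕ) (hX : 2 * r * X ≤ g.natDegree) : HtOK ι x X := by
  unfold HtOK
  set n := g.natDegree with hn
  set c := Fintype.card (Ω ≃ₐ[ℚ] Ω) with hc
  have hA : ∀ i, (∏ σ : Ω ≃ₐ[ℚ] Ω, max 1 ‖ι (σ (x i))‖) ^ n ≤ (2 : ℝ) ^ c := by
    intro i
    rw [hn, prod_max_pow ι g hg hirr hsp (x i) (hx i)]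
    exact pow_le_pow_left₀ (mahlerMeasure_nonneg _) hM _
  have hA0 : ∀ i, 0 ≤ ∏ σ : Ω ≃ₐ[ℚ] Ω, max 1 ‖ι (σ (x i))‖ := fun i =>
    Finset.prod_nonneg fun σ _ => le_trans zero_le_one (le_max_left _ _)
  have h1 : ∏ σ : Ω ≃ₐ[ℚ] Ω, wt ι x σ ^ X =
      (∏ i, (∏ σ : Ω ≃ₐ[ℚ] Ω, max 1 ‖ι (σ (x i))‖)) ^ (2 * X) := by
    rw [Finset.prod_pow]
    unfold wt
    rw [Finset.prod_comm, pow_mul]
    congr 1
    rw [← Finset.prod_pow]
    refine Finset.prod_congr rfl fun i _ => ?_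
    obtain ⟨h2, h3, h4⟩ := unit_of_coeff g hg hd h0 (x i) (hx i)
    rw [Finset.prod_mul_distrib, htOf_inv ι (x i) h2 h3 h4, sq]
  have h5 : (∏ σ : Ω ≃ₐ[ℚ] Ω, wt ι x σ ^ X) ^ n ≤ ((2 : ℝ) ^ c) ^ n := by
    rw [h1]
    calc ((∏ i, (∏ σ : Ω ≃ₐ[ℚ] Ω, max 1 ‖ι (σ (x i))‖)) ^ (2 * X)) ^ n
        = (∏ i, (∏ σ : Ω ≃ₐ[ℚ] Ω, max 1 ‖ι (σ (x i))‖) ^ n) ^ (2 * X) := by
          rw [Finset.prod_pow, ← pow_mul, ← pow_mul, mul_comm]
      _ ≤ (∏ _i : Fin r, (2 : ℝ) ^ c) ^ (2 * X) := by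
          apply pow_le_pow_left₀ (Finset.prod_nonneg fun i _ => pow_nonneg (hA0 i) _)
          exact Finset.prod_le_prod (fun i _ => pow_nonneg (hA0 i) _) fun i _ => hA i
      _ = ((2 : ℝ) ^ c) ^ (2 * r * X) := by
          rw [Finset.prod_const, Finset.card_univ, Fintype.card_fin, ← pow_mul]
          congr 1
          ring
      _ ≤ ((2 : ℝ) ^ c) ^ n :=
          pow_le_pow_right₀ (one_le_pow₀ (by norm_num)) hX
  exact (pow_le_pow_iff_left₀ (by rw [h1]; exact pow_nonneg (Finset.prod_nonneg fun i _ => hA0 i) _)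
    (by positivity) (by omega)).1 h5

end Pool.Agent.Lib.MP_7ab245_nt.Solv
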