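import Pool.Agent.Lib.MP_7ab245_nt.Solv.Defs

set_option autoImplicit false

/-! # Module SV-ChooseSums (0.8 h). Only Mathlib.
`choose_poly`: for `b : ℕ` there is `Q : ℚ[X]` of degree `≤ b` with
`(Nat.choose k b : ℚ) = Q.eval k` (descending Pochhammer: `descPochhammer ℚ b`, divided by `b!`,
`Nat.descFactorial_eq_factorial_mul_choose`, `descPochhammer_eval_eq_descFactorial`).
`choose_sums`: substitute `k = m (a_i + N)` (a natural number for `a ∈ box r N`):
`a_i ↦ choose (m (a_i + N)) (b_i)` is a polynomial in `a_i` of degree `≤ b_i` with rational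
coefficients `q_{i,j}`; expand the product over `i` (`Finset.prod_univ_sum`):
`∏ choose = ∑_{j ≤ b} (∏ q_{i,j_i}) ∏ a_i^{j_i}`, and `∑ j_i ≤ ∑ b_i < T`, so the sum over `a ∈ A`
vanishes by `h`. -/

namespace Pool.Agent.Lib.MP_7ab245_nt.Solv

open Module Polynomial

theorem choose_poly (b : ℕ) : ∃ Q : ℚ[X], Q.natDegree ≤ b ∧
    ∀ k : ℕ, ((Nat.choose k b : ℕ) : ℚ) = Q.eval (k : ℚ) := by
  refine ⟨C ((b.factorial : ℚ)⁻¹) * descPochhammer ℚ b, ?_, ?_⟩
  · refine (natDegree_C_mul_le _ _).trans ?_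
    exact (descPochhammer_natDegree ℚ b).le
  · intro k
    rw [eval_mul, eval_C, descPochhammer_eval_eq_descFactorial,
      Nat.descFactorial_eq_factorial_mul_choose]
    have h : (b.factorial : ℚ) ≠ 0 := by exact_mod_cast b.factorial_ne_zero
    push_cast
    field_simp

private theorem cs_one (m N b : ℕ) : ∃ q : ℕ → ℚ, ∀ a : ℤ, -(N : ℤ) ≤ a →
    ((Nat.choose (m * (a + N).toNat) b : ℕ) : ℚ) = ∑ j ∈ Finset.range (b + 1), q j * (a : ℚ) ^ j := by
  obtain ⟨Q, hQ1, hQ2⟩ := choose_poly b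
  let R : ℚ[X] := Q.comp (C (m : ℚ) * (X + C (N : ℚ)))
  have hR : R.natDegree ≤ b := by
    refine natDegree_comp_le.trans ?_
    have h1 : (C (m : ℚ) * (X + C (N : ℚ))).natDegree ≤ 1 := by
      refine (natDegree_C_mul_le _ _).trans ?_
      rw [natDegree_X_add_C]
    calc Q.natDegree * (C (m : ℚ) * (X + C (N : ℚ))).natDegree ≤ b * 1 :=
          Nat.mul_le_mul hQ1 h1
      _ = b := mul_one b
  refine ⟨fun j => R.coeff j, fun a ha => ?_⟩
  have h1 : (((m * (a + N).toNat : ℕ)) : ℚ) = (m : ℚ) * ((a : ℚ) + (N : ℚ)) := by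
    have h2 : (((a + N).toNat : ℕ) : ℤ) = a + N := Int.toNat_of_nonneg (by omega)
    have h3 : (((a + N).toNat : ℕ) : ℚ) = (a : ℚ) + N := by
      have := congrArg (fun t : ℤ => (t : ℚ)) h2
      push_cast at this
      exact this
    push_cast
    rw [h3]
  rw [hQ2, h1]
  have h4 : R.eval (a : ℚ) = Q.eval ((m : ℚ) * ((a : ℚ) + (N : ℚ))) := by
    simp only [R, eval_comp, eval_mul, eval_C, eval_add, eval_X]
  rw [← h4, eval_eq_sum_range' (Nat.lt_succ_of_le hR)]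

theorem choose_sums {Ω : Type*} [Field Ω] [CharZero Ω] {r : ℕ} (A : Finset (Fin r → ℤ))
    (c : (Fin r → ℤ) → ℤ) (z : (Fin r → ℤ) → Ω) (m N T : ℕ) (hA : A ⊆ box r N)
    (h : ∀ b : Fin r → ℕ, ∑ i, b i < T →
      ∑ a ∈ A, (c a : Ω) * (∏ i, ((a i : ℤ) : Ω) ^ b i) * z a = 0)
    (b : Fin r → ℕ) (hb : ∑ i, b i < T) :
    ∑ a ∈ A, (c a : Ω) * (∏ i, ((Nat.choose (m * (a i + N).toNat) (b i) : ℕ) : Ω)) * z a = 0 := by
  classical
  choose q hq using fun i : Fin r => cs_one m N (b i)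
  have h1 : ∀ a ∈ A, (∏ i, ((Nat.choose (m * (a i + N).toNat) (b i) : ℕ) : Ω)) =
      ∑ j ∈ Fintype.piFinset (fun i => Finset.range (b i + 1)),
        ∏ i, ((q i (j i) : ℚ) : Ω) * ((a i : ℤ) : Ω) ^ (j i) := by
    intro a ha
    have h2 : ∀ i, ((Nat.choose (m * (a i + N).toNat) (b i) : ℕ) : Ω) =
        ∑ j ∈ Finset.range (b i + 1), ((q i j : ℚ) : Ω) * ((a i : ℤ) : Ω) ^ j := by
      intro i
      have hbox := hA ha
      unfold box at hbox
      rw [Fintype.mem_piFinset] at hbox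
      have h3 := hq i (a i) (Finset.mem_Icc.1 (hbox i)).1
      have h4 := congrArg (fun t : ℚ => (t : Ω)) h3
      push_cast at h4
      exact h4
    rw [Finset.prod_congr rfl (fun i _ => h2 i), Finset.prod_univ_sum]
  have h5 : ∑ a ∈ A, (c a : Ω) * (∏ i, ((Nat.choose (m * (a i + N).toNat) (b i) : ℕ) : Ω)) * z a =
      ∑ j ∈ Fintype.piFinset (fun i => Finset.range (b i + 1)), (∏ i, ((q i (j i) : ℚ) : Ω)) *
        ∑ a ∈ A, (c a : Ω) * (∏ i, ((a i : ℤ) : Ω) ^ j i) * z a := by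
    have h6 : ∀ a ∈ A, (c a : Ω) * (∏ i, ((Nat.choose (m * (a i + N).toNat) (b i) : ℕ) : Ω)) * z a =
        ∑ j ∈ Fintype.piFinset (fun i => Finset.range (b i + 1)),
          (∏ i, ((q i (j i) : ℚ) : Ω)) * ((c a : Ω) * (∏ i, ((a i : ℤ) : Ω) ^ j i) * z a) := by
      intro a ha
      rw [h1 a ha, Finset.mul_sum, Finset.sum_mul]
      refine Finset.sum_congr rfl fun j _ => ?_
      rw [Finset.prod_mul_distrib]
      ring
    rw [Finset.sum_congr rfl h6, Finset.sum_comm]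
    refine Finset.sum_congr rfl fun j _ => ?_
    rw [Finset.mul_sum]
  rw [h5]
  refine Finset.sum_eq_zero fun j hj => ?_
  rw [h j, mul_zero]
  rw [Fintype.mem_piFinset] at hj
  refine lt_of_le_of_lt (Finset.sum_le_sum fun i _ => ?_) hb
  have := Finset.mem_range.1 (hj i)
  omega

end Pool.Agent.Lib.MP_7ab245_nt.Solv
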