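import Mathlib

set_option autoImplicit false

/-! # Module SV-Taylor (0.8 h). Only Mathlib.
`taylor_val`.  Write `y_i = x_i + z_i`, `v (z_i) ≤ π`.  For every `a`
`∏_i y_i^{e a i} = ∏_i ∑_{b_i ≤ D} choose (e a i) b_i x_i^{e a i} x_i^{-b_i} z_i^{b_i}` where `D` is any bound
`≥ e a i` (for `b_i > e a i` the binomial coefficient is `0`; `x_i ≠ 0` as `v (x_i) = 1`):
`add_pow`.  Expand (`Finset.prod_univ_sum`) and sum over `a ∈ A`, exchanging the sums:
`∑_a c_a ∏ y_i^{e a i} = ∑_{b ∈ [0,D]^r} (∏_i x_i^{-b_i} z_i^{b_i}) · S_b`, with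
`S_b = ∑_a c_a ∏ choose (e a i) (b i) ∏ x_i^{e a i}`.  `S_b = 0` for `∑ b < T` by `h`; otherwise
`v (S_b) ≤ 1` (integers have `v ≤ 1`, `v (x_i) = 1`) and `v (∏ x_i^{-b_i} z_i^{b_i}) ≤ π^{∑ b} ≤ π^T`.
`Valuation.map_sum_le`. -/

namespace Pool.Agent.Lib.MP_7ab245_nt.Solv

private theorem nat_le {Ω Γ₀ : Type*} [Field Ω] [LinearOrderedCommGroupWithZero Γ₀]
    (v : Valuation Ω Γ₀) (n : ℕ) : v (n : Ω) ≤ 1 := by
  induction n with
  | zero => simp
  | succ n ih =>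
    rw [Nat.cast_succ]
    exact (v.map_add _ _).trans (max_le ih v.map_one.le)

private theorem int_le {Ω Γ₀ : Type*} [Field Ω] [LinearOrderedCommGroupWithZero Γ₀]
    (v : Valuation Ω Γ₀) (n : ℤ) : v (n : Ω) ≤ 1 := by
  obtain ⟨m, rfl | rfl⟩ := n.eq_nat_or_neg
  · rw [Int.cast_natCast]; exact nat_le v m
  · rw [Int.cast_neg, Int.cast_natCast, Valuation.map_neg]; exact nat_le v m

private theorem expand {Ω : Type*} [Field Ω] (x y : Ω) (hx : x ≠ 0) {e D : ℕ} (he : e ≤ D) :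
    y ^ e = ∑ b ∈ Finset.range (D + 1),
      ((Nat.choose e b : ℕ) : Ω) * x ^ e * (x⁻¹ * (y - x)) ^ b := by
  have h1 : y = x * (x⁻¹ * (y - x)) + x := by
    rw [mul_inv_cancel_left₀ hx]; ring
  have h2 : ∑ b ∈ Finset.range (D + 1), ((Nat.choose e b : ℕ) : Ω) * x ^ e * (x⁻¹ * (y - x)) ^ b =
      ∑ b ∈ Finset.range (e + 1), ((Nat.choose e b : ℕ) : Ω) * x ^ e * (x⁻¹ * (y - x)) ^ b := by
    symm
    apply Finset.sum_subset
    · intro b hb
      rw [Finset.mem_range] at hb ⊢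
      omega
    · intro b _ hb
      rw [Finset.mem_range] at hb
      rw [Nat.choose_eq_zero_of_lt (by omega)]
      simp
  rw [h2]
  conv_lhs => rw [h1, add_pow]
  refine Finset.sum_congr rfl fun b hb => ?_
  rw [Finset.mem_range] at hb
  have h3 : x ^ e = x ^ b * x ^ (e - b) := by rw [← pow_add]; congr 1; omega
  rw [mul_pow, h3]
  ring

theorem taylor_val {Ω Γ₀ : Type*} [Field Ω] [LinearOrderedCommGroupWithZero Γ₀]
    (v : Valuation Ω Γ₀) {r : ℕ} (π : Γ₀) (hπ : π ≤ 1) (T : ℕ) {I : Type*} (A : Finset I)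
    (c : I → ℤ) (e : I → Fin r → ℕ) (x y : Fin r → Ω) (hx : ∀ i, v (x i) = 1)
    (hxy : ∀ i, v (y i - x i) ≤ π)
    (h : ∀ b : Fin r → ℕ, ∑ i, b i < T →
      ∑ a ∈ A, (c a : Ω) * (∏ i, ((Nat.choose (e a i) (b i) : ℕ) : Ω)) * ∏ i, x i ^ e a i = 0) :
    v (∑ a ∈ A, (c a : Ω) * ∏ i, y i ^ e a i) ≤ π ^ T := by
  classical
  have hx0 : ∀ i, x i ≠ 0 := fun i h0 => by
    have := hx i
    rw [h0, map_zero] at this
    exact zero_ne_one this
  set w : Fin r → Ω := fun i => (x i)⁻¹ * (y i - x i) with hw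
  have hvw : ∀ i, v (w i) ≤ π := by
    intro i
    rw [hw]
    dsimp only
    rw [map_mul, map_inv₀, hx, inv_one, one_mul]
    exact hxy i
  set D : ℕ := ∑ a ∈ A, ∑ i, e a i with hD
  have hDle : ∀ a ∈ A, ∀ i, e a i ≤ D := by
    intro a ha i
    calc e a i ≤ ∑ i, e a i := Finset.single_le_sum (fun _ _ => Nat.zero_le _) (Finset.mem_univ i)
      _ ≤ D := Finset.single_le_sum (f := fun a => ∑ i, e a i) (fun _ _ => Nat.zero_le _) ha
  have h1 : ∀ a ∈ A, (c a : Ω) * ∏ i, y i ^ e a i =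
      ∑ b ∈ Fintype.piFinset fun _ : Fin r => Finset.range (D + 1),
        (∏ i, w i ^ b i) *
          ((c a : Ω) * (∏ i, ((Nat.choose (e a i) (b i) : ℕ) : Ω)) * ∏ i, x i ^ e a i) := by
    intro a ha
    have h2 : ∏ i, y i ^ e a i = ∏ i, ∑ b ∈ Finset.range (D + 1),
        ((Nat.choose (e a i) b : ℕ) : Ω) * x i ^ e a i * w i ^ b :=
      Finset.prod_congr rfl fun i _ => expand (x i) (y i) (hx0 i) (hDle a ha i)
    rw [h2, Finset.prod_univ_sum, Finset.mul_sum]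
    refine Finset.sum_congr rfl fun b _ => ?_
    rw [Finset.prod_mul_distrib, Finset.prod_mul_distrib]
    ring
  rw [Finset.sum_congr rfl h1, Finset.sum_comm]
  refine Valuation.map_sum_le _ fun b _ => ?_
  rw [← Finset.mul_sum]
  by_cases hb : ∑ i, b i < T
  · rw [h b hb, mul_zero, map_zero]
    exact zero_le
  · push Not at hb
    have h3 : v (∏ i, w i ^ b i) ≤ π ^ T := by
      rw [map_prod]
      calc ∏ i, v (w i ^ b i) ≤ ∏ i, π ^ b i := by
            refine Finset.prod_le_prod' fun i _ => ?_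
            rw [map_pow]
            exact pow_le_pow_left' (hvw i) _
        _ = π ^ ∑ i, b i := Finset.prod_pow_eq_pow_sum _ _ _
        _ ≤ π ^ T := pow_le_pow_right_of_le_one' hπ hb
    have h4 : v (∑ a ∈ A, (c a : Ω) * (∏ i, ((Nat.choose (e a i) (b i) : ℕ) : Ω)) *
        ∏ i, x i ^ e a i) ≤ 1 := by
      refine Valuation.map_sum_le _ fun a _ => ?_
      rw [map_mul, map_mul, map_prod, map_prod]
      have h5 : ∏ i, v (x i ^ e a i) = 1 := by
        refine Finset.prod_eq_one fun i _ => ?_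
        rw [map_pow, hx, one_pow]
      have h6 : ∏ i, v ((Nat.choose (e a i) (b i) : ℕ) : Ω) ≤ 1 :=
        Finset.prod_le_one' fun i _ => nat_le v _
      rw [h5, mul_one]
      exact mul_le_one' (int_le v _) h6
    rw [map_mul]
    calc v (∏ i, w i ^ b i) * v _ ≤ π ^ T * 1 := mul_le_mul' h3 h4
      _ = π ^ T := mul_one _

end Pool.Agent.Lib.MP_7ab245_nt.Solv
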