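import Mathlib

set_option autoImplicit false

/-! # Module SV-ValInt (0.4 h). Only Mathlib.
`val_int_dvd`.  `v` is a valuation on `Ω` (char 0), `≤ 1` on `ℤ` (automatic), `v p < 1`.  For an integer
`u` prime to `p`: `a u + b p = 1`, so `v (a u) = 1` (else `v 1 < 1`), hence `v u = 1`.  Write
`N = p^j u` with `u` prime to `p` (`N ≠ 0`): `v N = (v p)^j`; `v p ≠ 0` (`p ≠ 0` in `Ω`).  If
`v N ≤ (v p)^k` then `j ≥ k` (`pow_le_pow_iff_right_of_lt_one₀`), so `p^k ∣ N`.  `N = 0` is trivial. -/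

namespace Pool.Agent.Lib.MP_7ab245_nt.Solv

private theorem nat_le {Ω Γ₀ : Type*} [Field Ω] [LinearOrderedCommGroupWithZero Γ₀]
    (v : Valuation Ω Γ₀) (n : ℕ) : v (n : Ω) ≤ 1 := by
  induction n with
  | zero => simp
  | succ n ih =>
    rw [Nat.cast_succ]
    exact (v.map_add _ _).trans (max_le ih v.map_one.le)

private theorem int_le {Ω Γ₀ : Type*} [Field Ω] [LinearOrderedCommGroupWithZero Γ₀]
    (v : Valuation Ω Γ₀) (n : ℤ) : v (n : Ω) ≤ 1 := by
  obtain ⟨m, rfl | rfl⟩ := n.eq_nat_or_neg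
  · rw [Int.cast_natCast]; exact nat_le v m
  · rw [Int.cast_neg, Int.cast_natCast, Valuation.map_neg]; exact nat_le v m

theorem val_int_dvd {Ω Γ₀ : Type*} [Field Ω] [CharZero Ω] [LinearOrderedCommGroupWithZero Γ₀]
    (v : Valuation Ω Γ₀) (p : ℕ) (hp : p.Prime) (hv : v (p : Ω) < 1) (N : ℤ) (k : ℕ)
    (h : v (N : Ω) ≤ v (p : Ω) ^ k) : (p : ℤ) ^ k ∣ N := by
  by_cases hN : N = 0
  · rw [hN]; exact dvd_zero _
  have hfin : FiniteMultiplicity (p : ℤ) N := by
    rw [Int.finiteMultiplicity_iff]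
    exact ⟨by rw [Int.natAbs_natCast]; exact hp.one_lt.ne', hN⟩
  obtain ⟨u, hu, hpu⟩ := hfin.exists_eq_pow_mul_and_not_dvd
  set j := multiplicity (p : ℤ) N with hj
  have hcop : IsCoprime u (p : ℤ) := by
    rw [isCoprime_comm, Int.isCoprime_iff_gcd_eq_one, Int.gcd_eq_natAbs, Int.natAbs_natCast]
    exact (Nat.Prime.coprime_iff_not_dvd hp).mpr fun h1 => hpu (Int.natCast_dvd.mpr h1)
  have hvu : v (u : Ω) = 1 := by
    obtain ⟨a, b, hab⟩ := hcop
    have h1 : (a : Ω) * u + b * p = 1 := by exact_mod_cast congrArg (fun z : ℤ => (z : Ω)) hab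
    have h2 : v ((b : Ω) * p) < 1 := by
      rw [map_mul]
      calc v (b : Ω) * v (p : Ω) ≤ 1 * v (p : Ω) := mul_le_mul_left (int_le v b) _
        _ = v (p : Ω) := one_mul _
        _ < 1 := hv
    have h3 : 1 ≤ v ((a : Ω) * u) := by
      by_contra h4
      push Not at h4
      have h5 := (v.map_add ((a : Ω) * u) (b * p)).trans_lt (max_lt h4 h2)
      rw [h1, map_one] at h5
      exact lt_irrefl _ h5
    rw [map_mul] at h3
    refine le_antisymm (int_le v u) ?_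
    calc (1 : Γ₀) ≤ v (a : Ω) * v (u : Ω) := h3
      _ ≤ 1 * v (u : Ω) := mul_le_mul_left (int_le v a) _
      _ = v (u : Ω) := one_mul _
  have hvN : v (N : Ω) = v (p : Ω) ^ j := by
    rw [hu]
    push_cast
    rw [map_mul, map_pow, hvu, mul_one]
  rw [hvN] at h
  have hvp : 0 < v (p : Ω) := by
    rw [zero_lt_iff, Valuation.ne_zero_iff]
    exact_mod_cast hp.ne_zero
  have hkj : k ≤ j := (pow_le_pow_iff_right_of_lt_one₀ hvp hv).mp h
  rw [hu]
  exact Dvd.dvd.mul_right (pow_dvd_pow _ hkj) _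

end Pool.Agent.Lib.MP_7ab245_nt.Solv
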