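import Pool.Agent.Lib.MP_7ab245_nt.Solv.NormInt
import Pool.Agent.Lib.MP_7ab245_nt.Solv.ChooseSums
import Pool.Agent.Lib.MP_7ab245_nt.Solv.Taylor
import Pool.Agent.Lib.MP_7ab245_nt.Solv.ValInt

set_option autoImplicit false

/-! # Module SV-Extrap (1.2 h). Uses NormInt, ChooseSums, Taylor, ValInt, Ball.
`conj_val`.  `y = ∑_{a ∈ A} c_a P^{mpa}`.  Let `τ, σ ∈ G` with `v ((τ α_i)^p - σ α_i) ≤ v p` for all `i`.
`v (σ α_i) = 1` and `v (τ α_i) = 1` (`α_i` and `α_i⁻¹` integral, so are their conjugates).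
`e a i = m (a_i + N) ∈ ℕ`.  Apply `taylor_val` with `π = v p`, `x_i = σ α_i`, `y_i = (τ α_i)^p`; the
hypothesis: `∑_a c_a ∏ choose (e a i) (b i) ∏ (σ α_i)^{e a i}` is `∏ (σ α_i)^{mN}` times `σ` of
`∑_a c_a ∏ choose(..) P^{ma}`, which is `0` by `choose_sums` (`z a = mono α m a`).  So
`v (∑_a c_a ∏ (τ α_i)^{p m (a_i + N)}) ≤ (v p)^T`, and the sum is `τ y` times the unit
`∏ (τ α_i)^{p m N}`.
`extrapolate`.  `y` is integral.  By contradiction `y ≠ 0`; `N(y) = ∏_τ τ y` is a nonzero integer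
(`exists_norm`).  Let `g ⊆ G` be the set of good `τ`, `3|G| ≤ 4|g|`: `v (N(y)) = ∏ v(τ y) ≤ (v p)^{T|g|}`
(for `τ ∉ g`: `v (τ y) ≤ 1`), so `p^{T|g|} ∣ N(y)` (`val_int_dvd`) and `p^{T |g|} ≤ |N(y)|`.  On the other
side `|N(y)| = ∏_σ ‖ι σ y‖ ≤ ∏_σ (|A| n wt^{mpN}) ≤ (|A| n)^{|G|} 2^{|G|}` (`norm_mono_le` with
`mp` in place of `m`, `HtOK`).  So `p^{3T|G|} ≤ p^{4T|g|} ≤ (2|A|n)^{4|G|}`, i.e.
`p^{3T} ≤ (2|A|n)^4`: contradiction to `hnum`. -/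

namespace Pool.Agent.Lib.MP_7ab245_nt.Solv

open Module

variable {Ω : Type*} [Field Ω] [NumberField Ω] {r : ℕ} (α : Fin r → Ω)

omit [NumberField Ω] in
private theorem prod_pow_shift (z : Fin r → Ω) (hz : ∀ i, z i ≠ 0) (k N : ℕ) (a : Fin r → ℤ)
    (ha : a ∈ box r N) :
    ∏ i, z i ^ (k * (a i + N).toNat) = mono z k a * ∏ i, z i ^ (k * N) := by
  unfold mono
  rw [← Finset.prod_mul_distrib]
  refine Finset.prod_congr rfl fun i _ => ?_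
  have h1 := (mem_box.1 ha) i
  have h2 : 0 ≤ a i + N := by
    have := (abs_le.1 h1).1
    omega
  rw [← zpow_natCast (z i) (k * (a i + N).toNat), ← zpow_natCast (z i) (k * N),
    ← zpow_add₀ (hz i)]
  congr 1
  push_cast
  rw [Int.toNat_of_nonneg h2]
  ring

private theorem aut_integral (σ : Ω ≃ₐ[ℚ] Ω) {x : Ω} (hx : IsIntegral ℤ x) :
    IsIntegral ℤ (σ x) :=
  hx.map ((σ : Ω →ₐ[ℚ] Ω).restrictScalars ℤ)

private theorem val_aut (v : Valuation Ω (WithZero (Multiplicative ℤ)))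
    (hv : ∀ x, IsIntegral ℤ x → v x ≤ 1) (σ : Ω ≃ₐ[ℚ] Ω) {x : Ω} (hx0 : x ≠ 0)
    (hx : IsIntegral ℤ x) (hx' : IsIntegral ℤ x⁻¹) : v (σ x) = 1 := by
  have h1 := hv _ (aut_integral σ hx)
  have h2 := hv _ (aut_integral σ hx')
  rw [map_inv₀, map_inv₀] at h2
  have h3 : v (σ x) ≠ 0 := by
    rw [ne_eq, map_eq_zero, map_eq_zero]
    exact hx0
  refine le_antisymm h1 ?_
  rwa [inv_le_one₀ (zero_lt_iff.2 h3)] at h2

theorem conj_val (hα : ∀ i, α i ≠ 0) (hint : ∀ i, IsIntegral ℤ (α i))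
    (hint' : ∀ i, IsIntegral ℤ (α i)⁻¹) (v : Valuation Ω (WithZero (Multiplicative ℤ)))
    (hv : ∀ x, IsIntegral ℤ x → v x ≤ 1) (p : ℕ) (hvp : v (p : Ω) < 1) (τ σ : Ω ≃ₐ[ℚ] Ω)
    (hτ : ∀ i, v ((τ (α i)) ^ p - σ (α i)) ≤ v (p : Ω)) (m N T : ℕ) (A : Finset (Fin r → ℤ))
    (hA : A ⊆ box r N) (c : (Fin r → ℤ) → ℤ)
    (hc : ∀ b : Fin r → ℕ, ∑ i, b i < T →
      ∑ a ∈ A, (c a : Ω) * (∏ i, ((a i : ℤ) : Ω) ^ b i) * mono α m a = 0) :
    v (τ (∑ a ∈ A, (c a : Ω) * mono α (m * p) a)) ≤ v (p : Ω) ^ T := by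
  classical
  have hσ : ∀ i, v (σ (α i)) = 1 := fun i => val_aut v hv σ (hα i) (hint i) (hint' i)
  have hτ1 : ∀ i, v (τ (α i)) = 1 := fun i => val_aut v hv τ (hα i) (hint i) (hint' i)
  have hσ0 : ∀ i, σ (α i) ≠ 0 := fun i => by
    rw [ne_eq, map_eq_zero]
    exact hα i
  have hτ0 : ∀ i, τ (α i) ≠ 0 := fun i => by
    rw [ne_eq, map_eq_zero]
    exact hα i
  have hσm : ∀ (k : ℕ) (a : Fin r → ℤ), σ (mono α k a) = mono (fun i => σ (α i)) k a :=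
    fun k a => map_mono α (σ : Ω →+* Ω) k a
  have hτm : ∀ (k : ℕ) (a : Fin r → ℤ), τ (mono α k a) = mono (fun i => τ (α i)) k a :=
    fun k a => map_mono α (τ : Ω →+* Ω) k a
  have h1 := taylor_val v (v (p : Ω)) hvp.le T A c (fun a i => m * (a i + N).toNat)
    (fun i => σ (α i)) (fun i => (τ (α i)) ^ p) hσ hτ (by
      intro b hb
      have h2 := choose_sums A c (mono α m) m N T hA hc b hb
      have h3 := congrArg σ h2
      rw [map_zero, map_sum] at h3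
      have h4 : ∑ a ∈ A, (c a : Ω) * (∏ i, ((Nat.choose (m * (a i + N).toNat) (b i) : ℕ) : Ω)) *
          ∏ i, σ (α i) ^ (m * (a i + N).toNat) =
          (∑ a ∈ A, σ ((c a : Ω) * (∏ i, ((Nat.choose (m * (a i + N).toNat) (b i) : ℕ) : Ω)) *
            mono α m a)) * ∏ i, σ (α i) ^ (m * N) := by
        rw [Finset.sum_mul]
        refine Finset.sum_congr rfl fun a ha => ?_
        rw [prod_pow_shift (fun i => σ (α i)) hσ0 m N a (hA ha)]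
        simp only [map_mul, map_prod, map_intCast, map_natCast, hσm]
        ring
      rw [h4, h3, zero_mul])
  have h5 : ∑ a ∈ A, (c a : Ω) * ∏ i, ((τ (α i)) ^ p) ^ (m * (a i + N).toNat) =
      τ (∑ a ∈ A, (c a : Ω) * mono α (m * p) a) * ∏ i, τ (α i) ^ (m * p * N) := by
    rw [map_sum, Finset.sum_mul]
    refine Finset.sum_congr rfl fun a ha => ?_
    have h6 := prod_pow_shift (fun i => τ (α i)) hτ0 (m * p) N a (hA ha)
    have h7 : ∏ i, ((τ (α i)) ^ p) ^ (m * (a i + N).toNat) =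
        ∏ i, τ (α i) ^ (m * p * (a i + N).toNat) := by
      refine Finset.prod_congr rfl fun i _ => ?_
      rw [← pow_mul]
      congr 1
      ring
    rw [h7, h6, map_mul, map_intCast, hτm]
    ring
  have h8 : v (∏ i, τ (α i) ^ (m * p * N)) = 1 := by
    rw [map_prod]
    refine Finset.prod_eq_one fun i _ => ?_
    rw [map_pow, hτ1, one_pow]
  rw [h5, map_mul, h8, mul_one] at h1
  exact h1

theorem extrapolate [IsGalois ℚ Ω] (ι : Ω →+* ℂ) (hα : ∀ i, α i ≠ 0)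
    (hint : ∀ i, IsIntegral ℤ (α i)) (hint' : ∀ i, IsIntegral ℤ (α i)⁻¹) (p : ℕ)
    (hgood : GoodPrime α p) (m N n T X : ℕ) (hX : m * p * N ≤ X) (hht : HtOK ι α X)
    (A : Finset (Fin r → ℤ)) (hA : A ⊆ box r N) (c : (Fin r → ℤ) → ℤ) (hcn : ∀ a, |c a| ≤ n)
    (hc : ∀ b : Fin r → ℕ, ∑ i, b i < T →
      ∑ a ∈ A, (c a : Ω) * (∏ i, ((a i : ℤ) : Ω) ^ b i) * mono α m a = 0)
    (hnum : (2 * A.card * n) ^ 4 < p ^ (3 * T)) :
    ∑ a ∈ A, (c a : Ω) * mono α (m * p) a = 0 := by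
  classical
  obtain ⟨hp, v, hv, hvp, hcard⟩ := hgood
  by_contra hy0
  obtain ⟨y, hydef⟩ : ∃ y : Ω, y = ∑ a ∈ A, (c a : Ω) * mono α (m * p) a := ⟨_, rfl⟩
  rw [← hydef] at hy0
  have hyint : IsIntegral ℤ y := by
    rw [hydef]
    refine IsIntegral.sum _ fun a _ => ?_
    exact (isIntegral_algebraMap (R := ℤ) (x := c a)).mul (mono_integral α hint hint' (m * p) a)
  obtain ⟨M, hM, hM0⟩ := exists_norm y hyint
  have hMne := hM0 hy0
  have hMabs := norm_eq_prod ι y M hM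
  -- the good automorphisms
  obtain ⟨g, hg⟩ : ∃ g : Finset (Ω ≃ₐ[ℚ] Ω), g = Finset.univ.filter (fun τ : Ω ≃ₐ[ℚ] Ω =>
      ∃ σ : Ω ≃ₐ[ℚ] Ω, ∀ i, v ((τ (α i)) ^ p - σ (α i)) ≤ v (p : Ω)) := ⟨_, rfl⟩
  have hgc : Nat.card {τ : Ω ≃ₐ[ℚ] Ω //
      ∃ σ : Ω ≃ₐ[ℚ] Ω, ∀ i, v ((τ (α i)) ^ p - σ (α i)) ≤ v (p : Ω)} = g.card := by
    rw [hg, Nat.card_eq_fintype_card, Fintype.card_subtype]
  rw [hgc, Nat.card_eq_fintype_card] at hcard
  have hvM : v (M : Ω) ≤ v (p : Ω) ^ (T * g.card) := by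
    rw [← hM, map_prod]
    have h1 : ∀ τ ∈ (Finset.univ : Finset (Ω ≃ₐ[ℚ] Ω)), v (τ y) ≤
        if τ ∈ g then v (p : Ω) ^ T else 1 := by
      intro τ _
      by_cases hτ : τ ∈ g
      · rw [if_pos hτ]
        rw [hg, Finset.mem_filter] at hτ
        obtain ⟨_, σ, hσ⟩ := hτ
        rw [hydef]
        exact conj_val α hα hint hint' v hv p hvp τ σ hσ m N T A hA c hc
      · rw [if_neg hτ]
        exact hv _ (aut_integral τ hyint)
    refine (Finset.prod_le_prod' h1).trans (le_of_eq ?_)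
    rw [Finset.prod_ite_mem, Finset.univ_inter, Finset.prod_const, ← pow_mul]
  have hdvd := val_int_dvd v p hp hvp M (T * g.card) hvM
  have hle1 : p ^ (T * g.card) ≤ M.natAbs := by
    have h2 := Int.natAbs_dvd_natAbs.2 hdvd
    rw [Int.natAbs_pow, Int.natAbs_natCast] at h2
    exact Nat.le_of_dvd (Int.natAbs_pos.2 hMne) h2
  -- the archimedean side
  have hnorm : ∀ σ : Ω ≃ₐ[ℚ] Ω, ‖ι (σ y)‖ ≤ (A.card * n : ℝ) * wt ι α σ ^ (m * p * N) := by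
    intro σ
    have h0 : ι (σ y) = ∑ a ∈ A, ((c a : ℤ) : ℂ) * ι (σ (mono α (m * p) a)) := by
      rw [hydef]
      simp only [map_sum, map_mul, map_intCast]
    rw [h0]
    refine (norm_sum_le _ _).trans ?_
    have h1 : ∀ a ∈ A, ‖((c a : ℤ) : ℂ) * ι (σ (mono α (m * p) a))‖ ≤
        (n : ℝ) * wt ι α σ ^ (m * p * N) := by
      intro a ha
      rw [norm_mul]
      have e1 : ‖((c a : ℤ) : ℂ)‖ ≤ (n : ℝ) := by
        rw [Complex.norm_intCast]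
        have h2 : ((|c a| : ℤ) : ℝ) ≤ ((n : ℤ) : ℝ) := by exact_mod_cast hcn a
        rw [Int.cast_abs] at h2
        simpa using h2
      exact mul_le_mul e1 (norm_mono_le α ι hα σ (hA ha)) (norm_nonneg _) (by positivity)
    refine (Finset.sum_le_sum h1).trans (le_of_eq ?_)
    rw [Finset.sum_const, nsmul_eq_mul]
    ring
  have hle2 : (M.natAbs : ℝ) ≤ (2 * A.card * n : ℝ) ^ Fintype.card (Ω ≃ₐ[ℚ] Ω) := by
    have h3 : (M.natAbs : ℝ) = |(M : ℝ)| := by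
      rw [← Int.cast_abs, Int.abs_eq_natAbs, Int.cast_natCast]
    rw [h3, ← hMabs]
    have h4 := htOK_mono α ι hX hht
    unfold HtOK at h4
    calc ∏ σ : Ω ≃ₐ[ℚ] Ω, ‖ι (σ y)‖
        ≤ ∏ σ : Ω ≃ₐ[ℚ] Ω, (A.card * n : ℝ) * wt ι α σ ^ (m * p * N) :=
          Finset.prod_le_prod (fun σ _ => norm_nonneg _) fun σ _ => hnorm σ
      _ = (A.card * n : ℝ) ^ Fintype.card (Ω ≃ₐ[ℚ] Ω) *
          ∏ σ : Ω ≃ₐ[ℚ] Ω, wt ι α σ ^ (m * p * N) := by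
          rw [Finset.prod_mul_distrib, Finset.prod_const, Finset.card_univ]
      _ ≤ (A.card * n : ℝ) ^ Fintype.card (Ω ≃ₐ[ℚ] Ω) * 2 ^ Fintype.card (Ω ≃ₐ[ℚ] Ω) := by
          gcongr
      _ = _ := by
          rw [← mul_pow]
          ring
  have hle3 : M.natAbs ≤ (2 * A.card * n) ^ Fintype.card (Ω ≃ₐ[ℚ] Ω) := by
    exact_mod_cast hle2
  have hG : Fintype.card (Ω ≃ₐ[ℚ] Ω) ≠ 0 := Fintype.card_ne_zero
  have hfin : p ^ (3 * T * Fintype.card (Ω ≃ₐ[ℚ] Ω)) < p ^ (3 * T * Fintype.card (Ω ≃ₐ[ℚ] Ω)) := by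
    calc p ^ (3 * T * Fintype.card (Ω ≃ₐ[ℚ] Ω)) ≤ p ^ (T * g.card * 4) := by
          refine Nat.pow_le_pow_right hp.pos ?_
          calc 3 * T * Fintype.card (Ω ≃ₐ[ℚ] Ω) = T * (3 * Fintype.card (Ω ≃ₐ[ℚ] Ω)) := by ring
            _ ≤ T * (4 * g.card) := Nat.mul_le_mul_left _ hcard
            _ = T * g.card * 4 := by ring
      _ = (p ^ (T * g.card)) ^ 4 := by rw [pow_mul]
      _ ≤ ((2 * A.card * n) ^ Fintype.card (Ω ≃ₐ[ℚ] Ω)) ^ 4 :=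
          Nat.pow_le_pow_left (hle1.trans hle3) 4
      _ = ((2 * A.card * n) ^ 4) ^ Fintype.card (Ω ≃ₐ[ℚ] Ω) := by
          rw [← pow_mul, ← pow_mul]
          congr 1
          ring
      _ < (p ^ (3 * T)) ^ Fintype.card (Ω ≃ₐ[ℚ] Ω) := Nat.pow_lt_pow_left hnum hG
      _ = p ^ (3 * T * Fintype.card (Ω ≃ₐ[ℚ] Ω)) := by rw [← pow_mul]
  exact lt_irrefl _ hfin

end Pool.Agent.Lib.MP_7ab245_nt.Solv
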