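import Pool.Agent.Lib.MP_7ab245_nt.Solv.Defs

set_option autoImplicit false

/-! # Module SV-KiNum (0.4 h). Only Defs (`exps`).
`exps_card_pos`: `0 ∈ exps r T` for `T ≥ 1`.
`siegel_num`: `ρ ≤ A ≤ (2N+1)^r ≤ n^r` (`2N+1 ≤ n`), so, with `τ = card (exps r T)`,
`8 ρ (A n N^T) + 1 ≤ 8 n^r n^r n n^T + 1 < (n+1)^(2r+T+6)` (`n ≥ 2`, `8 ≤ n^3`), and the exponents:
`(8 ρ (A n N^T) + 1)^(ρ τ) < (n+1)^((2r+T+6) ρ τ) ≤ (n+1)^A` as `A ≥ τ (2r+T+6) ρ` (`ρ τ ≥ 1`).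
`extrap_num`: `A ≤ n^r`, `2 A n ≤ n^(r+2)`, `n < Y^(J+1)`, so
`(2 A n)^4 ≤ n^(4(r+2)) ≤ Y^(4(J+1)(r+2)) < p^(3T)` for `p > Y`, `T = 2(J+1)(r+2)`
(`4(J+1)(r+2) ≤ 3T`, `T ≥ 1`). -/

namespace Pool.Agent.Lib.MP_7ab245_nt.Solv

theorem exps_card_pos (r T : ℕ) (hT : 1 ≤ T) : 1 ≤ (exps r T).card := by
  classical
  refine Finset.card_pos.mpr ⟨fun _ => 0, ?_⟩
  unfold exps
  rw [Finset.mem_filter, Fintype.mem_piFinset]
  refine ⟨fun i => Finset.mem_range.mpr (by omega), ?_⟩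
  rw [Finset.sum_const_zero]
  omega

theorem siegel_num (r T n N ρ A : ℕ) (hT : 1 ≤ T) (hN : 2 * N + 1 ≤ n) (hρ : 1 ≤ ρ)
    (hρA : ρ ≤ A) (hA : A ≤ (2 * N + 1) ^ r)
    (hC : (exps r T).card * (2 * r + T + 6) * ρ ≤ A) :
    (8 * ρ * (A * n * N ^ T) + 1) ^ (ρ * (exps r T).card) < (n + 1) ^ A := by
  have hτ := exps_card_pos r T hT
  set τ := (exps r T).card with hτd
  have hρτ : 1 ≤ ρ * τ := Nat.mul_pos hρ hτ
  have h7 : 7 ≤ A := by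
    have h1 : 1 * 7 * 1 ≤ τ * (2 * r + T + 6) * ρ :=
      Nat.mul_le_mul (Nat.mul_le_mul hτ (by omega)) hρ
    omega
  have hN1 : 1 ≤ N := by
    by_contra h1
    have h2 : N = 0 := by omega
    rw [h2] at hA
    simp at hA
    omega
  have hn3 : 3 ≤ n := by omega
  have hAn : A ≤ n ^ r := hA.trans (Nat.pow_le_pow_left hN r)
  have hρn : ρ ≤ n ^ r := hρA.trans hAn
  have hNT : N ^ T ≤ n ^ T := Nat.pow_le_pow_left (by omega) T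
  have h8 : 8 ≤ n ^ 3 := by
    calc 8 = 2 ^ 3 := by norm_num
      _ ≤ n ^ 3 := Nat.pow_le_pow_left (by omega) 3
  have hb : 8 * ρ * (A * n * N ^ T) + 1 < (n + 1) ^ (2 * r + T + 6) := by
    have h1 : 8 * ρ * (A * n * N ^ T) ≤ n ^ 3 * n ^ r * (n ^ r * n * n ^ T) := by gcongr
    have h2 : n ^ 3 * n ^ r * (n ^ r * n * n ^ T) = n ^ (2 * r + T + 4) := by ring
    have h3 : n ^ (2 * r + T + 4) + 1 < (n + 1) ^ (2 * r + T + 6) := by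
      have h4 : n ^ (2 * r + T + 4) ≤ (n + 1) ^ (2 * r + T + 4) := Nat.pow_le_pow_left (by omega) _
      have h5 : (n + 1) ^ (2 * r + T + 6) = (n + 1) ^ (2 * r + T + 4) * (n + 1) ^ 2 := by
        rw [← pow_add]
      have h6 : 1 ≤ (n + 1) ^ (2 * r + T + 4) := Nat.one_le_pow _ _ (by omega)
      have h9 : 16 ≤ (n + 1) ^ 2 := by nlinarith
      rw [h5]
      nlinarith
    omega
  calc (8 * ρ * (A * n * N ^ T) + 1) ^ (ρ * τ)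
      < ((n + 1) ^ (2 * r + T + 6)) ^ (ρ * τ) := Nat.pow_lt_pow_left hb (by omega)
    _ = (n + 1) ^ (τ * (2 * r + T + 6) * ρ) := by rw [← pow_mul]; ring_nf
    _ ≤ (n + 1) ^ A := Nat.pow_le_pow_right (by omega) hC

theorem extrap_num (r J Y n p A : ℕ) (hn2 : 2 ≤ n) (hY : 1 ≤ Y) (hn : n < Y ^ (J + 1))
    (hp : Y < p) (hA : A ≤ n ^ r) : (2 * A * n) ^ 4 < p ^ (3 * (2 * (J + 1) * (r + 2))) := by
  have h1 : 2 * A * n ≤ n ^ (r + 2) := by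
    calc 2 * A * n ≤ n * n ^ r * n := by gcongr
      _ = n ^ (r + 2) := by ring
  calc (2 * A * n) ^ 4 ≤ (n ^ (r + 2)) ^ 4 := Nat.pow_le_pow_left h1 4
    _ = n ^ ((r + 2) * 4) := by rw [← pow_mul]
    _ < (Y ^ (J + 1)) ^ ((r + 2) * 4) := Nat.pow_lt_pow_left hn (by omega)
    _ = Y ^ ((J + 1) * ((r + 2) * 4)) := by rw [← pow_mul]
    _ ≤ p ^ ((J + 1) * ((r + 2) * 4)) := Nat.pow_le_pow_left hp.le _
    _ ≤ p ^ (3 * (2 * (J + 1) * (r + 2))) := by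
        refine Nat.pow_le_pow_right (by omega) ?_
        have : 3 * (2 * (J + 1) * (r + 2)) = (J + 1) * ((r + 2) * 6) := by ring
        rw [this]
        exact Nat.mul_le_mul_left _ (Nat.mul_le_mul_left _ (by norm_num))

end Pool.Agent.Lib.MP_7ab245_nt.Solv
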