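import Pool.Agent.Lib.MP_7ab245_nt.Solv.Defs

set_option autoImplicit false

/-! # Module SV-Vrk (0.4 h). Only Mathlib + Defs.
Elementary facts about `vrk k φ E = dim_k span (φ '' E)`, `E` a finite set.  All from
`Submodule.finrank_mono`, `finrank_span_finset_le_card`, `exists_linearIndepOn_extension`
(or `exists_linearIndependent`), `Submodule.span_union`, `Submodule.map_span`,
`LinearMap.finrank_range_le`, `LinearEquiv.finrank_eq`; the spans are finite-dimensional because
`E` is finite (`FiniteDimensional.span_of_finite`). -/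

namespace Pool.Agent.Lib.MP_7ab245_nt.Solv

open Module

variable {k V V' Γ Γ' : Type*} [Field k] [AddCommGroup V] [Module k V] [AddCommGroup V']
  [Module k V']

private theorem fin_span (φ : Γ → V) (E : Finset Γ) :
    FiniteDimensional k (Submodule.span k (φ '' (E : Set Γ))) :=
  FiniteDimensional.span_of_finite k (E.finite_toSet.image φ)

theorem vrk_mono (φ : Γ → V) {E E' : Finset Γ} (h : E ⊆ E') : vrk k φ E ≤ vrk k φ E' := by
  have := fin_span (k := k) φ E'
  exact Submodule.finrank_mono (Submodule.span_mono (Set.image_mono (Finset.coe_subset.mpr h)))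

theorem vrk_le_card (φ : Γ → V) (E : Finset Γ) : vrk k φ E ≤ E.card := by
  classical
  unfold vrk
  rw [← Finset.coe_image]
  exact (finrank_span_finset_le_card _).trans Finset.card_image_le

theorem vrk_eq_card (φ : Γ → V) (E : Finset Γ) (h : LinearIndepOn k φ (E : Set Γ)) :
    vrk k φ E = E.card := by
  unfold vrk
  have h1 : LinearIndependent k (fun x : (E : Set Γ) => φ x) := h
  have h2 := finrank_span_eq_card (R := k) (b := fun x : (E : Set Γ) => φ x) h1
  have h3 : Set.range (fun x : (E : Set Γ) => φ x) = φ '' (E : Set Γ) := by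
    rw [Set.image_eq_range]
  rw [h3] at h2
  rw [h2]
  simp

theorem vrk_exists_basis (φ : Γ → V) (E : Finset Γ) :
    ∃ A ⊆ E, A.card = vrk k φ E ∧ LinearIndepOn k φ (A : Set Γ) := by
  classical
  obtain ⟨b, hbt, _, htb, hli⟩ := exists_linearIndepOn_extension (K := k) (v := φ)
    (s := (∅ : Set Γ)) (t := (E : Set Γ)) (linearIndepOn_empty k φ) (Set.empty_subset _)
  have hfin : b.Finite := E.finite_toSet.subset hbt
  refine ⟨hfin.toFinset, ?_, ?_, ?_⟩
  · intro x hx
    exact hbt (hfin.mem_toFinset.mp hx)
  · have h1 : LinearIndepOn k φ (hfin.toFinset : Set Γ) := by rwa [hfin.coe_toFinset]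
    rw [← vrk_eq_card φ hfin.toFinset h1]
    unfold vrk
    rw [hfin.coe_toFinset]
    have h2 : Submodule.span k (φ '' b) = Submodule.span k (φ '' (E : Set Γ)) :=
      le_antisymm (Submodule.span_mono (Set.image_mono hbt)) (Submodule.span_le.mpr htb)
    rw [h2]
  · rwa [hfin.coe_toFinset]

theorem vrk_biUnion_le [DecidableEq Γ] {ι : Type*} (φ : Γ → V) (s : Finset ι) (f : ι → Finset Γ) :
    vrk k φ (s.biUnion f) ≤ ∑ i ∈ s, vrk k φ (f i) := by
  classical
  induction s using Finset.induction_on with
  | empty =>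
    rw [Finset.biUnion_empty, Finset.sum_empty]
    exact vrk_le_card φ ∅
  | insert a s ha ih =>
    rw [Finset.biUnion_insert, Finset.sum_insert ha]
    refine le_trans ?_ (Nat.add_le_add_left ih _)
    unfold vrk
    rw [Finset.coe_union, Set.image_union, Submodule.span_union]
    have := fin_span (k := k) φ (f a)
    have := fin_span (k := k) φ (s.biUnion f)
    exact Submodule.finrank_add_le_finrank_add_finrank _ _

theorem vrk_comp_le (φ : Γ → V) (f : V →ₗ[k] V') (E : Finset Γ) :
    vrk k (fun a => f (φ a)) E ≤ vrk k φ E := by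
  unfold vrk
  have h1 : (fun a => f (φ a)) '' (E : Set Γ) = f '' (φ '' (E : Set Γ)) := by
    rw [Set.image_image]
  rw [h1, ← Submodule.map_span]
  have := fin_span (k := k) φ E
  exact Submodule.finrank_map_le f _

theorem vrk_comp_eq (φ : Γ → V) (f : V →ₗ[k] V') (hf : Function.Injective f) (E : Finset Γ) :
    vrk k (fun a => f (φ a)) E = vrk k φ E := by
  unfold vrk
  have h1 : (fun a => f (φ a)) '' (E : Set Γ) = f '' (φ '' (E : Set Γ)) := by
    rw [Set.image_image]
  rw [h1, ← Submodule.map_span]
  exact (LinearEquiv.finrank_eq (Submodule.equivMapOfInjective f hf _)).symm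

theorem vrk_image [DecidableEq Γ] (φ : Γ → V) (g : Γ' → Γ) (E : Finset Γ') :
    vrk k φ (E.image g) = vrk k (fun a => φ (g a)) E := by
  unfold vrk
  rw [Finset.coe_image, Set.image_image]

/-- nonzero scalars in `k` do not change the span -/
theorem vrk_smul (φ : Γ → V) (c : Γ → k) (hc : ∀ a, c a ≠ 0) (E : Finset Γ) :
    vrk k (fun a => c a • φ a) E = vrk k φ E := by
  unfold vrk
  have h : Submodule.span k ((fun a => c a • φ a) '' (E : Set Γ)) =
      Submodule.span k (φ '' (E : Set Γ)) := by
    apply le_antisymm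
    · rw [Submodule.span_le]
      rintro _ ⟨a, ha, rfl⟩
      exact Submodule.smul_mem _ _ (Submodule.subset_span ⟨a, ha, rfl⟩)
    · rw [Submodule.span_le]
      rintro _ ⟨a, ha, rfl⟩
      have h1 : φ a = (c a)⁻¹ • (c a • φ a) := by
        rw [smul_smul, inv_mul_cancel₀ (hc a), one_smul]
      rw [SetLike.mem_coe, h1]
      exact Submodule.smul_mem _ _ (Submodule.subset_span ⟨a, ha, rfl⟩)
  rw [h]

/-- multiplication by a nonzero element of the field `K` is an injective `k`-linear map -/
theorem vrk_mul {K : Type*} [Field K] [Algebra k K] (φ : Γ → K) (c : K) (hc : c ≠ 0)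
    (E : Finset Γ) : vrk k (fun a => c * φ a) E = vrk k φ E :=
  vrk_comp_eq φ (LinearMap.mulLeft k c) (fun _ _ h => mul_left_cancel₀ hc h) E

end Pool.Agent.Lib.MP_7ab245_nt.Solv
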