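import Pool.Agent.Lib.MP_7ab245_nt.Solv.Siegel
import Pool.Agent.Lib.MP_7ab245_nt.Solv.Extrap
import Pool.Agent.Lib.MP_7ab245_nt.Solv.KiNum
import Pool.Agent.Lib.MP_7ab245_nt.Solv.Vrk

set_option autoImplicit false

/-! # Module SV-KiGal (1.0 h). Uses Siegel, Extrap, KiNum, Vrk, Ball.
`ki_gal`.  `T = 2(J+1)(r+2)`, `C = τ (2r+T+6)`, `τ = card (exps r T) ≥ 1`.
If `E = ∅` both sides are `0`.  If `N = 0`, `E ⊆ {0}`, `rkS ≤ 1` and `rk ℚ α m E ≥ 1` (`mono ≠ 0`), `C ≥ 1`.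
Let `N ≥ 1`, `ρ = rk ℚ α m E ≥ 1` and suppose `rkS > C ρ`.  `vrk_exists_basis` for the vectors
`Φ(a) = (P^{mpa})_{mp ∈ m S'}`: `A ⊆ E` with `|A| = rkS > C ρ`, `Φ` linearly independent on `A`.
`rk ℚ α m A ≤ ρ` (`vrk_mono`), `ρ ≤ |A|`, `|A| ≤ (2N+1)^r` (`card_box`), `2N+1 ≤ 2X+1 ≤ n` (`m ≥ 1`).
`siegel` (`hcard` = `siegel_num`; `m N ≤ X ≤ X Y^2`) gives `c`.  For `p ∈ S'`: `extrapolate`
(`m p N ≤ X Y^2` as `p ≤ Y^2`; `hnum` = `extrap_num`, `|A| ≤ (2N+1)^r ≤ n^r`) gives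
`∑_{a ∈ A} c_a P^{mpa} = 0`.  So `∑ c_a Φ(a) = 0` with some `c_a ≠ 0`: contradiction. -/

namespace Pool.Agent.Lib.MP_7ab245_nt.Solv

open Module

private theorem one_le_rk {Ω : Type*} [Field Ω] [NumberField Ω] {r : ℕ}
    (α : Fin r → Ω) (hα : ∀ i, α i ≠ 0) (m : ℕ) (E : Finset (Fin r → ℤ)) (hE : E.Nonempty) :
    1 ≤ rk ℚ α m E := by
  obtain ⟨a, ha⟩ := hE
  have h1 : vrk ℚ (mono α m) {a} ≤ vrk ℚ (mono α m) E :=
    vrk_mono _ (Finset.singleton_subset_iff.2 ha)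
  have h2 : vrk ℚ (mono α m) {a} = 1 := by
    rw [vrk_eq_card _ _ ?_, Finset.card_singleton]
    rw [Finset.coe_singleton, linearIndepOn_singleton_iff]
    exact mono_ne_zero α hα m a
  rw [h2] at h1
  exact h1

theorem ki_gal {Ω : Type*} [Field Ω] [NumberField Ω] [IsGalois ℚ Ω] (ι : Ω →+* ℂ) {r : ℕ}
    (α : Fin r → Ω) (hα : ∀ i, α i ≠ 0) (hint : ∀ i, IsIntegral ℤ (α i))
    (hint' : ∀ i, IsIntegral ℤ (α i)⁻¹) (J Y X n : ℕ) (hY : 1 ≤ Y) (hn : n < Y ^ (J + 1))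
    (hn2 : 2 ≤ n) (hXn : 2 * X + 1 ≤ n) (hht : HtOK ι α (X * Y ^ 2)) (S : Finset ℕ)
    (hS : ∀ p ∈ S, Y < p ∧ p ≤ Y ^ 2 ∧ GoodPrime α p)
    (m N : ℕ) (S' : Finset ℕ) (E : Finset (Fin r → ℤ)) (hm : 1 ≤ m) (hS' : S' ⊆ S)
    (hS'n : S'.Nonempty) (hE : E ⊆ box r N) (hmN : m * N ≤ X) :
    rkS ℚ α (S'.image (m * ·)) E ≤
      (exps r (2 * (J + 1) * (r + 2))).card * (2 * r + 2 * (J + 1) * (r + 2) + 6) *
        rk ℚ α m E := by
  by_contra hcon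
  rw [not_le] at hcon
  set T := 2 * (J + 1) * (r + 2) with hT
  set ρ := rk ℚ α m E with hρdef
  have hT1 : 1 ≤ T := by rw [hT]; exact Nat.succ_le_of_lt (by positivity)
  have hτ : 1 ≤ (exps r T).card := exps_card_pos r T hT1
  have hrkE : rkS ℚ α (S'.image (m * ·)) E ≤ E.card := vrk_le_card _ _
  have hEne : E.Nonempty := by
    rw [Finset.nonempty_iff_ne_empty]
    rintro rfl
    rw [Finset.card_empty] at hrkE
    omega
  have hρ1 : 1 ≤ ρ := one_le_rk α hα m E hEne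
  have hC1 : 1 ≤ (exps r T).card * (2 * r + T + 6) :=
    Nat.succ_le_of_lt (Nat.mul_pos hτ (by omega))
  have hCρ : ρ ≤ (exps r T).card * (2 * r + T + 6) * ρ := by nlinarith
  have hEcard : E.card ≤ (2 * N + 1) ^ r := by
    rw [← card_box]
    exact Finset.card_le_card hE
  have hN1 : 1 ≤ N := by
    by_contra hN0
    have h0 : N = 0 := by omega
    rw [h0] at hEcard
    simp only [mul_zero, zero_add, one_pow] at hEcard
    omega
  have hNX : N ≤ X := le_trans (Nat.le_mul_of_pos_left N hm) hmN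
  have hNn : 2 * N + 1 ≤ n := by omega
  have hXY : X ≤ X * Y ^ 2 := Nat.le_mul_of_pos_right X (by positivity)
  obtain ⟨A, hAE, hAcard, hAind⟩ := vrk_exists_basis (k := ℚ)
    (fun a : Fin r → ℤ => (fun mm : (S'.image (m * ·) : Finset ℕ) => mono α (mm : ℕ) a)) E
  have hAcard' : A.card = rkS ℚ α (S'.image (m * ·)) E := hAcard
  have hAbox : A ⊆ box r N := hAE.trans hE
  have hAc : A.card ≤ (2 * N + 1) ^ r := by
    rw [← card_box]
    exact Finset.card_le_card hAbox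
  have hAn : A.card ≤ n ^ r := hAc.trans (Nat.pow_le_pow_left hNn r)
  have hρA : ρ ≤ A.card := by omega
  have hρA' : rk ℚ α m A ≤ ρ := vrk_mono _ hAE
  obtain ⟨c, hc0, hcn, hc⟩ := siegel ι α hα hint hint' m N n T (X * Y ^ 2) hN1
    (hmN.trans hXY) hht A hAbox ρ hρA' hρ1
    (siegel_num r T n N ρ A.card hT1 hNn hρ1 hρA hAc (by omega))
  have hex : ∀ p ∈ S', ∑ a ∈ A, (c a : Ω) * mono α (m * p) a = 0 := by
    intro p hp
    obtain ⟨hp1, hp2, hp3⟩ := hS p (hS' hp)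
    refine extrapolate α ι hα hint hint' p hp3 m N n T (X * Y ^ 2) ?_ hht A hAbox c hcn hc
      (extrap_num r J Y n p A.card hn2 hY hn hp1 hAn)
    calc m * p * N = (m * N) * p := by ring
      _ ≤ X * Y ^ 2 := Nat.mul_le_mul hmN hp2
  have hlin := (linearIndepOn_finset_iff.1 hAind) (fun a => (c a : ℚ)) (by
    funext mm
    obtain ⟨mm, hmm⟩ := mm
    obtain ⟨p, hp, rfl⟩ := Finset.mem_image.1 hmm
    have h1 := hex p hp
    simp only [Finset.sum_apply, Pi.smul_apply, Pi.zero_apply]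
    rw [← h1]
    refine Finset.sum_congr rfl fun a _ => ?_
    rw [Rat.smul_def]
    push_cast
    rfl)
  obtain ⟨a, ha, hca⟩ := hc0
  exact hca (by exact_mod_cast hlin a ha)

end Pool.Agent.Lib.MP_7ab245_nt.Solv
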