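import Pool.Agent.Lib.MP_7ab245_nt.Solv.Ball
import Pool.Agent.Lib.MP_7ab245_nt.Solv.Vrk

set_option autoImplicit false

/-! # Module SV-Transfer (0.6 h). Uses Ball, Vrk.
`ι : Ω →+* ℂ` is injective and `ℚ`-linear.  `rk_transfer`: `map_mono` and `vrk_comp_eq` for the linear map
`ι.toRatAlgHom`; `rkS_transfer`: the same coordinatewise (`LinearMap.pi`/`LinearMap.compLeft`).
`finrank_big`: `big (ι ∘ x) = (adjoin ℚ (range x)).map ι` (`IntermediateField.adjoin_map`), and a field is
isomorphic to its image (`IntermediateField.finrank_map`/`equivMap`). -/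

namespace Pool.Agent.Lib.MP_7ab245_nt.Solv

open Module

variable {Ω : Type*} [Field Ω] [NumberField Ω] (ι : Ω →+* ℂ) {r : ℕ} (x : Fin r → Ω)

theorem rk_transfer (m : ℕ) (E : Finset (Fin r → ℤ)) :
    rk ℚ (fun i => ι (x i)) m E = rk ℚ x m E := by
  unfold rk
  have h : mono (fun i => ι (x i)) m = fun a => (ι.toRatAlgHom.toLinearMap) (mono x m a) := by
    funext a
    exact (map_mono x ι m a).symm
  rw [h]
  exact vrk_comp_eq (k := ℚ) (mono x m) ι.toRatAlgHom.toLinearMap (RingHom.injective ι) E

theorem rkS_transfer (Ms : Finset ℕ) (E : Finset (Fin r → ℤ)) :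
    rkS ℚ (fun i => ι (x i)) Ms E = rkS ℚ x Ms E := by
  unfold rkS
  have h : (fun a => (fun m : Ms => mono (fun i => ι (x i)) (m : ℕ) a)) =
      fun a => (ι.toRatAlgHom.toLinearMap.compLeft Ms) (fun m : Ms => mono x (m : ℕ) a) := by
    funext a m
    exact (map_mono x ι m a).symm
  rw [h]
  refine vrk_comp_eq (k := ℚ) (fun a => (fun m : Ms => mono x (m : ℕ) a))
    (ι.toRatAlgHom.toLinearMap.compLeft Ms) ?_ E
  intro f g hfg
  funext m
  exact RingHom.injective ι (congrFun hfg m)

theorem mulInd_transfer (h : MulInd x) : MulInd (fun i => ι (x i)) := by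
  intro a ha
  apply h
  rw [← map_mono x ι 1 a] at ha
  exact RingHom.injective ι (ha.trans (map_one ι).symm)

theorem integral_transfer (i : Fin r) : IsIntegral ℚ (ι (x i)) := by
  have h : IsIntegral ℚ (x i) := Algebra.IsIntegral.isIntegral (x i)
  exact h.map ι.toRatAlgHom

theorem finrank_big :
    finrank ℚ (big (fun i => ι (x i))) =
      finrank ℚ (IntermediateField.adjoin ℚ (Set.range x)) := by
  have h : big (fun i => ι (x i)) =
      (IntermediateField.adjoin ℚ (Set.range x)).map ι.toRatAlgHom := by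
    rw [IntermediateField.adjoin_map]
    unfold big
    congr 1
    rw [← Set.range_comp]
    rfl
  rw [h]
  exact (LinearEquiv.finrank_eq
    (IntermediateField.equivMap (IntermediateField.adjoin ℚ (Set.range x))
      ι.toRatAlgHom).toLinearEquiv).symm

end Pool.Agent.Lib.MP_7ab245_nt.Solv
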