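import Pool.Agent.Lib.MP_7ab245_nt.Solv.GA.Asm

set_option autoImplicit false

namespace Pool.Agent.Lib.MP_7ab245_nt.Solv

/-- Theorem A. -/
theorem groupA {G W : Type*} [Group G] [Finite G] [AddCommGroup W] [Module ℚ W]
    (ρ : Representation ℚ G W) (w : W) (hw : w ≠ 0) (A : Subgroup G) [A.Normal]
    (hA1 : ∃ a ∈ A, ρ a w ≠ w ∧ ρ a w ≠ -w)
    (hA2 : ∀ a ∈ A, ∀ b ∈ A, ρ (a * b * a⁻¹ * b⁻¹) w = w ∨ ρ (a * b * a⁻¹ * b⁻¹) w = -w) :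
    ∃ r : ℕ, 2 ≤ r ∧ r ≤ 4 ∧ ∃ g : Fin r → G, LinearIndependent ℚ (fun i => ρ (g i) w) ∧
      Nat.card (Set.range fun x : G => fun i => ρ (x * g i) w) ≤
        512 * Nat.card (Set.range fun x : G => ρ x w) ^ (r - 1) :=
  groupA' ρ w hw A hA1 hA2

end Pool.Agent.Lib.MP_7ab245_nt.Solv
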