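import Pool.Agent.Lib.MP_7ab245_nt.Solv.Defs

set_option autoImplicit false

/-! # Module SV-Ball (0.4 h). Only Mathlib + Defs.
Elementary facts about boxes, balls and monomials.  `mono_mul_exp`: `zpow_mul`.  `mono_inj`:
from `mono α m a = mono α m b` get `mono α 1 (m • (a - b)) = 1`, so `m • (a - b) = 0` by `MulInd`.
`card_box`: `Fintype.card_piFinset`, `Int.card_Icc`. -/

namespace Pool.Agent.Lib.MP_7ab245_nt.Solv

open Module

variable {r : ℕ}

theorem mem_box {N : ℕ} {a : Fin r → ℤ} : a ∈ box r N ↔ ∀ i, |a i| ≤ (N : ℤ) := by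
  unfold box
  rw [Fintype.mem_piFinset]
  exact forall_congr' fun i => by rw [Finset.mem_Icc, abs_le]

theorem mem_ball {U : AddSubgroup (Fin r → ℤ)} {N : ℕ} {a : Fin r → ℤ} :
    a ∈ ball U N ↔ a ∈ U ∧ ∀ i, |a i| ≤ (N : ℤ) := by
  classical
  unfold ball
  rw [Finset.mem_filter, mem_box, and_comm]

theorem ball_mono (U : AddSubgroup (Fin r → ℤ)) {M N : ℕ} (h : M ≤ N) : ball U M ⊆ ball U N := by
  intro a ha
  rw [mem_ball] at ha ⊢
  exact ⟨ha.1, fun i => (ha.2 i).trans (by exact_mod_cast h)⟩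

theorem box_mono {M N : ℕ} (h : M ≤ N) : box r M ⊆ box r N := by
  intro a ha
  rw [mem_box] at ha ⊢
  exact fun i => (ha i).trans (by exact_mod_cast h)

theorem ball_subset_box (U : AddSubgroup (Fin r → ℤ)) (N : ℕ) : ball U N ⊆ box r N := by
  intro a ha
  rw [mem_ball] at ha
  exact mem_box.mpr ha.2

theorem add_mem_ball {U : AddSubgroup (Fin r → ℤ)} {M N : ℕ} {a b : Fin r → ℤ}
    (ha : a ∈ ball U M) (hb : b ∈ ball U N) : a + b ∈ ball U (M + N) := by
  rw [mem_ball] at ha hb ⊢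
  refine ⟨U.add_mem ha.1 hb.1, fun i => ?_⟩
  rw [Pi.add_apply, Nat.cast_add]
  exact (abs_add_le _ _).trans (add_le_add (ha.2 i) (hb.2 i))

theorem neg_mem_ball {U : AddSubgroup (Fin r → ℤ)} {N : ℕ} {a : Fin r → ℤ}
    (ha : a ∈ ball U N) : -a ∈ ball U N := by
  rw [mem_ball] at ha ⊢
  refine ⟨U.neg_mem ha.1, fun i => ?_⟩
  rw [Pi.neg_apply, abs_neg]
  exact ha.2 i

theorem sub_mem_ball {U : AddSubgroup (Fin r → ℤ)} {M N : ℕ} {a b : Fin r → ℤ}
    (ha : a ∈ ball U M) (hb : b ∈ ball U N) : a - b ∈ ball U (M + N) := by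
  rw [sub_eq_add_neg]
  exact add_mem_ball ha (neg_mem_ball hb)

theorem zero_mem_ball (U : AddSubgroup (Fin r → ℤ)) (N : ℕ) : (0 : Fin r → ℤ) ∈ ball U N := by
  rw [mem_ball]
  exact ⟨U.zero_mem, fun i => by simp⟩

theorem card_box (N : ℕ) : (box r N).card = (2 * N + 1) ^ r := by
  unfold box
  rw [Fintype.card_piFinset]
  rw [Finset.prod_const, Finset.card_univ, Fintype.card_fin, Int.card_Icc]
  congr 1
  omega

theorem card_ball_le (U : AddSubgroup (Fin r → ℤ)) (N : ℕ) : (ball U N).card ≤ (2 * N + 1) ^ r := by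
  rw [← card_box]
  exact Finset.card_le_card (ball_subset_box U N)

variable {K : Type*} [Field K] (α : Fin r → K)

theorem mono_zero (m : ℕ) : mono α m 0 = 1 := by
  simp [mono]

theorem mono_add (hα : ∀ i, α i ≠ 0) (m : ℕ) (a b : Fin r → ℤ) :
    mono α m (a + b) = mono α m a * mono α m b := by
  unfold mono
  rw [← Finset.prod_mul_distrib]
  apply Finset.prod_congr rfl
  intro i _
  rw [Pi.add_apply, mul_add, zpow_add₀ (hα i)]

theorem mono_neg (m : ℕ) (a : Fin r → ℤ) : mono α m (-a) = (mono α m a)⁻¹ := by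
  unfold mono
  rw [← Finset.prod_inv_distrib]
  apply Finset.prod_congr rfl
  intro i _
  rw [Pi.neg_apply, mul_neg, zpow_neg]

theorem mono_ne_zero (hα : ∀ i, α i ≠ 0) (m : ℕ) (a : Fin r → ℤ) : mono α m a ≠ 0 := by
  unfold mono
  rw [Finset.prod_ne_zero_iff]
  intro i _
  exact zpow_ne_zero _ (hα i)

theorem mono_mul_exp (m p : ℕ) (a : Fin r → ℤ) :
    mono α (m * p) a = mono α m ((p : ℤ) • a) := by
  unfold mono
  apply Finset.prod_congr rfl
  intro i _
  rw [Pi.smul_apply, smul_eq_mul, Nat.cast_mul, mul_assoc]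

theorem mono_pow (m p : ℕ) (a : Fin r → ℤ) : mono α (m * p) a = mono α m a ^ p := by
  unfold mono
  rw [← Finset.prod_pow]
  apply Finset.prod_congr rfl
  intro i _
  rw [← zpow_natCast, ← zpow_mul]
  congr 1
  push_cast
  ring

theorem mono_inj (hα : ∀ i, α i ≠ 0) (hind : MulInd α) {m : ℕ} (hm : 1 ≤ m) :
    Function.Injective (mono α m) := by
  intro a b hab
  have h1 : mono α m (a - b) = 1 := by
    rw [sub_eq_add_neg, mono_add α hα, mono_neg, hab, mul_inv_cancel₀ (mono_ne_zero α hα m b)]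
  have h2 : mono α 1 ((m : ℤ) • (a - b)) = 1 := by
    rw [← mono_mul_exp, one_mul, h1]
  have h3 := hind _ h2
  funext i
  have h4 := congrFun h3 i
  rw [Pi.smul_apply, Pi.sub_apply, Pi.zero_apply, smul_eq_mul] at h4
  have hm' : (m : ℤ) ≠ 0 := by exact_mod_cast (by omega : m ≠ 0)
  exact sub_eq_zero.mp ((mul_eq_zero.mp h4).resolve_left hm')

/-- a field homomorphism commutes with monomials -/
theorem map_mono {K' : Type*} [Field K'] (f : K →+* K') (m : ℕ) (a : Fin r → ℤ) :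
    f (mono α m a) = mono (fun i => f (α i)) m a := by
  unfold mono
  rw [map_prod]
  apply Finset.prod_congr rfl
  intro i _
  exact map_zpow₀ f _ _

end Pool.Agent.Lib.MP_7ab245_nt.Solv
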