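import Pool.Agent.Lib.MP_7ab245_nt.Solv.Vrk
import Pool.Agent.Lib.MP_7ab245_nt.Solv.Ball

set_option autoImplicit false

/-! # Module SV-Fld (0.5 h). Uses Vrk, Ball.
Elementary facts on the fields `fld α m U = ℚ(P^{ma} : a ∈ U) ≤ big α = ℚ(α_1,…,α_r)`.
`big α` is finite-dimensional (`IntermediateField.finiteDimensional_adjoin`), the rest is
monotonicity of `adjoin`, of `finrank` and of `span`.  `fld_mul_le`: `mono_mul_exp`.
`fld_eq`: `IntermediateField.eq_of_le_of_finrank_eq`.  `rk_of_sat`: the span of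
`mono α m '' ball U T` is sandwiched between the span of the smaller ball (= the field) and the
field. -/

namespace Pool.Agent.Lib.MP_7ab245_nt.Solv

open Module

variable {r : ℕ} (α : Fin r → ℂ)

theorem big_finite (hint : ∀ i, IsIntegral ℚ (α i)) : FiniteDimensional ℚ (big α) := by
  unfold big
  apply IntermediateField.finiteDimensional_adjoin
  rintro x ⟨i, rfl⟩
  exact hint i

theorem fld_le_big (m : ℕ) (U : AddSubgroup (Fin r → ℤ)) : fld α m U ≤ big α := by
  unfold fld
  rw [IntermediateField.adjoin_le_iff]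
  rintro x ⟨a, -, rfl⟩
  unfold mono
  refine prod_mem fun i _ => zpow_mem ?_ _
  exact IntermediateField.subset_adjoin ℚ _ ⟨i, rfl⟩

theorem fld_finite (hint : ∀ i, IsIntegral ℚ (α i)) (m : ℕ) (U : AddSubgroup (Fin r → ℤ)) :
    FiniteDimensional ℚ (fld α m U) := by
  have := big_finite α hint
  exact FiniteDimensional.of_injective
    (IntermediateField.inclusion (fld_le_big α m U)).toLinearMap
    (IntermediateField.inclusion_injective (fld_le_big α m U))

theorem finrank_fld_le (hint : ∀ i, IsIntegral ℚ (α i)) (m : ℕ) (U : AddSubgroup (Fin r → ℤ)) :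
    finrank ℚ (fld α m U) ≤ finrank ℚ (big α) := by
  have := big_finite α hint
  exact LinearMap.finrank_le_finrank_of_injective
    (f := (IntermediateField.inclusion (fld_le_big α m U)).toLinearMap)
    (IntermediateField.inclusion_injective (fld_le_big α m U))

theorem finrank_fld_pos (hint : ∀ i, IsIntegral ℚ (α i)) (m : ℕ) (U : AddSubgroup (Fin r → ℤ)) :
    0 < finrank ℚ (fld α m U) := by
  have := fld_finite α hint m U
  exact finrank_pos

theorem fld_mul_le (m p : ℕ) (U : AddSubgroup (Fin r → ℤ)) : fld α (m * p) U ≤ fld α m U := by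
  unfold fld
  apply IntermediateField.adjoin.mono
  rintro x ⟨a, ha, rfl⟩
  exact ⟨(p : ℤ) • a, U.zsmul_mem ha _, (mono_mul_exp α m p a).symm⟩

theorem fld_eq (hint : ∀ i, IsIntegral ℚ (α i)) (m p : ℕ) (U : AddSubgroup (Fin r → ℤ))
    (h : finrank ℚ (fld α m U) ≤ finrank ℚ (fld α (m * p) U)) : fld α (m * p) U = fld α m U := by
  have := fld_finite α hint m U
  exact IntermediateField.eq_of_le_of_finrank_le (fld_mul_le α m p U) h

private theorem span_le_fld (m : ℕ) (U : AddSubgroup (Fin r → ℤ))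
    (E : Finset (Fin r → ℤ)) (hE : ∀ a ∈ E, a ∈ U) :
    Submodule.span ℚ (mono α m '' (E : Set (Fin r → ℤ))) ≤
      Subalgebra.toSubmodule (fld α m U).toSubalgebra := by
  rw [Submodule.span_le]
  rintro x ⟨a, ha, rfl⟩
  exact IntermediateField.subset_adjoin ℚ _ ⟨a, hE a ha, rfl⟩

theorem rk_le_fld (hint : ∀ i, IsIntegral ℚ (α i)) (m : ℕ) (U : AddSubgroup (Fin r → ℤ))
    (E : Finset (Fin r → ℤ)) (hE : ∀ a ∈ E, a ∈ U) : rk ℚ α m E ≤ finrank ℚ (fld α m U) := by
  have h1 := fld_finite α hint m U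
  have h2 : FiniteDimensional ℚ (Subalgebra.toSubmodule (fld α m U).toSubalgebra) := h1
  exact Submodule.finrank_mono (span_le_fld α m U E hE)

theorem rk_le_big (hint : ∀ i, IsIntegral ℚ (α i)) (m : ℕ) (E : Finset (Fin r → ℤ)) :
    rk ℚ α m E ≤ finrank ℚ (big α) :=
  (rk_le_fld α hint m ⊤ E fun _ _ => AddSubgroup.mem_top _).trans (finrank_fld_le α hint m ⊤)

theorem rk_of_sat (hint : ∀ i, IsIntegral ℚ (α i)) {m T : ℕ} {U : AddSubgroup (Fin r → ℤ)}
    (h : Sat α m U T) : rk ℚ α m (ball U T) = finrank ℚ (fld α m U) := by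
  unfold rk vrk
  unfold Sat at h
  rw [h]
  rfl

/-- `rkS` of the set `{m p}` is `rk` of `m p` -/
theorem rkS_singleton {K : Type*} [Field K] [Algebra ℚ K] (β : Fin r → K) (m p : ℕ)
    (E : Finset (Fin r → ℤ)) :
    rkS ℚ β (({p} : Finset ℕ).image (m * ·)) E = rk ℚ β (m * p) E := by
  rw [Finset.image_singleton]
  unfold rkS rk
  have hm : m * p ∈ ({m * p} : Finset ℕ) := Finset.mem_singleton_self _
  have hinj : Function.Injective
      (LinearMap.proj (R := ℚ) (φ := fun _ : (({m * p} : Finset ℕ)) => K) ⟨m * p, hm⟩) := by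
    intro f g hfg
    funext x
    have : x = ⟨m * p, hm⟩ := Subtype.ext (Finset.mem_singleton.1 x.2)
    rw [this]
    exact hfg
  exact (vrk_comp_eq (k := ℚ)
    (fun a => (fun m' : (({m * p} : Finset ℕ)) => mono β (m' : ℕ) a)) _ hinj E).symm

end Pool.Agent.Lib.MP_7ab245_nt.Solv
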