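import Pool.Agent.Lib.MP_7ab245_nt.Solv.Hilb
import Pool.Agent.Lib.MP_7ab245_nt.Solv.Fld

set_option autoImplicit false

/-! # Module SV-ClaimA (0.6 h). Uses Hilb, Fld.
`claim_a`.  Suppose there is no relation for `P^{m'}` on `ball U (t Y)`; then by `exists_rel`
`rk ℚ α m' (ball U N) = card (ball U N) =: B(N)` for all `N ≤ tY`.  By `rk_drop` for `F`:
`rk ℚ α m (ball U (N + t)) + B(N) ≤ B(N + t)`.  So for `N + t ≤ tY`
`B(N+t) = rk m' ≤ C rk m ≤ C (B(N+t) - B(N))`, i.e. `C B(N) ≤ (C - 1) B(N + t)` (in integers: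
`B(N+t) + C B(N) ≤ C B(N+t)`).  Hence `(C+1) B(N) ≤ C B(N+t)` (multiply: if `C = 1` then `B(N) ≤ 0`,
impossible as `0 ∈ ball`; in general `C² B(N) ≤ C (C-1) B(N+t)` and `(C+1)(C-1) ≤ C²` give
`(C+1)(C-1) B(N) ≤ C (C-1) B(N+t)`).  Induction: `(C+1)^k ≤ C^k B(t k)` for `k ≤ Y`.  For `k = Y`:
`(C+1)^Y ≤ C^Y B(tY) = C^Y rk ℚ α m' (ball U (tY)) ≤ C^Y finrank ℚ (big α) ≤ C^Y Y^e`, contradicting
`hnum`. -/

namespace Pool.Agent.Lib.MP_7ab245_nt.Solv

open Module

variable {r : ℕ} (α : Fin r → ℂ)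

theorem claim_a (hα : ∀ i, α i ≠ 0) (hint : ∀ i, IsIntegral ℚ (α i)) {m m' t C Y e : ℕ}
    (hC : 1 ≤ C) (U : AddSubgroup (Fin r → ℤ)) (F : (Fin r → ℤ) →₀ ℚ) (hF : Rel α m U t F)
    (hki : ∀ N ≤ t * Y, rk ℚ α m' (ball U N) ≤ C * rk ℚ α m (ball U N))
    (hdeg : finrank ℚ (big α) ≤ Y ^ e) (hnum : Y ^ e * C ^ Y < (C + 1) ^ Y) :
    ∃ F', Rel α m' U (t * Y) F' := by
  by_contra hno
  have hrk : ∀ N ≤ t * Y, (ball U N).card ≤ rk ℚ α m' (ball U N) := by
    intro N hN
    by_contra hlt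
    obtain ⟨F', h1, h2, h3⟩ := exists_rel α m' (ball U N) (not_le.mp hlt)
    exact hno ⟨F', h1, h2.trans (ball_mono U hN), h3⟩
  have hstep : ∀ N, N + t ≤ t * Y →
      (ball U (N + t)).card + C * (ball U N).card ≤ C * (ball U (N + t)).card := by
    intro N hN
    have h1 := rk_drop α hα hF N
    have h2 := hrk _ hN
    have h3 := hki _ hN
    calc (ball U (N + t)).card + C * (ball U N).card
        ≤ C * rk ℚ α m (ball U (N + t)) + C * (ball U N).card := by
          exact Nat.add_le_add_right (h2.trans h3) _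
      _ = C * (rk ℚ α m (ball U (N + t)) + (ball U N).card) := by ring
      _ ≤ C * (ball U (N + t)).card := Nat.mul_le_mul_left C h1
  have hind : ∀ k, k ≤ Y → (C + 1) ^ k ≤ C ^ k * (ball U (t * k)).card := by
    intro k
    induction k with
    | zero =>
      intro _
      simp only [pow_zero, one_mul, mul_zero]
      exact Finset.card_pos.mpr ⟨0, zero_mem_ball U 0⟩
    | succ k ih =>
      intro hk
      have h0 := ih (by omega)
      have hle : t * k + t ≤ t * Y := by
        calc t * k + t = t * (k + 1) := by ring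
          _ ≤ t * Y := Nat.mul_le_mul_left t hk
      have h1 := hstep (t * k) hle
      have h2 : (ball U (t * k)).card ≤ (ball U (t * k + t)).card :=
        Finset.card_le_card (ball_mono U (Nat.le_add_right _ _))
      have h3 : (C + 1) * (ball U (t * k)).card ≤ C * (ball U (t * k + t)).card := by
        calc (C + 1) * (ball U (t * k)).card
            = (ball U (t * k)).card + C * (ball U (t * k)).card := by ring
          _ ≤ (ball U (t * k + t)).card + C * (ball U (t * k)).card :=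
            Nat.add_le_add_right h2 _
          _ ≤ _ := h1
      calc (C + 1) ^ (k + 1) = (C + 1) * (C + 1) ^ k := by ring
        _ ≤ (C + 1) * (C ^ k * (ball U (t * k)).card) := Nat.mul_le_mul_left _ h0
        _ = C ^ k * ((C + 1) * (ball U (t * k)).card) := by ring
        _ ≤ C ^ k * (C * (ball U (t * k + t)).card) := Nat.mul_le_mul_left _ h3
        _ = C ^ (k + 1) * (ball U (t * (k + 1))).card := by
          rw [show t * (k + 1) = t * k + t by ring]; ring
  have h1 := hind Y le_rfl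
  have h2 : (ball U (t * Y)).card ≤ Y ^ e :=
    ((hrk _ le_rfl).trans (rk_le_big α hint m' _)).trans hdeg
  have h3 : C ^ Y * (ball U (t * Y)).card ≤ C ^ Y * Y ^ e := Nat.mul_le_mul_left _ h2
  have h4 : (C + 1) ^ Y ≤ Y ^ e * C ^ Y := by
    calc (C + 1) ^ Y ≤ C ^ Y * (ball U (t * Y)).card := h1
      _ ≤ C ^ Y * Y ^ e := h3
      _ = Y ^ e * C ^ Y := by ring
  omega

end Pool.Agent.Lib.MP_7ab245_nt.Solv
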