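import Pool.Agent.Lib.MP_7ab245_nt.Solv.Fld

set_option autoImplicit false

/-! # Module SV-Separate (1.2 h). Uses Ball, Fld.
`separate`.  Let `L = fld α m U = fld α (m p) U = fld α (m q) U`.  Suppose the conclusion fails: every
`F` supported on `ball U (2T)` with `ev α (mp) F = 0` has `ev α (mq) F = 0`.  Then there is a `ℚ`-linear map
`ψ : L → ℂ` with `ψ(P^{mp a}) = P^{mq a}` for all `a ∈ ball U (2T)`: `L` is the span of
`mono α (mp) '' ball U T` (`hsat`), hence also of `mono α (mp) '' ball U (2T)`; the linear map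
`ev α (mp)` from the functions supported on `ball U (2T)` onto `L` has kernel inside the kernel of
`ev α (mq)` (`LinearMap` factorisation: `Submodule.liftQ` or `LinearMap.exists_extend`-like; or choose
a basis).
`ψ` is multiplicative: for `x = ∑ x_a P^{mpa}`, `y = ∑ y_b P^{mpb}` with `a, b ∈ ball U T`:
`ψ(x y) = ∑ x_a y_b ψ(P^{mp(a+b)}) = ∑ x_a y_b P^{mq(a+b)} = ψ(x) ψ(y)`; `ψ(1) = 1`.  So `ψ : L →+* ℂ`.
Its image is spanned by the `P^{mqa} ∈ L`, so `ψ` maps `L` into `L`; `L` is finite-dimensional and `ψ`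
injective, so `ψ` is a `ℚ`-algebra automorphism of `L`, an element of the finite group
`L ≃ₐ[ℚ] L`: `ψ^k = 1` for some `k ≥ 1`.
Take `0 ≠ a ∈ U` and `x = P^{ma} ∈ L`; we first need `ψ(x^p) = x^q`, where `x^p = P^{mpa}`.
By multiplicativity `ψ(P^{mpa}) = P^{mqa}` holds for `a` in the subgroup generated by
`ball U (2T)`; so choose `a ≠ 0` in `ball U (2T)`: it exists, for otherwise `ball U T ⊆ ball U (2T) = {0}`
and `L = ℚ` (span of `1`), so all `P^{mpa}`, `a ∈ U`, are rational, ... to avoid this use the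
hypothesis `hne`: `ball U T` contains a nonzero vector.
Now `ψ(x)^p = ψ(x^p) = x^q`, and inductively `ψ^i(x)^{p^i} = x^{q^i}`:
`ψ^{i+1}(x)^{p^{i+1}} = ψ(ψ^i(x)^{p^i})^p = ψ(x^{q^i})^p = (ψ(x)^p)^{q^i} = x^{q^{i+1}}`.  For
`i = k`: `x^{p^k} = x^{q^k}`, i.e. `P^{m p^k a} = P^{m q^k a}`; multiplicative independence
(`mono_inj`/`MulInd`) gives `m p^k a = m q^k a`, so `p^k = q^k`, `p = q`, contradiction. -/

namespace Pool.Agent.Lib.MP_7ab245_nt.Solv

open Module

variable {r : ℕ} (α : Fin r → ℂ)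

private theorem ev_eq (m : ℕ) (F : (Fin r → ℤ) →₀ ℚ) :
    ev α m F = Finsupp.linearCombination ℚ (mono α m) F := by
  rw [ev, Finsupp.linearCombination_apply]
  refine Finsupp.sum_congr fun a _ => ?_
  rw [Rat.smul_def]

/-- a linear map whose kernel contains the kernel of `f` factors through `f` -/
private theorem exists_factor {A V : Type*} [AddCommGroup A] [Module ℚ A] [AddCommGroup V]
    [Module ℚ V] (f g : A →ₗ[ℚ] V) (h : ∀ a, f a = 0 → g a = 0) :
    ∃ ψ : V →ₗ[ℚ] V, ∀ a, ψ (f a) = g a := by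
  obtain ⟨s, hs⟩ := LinearMap.exists_rightInverse_of_surjective f.rangeRestrict
    (LinearMap.range_rangeRestrict f)
  obtain ⟨ψ, hψ⟩ := LinearMap.exists_extend (g ∘ₗ s)
  refine ⟨ψ, fun a => ?_⟩
  have h1 : ψ (f a) = (g ∘ₗ s) (f.rangeRestrict a) := by
    rw [← hψ]
    rfl
  rw [h1]
  have h2 : f (s (f.rangeRestrict a) - a) = 0 := by
    rw [map_sub, sub_eq_zero]
    have := congrArg (fun l => (l (f.rangeRestrict a) : V)) hs
    exact this
  have h3 := h _ h2
  rw [map_sub, sub_eq_zero] at h3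
  exact h3

theorem separate (hα : ∀ i, α i ≠ 0) (hind : MulInd α) (hint : ∀ i, IsIntegral ℚ (α i))
    {m p q T : ℕ} (hm : 1 ≤ m) (hp : 1 ≤ p) (hq : 1 ≤ q) (hpq : p ≠ q)
    (U : AddSubgroup (Fin r → ℤ)) (hne : ∃ a ∈ ball U T, a ≠ 0)
    (hp' : fld α (m * p) U = fld α m U) (hq' : fld α (m * q) U = fld α m U)
    (hsat : Sat α (m * p) U T) :
    ∃ F : (Fin r → ℤ) →₀ ℚ, F.support ⊆ ball U (2 * T) ∧ ev α (m * p) F = 0 ∧
      ev α (m * q) F ≠ 0 := by
  by_contra hcon
  push Not at hcon
  -- the linear map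
  obtain ⟨ψ, hψ⟩ : ∃ ψ : ℂ →ₗ[ℚ] ℂ, ∀ a ∈ ball U (2 * T),
      ψ (mono α (m * p) a) = mono α (m * q) a := by
    obtain ⟨ψ, hψ⟩ := exists_factor
      ((Finsupp.linearCombination ℚ (mono α (m * p))).comp
        (Finsupp.supported ℚ ℚ (ball U (2 * T) : Set (Fin r → ℤ))).subtype)
      ((Finsupp.linearCombination ℚ (mono α (m * q))).comp
        (Finsupp.supported ℚ ℚ (ball U (2 * T) : Set (Fin r → ℤ))).subtype) (by
        rintro ⟨F, hF⟩ h
        rw [LinearMap.comp_apply, Submodule.subtype_apply, ← ev_eq] at h ⊢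
        refine hcon F ?_ h
        rw [Finsupp.mem_supported] at hF
        exact_mod_cast hF)
    refine ⟨ψ, fun a ha => ?_⟩
    have h1 := hψ ⟨Finsupp.single a 1, Finsupp.single_mem_supported ℚ _ (by exact_mod_cast ha)⟩
    simp only [LinearMap.comp_apply, Submodule.subtype_apply, Finsupp.linearCombination_single,
      one_smul] at h1
    exact h1
  have hball : ball U T ⊆ ball U (2 * T) := ball_mono U (by omega)
  -- the field
  have hspan : ∀ x, x ∈ fld α m U ↔
      x ∈ Submodule.span ℚ (mono α (m * p) '' (ball U T : Set (Fin r → ℤ))) := by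
    intro x
    rw [hsat, hp']
    rfl
  have hmem : ∀ a ∈ U, mono α (m * q) a ∈ fld α m U := by
    intro a ha
    rw [← hq']
    exact IntermediateField.subset_adjoin ℚ _ ⟨a, ha, rfl⟩
  have hmulψ : ∀ x ∈ fld α m U, ∀ y ∈ fld α m U, ψ (x * y) = ψ x * ψ y := by
    intro x hx y hy
    rw [hspan] at hx hy
    induction hx using Submodule.span_induction with
    | zero => simp
    | add u v _ _ hu hv => rw [add_mul, map_add, map_add, hu, hv, add_mul]
    | smul c u _ hu => rw [smul_mul_assoc, map_smul, map_smul, hu, smul_mul_assoc]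
    | mem u hu =>
      induction hy using Submodule.span_induction with
      | zero => simp
      | add v w _ _ hv hw => rw [mul_add, map_add, map_add, hv, hw, mul_add]
      | smul c v _ hv => rw [mul_smul_comm, map_smul, map_smul, hv, mul_smul_comm]
      | mem v hv =>
        obtain ⟨a, ha, rfl⟩ := hu
        obtain ⟨b, hb, rfl⟩ := hv
        have ha' : a ∈ ball U T := by exact_mod_cast ha
        have hb' : b ∈ ball U T := by exact_mod_cast hb
        have hab : a + b ∈ ball U (2 * T) := by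
          rw [two_mul]
          exact add_mem_ball ha' hb'
        rw [← mono_add α hα, hψ _ hab, hψ _ (hball ha'), hψ _ (hball hb'), ← mono_add α hα]
  have hψ1 : ψ 1 = 1 := by
    have h := hψ 0 (zero_mem_ball U _)
    rwa [mono_zero, mono_zero] at h
  have hψL : ∀ x ∈ fld α m U, ψ x ∈ fld α m U := by
    intro x hx
    rw [hspan] at hx
    induction hx using Submodule.span_induction with
    | zero => rw [map_zero]; exact zero_mem _
    | add u v _ _ hu hv => rw [map_add]; exact add_mem hu hv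
    | smul c u _ hu => rw [map_smul]; exact (fld α m U).smul_mem hu
    | mem u hu =>
      obtain ⟨a, ha, rfl⟩ := hu
      have ha' : a ∈ ball U T := by exact_mod_cast ha
      rw [hψ _ (hball ha')]
      exact hmem a (mem_ball.1 ha').1
  have hfin : FiniteDimensional ℚ (fld α m U) := fld_finite α hint m U
  -- the automorphism
  let f : (fld α m U) →ₐ[ℚ] (fld α m U) :=
    AlgHom.ofLinearMap
      ((ψ.comp (fld α m U).toSubalgebra.toSubmodule.subtype).codRestrict
        (fld α m U).toSubalgebra.toSubmodule fun x => hψL x x.2)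
      (by
        apply Subtype.ext
        exact hψ1)
      (by
        intro x y
        apply Subtype.ext
        exact hmulψ x x.2 y y.2)
  have hf : ∀ x : fld α m U, ((f x : fld α m U) : ℂ) = ψ x := fun x => rfl
  let σ : (fld α m U) ≃ₐ[ℚ] (fld α m U) := AlgEquiv.ofBijective f
    (Algebra.IsAlgebraic.algHom_bijective f)
  have hσ : ∀ x : fld α m U, ((σ x : fld α m U) : ℂ) = ψ x := fun x => rfl
  obtain ⟨k, hk0, hk⟩ := (isOfFinOrder_of_finite σ).exists_pow_eq_one
  obtain ⟨a, haT, ha0⟩ := hne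
  have haU : a ∈ U := (mem_ball.1 haT).1
  let x : fld α m U := ⟨mono α m a, IntermediateField.subset_adjoin ℚ _ ⟨a, haU, rfl⟩⟩
  have hx : σ x ^ p = x ^ q := by
    rw [← map_pow]
    apply Subtype.ext
    rw [hσ]
    change ψ (mono α m a ^ p) = mono α m a ^ q
    rw [← mono_pow, hψ _ (hball haT), mono_pow]
  have hind2 : ∀ i : ℕ, ((σ ^ i) x) ^ (p ^ i) = x ^ (q ^ i) := by
    intro i
    induction i with
    | zero => simp
    | succ i ih =>
      have h1 : (σ ^ (i + 1)) x = σ ((σ ^ i) x) := by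
        rw [pow_succ']
        rfl
      rw [h1, pow_succ p, pow_mul, ← map_pow, ih, map_pow, ← pow_mul, mul_comm, pow_mul, hx,
        ← pow_mul, pow_succ q, mul_comm]
  have h2 := hind2 k
  rw [hk] at h2
  have h3 : mono α m a ^ (p ^ k) = mono α m a ^ (q ^ k) := congrArg Subtype.val h2
  rw [← mono_pow, ← mono_pow, mono_mul_exp, mono_mul_exp] at h3
  have h4 := mono_inj α hα hind hm h3
  obtain ⟨i, hi⟩ := Function.ne_iff.1 ha0
  have h5 := congrFun h4 i
  simp only [Pi.smul_apply, smul_eq_mul] at h5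
  have h6 := mul_right_cancel₀ hi h5
  have h7 : p ^ k = q ^ k := by exact_mod_cast h6
  exact hpq (Nat.pow_left_injective (by omega : k ≠ 0) h7)

end Pool.Agent.Lib.MP_7ab245_nt.Solv
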