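import Pool.Agent.Lib.MP_7ab245_nt.Solv.IndepB
import Pool.Agent.Lib.MP_7ab245_nt.Solv.Separate

set_option autoImplicit false

/-! # Module SV-ClaimC (0.8 h). Uses IndepB, Separate, Fld, Ball, Vrk.
`claim_c`: contradiction.  Let `D = finrank ℚ (fld α m U) ≥ 1`.  Apply `indep_sum` with `k = ℚ`, `K = ℂ`,
`Γ = (Fin r → ℤ)`, `b N = ball U N`, `ι = ↥P`, `φ_p(a) = mono α (m p) a`, `t := 2T`, `M := T` and the
separating elements `F p q` from `separate` (for `p ≠ q` in `P`; `hne`, `hP`, `hsat`):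
`∑_{p ∈ P} rk ℚ α (m p) (ball U T) ≤ vrk ℚ (a ↦ (mono α (m p) a)_{p ∈ P}) (ball U (T + |P| · 2T))`
and the right-hand side is `rkS ℚ α (P.image (m * ·)) (ball U ((2C+3)T))` (reindex
`P → P.image (m * ·)` by the bijection `p ↦ m p`: a linear equivalence of the function spaces,
`vrk_comp_eq`), which by `hki` is `≤ C rk ℚ α m (ball U ((2C+3) T)) ≤ C D` (`rk_le_fld`).  The left-hand
side is `∑_p finrank (fld α (m p) U) = (C+1) D` (`rk_of_sat`).  So `(C+1) D ≤ C D`, `D ≥ 1`. -/

namespace Pool.Agent.Lib.MP_7ab245_nt.Solv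

open Module

variable {r : ℕ} (α : Fin r → ℂ)

theorem claim_c (hα : ∀ i, α i ≠ 0) (hind : MulInd α) (hint : ∀ i, IsIntegral ℚ (α i))
    {m C T : ℕ} (hm : 1 ≤ m) (U : AddSubgroup (Fin r → ℤ)) (hne : ∃ a ∈ ball U T, a ≠ 0)
    (P : Finset ℕ) (hPc : P.card = C + 1) (hP1 : ∀ p ∈ P, 1 ≤ p)
    (hP : ∀ p ∈ P, fld α (m * p) U = fld α m U) (hsat : ∀ p ∈ P, Sat α (m * p) U T)
    (hki : rkS ℚ α (P.image (m * ·)) (ball U ((2 * C + 3) * T)) ≤
      C * rk ℚ α m (ball U ((2 * C + 3) * T))) : False := by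
  classical
  set D := finrank ℚ (fld α m U) with hD
  have hDpos : 0 < D := finrank_fld_pos α hint m U
  have sep : ∀ p q : P, p ≠ q → ∃ F : (Fin r → ℤ) →₀ ℚ, F.support ⊆ ball U (2 * T) ∧
      ev α (m * p) F = 0 ∧ ev α (m * q) F ≠ 0 := by
    intro p q hpq
    exact separate α hα hind hint hm (hP1 p p.2) (hP1 q q.2) (fun h => hpq (Subtype.ext h)) U hne
      (hP p p.2) (hP q q.2) (hsat p p.2)
  let F : P → P → ((Fin r → ℤ) →₀ ℚ) := fun p q => if h : p ≠ q then (sep p q h).choose else 0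
  have hF : ∀ p q : P, ∀ h : p ≠ q, F p q = (sep p q h).choose := fun p q h => dif_pos h
  have key := indep_sum (k := ℚ) (K := ℂ) (ι := P) (fun N => ball U N) (zero_mem_ball U 0)
    (fun _ _ h => ball_mono U h) (fun _ _ _ _ hx hy => add_mem_ball hx hy)
    (fun (p : P) a => mono α (m * p) a) (fun p => mono_zero α _)
    (fun p x y => mono_add α hα _ x y) (2 * T) T F
    (by
      intro p q hpq
      rw [hF p q hpq]
      exact (sep p q hpq).choose_spec.1)
    (by
      intro p q hpq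
      rw [hF p q hpq]
      have h := (sep p q hpq).choose_spec.2.1
      simpa [ev] using h)
    (by
      intro p q hpq
      rw [hF p q hpq]
      have h := (sep p q hpq).choose_spec.2.2
      simpa [ev] using h)
  have hL : ∑ p : P, vrk ℚ (fun a => mono α (m * p) a) (ball U T) = (C + 1) * D := by
    have h1 : ∀ p : P, vrk ℚ (fun a => mono α (m * p) a) (ball U T) = D := by
      intro p
      have h2 : rk ℚ α (m * p) (ball U T) = finrank ℚ (fld α (m * p) U) :=
        rk_of_sat α hint (hsat p p.2)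
      rw [hP p p.2] at h2
      exact h2
    rw [Finset.sum_congr rfl (fun p _ => h1 p), Finset.sum_const, Finset.card_univ,
      Fintype.card_coe, hPc, smul_eq_mul]
  have hR : vrk ℚ (fun a => fun p : P => mono α (m * p) a)
      (ball U (T + Fintype.card P * (2 * T))) =
      rkS ℚ α (P.image (m * ·)) (ball U ((2 * C + 3) * T)) := by
    have hT : T + Fintype.card P * (2 * T) = (2 * C + 3) * T := by
      rw [Fintype.card_coe, hPc]
      ring
    rw [hT]
    unfold rkS
    have hsurj : Function.Surjective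
        (fun p : P => (⟨m * p, Finset.mem_image_of_mem _ p.2⟩ : P.image (m * ·))) := by
      rintro ⟨x, hx⟩
      obtain ⟨p, hp, rfl⟩ := Finset.mem_image.1 hx
      exact ⟨⟨p, hp⟩, rfl⟩
    exact vrk_comp_eq (fun a => fun m' : P.image (m * ·) => mono α (m' : ℕ) a)
      (LinearMap.funLeft ℚ ℂ
        (fun p : P => (⟨m * p, Finset.mem_image_of_mem _ p.2⟩ : P.image (m * ·))))
      (LinearMap.funLeft_injective_of_surjective ℚ ℂ _ hsurj) (ball U ((2 * C + 3) * T))
  have hfin : rk ℚ α m (ball U ((2 * C + 3) * T)) ≤ D :=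
    rk_le_fld α hint m U _ (fun a ha => (mem_ball.1 ha).1)
  have h3 : (C + 1) * D ≤ C * D := by
    calc (C + 1) * D = ∑ p : P, vrk ℚ (fun a => mono α (m * p) a) (ball U T) := hL.symm
      _ ≤ _ := key
      _ = _ := hR
      _ ≤ _ := hki
      _ ≤ C * D := Nat.mul_le_mul_left C hfin
  have h4 : (C + 1) * D = C * D + D := by ring
  omega

end Pool.Agent.Lib.MP_7ab245_nt.Solv
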