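import Pool.Agent.Lib.MP_7ab245_nt.Solv.Defs

set_option autoImplicit false

/-! # Module SV-Coords (1.0 h). Only Mathlib.
`exists_coords`: a subspace `V ⊆ ℝ^I` is controlled by `dim V` coordinates.
PROOF.  `ρ = dim V`, basis `v_1..v_ρ` of `V` (`Module.finBasis`).  For `f : Fin ρ → I` let
`D(f) = |det (v_j (f i))_{i,j}|`; the coordinate functions separate points of `V`, so `D(f) > 0` for some
`f` (the `I × ρ` matrix of the basis has rank `ρ`: `Matrix.rank`, or: the coordinate functionals span the
dual of `V`, choose a basis of the dual among them).  Take `f` with `D(f)` maximal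
(`Finite.exists_max`), `J = image f`.  Let `v ∈ V`, `i ∈ I`.  The functional `v ↦ v i` on `V` is
`∑_l λ_l v(f_l)` (the functionals `v(f_l)` form a basis of the dual), and by Cramer
`λ_l = det(f with f_l replaced by i) / det(f)`, so `|λ_l| ≤ 1` by maximality.  Hence
`|v i| ≤ ∑_l |v (f l)| = ∑_{j ∈ J} |v j|` (`f` is injective since `D(f) ≠ 0`). -/

namespace Pool.Agent.Lib.MP_7ab245_nt.Solv

open Module

/-- the coordinate functionals -/
private noncomputable def cf {I : Type*} (V : Submodule ℝ (I → ℝ)) (i : I) : Module.Dual ℝ V :=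
  (LinearMap.proj i).comp V.subtype

private theorem cf_apply {I : Type*} (V : Submodule ℝ (I → ℝ)) (i : I) (v : V) :
    cf V i v = (v : I → ℝ) i := rfl

private theorem cf_span {I : Type*} [Fintype I] (V : Submodule ℝ (I → ℝ)) :
    Submodule.span ℝ (Set.range (cf V)) = ⊤ := by
  classical
  rw [Submodule.eq_top_iff']
  intro φ
  obtain ⟨ψ, hψ⟩ := LinearMap.dualMap_surjective_of_injective (f := V.subtype)
    (Submodule.injective_subtype V) φ
  have h1 : φ = ∑ i, ψ (Pi.single i 1) • cf V i := by
    ext v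
    rw [← hψ, LinearMap.dualMap_apply, LinearMap.sum_apply]
    have h2 := LinearMap.pi_apply_eq_sum_univ ψ (v : I → ℝ)
    rw [Submodule.subtype_apply, h2]
    refine Finset.sum_congr rfl fun i _ => ?_
    rw [LinearMap.smul_apply, cf_apply, smul_eq_mul, smul_eq_mul, mul_comm]
    congr 2
    ext j
    rw [Pi.single_apply]
    simp only [eq_comm]
  rw [h1]
  exact Submodule.sum_mem _ fun i _ => Submodule.smul_mem _ _ (Submodule.subset_span ⟨i, rfl⟩)

theorem exists_coords {I : Type*} [Fintype I] (V : Submodule ℝ (I → ℝ)) :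
    ∃ J : Finset I, J.card ≤ finrank ℝ V ∧ ∀ v ∈ V, ∀ i, |v i| ≤ ∑ j ∈ J, |v j| := by
  classical
  obtain ⟨f₀, hf1, hf2, hf3⟩ := Submodule.exists_fun_fin_finrank_span_eq ℝ (Set.range (cf V))
  have hn : finrank ℝ (Submodule.span ℝ (Set.range (cf V))) = finrank ℝ V := by
    rw [cf_span, finrank_top, Subspace.dual_finrank_eq]
  generalize finrank ℝ (Submodule.span ℝ (Set.range (cf V))) = n at f₀ hf1 hf2 hf3 hn
  rw [cf_span] at hf2
  choose g₀ hg₀ using hf1
  let B₀ : Module.Basis (Fin n) ℝ (Module.Dual ℝ V) := Module.Basis.mk hf3 hf2.ge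
  have hB₀ : ⇑B₀ = cf V ∘ g₀ := by
    ext1 l
    rw [Module.Basis.mk_apply, Function.comp_apply, hg₀]
  have : Nonempty (Fin n → I) := ⟨g₀⟩
  obtain ⟨g, hg⟩ := Finite.exists_max (fun g : Fin n → I => |B₀.det (cf V ∘ g)|)
  have hpos : 0 < |B₀.det (cf V ∘ g)| := by
    have h1 := hg g₀
    beta_reduce at h1
    rw [← hB₀, B₀.det_self, abs_one] at h1
    linarith
  have hne : B₀.det (cf V ∘ g) ≠ 0 := abs_pos.mp hpos
  obtain ⟨hli, hsp⟩ := (Module.Basis.is_basis_iff_det B₀).mpr (isUnit_iff_ne_zero.mpr hne)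
  let w : Module.Basis (Fin n) ℝ (Module.Dual ℝ V) := Module.Basis.mk hli hsp.ge
  have hw : ⇑w = cf V ∘ g := by
    ext1 l
    rw [Module.Basis.mk_apply]
  have hc : ∀ i l, |w.repr (cf V i) l| ≤ 1 := by
    intro i l
    have h1 : B₀.det (cf V ∘ Function.update g l i) = B₀.det (cf V ∘ g) * w.repr (cf V i) l := by
      rw [Function.comp_update, ← hw]
      have h2 := AlternatingMap.eq_smul_basis_det w B₀.det
      have h3 : B₀.det (Function.update (⇑w) l (cf V i)) =
          B₀.det w * w.det (Function.update (⇑w) l (cf V i)) := by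
        conv_lhs => rw [h2]
        rfl
      rw [h3, Module.Basis.det_apply w, w.toMatrix_update, w.toMatrix_self, ← Matrix.cramer_apply,
        Matrix.cramer_one]
      rfl
    have h2 := hg (Function.update g l i)
    beta_reduce at h2
    rw [h1, abs_mul] at h2
    by_contra hcon
    push Not at hcon
    have h3 := mul_lt_mul_of_pos_left hcon hpos
    linarith
  have hginj : Function.Injective g := by
    intro a b hab
    have h1 : w a = w b := by
      rw [hw, Function.comp_apply, Function.comp_apply, hab]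
    exact w.injective h1
  refine ⟨Finset.univ.image g, ?_, fun v hv i => ?_⟩
  · refine Finset.card_image_le.trans ?_
    rw [Finset.card_univ, Fintype.card_fin, hn]
  · rw [Finset.sum_image (fun a _ b _ h => hginj h)]
    have h1 : v i = ∑ l, w.repr (cf V i) l * v (g l) := by
      have h2 := congrArg (fun φ : Module.Dual ℝ V => φ ⟨v, hv⟩) (w.sum_repr (cf V i))
      simp only [LinearMap.sum_apply, LinearMap.smul_apply, hw, Function.comp_apply, cf_apply,
        smul_eq_mul] at h2
      exact h2.symm
    rw [h1]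
    refine (Finset.abs_sum_le_sum_abs _ _).trans (Finset.sum_le_sum fun l _ => ?_)
    rw [abs_mul]
    exact mul_le_of_le_one_left (abs_nonneg _) (hc i l)

end Pool.Agent.Lib.MP_7ab245_nt.Solv
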