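import Pool.Agent.Lib.MP_7ab245_nt.Solv.Coords
import Pool.Agent.Lib.MP_7ab245_nt.Solv.Vrk

set_option autoImplicit false

/-! # Module SV-CoordsField (0.6 h). Uses Coords.
`coords_field`: let `c : Ω → (G × Bool → ℝ)`, `c v i = coord ι w i v`: additive and `ℚ`-linear.  Let
`V = span ℝ {c (φ a) : a ∈ E}`; its real dimension is `≤ vrk ℚ φ E`: if `A ⊆ E` is such that `φ '' A`
is a basis of `span ℚ (φ '' E)` (`exists_linearIndependent` etc.), every `φ a` is a rational combination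
of the `φ a'`, `a' ∈ A`, hence `c (φ a)` a real combination of the `c (φ a')`, so `V` is spanned by
`card A` vectors.  For `v ∈ span ℚ (φ '' E)` `c v ∈ V` (`Submodule.span_induction`).  Apply
`exists_coords`. -/

namespace Pool.Agent.Lib.MP_7ab245_nt.Solv

open Module

theorem coord_add {Ω : Type*} [Field Ω] [NumberField Ω] (ι : Ω →+* ℂ)
    (w : (Ω ≃ₐ[ℚ] Ω) → ℝ) (i : (Ω ≃ₐ[ℚ] Ω) × Bool) (u v : Ω) :
    coord ι w i (u + v) = coord ι w i u + coord ι w i v := by
  unfold coord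
  split_ifs
  · simp [map_add, add_div]
  · simp [map_add, add_div]

theorem coord_sub {Ω : Type*} [Field Ω] [NumberField Ω] (ι : Ω →+* ℂ)
    (w : (Ω ≃ₐ[ℚ] Ω) → ℝ) (i : (Ω ≃ₐ[ℚ] Ω) × Bool) (u v : Ω) :
    coord ι w i (u - v) = coord ι w i u - coord ι w i v := by
  unfold coord
  split_ifs
  · simp [map_sub, sub_div]
  · simp [map_sub, sub_div]

theorem coord_abs_le {Ω : Type*} [Field Ω] [NumberField Ω] (ι : Ω →+* ℂ)
    (w : (Ω ≃ₐ[ℚ] Ω) → ℝ) (hw : ∀ σ, 0 < w σ) (i : (Ω ≃ₐ[ℚ] Ω) × Bool) (v : Ω) :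
    |coord ι w i v| ≤ ‖ι (i.1 v)‖ / w i.1 := by
  unfold coord
  have h := hw i.1
  split_ifs
  · rw [abs_div, abs_of_pos h]
    exact div_le_div_of_nonneg_right (Complex.abs_re_le_norm _) h.le
  · rw [abs_div, abs_of_pos h]
    exact div_le_div_of_nonneg_right (Complex.abs_im_le_norm _) h.le

/-- if both coordinates at `σ` are at most `1/4` then `‖ι (σ v)‖ < w σ / 2` -/
theorem norm_lt_of_coord {Ω : Type*} [Field Ω] [NumberField Ω] (ι : Ω →+* ℂ)
    (w : (Ω ≃ₐ[ℚ] Ω) → ℝ) (hw : ∀ σ, 0 < w σ) (σ : Ω ≃ₐ[ℚ] Ω) (v : Ω)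
    (h : ∀ b : Bool, |coord ι w (σ, b) v| ≤ 1 / 4) : ‖ι (σ v)‖ < w σ / 2 := by
  have h1 := h true
  have h2 := h false
  have hpos := hw σ
  unfold coord at h1 h2
  simp only [if_true, Bool.false_eq_true, if_false] at h1 h2
  rw [abs_div, abs_of_pos hpos, div_le_iff₀ hpos] at h1 h2
  have h3 : ‖ι (σ v)‖ ^ 2 = (ι (σ v)).re ^ 2 + (ι (σ v)).im ^ 2 := by
    rw [← Complex.normSq_eq_norm_sq, Complex.normSq_apply]; ring
  have h4 : (ι (σ v)).re ^ 2 ≤ (1 / 4 * w σ) ^ 2 := by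
    rw [← sq_abs (ι (σ v)).re]
    exact pow_le_pow_left₀ (abs_nonneg _) h1 2
  have h5 : (ι (σ v)).im ^ 2 ≤ (1 / 4 * w σ) ^ 2 := by
    rw [← sq_abs (ι (σ v)).im]
    exact pow_le_pow_left₀ (abs_nonneg _) h2 2
  have h6 : ‖ι (σ v)‖ ^ 2 < (w σ / 2) ^ 2 := by
    rw [h3]
    have : (0 : ℝ) < w σ ^ 2 := by positivity
    nlinarith
  exact lt_of_pow_lt_pow_left₀ 2 (by positivity) h6

theorem coords_field {Ω Γ : Type*} [Field Ω] [NumberField Ω] (ι : Ω →+* ℂ)
    (w : (Ω ≃ₐ[ℚ] Ω) → ℝ) (φ : Γ → Ω) (E : Finset Γ) :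
    ∃ J : Finset ((Ω ≃ₐ[ℚ] Ω) × Bool), J.card ≤ vrk ℚ φ E ∧
      ∀ v ∈ Submodule.span ℚ (φ '' (E : Set Γ)), ∀ i,
        |coord ι w i v| ≤ ∑ j ∈ J, |coord ι w j v| := by
  classical
  have hq : ∀ (i : (Ω ≃ₐ[ℚ] Ω) × Bool) (q : ℚ) (v : Ω),
      coord ι w i (q • v) = (q : ℝ) * coord ι w i v := by
    intro i q v
    have h1 : ι (i.1 (q • v)) = (q : ℂ) * ι (i.1 v) := by
      rw [Algebra.smul_def, eq_ratCast, map_mul, map_ratCast, map_mul, map_ratCast]
    unfold coord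
    rw [h1]
    split_ifs
    · rw [Complex.mul_re]
      simp
      ring
    · rw [Complex.mul_im]
      simp
      ring
  let c : Ω →ₗ[ℚ] (((Ω ≃ₐ[ℚ] Ω) × Bool) → ℝ) :=
    { toFun := fun v i => coord ι w i v
      map_add' := by
        intro u v
        funext i
        exact coord_add ι w i u v
      map_smul' := by
        intro q v
        funext i
        simp only [RingHom.id_apply, Pi.smul_apply]
        rw [hq i q v, Rat.smul_def] }
  obtain ⟨A, hAE, hAcard, hAli⟩ := vrk_exists_basis (k := ℚ) φ E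
  have hspanA : Submodule.span ℚ (φ '' (A : Set Γ)) = Submodule.span ℚ (φ '' (E : Set Γ)) := by
    have hfin : FiniteDimensional ℚ (Submodule.span ℚ (φ '' (E : Set Γ))) :=
      FiniteDimensional.span_of_finite ℚ (E.finite_toSet.image φ)
    apply Submodule.eq_of_le_of_finrank_le
    · exact Submodule.span_mono (Set.image_mono (Finset.coe_subset.mpr hAE))
    · have h1 := vrk_eq_card φ A hAli
      unfold vrk at h1 hAcard
      rw [h1, hAcard]
  let V : Submodule ℝ (((Ω ≃ₐ[ℚ] Ω) × Bool) → ℝ) := Submodule.span ℝ (c '' (φ '' (A : Set Γ)))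
  have hV : finrank ℝ V ≤ vrk ℚ φ E := by
    rw [← hAcard]
    have h1 : c '' (φ '' (A : Set Γ)) = ((A.image (fun a => c (φ a)) : Finset _) : Set _) := by
      rw [Finset.coe_image, Set.image_image]
    show finrank ℝ (Submodule.span ℝ (c '' (φ '' (A : Set Γ)))) ≤ _
    rw [h1]
    exact (finrank_span_finset_le_card _).trans Finset.card_image_le
  obtain ⟨J, hJ, hJV⟩ := exists_coords V
  refine ⟨J, hJ.trans hV, ?_⟩
  intro v hv i
  have hcv : c v ∈ V := by
    rw [← hspanA] at hv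
    induction hv using Submodule.span_induction with
    | mem x hx => exact Submodule.subset_span ⟨x, hx, rfl⟩
    | zero => rw [map_zero]; exact V.zero_mem
    | add x y _ _ hx hy => rw [map_add]; exact V.add_mem hx hy
    | smul q x _ hx =>
      rw [map_smul]
      have h1 : q • c x = (q : ℝ) • c x := by
        funext i
        simp [Rat.smul_def]
      rw [h1]
      exact V.smul_mem _ hx
  exact hJV (c v) hcv i

end Pool.Agent.Lib.MP_7ab245_nt.Solv
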