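import Pool.Agent.Lib.MP_7ab245_nt.Solv.Fld

set_option autoImplicit false

/-! # Module SV-CycB (1.2 h). Uses Fld (only `big_finite`).
`cyc_count`: if `L` is a finite extension of `ℚ` in `ℂ` and `L ⊓ ℚ(ζ_p) ≠ ⊥` for all primes `p` in the
finite set `P`, then `2^|P| ≤ [L : ℚ]`. -/

namespace Pool.Agent.Lib.MP_7ab245_nt.Solv

open Module

variable {r : ℕ} (α : Fin r → ℂ)

section gen

variable {K L : Type*} [Field K] [Field L] [Algebra K L]

private theorem gen_isCyc (N : ℕ) (hN : N ≠ 0) {ζ : L} (hζ : IsPrimitiveRoot ζ N) :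
    IsCyclotomicExtension {N} K (IntermediateField.adjoin K {ζ}) := by
  have : NeZero N := ⟨hN⟩
  exact (IntermediateField.isCyclotomicExtension_singleton_iff_eq_adjoin N K L _ hζ).mpr rfl

private theorem gen_fd (N : ℕ) (hN : N ≠ 0) {ζ : L} (hζ : IsPrimitiveRoot ζ N) :
    FiniteDimensional K (IntermediateField.adjoin K {ζ}) := by
  have : NeZero N := ⟨hN⟩
  have := gen_isCyc (K := K) N hN hζ
  exact IsCyclotomicExtension.finite_of_singleton N K (IntermediateField.adjoin K {ζ})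

private theorem gen_le (N M : ℕ) (hN : N ≠ 0) (hM : M ≠ 0) (h : N ∣ M) {ζ ζ' : L}
    (hζ : IsPrimitiveRoot ζ N) (hζ' : IsPrimitiveRoot ζ' M) :
    IntermediateField.adjoin K {ζ} ≤ IntermediateField.adjoin K {ζ'} := by
  have : NeZero M := ⟨hM⟩
  have := gen_isCyc (K := K) N hN hζ
  have := gen_isCyc (K := K) M hM hζ'
  exact IntermediateField.isCyclotomicExtension_le_of_dvd K L N M _ _ h

private theorem gen_disj (hirr : ∀ n : ℕ, 0 < n → Irreducible (Polynomial.cyclotomic n K))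
    (N M : ℕ) (hN : N ≠ 0) (hM : M ≠ 0) (h : N.Coprime M) {ζ ζ' : L}
    (hζ : IsPrimitiveRoot ζ N) (hζ' : IsPrimitiveRoot ζ' M) :
    (IntermediateField.adjoin K {ζ}).LinearDisjoint (IntermediateField.adjoin K {ζ'}) := by
  have : NeZero N := ⟨hN⟩
  have : NeZero M := ⟨hM⟩
  have : NeZero (N.lcm M) := ⟨Nat.lcm_ne_zero hN hM⟩
  have := gen_isCyc (K := K) N hN hζ
  have := gen_isCyc (K := K) M hM hζ'
  have := gen_fd (K := K) N hN hζ
  have := gen_fd (K := K) M hM hζ'
  apply IntermediateField.LinearDisjoint.of_finrank_sup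
  have := IntermediateField.isCyclotomicExtension_lcm_sup K L N M (IntermediateField.adjoin K {ζ})
    (IntermediateField.adjoin K {ζ'})
  rw [IsCyclotomicExtension.finrank (n := N.lcm M) (IntermediateField.adjoin K {ζ} ⊔
      IntermediateField.adjoin K {ζ'} : IntermediateField K L)
    (hirr _ (Nat.pos_of_ne_zero (NeZero.ne _))),
    IsCyclotomicExtension.finrank (n := N) (IntermediateField.adjoin K {ζ})
      (hirr _ (Nat.pos_of_ne_zero hN)),
    IsCyclotomicExtension.finrank (n := M) (IntermediateField.adjoin K {ζ'})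
      (hirr _ (Nat.pos_of_ne_zero hM)), h.lcm_eq_mul, Nat.totient_mul h]

end gen

private theorem cyc_fd (N : ℕ) (hN : N ≠ 0) : FiniteDimensional ℚ (cyc N) :=
  gen_fd N hN (Complex.isPrimitiveRoot_exp N hN)

private theorem cyc_sup_le (N M : ℕ) (hN : N ≠ 0) (hM : M ≠ 0) : cyc N ⊔ cyc M ≤ cyc (N * M) := by
  have hNM := mul_ne_zero hN hM
  apply sup_le
  · exact gen_le N (N * M) hN hNM (dvd_mul_right _ _) (Complex.isPrimitiveRoot_exp N hN)
      (Complex.isPrimitiveRoot_exp (N * M) hNM)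
  · exact gen_le M (N * M) hM hNM (dvd_mul_left _ _) (Complex.isPrimitiveRoot_exp M hM)
      (Complex.isPrimitiveRoot_exp (N * M) hNM)

private theorem cyc_disj (N M : ℕ) (hN : N ≠ 0) (hM : M ≠ 0) (h : N.Coprime M) :
    (cyc N).LinearDisjoint (cyc M) :=
  gen_disj (fun _ hn => Polynomial.cyclotomic.irreducible_rat hn) N M hN hM h
    (Complex.isPrimitiveRoot_exp N hN) (Complex.isPrimitiveRoot_exp M hM)

private theorem aux (L : IntermediateField ℚ ℂ) (P : Finset ℕ) :
    (∀ p ∈ P, p.Prime ∧ L ⊓ cyc p ≠ ⊥) → ∃ E : IntermediateField ℚ ℂ, E ≤ L ∧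
      E ≤ cyc (∏ p ∈ P, p) ∧ 2 ^ P.card ≤ finrank ℚ E := by
  classical
  induction P using Finset.induction_on with
  | empty =>
    intro _
    exact ⟨⊥, bot_le, bot_le, by simp⟩
  | insert p P hpP ih =>
    intro hP
    obtain ⟨E, hEL, hEc, hE⟩ := ih fun q hq => hP q (Finset.mem_insert_of_mem hq)
    obtain ⟨hp, hne⟩ := hP p (Finset.mem_insert_self _ _)
    have hN : ∏ q ∈ P, q ≠ 0 := Finset.prod_ne_zero_iff.mpr fun q hq =>
      (hP q (Finset.mem_insert_of_mem hq)).1.ne_zero
    have hcop : (∏ q ∈ P, q).Coprime p := by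
      apply Nat.Coprime.prod_left
      intro q hq
      rw [Nat.coprime_primes (hP q (Finset.mem_insert_of_mem hq)).1 hp]
      rintro rfl
      exact hpP hq
    have := cyc_fd p hp.ne_zero
    have hle : L ⊓ cyc p ≤ cyc p := inf_le_right
    have : FiniteDimensional ℚ (L ⊓ cyc p : IntermediateField ℚ ℂ) :=
      FiniteDimensional.of_injective (IntermediateField.inclusion hle).toLinearMap
        (IntermediateField.inclusion hle).injective
    have h2 : 2 ≤ finrank ℚ (L ⊓ cyc p : IntermediateField ℚ ℂ) := by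
      have h1 : finrank ℚ (L ⊓ cyc p : IntermediateField ℚ ℂ) ≠ 1 := fun h =>
        hne (IntermediateField.finrank_eq_one_iff.mp h)
      have h0 : 0 < finrank ℚ (L ⊓ cyc p : IntermediateField ℚ ℂ) := finrank_pos
      omega
    have hdis : E.LinearDisjoint (L ⊓ cyc p : IntermediateField ℚ ℂ) :=
      (cyc_disj _ p hN hp.ne_zero hcop).of_le hEc hle
    refine ⟨E ⊔ (L ⊓ cyc p), sup_le hEL inf_le_left, ?_, ?_⟩
    · rw [Finset.prod_insert hpP, mul_comm]
      exact (sup_le_sup hEc hle).trans (cyc_sup_le _ p hN hp.ne_zero)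
    · rw [hdis.finrank_sup, Finset.card_insert_of_notMem hpP, pow_succ]
      exact Nat.mul_le_mul hE h2

theorem cyc_count (hint : ∀ i, IsIntegral ℚ (α i)) (P : Finset ℕ)
    (hP : ∀ p ∈ P, p.Prime ∧ big α ⊓ cyc p ≠ ⊥) : 2 ^ P.card ≤ finrank ℚ (big α) := by
  obtain ⟨E, hEL, -, hE⟩ := aux (big α) P hP
  have := big_finite α hint
  exact hE.trans (LinearMap.finrank_le_finrank_of_injective
    (f := (IntermediateField.inclusion hEL).toLinearMap) (IntermediateField.inclusion hEL).injective)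

end Pool.Agent.Lib.MP_7ab245_nt.Solv
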