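import Pool.Agent.Lib.MP_7ab245_nt.Solv.IndexRank

set_option autoImplicit false

/-! # Module SV-GradedRank (0.8 h). Uses IndexRank, Ball.
`graded_rank`.  Among the `F` with `Rel α m U t F` choose one with minimal `F.support.card` (there is
one: `F0`).  Let `p ∈ P`.  `F` is the sum of its parts `part (χ p) j F`, `j ∈ ZMod p`, so some part is
nonzero, it is supported in `supp F ⊆ ball U t` and `ev = 0` by `Graded`: it is a relation, so by minimality
its support is all of `supp F`; i.e. `χ p` is constant (`= j`) on `supp F`.  This holds for all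
`p ∈ P`, so the map `q : U → ∏_{p ∈ P} ZMod p`, `u ↦ (χ p u)_p` is constant on `supp F`; it is surjective
(`prod_surjective`) and the target has `∏ p` elements (`card_prod`).  `index_rank` finishes. -/

namespace Pool.Agent.Lib.MP_7ab245_nt.Solv

open Module

variable {r : ℕ} (α : Fin r → ℂ)

theorem graded_rank (m t : ℕ) (U : AddSubgroup (Fin r → ℤ)) (F0 : (Fin r → ℤ) →₀ ℚ)
    (hF0 : Rel α m U t F0) (P : Finset ℕ) (hP : ∀ p ∈ P, p.Prime) (χ : ∀ p : ℕ, U →+ ZMod p)
    (hχ : ∀ p ∈ P, χ p ≠ 0 ∧ Graded α m U t (χ p))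
    (hbig : (4 * r * t + 1) ^ r < ∏ p ∈ P, p) :
    ∃ F, Rel α m U t F ∧ finrank ℤ (dspan F.support) < finrank ℤ U := by
  classical
  have hex : ∃ n : ℕ, ∃ F, Rel α m U t F ∧ F.support.card = n := ⟨_, F0, hF0, rfl⟩
  obtain ⟨F, hF, hFn⟩ := Nat.find_spec hex
  have hmin : ∀ F', Rel α m U t F' → F.support.card ≤ F'.support.card := by
    intro F' hF'
    rw [hFn]
    exact Nat.find_min' hex ⟨F', hF', rfl⟩
  refine ⟨F, hF, ?_⟩
  have hne : F.support.Nonempty := Finsupp.support_nonempty_iff.2 hF.1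
  obtain ⟨a₀, ha₀⟩ := hne
  have hU : ∀ a ∈ F.support, a ∈ U := fun a ha => by
    have := hF.2.1 ha
    exact (mem_ball.1 this).1
  have hconst : ∀ p ∈ P, ∀ a ∈ F.support, ∃ h : a ∈ U, χ p ⟨a, h⟩ = χ p ⟨a₀, hU a₀ ha₀⟩ := by
    intro p hp
    set j := χ p ⟨a₀, hU a₀ ha₀⟩ with hj
    have hsupp : (part (χ p) j F).support =
        F.support.filter fun a => ∃ h : a ∈ U, χ p ⟨a, h⟩ = j := by
      unfold part
      rw [Finsupp.support_filter]
    have hrel : Rel α m U t (part (χ p) j F) := by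
      refine ⟨?_, ?_, ?_⟩
      · rw [← Finsupp.support_nonempty_iff, hsupp]
        exact ⟨a₀, Finset.mem_filter.2 ⟨ha₀, hU a₀ ha₀, rfl⟩⟩
      · rw [hsupp]
        exact (Finset.filter_subset _ _).trans hF.2.1
      · exact (hχ p hp).2 F hF.2.1 hF.2.2 j
    have h1 := hmin _ hrel
    rw [hsupp] at h1
    have h2 := Finset.eq_of_subset_of_card_le (Finset.filter_subset _ _) h1
    intro a ha
    rw [← h2, Finset.mem_filter] at ha
    exact ha.2
  have hNZ : ∀ p : P, NeZero (p : ℕ) := fun p => ⟨(hP p p.2).ne_zero⟩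
  refine index_rank U t F.support hF.2.1 (Q := ∀ p : P, ZMod (p : ℕ)) _
    (prod_surjective U P hP χ fun p hp => (hχ p hp).1) ?_ ?_
  · intro a ha b hb haF hbF
    funext p
    obtain ⟨_, h1⟩ := hconst p p.2 a haF
    obtain ⟨_, h2⟩ := hconst p p.2 b hbF
    change χ (p : ℕ) ⟨a, ha⟩ = χ (p : ℕ) ⟨b, hb⟩
    rw [h1, h2]
  · rw [card_prod P hP]
    exact hbig

end Pool.Agent.Lib.MP_7ab245_nt.Solv
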