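import Pool.Agent.Lib.MP_7ab245_nt.Solv.HalfC
import Pool.Agent.Lib.MP_7ab245_nt.Solv.Fld

set_option autoImplicit false

/-! # Module SV-Growth (0.8 h). Uses HalfC, Fld, Ball.
`growth`.  `H(N) = rk ℚ α m (ball U N)`, nondecreasing, `H(M') ≥ 1` (`0 ∈ ball`, `mono 0 = 1`).  There is
`i ≤ k` with `2 H(2^(i+1) M') < 3 H(2^i M')`; otherwise `H(2^(k+1) M') ≥ (3/2)^(k+1) H(M')`, so
`3^(k+1) H(M') ≤ 2^(k+1) H(M) ≤ 2^(k+1) C H(M')`, `3^(k+1) ≤ 2^(k+1) C < 2 · 3^k`: contradiction.
Let `N = 2^i M'`, `V = span ℚ (mono α m '' ball U N) ⊆ ℂ`, `1 ∈ V`.  `V * V` is spanned by the products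
`P^{ma} P^{mb} = P^{m(a+b)}` (`Submodule.span_mul_span`), `a + b ∈ ball U (2N)`, so
`V * V ≤ span (mono '' ball U (2N)) =: V'` and `2 dim (V V) < 3 dim V`.  `three_halves`: `V * V = F`, an
intermediate field.  `F ⊇ V ⊇ mono '' ball U M'` (`1 ∈ V`), and `U` is generated by `ball U M'`
(`hgen`), so `F ⊇ mono '' U` (`F` is a field; `AddSubgroup.closure_induction`, `mono_add`,
`mono_neg`), so `fld α m U ≤ F`.  Conversely `F = V V ⊆ V' ⊆ span (mono '' ball U M) ⊆ fld α m U`
(`2N ≤ 2^(k+1) M' ≤ M`).  So `span (mono '' ball U M) = fld α m U`. -/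

namespace Pool.Agent.Lib.MP_7ab245_nt.Solv

open Module

variable {r : ℕ} (α : Fin r → ℂ)

/-- the span of the monomials of a ball is contained in the field -/
private theorem span_le_fld (m N : ℕ) (U : AddSubgroup (Fin r → ℤ)) :
    Submodule.span ℚ (mono α m '' (ball U N : Set (Fin r → ℤ))) ≤
      Subalgebra.toSubmodule (fld α m U).toSubalgebra := by
  rw [Submodule.span_le]
  rintro _ ⟨a, ha, rfl⟩
  change mono α m a ∈ fld α m U
  exact IntermediateField.subset_adjoin _ _ ⟨a, (mem_ball.1 ha).1, rfl⟩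

/-- the field is contained in every intermediate field containing the monomials of a generating
ball -/
private theorem fld_le_of_gen (hα : ∀ i, α i ≠ 0) (m : ℕ) (U : AddSubgroup (Fin r → ℤ)) {M' : ℕ}
    (hgen : AddSubgroup.closure (ball U M' : Set (Fin r → ℤ)) = U) (F : IntermediateField ℚ ℂ)
    (hF : ∀ a ∈ ball U M', mono α m a ∈ F) : fld α m U ≤ F := by
  unfold fld
  rw [IntermediateField.adjoin_le_iff]
  rintro _ ⟨a, ha, rfl⟩
  have ha' : a ∈ AddSubgroup.closure (ball U M' : Set (Fin r → ℤ)) := by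
    rw [hgen]
    exact ha
  change mono α m a ∈ F
  induction ha' using AddSubgroup.closure_induction with
  | mem x hx => exact hF x hx
  | zero =>
    rw [mono_zero]
    exact one_mem F
  | add x y hx hy h1 h2 =>
    rw [mono_add α hα]
    rw [hgen] at hx hy
    exact mul_mem (h1 hx) (h2 hy)
  | neg x hx h1 =>
    rw [mono_neg]
    rw [hgen] at hx
    exact inv_mem (h1 hx)

private theorem exists_small_step {k C M' M : ℕ} (H : ℕ → ℕ) (hmono : Monotone H)
    (hpos : 1 ≤ H M') (hM : 2 ^ (k + 1) * M' ≤ M) (hk : C * 2 ^ k < 3 ^ k)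
    (h : H M ≤ C * H M') : ∃ i ≤ k, 2 * H (2 ^ (i + 1) * M') < 3 * H (2 ^ i * M') := by
  by_contra hcon
  push Not at hcon
  have h1 : ∀ i ≤ k + 1, 3 ^ i * H M' ≤ 2 ^ i * H (2 ^ i * M') := by
    intro i
    induction i with
    | zero => intro _; simp
    | succ i ih =>
      intro hi
      have h2 := ih (by omega)
      have h3 := hcon i (by omega)
      calc 3 ^ (i + 1) * H M' = 3 * (3 ^ i * H M') := by ring
        _ ≤ 3 * (2 ^ i * H (2 ^ i * M')) := Nat.mul_le_mul_left _ h2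
        _ = 2 ^ i * (3 * H (2 ^ i * M')) := by ring
        _ ≤ 2 ^ i * (2 * H (2 ^ (i + 1) * M')) := Nat.mul_le_mul_left _ h3
        _ = 2 ^ (i + 1) * H (2 ^ (i + 1) * M') := by ring
  have h4 := h1 (k + 1) le_rfl
  have h5 : H (2 ^ (k + 1) * M') ≤ C * H M' := (hmono hM).trans h
  have h6 : 3 ^ (k + 1) * H M' ≤ (2 ^ (k + 1) * C) * H M' := by
    calc 3 ^ (k + 1) * H M' ≤ 2 ^ (k + 1) * H (2 ^ (k + 1) * M') := h4
      _ ≤ 2 ^ (k + 1) * (C * H M') := Nat.mul_le_mul_left _ h5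
      _ = (2 ^ (k + 1) * C) * H M' := by ring
  have h7 : 3 ^ (k + 1) ≤ 2 ^ (k + 1) * C := Nat.le_of_mul_le_mul_right h6 hpos
  have h8 : 2 ^ (k + 1) * C = 2 * (C * 2 ^ k) := by ring
  have h9 : 3 ^ (k + 1) = 3 * 3 ^ k := by ring
  omega

theorem growth (hα : ∀ i, α i ≠ 0) (m : ℕ) (U : AddSubgroup (Fin r → ℤ)) {k C M' M : ℕ}
    (hgen : AddSubgroup.closure (ball U M' : Set (Fin r → ℤ)) = U)
    (hM : 2 ^ (k + 1) * M' ≤ M) (hk : C * 2 ^ k < 3 ^ k)
    (h : rk ℚ α m (ball U M) ≤ C * rk ℚ α m (ball U M')) : Sat α m U M := by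
  have hmono : Monotone fun N => rk ℚ α m (ball U N) := by
    intro N N' hN
    exact vrk_mono _ (ball_mono U hN)
  have hpos : 1 ≤ rk ℚ α m (ball U M') := by
    have h0 : ({0} : Finset (Fin r → ℤ)) ⊆ ball U M' := by
      rw [Finset.singleton_subset_iff]
      exact zero_mem_ball U M'
    refine le_trans ?_ (vrk_mono (k := ℚ) (mono α m) h0)
    rw [vrk_eq_card]
    · simp
    · rw [Finset.coe_singleton, linearIndepOn_singleton_iff, mono_zero]
      exact one_ne_zero
  obtain ⟨i, hik, hi⟩ := exists_small_step (fun N => rk ℚ α m (ball U N)) hmono hpos hM hk h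
  set N := 2 ^ i * M' with hN
  have hN2 : 2 ^ (i + 1) * M' = N + N := by
    rw [hN, pow_succ]
    ring
  rw [hN2] at hi
  set V : Submodule ℚ ℂ := Submodule.span ℚ (mono α m '' (ball U N : Set (Fin r → ℤ))) with hV
  set V' : Submodule ℚ ℂ := Submodule.span ℚ (mono α m '' (ball U (N + N) : Set (Fin r → ℤ)))
    with hV'
  have hfinV : FiniteDimensional ℚ V :=
    FiniteDimensional.span_of_finite ℚ ((ball U N).finite_toSet.image _)
  have hfinV' : FiniteDimensional ℚ V' :=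
    FiniteDimensional.span_of_finite ℚ ((ball U (N + N)).finite_toSet.image _)
  have h1V : (1 : ℂ) ∈ V := by
    rw [← mono_zero α m]
    exact Submodule.subset_span ⟨0, zero_mem_ball U N, rfl⟩
  have hVV : V * V ≤ V' := by
    rw [hV, Submodule.span_mul_span, Submodule.span_le]
    rintro _ ⟨_, ⟨a, ha, rfl⟩, _, ⟨b, hb, rfl⟩, rfl⟩
    apply Submodule.subset_span
    refine ⟨a + b, add_mem_ball ha hb, ?_⟩
    rw [mono_add α hα]
  have hrkV : finrank ℚ V = rk ℚ α m (ball U N) := rfl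
  have hrkV' : finrank ℚ V' = rk ℚ α m (ball U (N + N)) := rfl
  have hlt : 2 * finrank ℚ (V * V : Submodule ℚ ℂ) < 3 * finrank ℚ V := by
    have h2 : finrank ℚ (V * V : Submodule ℚ ℂ) ≤ finrank ℚ V' := Submodule.finrank_mono hVV
    rw [hrkV] at *
    rw [hrkV'] at h2
    omega
  obtain ⟨F, hF⟩ := three_halves V h1V hlt
  have hVF : V ≤ Subalgebra.toSubmodule F.toSubalgebra := by
    rw [hF]
    intro x hx
    rw [← mul_one x]
    exact Submodule.mul_mem_mul hx h1V
  have hM'N : M' ≤ N := by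
    rw [hN]
    exact Nat.le_mul_of_pos_left _ (by positivity)
  have hfldF : fld α m U ≤ F := by
    apply fld_le_of_gen α hα m U hgen
    intro a ha
    exact hVF (Submodule.subset_span ⟨a, ball_mono U hM'N ha, rfl⟩)
  have hNM : N + N ≤ M := by
    rw [← hN2]
    refine le_trans (Nat.mul_le_mul_right _ ?_) hM
    exact Nat.pow_le_pow_right (by norm_num) (by omega)
  unfold Sat
  apply le_antisymm (span_le_fld α m M U)
  calc Subalgebra.toSubmodule (fld α m U).toSubalgebra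
      ≤ Subalgebra.toSubmodule F.toSubalgebra := fun x hx => hfldF hx
    _ = V * V := hF
    _ ≤ V' := hVV
    _ ≤ _ := Submodule.span_mono (Set.image_mono (by exact_mod_cast ball_mono U hNM))

end Pool.Agent.Lib.MP_7ab245_nt.Solv
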