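import Pool.Agent.Lib.MP_7ab245_nt.Solv.StepP
import Pool.Agent.Lib.MP_7ab245_nt.Solv.CycB
import Pool.Agent.Lib.MP_7ab245_nt.Solv.GradedRank
import Pool.Agent.Lib.MP_7ab245_nt.Solv.Growth

set_option autoImplicit false

/-! # Module SV-Saturate (1.0 h). Uses StepP, CycB, GradedRank, Growth.
`saturate`.  `s = finrank ℤ U ≤ r` (`finrank_le_r`).
Let `S' = {p ∈ S : big α ⊓ cyc p = ⊥}`.  By `cyc_count` `2^|S \ S'| ≤ finrank ℚ (big α) ≤ Y^e`, so
`|S \ S'| ≤ Nat.log 2 (Y^e)` and `|S'| ≥ Y - Nat.log 2 (Y^e) > r (e+1)` (`Env.card`, `Num.h5`).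
For `p ∈ S'` apply `step_p` with `M = 2^(k+1) M'`; condition
`M + p^s t + p s tU ≤ p M'`: `p > Y ≥ 2^(k+4)` gives `8 M ≤ p M'`; `p^s t ≤ p · p^(r-1) t` if `s ≥ 1`
(or `s = 0`: `t ≤ p t`) and `p^(r-1) ≤ Y^(2(r-1)) ≤ Y^(2r)`, so `p^s t ≤ p Y^(2r) t ≤ p M'/4`;
`s tU ≤ r t ≤ Y^(2r) t` (if `r = 0` then `s = 0`; `4 r + 5 ≤ Y`), so `p s tU ≤ p M' / 4`.  Here
`M' = 4 Y^(2r) t`.
(a) If for some `p ∈ S'` `rk ℚ α m (ball U M) ≤ rk ℚ α (m p) (ball U M')`, then by `hki`
`≤ C rk ℚ α m (ball U M')` and `growth` gives `Sat α m U M` (`ball U M'` generates `U` because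
`ball U t` does, `t ≤ M'`).
(b) Otherwise for every `p ∈ S'` there is `χ_p ≠ 0` with `Graded α m U t χ_p`.  Since
`(4 r t + 1)^r ≤ (Y t)^r ≤ Y^(r(e+1))` (`4r + 1 ≤ Y`, `t ≥ 1` — if `t = 0` use `Y ≥ 1` — and
`t ≤ Y^e`) `< ∏_{p ∈ S'} p` (each `p > Y`, `|S'| > r(e+1)`), `graded_rank` gives a relation with
smaller rank than `U`, which `hmin` excludes. -/

namespace Pool.Agent.Lib.MP_7ab245_nt.Solv

open Module

variable {r : ℕ} (α : Fin r → ℂ)

theorem saturate {C e k Y X : ℕ} {S : Finset ℕ} (henv : Env α C e Y X S) (hnum : Num r C e k Y)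
    (m t tU : ℕ) (htU : tU ≤ t) (hte : t ≤ Y ^ e) (U : AddSubgroup (Fin r → ℤ))
    (hgen : AddSubgroup.closure (ball U t : Set (Fin r → ℤ)) = U)
    (v : Fin (finrank ℤ U) → (Fin r → ℤ)) (hv : LinearIndependent ℤ v)
    (hvU : ∀ i, v i ∈ ball U tU)
    (F0 : (Fin r → ℤ) →₀ ℚ) (hF0 : Rel α m U t F0)
    (hmin : ∀ F, Rel α m U t F → finrank ℤ U ≤ finrank ℤ (dspan F.support))
    (hki : ∀ p ∈ S, rk ℚ α (m * p) (ball U (4 * Y ^ (2 * r) * t)) ≤
      C * rk ℚ α m (ball U (4 * Y ^ (2 * r) * t))) :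
    Sat α m U (2 ^ (k + 1) * (4 * Y ^ (2 * r) * t)) := by
  classical
  obtain ⟨s, hs⟩ : ∃ s, s = finrank ℤ U := ⟨_, rfl⟩
  have hsr : s ≤ r := hs ▸ finrank_le_r U
  have hY2 : 2 ≤ Y := by
    have h1 := hnum.h1
    have h2 : 2 ^ 4 ≤ 2 ^ (k + 4) := Nat.pow_le_pow_right (by norm_num) (by omega)
    omega
  have hY1 : 1 ≤ Y := by omega
  set W := Y ^ (2 * r) with hW
  have hW1 : 1 ≤ W := Nat.one_le_pow _ _ hY1
  have hrW : r ≤ W := by
    have h1 : r < 2 ^ r := Nat.lt_two_pow_self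
    have h2 : 2 ^ r ≤ Y ^ r := Nat.pow_le_pow_left hY2 r
    have h3 : Y ^ r ≤ Y ^ (2 * r) := Nat.pow_le_pow_right hY1 (by omega)
    omega
  set M' := 4 * W * t with hM'
  have htM' : t ≤ M' := by
    rw [hM']
    calc t = 1 * t := (one_mul t).symm
      _ ≤ 4 * W * t := Nat.mul_le_mul_right t (by omega)
  have hgen' : AddSubgroup.closure (ball U M' : Set (Fin r → ℤ)) = U := by
    apply le_antisymm
    · rw [AddSubgroup.closure_le]
      intro a ha
      have ha' : a ∈ ball U M' := by exact_mod_cast ha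
      exact (mem_ball.1 ha').1
    · conv_lhs => rw [← hgen]
      apply AddSubgroup.closure_mono
      exact_mod_cast ball_mono U htM'
  set S' := S.filter (fun p => big α ⊓ cyc p = ⊥) with hS'
  have hS'card : r * (e + 1) < S'.card := by
    have h1 : (S.filter (fun p => ¬ big α ⊓ cyc p = ⊥)).card ≤ Nat.log 2 (Y ^ e) := by
      have h2 := cyc_count α henv.int (S.filter (fun p => ¬ big α ⊓ cyc p = ⊥)) (by
        intro p hp
        rw [Finset.mem_filter] at hp
        exact ⟨henv.prime p hp.1, hp.2⟩)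
      exact Nat.le_log_of_pow_le (by norm_num) (h2.trans henv.deg)
    have h2 : S'.card + (S.filter (fun p => ¬ big α ⊓ cyc p = ⊥)).card = S.card := by
      rw [hS']
      exact Finset.card_filter_add_card_filter_not _
    have h3 := henv.card
    have h4 := hnum.h5
    have h5 : r * (e + 1) ≤ r * (e + 3) := Nat.mul_le_mul_left r (by omega)
    omega
  by_cases hex : ∃ p ∈ S', rk ℚ α m (ball U (2 ^ (k + 1) * M')) ≤ rk ℚ α (m * p) (ball U M')
  · obtain ⟨p, hp, hle⟩ := hex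
    have hpS : p ∈ S := (Finset.mem_filter.1 hp).1
    exact growth α henv.ne m U hgen' le_rfl hnum.hk (hle.trans (hki p hpS))
  · exfalso
    push Not at hex
    have hstep : ∀ p ∈ S', ∃ χ : U →+ ZMod p, χ ≠ 0 ∧ Graded α m U t χ := by
      intro p hp
      have hpS : p ∈ S := (Finset.mem_filter.1 hp).1
      have hdis : big α ⊓ cyc p = ⊥ := (Finset.mem_filter.1 hp).2
      have hpY : Y < p := henv.lo p hpS
      have hpY2 : p ≤ Y ^ 2 := henv.hi p hpS
      have hM : 2 ^ (k + 1) * M' + p ^ finrank ℤ U * t + p * finrank ℤ U * tU ≤ p * M' := by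
        rw [← hs]
        have e1 : 8 * (2 ^ (k + 1) * M') ≤ p * M' := by
          calc 8 * (2 ^ (k + 1) * M') = 2 ^ (k + 4) * M' := by
                rw [pow_add 2 k 4, pow_succ]; ring
            _ ≤ p * M' := Nat.mul_le_mul_right _ (hnum.h1.trans hpY.le)
        have e2 : p ^ s * t ≤ p * (W * t) := by
          rw [← mul_assoc]
          apply Nat.mul_le_mul_right
          rcases Nat.eq_zero_or_pos s with h0 | h0
          · rw [h0, pow_zero]
            exact Nat.mul_pos (by omega) hW1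
          · obtain ⟨s', hs'⟩ : ∃ s', s = s' + 1 := ⟨s - 1, by omega⟩
            rw [hs', pow_succ, mul_comm]
            apply Nat.mul_le_mul_left
            calc p ^ s' ≤ (Y ^ 2) ^ s' := Nat.pow_le_pow_left hpY2 _
              _ = Y ^ (2 * s') := by rw [← pow_mul]
              _ ≤ W := Nat.pow_le_pow_right hY1 (by omega)
        have e3 : p * s * tU ≤ p * (W * t) := by
          rw [mul_assoc]
          exact Nat.mul_le_mul_left p (Nat.mul_le_mul (hsr.trans hrW) htU)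
        have e4 : p * M' = 4 * (p * (W * t)) := by rw [hM']; ring
        omega
      rcases step_p α henv.ne henv.int m p (henv.prime p hpS) hdis U v hv tU hvU
        (2 ^ (k + 1) * M') M' t hM with h | h
      · exact absurd h (not_le.2 (hex p hp))
      · exact h
    choose! χ hχ using hstep
    have hbig : (4 * r * t + 1) ^ r < ∏ p ∈ S', p := by
      have e1 : 4 * r * t + 1 ≤ Y ^ (e + 1) := by
        have hYe : 1 ≤ Y ^ e := Nat.one_le_pow _ _ hY1
        calc 4 * r * t + 1 ≤ 4 * r * Y ^ e + Y ^ e :=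
              Nat.add_le_add (Nat.mul_le_mul_left _ hte) hYe
          _ = (4 * r + 1) * Y ^ e := by ring
          _ ≤ Y * Y ^ e := Nat.mul_le_mul_right _ (by have := hnum.h3; omega)
          _ = Y ^ (e + 1) := by rw [pow_succ, mul_comm]
      calc (4 * r * t + 1) ^ r ≤ (Y ^ (e + 1)) ^ r := Nat.pow_le_pow_left e1 r
        _ = Y ^ (r * (e + 1)) := by rw [← pow_mul, mul_comm]
        _ < Y ^ S'.card := Nat.pow_lt_pow_right (by omega) hS'card
        _ = ∏ p ∈ S', Y := by rw [Finset.prod_const]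
        _ ≤ ∏ p ∈ S', p := by
            apply Finset.prod_le_prod
            · intro p _
              exact Nat.zero_le _
            · intro p hp
              exact (henv.lo p (Finset.mem_filter.1 hp).1).le
    obtain ⟨F, hF, hlt⟩ := graded_rank α m t U F0 hF0 S'
      (fun p hp => henv.prime p (Finset.mem_filter.1 hp).1) χ hχ hbig
    exact absurd (hmin F hF) (not_le.2 hlt)

end Pool.Agent.Lib.MP_7ab245_nt.Solv
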