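import Pool.Agent.Lib.MP_7ab245_nt.Solv.ClaimA
import Pool.Agent.Lib.MP_7ab245_nt.Solv.ClaimC
import Pool.Agent.Lib.MP_7ab245_nt.Solv.DegDrop
import Pool.Agent.Lib.MP_7ab245_nt.Solv.Saturate

set_option autoImplicit false

/-! # Module SV-Core (1.2 h). Uses ClaimA, ClaimC, DegDrop, Saturate, Hilb, Lat, Fld.
`core`: contradiction from a relation `F0` for `P^{m0}` on `box r t` such that no `P^{m0 p}`, `p ∈ S`,
has a relation of smaller rank on `box r (t Y^2)`.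
PROOF.  `U = dspan F0.support`, `s = finrank ℤ U`.
(1) Translate: pick `a0 ∈ supp F0`; `F1 = F0.embDomain (addLeftEmbedding (-a0))` is a nonzero relation
for `P^{m0}` (`ev_translate`) supported in differences of elements of `supp F0`, so in
`ball U (2t)`: `Rel α m0 U (2t) F1`.  `U ≠ ⊥` by `hs`.
`exists_indep`: independent `v_i ∈ ball U (2t)`, `s` of them.  `U` is generated by `ball U (2t)`
(`dspan` is the closure of the differences, which are in it), hence by any larger ball.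
(2) For `p ∈ S` and `N ≤ 2tY`: KI with `S' = {p}`, `E = ball U N ⊆ box r N`, `m0 N ≤ X`, and
`rkS_singleton`: `rk ℚ α (m0 p) (ball U N) ≤ C rk ℚ α m0 (ball U N)`.  `claim_a`:
`Rel α (m0 p) U (2tY) F_p` for some `F_p`.
(3) `t' = 2tY`, `M' = 4 Y^(2r) t'`, `T = 2^(k+1) M'`.  For `p ∈ S`: `saturate` at `m = m0 p`, `t := t'`,
`tU = 2t` gives `Sat α (m0 p) U T`: `t' ≤ Y^e` since `t' ≤ m0 t Y^(2r+8) ≤ X ≤ Y^e`; `hmin` from the
hypothesis (`ball U t' ⊆ box r (t Y^2)`, `2 ≤ Y`); `hki` from KI at `m0 p`: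
`m0 p M' ≤ m0 Y^2 · 8 Y^(2r+1) t ≤ m0 t Y^(2r+4) ≤ X` (`8 ≤ Y`), `rkS_singleton`.
(4) Let `P0 = {p ∈ S : finrank (fld α (m0 p) U) < finrank (fld α m0 U)}`.  `deg_drop_count`:
`2^|P0| ≤ finrank (fld α m0 U) ≤ Y^e`, so `|P0| ≤ Nat.log 2 (Y^e)` and `S \ P0` has at least
`Y - Nat.log 2 (Y^e) ≥ C + 1` elements (`Num.h5`): choose `P ⊆ S \ P0` with `|P| = C + 1`
(`Finset.exists_subset_card_eq`).  `fld_eq`: `fld α (m0 p) U = fld α m0 U` for `p ∈ P`.
(5) `claim_c` with `m = m0`, `T`; `hki`: KI with `S' = P` (nonempty), `N = (2C+3) T`: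
`m0 (2C+3) 2^(k+1) 4 Y^(2r) 2 t Y ≤ m0 t Y^(2r+8) ≤ X` since `2C+3 ≤ Y`, `2^(k+4) ≤ Y`. -/

namespace Pool.Agent.Lib.MP_7ab245_nt.Solv

open Module

variable {r : ℕ} (α : Fin r → ℂ)

private theorem closure_ball {D : Finset (Fin r → ℤ)} {t N : ℕ} (hD : D ⊆ box r t)
    (hN : 2 * t ≤ N) : AddSubgroup.closure (ball (dspan D) N : Set (Fin r → ℤ)) = dspan D := by
  apply le_antisymm
  · rw [AddSubgroup.closure_le]
    intro x hx
    exact (mem_ball.1 (Finset.mem_coe.1 hx)).1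
  · conv_lhs => rw [dspan]
    apply AddSubgroup.closure_mono
    rintro x ⟨a, ha, b, hb, rfl⟩
    rw [Finset.mem_coe, mem_ball]
    refine ⟨AddSubgroup.subset_closure ⟨a, ha, b, hb, rfl⟩, fun i => ?_⟩
    have h1 := mem_box.1 (hD ha) i
    have h2 := mem_box.1 (hD hb) i
    have h3 : (2 * (t : ℤ)) ≤ N := by exact_mod_cast hN
    rw [Pi.sub_apply]
    exact (abs_sub _ _).trans (by linarith)

theorem core {C e k Y X : ℕ} {S : Finset ℕ} (henv : Env α C e Y X S) (hnum : Num r C e k Y)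
    (m0 t : ℕ) (hm0 : 1 ≤ m0) (ht : 1 ≤ t) (hX : m0 * t * Y ^ (2 * r + 8) ≤ X)
    (F0 : (Fin r → ℤ) →₀ ℚ) (hF0 : F0 ≠ 0) (hF0s : F0.support ⊆ box r t) (hF0e : ev α m0 F0 = 0)
    (hs : dspan F0.support ≠ ⊥)
    (hmin : ∀ p ∈ S, ∀ F : (Fin r → ℤ) →₀ ℚ, F ≠ 0 → F.support ⊆ box r (t * Y ^ 2) →
      ev α (m0 * p) F = 0 → finrank ℤ (dspan F0.support) ≤ finrank ℤ (dspan F.support)) :
    False := by
  classical
  have hα := henv.ne
  have hint := henv.int
  set U : AddSubgroup (Fin r → ℤ) := dspan F0.support with hU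
  -- numbers
  have hC1 : 1 ≤ C := hnum.hC
  have hY16 : 2 ^ (k + 4) ≤ Y := hnum.h1
  have hYC : 2 * C + 3 ≤ Y := hnum.h2
  have h16 : 16 ≤ 2 ^ (k + 4) := by
    calc 16 = 2 ^ 4 := by norm_num
      _ ≤ 2 ^ (k + 4) := Nat.pow_le_pow_right (by norm_num) (by omega)
  have hY8 : 8 ≤ Y := by omega
  have hY1 : 1 ≤ Y := by omega
  have hpow : ∀ {a b : ℕ}, a ≤ b → Y ^ a ≤ Y ^ b := fun h => Nat.pow_le_pow_right hY1 h
  have hmt : 1 ≤ m0 * t := Nat.mul_pos hm0 ht
  -- key inequality for one prime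
  have hKI : ∀ m N p, 1 ≤ m → p ∈ S → m * N ≤ X →
      rk ℚ α (m * p) (ball U N) ≤ C * rk ℚ α m (ball U N) := by
    intro m N p hm hp hN
    have := henv.ki m N {p} (ball U N) hm (Finset.singleton_subset_iff.2 hp)
      (Finset.singleton_nonempty p) (ball_subset_box U N) hN
    rwa [rkS_singleton] at this
  -- the translated relation
  obtain ⟨a0, ha0⟩ := Finsupp.support_nonempty_iff.2 hF0
  set F1 : (Fin r → ℤ) →₀ ℚ := F0.embDomain (addLeftEmbedding (-a0)) with hF1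
  have hRel1 : Rel α m0 U (2 * t) F1 := by
    refine ⟨?_, ?_, ?_⟩
    · rw [hF1, Ne, Finsupp.embDomain_eq_zero]; exact hF0
    · intro x hx
      rw [hF1, Finsupp.support_embDomain, Finset.mem_map] at hx
      obtain ⟨a, ha, rfl⟩ := hx
      rw [addLeftEmbedding_apply, mem_ball]
      refine ⟨?_, fun i => ?_⟩
      · rw [neg_add_eq_sub]
        exact AddSubgroup.subset_closure ⟨a, ha, a0, ha0, rfl⟩
      · have h1 := mem_box.1 (hF0s ha) i
        have h2 := mem_box.1 (hF0s ha0) i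
        rw [neg_add_eq_sub, Pi.sub_apply]
        refine (abs_sub _ _).trans ?_
        push_cast
        linarith
    · rw [hF1, ev_translate α hα, hF0e, mul_zero]
  obtain ⟨v, hv, hvU, -⟩ := exists_indep F0.support t hF0s
  -- sizes
  have hYe : ∀ n, n ≤ X → n ≤ Y ^ e := fun n hn => hn.trans henv.hX
  -- the relations for `P ^ (m0 p)`
  have hFp : ∀ p ∈ S, ∃ F', Rel α (m0 * p) U (2 * t * Y) F' := by
    intro p hp
    refine claim_a α hα hint hC1 U F1 hRel1 (fun N hN => hKI m0 N p hm0 hp ?_) henv.deg hnum.h4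
    calc m0 * N ≤ m0 * (2 * t * Y) := Nat.mul_le_mul_left _ hN
      _ = m0 * t * (2 * Y) := by ring
      _ ≤ m0 * t * Y ^ 2 := Nat.mul_le_mul_left _ (by nlinarith)
      _ ≤ m0 * t * Y ^ (2 * r + 8) := Nat.mul_le_mul_left _ (hpow (by omega))
      _ ≤ X := hX
  -- saturation
  have hgen : AddSubgroup.closure (ball U (2 * t * Y) : Set (Fin r → ℤ)) = U :=
    closure_ball hF0s (Nat.le_mul_of_pos_right _ hY1)
  have hsat : ∀ p ∈ S, Sat α (m0 * p) U (2 ^ (k + 1) * (4 * Y ^ (2 * r) * (2 * t * Y))) := by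
    intro p hp
    obtain ⟨F', hF'⟩ := hFp p hp
    refine saturate α henv hnum (m0 * p) (2 * t * Y) (2 * t) (Nat.le_mul_of_pos_right _ hY1) ?_ U
      hgen v hv hvU F' hF' ?_ ?_
    · apply hYe
      calc 2 * t * Y = 1 * (t * (2 * Y)) := by ring
        _ ≤ m0 * (t * Y ^ 2) := Nat.mul_le_mul hm0 (Nat.mul_le_mul_left _ (by nlinarith))
        _ = m0 * t * Y ^ 2 := by ring
        _ ≤ m0 * t * Y ^ (2 * r + 8) := Nat.mul_le_mul_left _ (hpow (by omega))
        _ ≤ X := hX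
    · intro F hF
      refine hmin p hp F hF.1 (hF.2.1.trans ((ball_subset_box U _).trans (box_mono ?_))) hF.2.2
      calc 2 * t * Y = t * (2 * Y) := by ring
        _ ≤ t * Y ^ 2 := Nat.mul_le_mul_left _ (by nlinarith)
    · intro q hq
      refine hKI (m0 * p) _ q (Nat.mul_pos hm0 (henv.prime p hp).pos) hq ?_
      calc m0 * p * (4 * Y ^ (2 * r) * (2 * t * Y))
          ≤ m0 * Y ^ 2 * (4 * Y ^ (2 * r) * (2 * t * Y)) :=
            Nat.mul_le_mul_right _ (Nat.mul_le_mul_left _ (henv.hi p hp))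
        _ = m0 * t * (8 * Y ^ (2 * r + 3)) := by ring
        _ ≤ m0 * t * (Y * Y ^ (2 * r + 3)) :=
            Nat.mul_le_mul_left _ (Nat.mul_le_mul_right _ hY8)
        _ = m0 * t * Y ^ (2 * r + 4) := by ring
        _ ≤ m0 * t * Y ^ (2 * r + 8) := Nat.mul_le_mul_left _ (hpow (by omega))
        _ ≤ X := hX
  -- primes with full degree
  set P0 : Finset ℕ :=
    S.filter fun p => finrank ℚ (fld α (m0 * p) U) < finrank ℚ (fld α m0 U) with hP0
  have hP0c : P0.card ≤ Nat.log 2 (Y ^ e) := by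
    have h1 := deg_drop_count α hα hint m0 U P0 (fun p hp => by
      rw [hP0, Finset.mem_filter] at hp
      exact ⟨henv.prime p hp.1, hp.2⟩)
    have h2 : 2 ^ P0.card ≤ Y ^ e := h1.trans ((finrank_fld_le α hint m0 U).trans henv.deg)
    exact Nat.le_log_of_pow_le (by norm_num) h2
  have hcard : C + 1 ≤ (S \ P0).card := by
    have h1 := Finset.le_card_sdiff P0 S
    have h2 := henv.card
    have h3 := hnum.h5
    have h4 : 0 ≤ r * (e + 3) := Nat.zero_le _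
    omega
  obtain ⟨P, hPS, hPc⟩ := Finset.exists_subset_card_eq hcard
  have hPS' : ∀ p ∈ P, p ∈ S := fun p hp => (Finset.mem_sdiff.1 (hPS hp)).1
  have hTle : 2 * t ≤ 2 ^ (k + 1) * (4 * Y ^ (2 * r) * (2 * t * Y)) := by
    calc 2 * t = 1 * (1 * (2 * t * 1)) := by ring
      _ ≤ 2 ^ (k + 1) * (4 * Y ^ (2 * r) * (2 * t * Y)) := by
        refine Nat.mul_le_mul Nat.one_le_two_pow (Nat.mul_le_mul ?_ (Nat.mul_le_mul_left _ hY1))
        exact Nat.mul_pos (by norm_num) (Nat.pow_pos hY1)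
  refine claim_c α hα henv.ind hint (m := m0) (C := C)
    (T := 2 ^ (k + 1) * (4 * Y ^ (2 * r) * (2 * t * Y))) hm0 U ?_ P hPc
    (fun p hp => (henv.prime p (hPS' p hp)).pos) (fun p hp => ?_) (fun p hp => hsat p (hPS' p hp))
    ?_
  · by_contra hcon
    push Not at hcon
    apply hs
    rw [hU, ← closure_ball hF0s hTle, eq_bot_iff, AddSubgroup.closure_le]
    intro x hx
    exact hcon x (Finset.mem_coe.1 hx)
  · apply fld_eq α hint
    by_contra hcon
    push Not at hcon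
    exact (Finset.mem_sdiff.1 (hPS hp)).2 (Finset.mem_filter.2 ⟨hPS' p hp, hcon⟩)
  · refine henv.ki m0 _ P _ hm0 hPS' (Finset.card_pos.1 (by omega)) (ball_subset_box _ _) ?_
    calc m0 * ((2 * C + 3) * (2 ^ (k + 1) * (4 * Y ^ (2 * r) * (2 * t * Y))))
        = m0 * t * ((2 * C + 3) * (2 ^ (k + 4) * Y ^ (2 * r + 1))) := by ring
      _ ≤ m0 * t * (Y * (Y * Y ^ (2 * r + 1))) :=
          Nat.mul_le_mul_left _ (Nat.mul_le_mul hYC (Nat.mul_le_mul_right _ hY16))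
      _ = m0 * t * Y ^ (2 * r + 3) := by ring
      _ ≤ m0 * t * Y ^ (2 * r + 8) := Nat.mul_le_mul_left _ (hpow (by omega))
      _ ≤ X := hX

end Pool.Agent.Lib.MP_7ab245_nt.Solv
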