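import Pool.Agent.Lib.MP_7ab245_nt.Solv.Fld

set_option autoImplicit false

/-! # Module SV-CycA (0.8 h). Uses Fld.
`L = big α` and `k = cyc p` with `L ⊓ k = ⊥`.  `k` is generated by a primitive `p`-th root of unity
(`Complex.isPrimitiveRoot_exp`), so it is a cyclotomic extension of `ℚ`, Galois over `ℚ`
(`IsCyclotomicExtension`, `IsCyclotomicExtension.isGalois`; `IsPrimitiveRoot.adjoin_isCyclotomicExtension`
or `IntermediateField.isCyclotomicExtension_adjoin...`), finite-dimensional.  By
`IntermediateField.LinearDisjoint.of_inf_eq_bot` `L` and `k` are linearly disjoint over `ℚ`, so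
elements of `L` which are linearly independent over `ℚ` are linearly independent over `k`
(`IntermediateField.LinearDisjoint.linearIndependent_left/right` or through `Algebra.TensorProduct`).
`rk_cyc`: the monomials lie in `L` (`mono` is a product of integer powers of the `α i`).  Take a
`ℚ`-basis `A ⊆ E` of the `ℚ`-span (`vrk_exists_basis`); it is independent over `k`, so
`rk k ≥ card A = rk ℚ`; and `rk k ≤ rk ℚ` because the `k`-span of `mono '' E` is spanned by the `mono a`,
`a ∈ A`. -/

namespace Pool.Agent.Lib.MP_7ab245_nt.Solv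

open Module

variable {r : ℕ} (α : Fin r → ℂ)

/-- the primitive root of unity in `cyc p` -/
theorem exists_zeta (p : ℕ) (hp : p.Prime) : ∃ ζ : cyc p, IsPrimitiveRoot ζ p := by
  have h1 := Complex.isPrimitiveRoot_exp p hp.ne_zero
  have hmem : Complex.exp (2 * Real.pi * Complex.I / p) ∈ cyc p :=
    IntermediateField.subset_adjoin _ _ (Set.mem_singleton _)
  refine ⟨⟨_, hmem⟩, ?_⟩
  rw [← IsPrimitiveRoot.coe_submonoidClass_iff]
  exact h1

private theorem cyc_disj_aux {K L : Type*} [Field K] [Field L] [Algebra K L] {ζ : L} {p : ℕ}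
    [NeZero p] (h1 : IsPrimitiveRoot ζ p) (A B : IntermediateField K L)
    (hA : A = IntermediateField.adjoin K {ζ}) (hB : FiniteDimensional K B) (h : A ⊓ B = ⊥) :
    A.LinearDisjoint B := by
  have h2 : IsCyclotomicExtension {p} K A :=
    (IntermediateField.isCyclotomicExtension_singleton_iff_eq_adjoin p K L A h1).2 hA
  have h3 : IsGalois K A := IsCyclotomicExtension.isGalois {p} K A
  have h4 : FiniteDimensional K A := IsCyclotomicExtension.finiteDimensional {p} K A
  exact IntermediateField.LinearDisjoint.of_inf_eq_bot h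

private theorem cyc_disj (p : ℕ) (hp : p.Prime) (hint : ∀ i, IsIntegral ℚ (α i))
    (hdis : big α ⊓ cyc p = ⊥) : (cyc p).LinearDisjoint (big α) := by
  have : NeZero p := ⟨hp.ne_zero⟩
  have h1 := Complex.isPrimitiveRoot_exp p hp.ne_zero
  rw [inf_comm] at hdis
  exact cyc_disj_aux h1 (cyc p) (big α) rfl (big_finite α hint) hdis

private theorem mono_mem_big (m : ℕ) (a : Fin r → ℤ) : mono α m a ∈ big α := by
  unfold mono
  refine prod_mem fun i _ => zpow_mem ?_ _
  exact IntermediateField.subset_adjoin _ _ ⟨i, rfl⟩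

private theorem cyc_rank {K L Γ : Type*} [Field K] [Field L] [Algebra K L]
    (A B : IntermediateField K L) (H : A.LinearDisjoint B) (f : Γ → L) (hf : ∀ a, f a ∈ B)
    (E : Finset Γ) : vrk A f E = vrk K f E := by
  apply le_antisymm
  · obtain ⟨T, hTE, hTc, hTi⟩ := vrk_exists_basis (k := A) f E
    have h1 : LinearIndepOn K f (T : Set Γ) := by
      refine LinearIndependent.restrict_scalars (K := A) ?_ hTi
      intro x y hxy
      simp only [Algebra.smul_def, mul_one] at hxy
      exact (algebraMap K A).injective hxy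
    rw [← hTc, ← vrk_eq_card f T h1]
    exact vrk_mono _ hTE
  · obtain ⟨T, hTE, hTc, hTi⟩ := vrk_exists_basis (k := K) f E
    have h1 : LinearIndepOn A f (T : Set Γ) := by
      let b : ↥(T : Set Γ) → B := fun a => ⟨f a, hf a⟩
      have hb : LinearIndependent K b := by
        apply LinearIndependent.of_comp B.val.toLinearMap
        exact hTi
      exact H.linearIndependent_right hb
    rw [← hTc, ← vrk_eq_card f T h1]
    exact vrk_mono _ hTE

theorem rk_cyc (p : ℕ) (hp : p.Prime) (hint : ∀ i, IsIntegral ℚ (α i))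
    (hdis : big α ⊓ cyc p = ⊥) (m : ℕ) (E : Finset (Fin r → ℤ)) :
    rk (cyc p) α m E = rk ℚ α m E :=
  cyc_rank (cyc p) (big α) (cyc_disj α p hp hint hdis) (mono α m) (mono_mem_big α m) E

end Pool.Agent.Lib.MP_7ab245_nt.Solv
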