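import Mathlib

set_option autoImplicit false

/-! # Module SV-Frob (0.8 h). Only Mathlib.
`exists_frob`: choose a prime ideal `P` of `𝓞 Ω` above `p` (`(p)` is not the unit ideal; Krull /
`Ideal.exists_ideal_over_prime_of_isIntegral` / `IsDedekindDomain` prime factors), nonzero;
`P : HeightOneSpectrum (𝓞 Ω)`, `v = P.valuation Ω` (values in `ℤᵐ⁰`).  `v ≤ 1` on integral elements
(`HeightOneSpectrum.valuation_le_one`, an integral element of `Ω` comes from `𝓞 Ω`), `v x < 1` iff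
`x ∈ P` (`valuation_lt_one_iff_mem`).
Frobenius: the group `Ω ≃ₐ[ℚ] Ω` acts on `𝓞 Ω` with invariants `ℤ`
(`IsGaloisGroup`/`Algebra.IsInvariant ℤ (𝓞 Ω) (Ω ≃ₐ[ℚ] Ω)`), and
`IsArithFrobAt.exists_of_isInvariant` (in Mathlib, `AlgHom.IsArithFrobAt`) gives `φ` with
`φ y - y^q ∈ P`, `q = card (ℤ ⧸ (P ∩ ℤ)) = p`. -/

namespace Pool.Agent.Lib.MP_7ab245_nt.Solv

theorem exists_frob (Ω : Type*) [Field Ω] [NumberField Ω] [IsGalois ℚ Ω] (p : ℕ)
    (hp : p.Prime) :
    ∃ (v : Valuation Ω (WithZero (Multiplicative ℤ))) (φ : Ω ≃ₐ[ℚ] Ω),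
      (∀ x, IsIntegral ℤ x → v x ≤ 1) ∧ v (p : Ω) < 1 ∧
      ∀ y : Ω, IsIntegral ℤ y → v (φ y - y ^ p) < 1 := by
  classical
  have hpp : Prime (p : ℤ) := Nat.prime_iff_prime_int.1 hp
  have hP : (Ideal.span {(p : ℤ)}).IsPrime := (Ideal.span_singleton_prime hpp.ne_zero).2 hpp
  have hinj : Function.Injective (algebraMap ℤ (NumberField.RingOfIntegers Ω)) :=
    FaithfulSMul.algebraMap_injective ℤ (NumberField.RingOfIntegers Ω)
  have hker : RingHom.ker (algebraMap ℤ (NumberField.RingOfIntegers Ω)) ≤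
      Ideal.span {(p : ℤ)} := by
    rw [(RingHom.injective_iff_ker_eq_bot _).1 hinj]
    exact bot_le
  obtain ⟨Q, hQ, hQP⟩ := Ideal.exists_ideal_over_prime_of_isIntegral_of_isDomain
    (R := ℤ) (S := NumberField.RingOfIntegers Ω) (Ideal.span {(p : ℤ)}) hker
  have hpQ : (p : NumberField.RingOfIntegers Ω) ∈ Q := by
    have h1 : (p : ℤ) ∈ Q.comap (algebraMap ℤ (NumberField.RingOfIntegers Ω)) := by
      rw [hQP]; exact Ideal.mem_span_singleton_self _
    have h2 := Ideal.mem_comap.1 h1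
    simpa using h2
  have hQ0 : Q ≠ ⊥ := by
    intro h
    rw [h, Ideal.mem_bot] at hpQ
    have h1 : (p : NumberField.RingOfIntegers Ω) ≠ 0 := by exact_mod_cast hp.ne_zero
    exact h1 hpQ
  have hfin : Finite (NumberField.RingOfIntegers Ω ⧸ Q) := Ideal.finiteQuotientOfFreeOfNeBot Q hQ0
  obtain ⟨σ, hσ⟩ := IsArithFrobAt.exists_of_isInvariant ℤ (Ω ≃ₐ[ℚ] Ω) Q
  let w : IsDedekindDomain.HeightOneSpectrum (NumberField.RingOfIntegers Ω) := ⟨Q, hQ, hQ0⟩
  have hcard : Nat.card (ℤ ⧸ Q.under ℤ) = p := by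
    have h1 : Q.under ℤ = Ideal.span {(p : ℤ)} := hQP
    rw [h1, Nat.card_congr (Int.quotientSpanNatEquivZMod p).toEquiv, Nat.card_zmod]
  refine ⟨w.valuation Ω, σ, ?_, ?_, ?_⟩
  · intro x hx
    have h1 := w.valuation_le_one (K := Ω) (⟨x, hx⟩ : NumberField.RingOfIntegers Ω)
    exact h1
  · have h1 := (w.valuation_lt_one_iff_mem (K := Ω) (p : NumberField.RingOfIntegers Ω)).2 hpQ
    simpa using h1
  · intro y hy
    let z : NumberField.RingOfIntegers Ω := ⟨y, hy⟩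
    have h1 := hσ z
    rw [hcard] at h1
    have h2 := (w.valuation_lt_one_iff_mem (K := Ω) _).2 h1
    exact h2

end Pool.Agent.Lib.MP_7ab245_nt.Solv
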