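import Pool.Agent.Lib.MP_7ab245_nt.Solv.Core

set_option autoImplicit false

/-! # Module SV-GeoMain (0.8 h). Uses Core, Lat, Ball.
`no_rel`: strong induction on `s`: for all `m, t ≥ 1` with `m t Y^(4s+2r+8) ≤ X` there is no `F ≠ 0`
supported on `box r t` with `ev α m F = 0` and `finrank ℤ (dspan F.support) = s`.
`s = 0`: `dspan F.support = ⊥` (`finrank_eq_zero`), so all elements of the support are equal,
`F = single a c`, `ev = c mono α m a ≠ 0`.
`s ≥ 1`: `dspan ≠ ⊥`; apply `core` with `m0 = m`; hypothesis `hmin`: for `p ∈ S`, `F` a nonzero relation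
for `P^{mp}` on `box r (t Y^2)` of rank `s' < s`: the induction hypothesis for `s'` at `(m p, t Y^2)`
applies, since `m p t Y^2 Y^(4s'+2r+8) ≤ m t Y^4 Y^(4s-4+2r+8) ≤ X` (`p ≤ Y^2`, `s' ≤ s - 1`,
`Y ≥ 1`).  `hX` of `core`: `Y^(2r+8) ≤ Y^(4s+2r+8)`.
`geometric_main`: `s ≤ r` (`finrank_le_r`) and `4r+2r+8 = 6r+8`. -/

namespace Pool.Agent.Lib.MP_7ab245_nt.Solv

open Module

variable {r : ℕ} (α : Fin r → ℂ)

theorem no_rel {C e k Y X : ℕ} {S : Finset ℕ} (henv : Env α C e Y X S) (hnum : Num r C e k Y)
    (s : ℕ) : ∀ m t : ℕ, 1 ≤ m → 1 ≤ t → m * t * Y ^ (4 * s + 2 * r + 8) ≤ X →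
      ∀ F : (Fin r → ℤ) →₀ ℚ, F ≠ 0 → F.support ⊆ box r t → ev α m F = 0 →
        finrank ℤ (dspan F.support) ≠ s := by
  have hY : 1 ≤ Y := by
    have := hnum.h3
    omega
  induction s using Nat.strong_induction_on with
  | _ s ih =>
    intro m t hm ht hX F hF hFs hFe hrank
    rcases Nat.eq_zero_or_pos s with hs | hs
    · rw [hs] at hrank
      have h1 : dspan F.support = ⊥ := (finrank_eq_zero _).1 hrank
      obtain ⟨a, ha⟩ := Finsupp.support_nonempty_iff.2 hF
      have h2 : ∀ b ∈ F.support, b = a := by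
        intro b hb
        have h3 : b - a ∈ dspan F.support := AddSubgroup.subset_closure ⟨b, hb, a, ha, rfl⟩
        rw [h1, AddSubgroup.mem_bot, sub_eq_zero] at h3
        exact h3
      have h3 : F.support = {a} := by
        ext b
        rw [Finset.mem_singleton]
        constructor
        · exact h2 b
        · rintro rfl
          exact ha
      rw [ev, Finsupp.sum, h3, Finset.sum_singleton] at hFe
      rcases mul_eq_zero.1 hFe with h4 | h4
      · exact (Finsupp.mem_support_iff.1 ha) (by exact_mod_cast h4)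
      · exact mono_ne_zero α henv.ne m a h4
    · refine core α henv hnum m t hm ht ?_ F hF hFs hFe ?_ ?_
      · refine le_trans (Nat.mul_le_mul_left _ (Nat.pow_le_pow_right hY ?_)) hX
        omega
      · intro h1
        rw [(finrank_eq_zero _).2 h1] at hrank
        omega
      · intro p hp G hG hGs hGe
        by_contra hlt
        push Not at hlt
        rw [hrank] at hlt
        refine ih _ hlt (m * p) (t * Y ^ 2) ?_ ?_ ?_ G hG hGs hGe rfl
        · exact Nat.mul_pos hm (henv.prime p hp).pos
        · exact Nat.mul_pos ht (by positivity)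
        · refine le_trans ?_ hX
          have h1 : Y ^ (4 * s + 2 * r + 8) =
              Y ^ 4 * (Y ^ (4 * (s - 1) + 2 * r + 8)) := by
            rw [← pow_add]
            congr 1
            omega
          rw [h1]
          have h2 : Y ^ (4 * finrank ℤ (dspan G.support) + 2 * r + 8) ≤
              Y ^ (4 * (s - 1) + 2 * r + 8) := by
            apply Nat.pow_le_pow_right hY
            omega
          have h3 : m * p * (t * Y ^ 2) ≤ m * t * Y ^ 4 := by
            calc m * p * (t * Y ^ 2) ≤ m * Y ^ 2 * (t * Y ^ 2) := by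
                  gcongr
                  exact henv.hi p hp
              _ = m * t * Y ^ 4 := by ring
          calc m * p * (t * Y ^ 2) * Y ^ (4 * finrank ℤ (dspan G.support) + 2 * r + 8)
              ≤ m * t * Y ^ 4 * Y ^ (4 * (s - 1) + 2 * r + 8) := Nat.mul_le_mul h3 h2
            _ = m * t * (Y ^ 4 * Y ^ (4 * (s - 1) + 2 * r + 8)) := by ring

theorem geometric_main {C e k Y X : ℕ} {S : Finset ℕ} (henv : Env α C e Y X S)
    (hnum : Num r C e k Y) (t : ℕ) (ht : 1 ≤ t) (hX : t * Y ^ (6 * r + 8) ≤ X)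
    (F : (Fin r → ℤ) →₀ ℚ) (hF : F.support ⊆ box r t) (hev : ev α 1 F = 0) : F = 0 := by
  by_contra hne
  have hY : 1 ≤ Y := by
    have := hnum.h3
    omega
  refine no_rel α henv hnum _ 1 t le_rfl ht ?_ F hne hF hev rfl
  rw [one_mul]
  refine le_trans (Nat.mul_le_mul_left _ (Nat.pow_le_pow_right hY ?_)) hX
  have := finrank_le_r (dspan F.support)
  omega

/-- consequence: the monomials with exponents in the box are linearly independent -/
theorem card_le_finrank {C e k Y X : ℕ} {S : Finset ℕ} (henv : Env α C e Y X S)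
    (hnum : Num r C e k Y) (t : ℕ) (ht : 1 ≤ t) (hX : t * Y ^ (6 * r + 8) ≤ X) :
    (2 * t + 1) ^ r ≤ finrank ℚ (big α) := by
  classical
  have h1 : LinearIndepOn ℚ (mono α 1) (box r t : Set (Fin r → ℤ)) := by
    rw [linearIndepOn_iff]
    intro F hF hFe
    refine geometric_main α henv hnum t ht hX F ?_ ?_
    · intro a ha
      exact Finset.mem_coe.1 ((Finsupp.mem_supported _ _).1 hF ha)
    · rw [← hFe, ev, Finsupp.linearCombination_apply]
      refine Finsupp.sum_congr fun a _ => ?_
      rw [Algebra.smul_def, eq_ratCast]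
  have h2 : rk ℚ α 1 (box r t) = (box r t).card := vrk_eq_card _ _ h1
  rw [← card_box, ← h2]
  exact rk_le_big α henv.int 1 _

end Pool.Agent.Lib.MP_7ab245_nt.Solv
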