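import Mathlib

set_option autoImplicit false

/-! # Module SV-IsoGood (0.8 h). Only Mathlib.
`isolated_good`.  Roots of `g` in `Ω` are integral (`g` monic).  Call a root `x` isolated if no other
root `y` has `v (x - y) < 1`.
(1) `φ x` is a root.  If `y` is a root with `v (φ x - y) < 1`, write `y = φ y'` (`y' = φ.symm y`, a root);
`φ (x - y') - (x - y')^p` has `v < 1`, so `v ((x - y')^p) < 1`, `v (x - y') < 1`, hence `y' = x`,
`y = φ x`.
(2) For a root `y ≠ φ x`: `v (x^p - y) = 1`: `x^p - y = (x^p - φ x) + (φ x - y)`, the first term has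
`v < 1`, the second has `v = 1` (it is `≤ 1` by integrality and not `< 1` by (1)).
(3) `g(X^p) - g(X)^p ∈ p ℤ[X]` (coefficients mod `p`: `ZMod.expand_card`), so
`g(x^p) = g(x)^p + p w = p w` with `w` integral: `v (g (x^p)) ≤ v p`.
(4) `g (x^p) = ∏_{y} (x^p - y)` over the multiset of roots, which is `Nodup` and contains `φ x`, so
`v (g (x^p)) = v (x^p - φ x) · ∏_{y ≠ φ x} v (x^p - y) = v (x^p - φ x)`. -/

namespace Pool.Agent.Lib.MP_7ab245_nt.Solv

open Polynomial

/-- Frobenius congruence for polynomials -/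
private theorem isoGood_expand (p : ℕ) (hp : p.Prime) (g : ℤ[X]) :
    ∃ h : ℤ[X], expand ℤ p g = g ^ p + C (p : ℤ) * h := by
  have : Fact p.Prime := ⟨hp⟩
  have h1 : C (p : ℤ) ∣ expand ℤ p g - g ^ p := by
    rw [C_dvd_iff_dvd_coeff]
    intro i
    rw [← ZMod.intCast_zmod_eq_zero_iff_dvd]
    have h2 : (expand ℤ p g - g ^ p).map (Int.castRingHom (ZMod p)) = 0 := by
      rw [Polynomial.map_sub, map_expand, Polynomial.map_pow, ZMod.expand_card, sub_self]
    have h3 := congrArg (fun q => coeff q i) h2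
    simp only [coeff_map, coeff_zero] at h3
    exact h3
  obtain ⟨h, hh⟩ := h1
  exact ⟨h, by rw [← hh]; ring⟩

theorem isolated_good {Ω : Type*} [Field Ω] [CharZero Ω] [Algebra ℚ Ω]
    (v : Valuation Ω (WithZero (Multiplicative ℤ)))
    (hv : ∀ x, IsIntegral ℤ x → v x ≤ 1) (p : ℕ) (hp : p.Prime) (hvp : v (p : Ω) < 1)
    (φ : Ω ≃ₐ[ℚ] Ω) (hφ : ∀ y : Ω, IsIntegral ℤ y → v (φ y - y ^ p) < 1)
    (g : ℤ[X]) (hg : g.Monic) (hsp : (g.map (algebraMap ℤ Ω)).Splits)
    (hnd : (g.map (algebraMap ℤ Ω)).roots.Nodup) (x : Ω) (hx : aeval x g = 0)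
    (hiso : ∀ y, aeval y g = 0 → v (x - y) < 1 → y = x) : v (x ^ p - φ x) ≤ v (p : Ω) := by
  classical
  have hint : ∀ y : Ω, aeval y g = 0 → IsIntegral ℤ y := fun y hy => ⟨g, hg, hy⟩
  have hxint := hint x hx
  -- roots are permuted by algebra automorphisms
  have hroot : ∀ (ψ : Ω ≃ₐ[ℚ] Ω) (y : Ω), aeval y g = 0 → aeval (ψ y) g = 0 := by
    intro ψ y hy
    have h1 := hom_eval₂ g (algebraMap ℤ Ω) (ψ : Ω →+* Ω) y
    rw [aeval_def] at hy ⊢
    rw [hy, map_zero] at h1
    have h2 : (ψ : Ω →+* Ω).comp (algebraMap ℤ Ω) = algebraMap ℤ Ω := Subsingleton.elim _ _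
    rw [h2] at h1
    exact h1.symm
  have hφx := hroot φ x hx
  -- (1)
  have step1 : ∀ y, aeval y g = 0 → v (φ x - y) < 1 → y = φ x := by
    intro y hy hlt
    have hy' := hroot φ.symm y hy
    have h1 : v (φ (x - φ.symm y) - (x - φ.symm y) ^ p) < 1 :=
      hφ _ (hxint.sub (hint _ hy'))
    have h2 : φ (x - φ.symm y) = φ x - y := by
      rw [map_sub, AlgEquiv.apply_symm_apply]
    rw [h2] at h1
    have h3 : v ((x - φ.symm y) ^ p) < 1 := by
      have h4 : (x - φ.symm y) ^ p = (φ x - y) - ((φ x - y) - (x - φ.symm y) ^ p) := by ring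
      rw [h4]
      exact lt_of_le_of_lt (v.map_sub _ _) (max_lt hlt h1)
    rw [map_pow] at h3
    have h5 : v (x - φ.symm y) < 1 := by
      by_contra hcon
      rw [not_lt] at hcon
      exact absurd h3 (not_lt.2 (one_le_pow₀ hcon))
    have h6 := hiso _ hy' h5
    rw [← h6, AlgEquiv.apply_symm_apply]
  -- (2)
  have hxp : v (x ^ p - φ x) < 1 := by
    have := hφ x hxint
    rwa [← v.map_neg, neg_sub] at this
  have step2 : ∀ y, aeval y g = 0 → y ≠ φ x → v (x ^ p - y) = 1 := by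
    intro y hy hne
    have h1 : v (φ x - y) = 1 := by
      apply le_antisymm
      · exact hv _ ((hint _ hφx).sub (hint _ hy))
      · by_contra hcon
        rw [not_le] at hcon
        exact hne (step1 y hy hcon)
    have h2 : x ^ p - y = (x ^ p - φ x) + (φ x - y) := by ring
    rw [h2, v.map_add_eq_of_lt_right (by rw [h1]; exact hxp), h1]
  -- (3)
  have step3 : v (aeval (x ^ p) g) ≤ v (p : Ω) := by
    obtain ⟨h, hh⟩ := isoGood_expand p hp g
    have h1 : aeval (x ^ p) g = (p : Ω) * aeval x h := by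
      rw [← expand_aeval, hh, map_add, map_pow, hx, zero_pow hp.ne_zero, zero_add, map_mul, aeval_C]
      simp
    rw [h1, map_mul]
    have h2 : v (aeval x h) ≤ 1 := by
      apply hv
      have h3 : IsIntegral ℤ (aeval x h) := by
        have : aeval x h ∈ integralClosure ℤ Ω := by
          have h4 : x ∈ integralClosure ℤ Ω := hxint
          have h5 : Algebra.adjoin ℤ {x} ≤ integralClosure ℤ Ω :=
            Algebra.adjoin_le (by rintro _ rfl; exact h4)
          exact h5 (aeval_mem_adjoin_singleton ℤ x)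
        exact this
      exact h3
    calc v (p : Ω) * v (aeval x h) ≤ v (p : Ω) * 1 := mul_le_mul_right h2 _
      _ = v (p : Ω) := mul_one _
  -- (4)
  set gΩ := g.map (algebraMap ℤ Ω) with hgΩ
  have hgm : gΩ.Monic := hg.map _
  have h1 : aeval (x ^ p) g = (gΩ.roots.map fun y => x ^ p - y).prod := by
    rw [aeval_def, ← eval_map, ← hgΩ, hsp.eval_eq_prod_roots_of_monic hgm]
  have hmem : ∀ y, y ∈ gΩ.roots ↔ aeval y g = 0 := by
    intro y
    rw [mem_roots hgm.ne_zero, IsRoot.def, hgΩ, eval_map, ← aeval_def]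
  have h2 : (gΩ.roots.map fun y => x ^ p - y).prod = ∏ y ∈ gΩ.roots.toFinset, (x ^ p - y) := by
    rw [Finset.prod_eq_multiset_prod, Multiset.toFinset_val, hnd.dedup]
  have h3 : φ x ∈ gΩ.roots.toFinset := by
    rw [Multiset.mem_toFinset, hmem]
    exact hφx
  rw [h1, h2, map_prod, ← Finset.mul_prod_erase _ _ h3] at step3
  have h4 : ∏ y ∈ gΩ.roots.toFinset.erase (φ x), v (x ^ p - y) = 1 := by
    apply Finset.prod_eq_one
    intro y hy
    rw [Finset.mem_erase, Multiset.mem_toFinset, hmem] at hy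
    exact step2 y hy.2 hy.1
  rw [h4, mul_one] at step3
  exact step3

end Pool.Agent.Lib.MP_7ab245_nt.Solv
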