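import Mathlib

set_option autoImplicit false

/-! # Module SV-NonIso (1.0 h). Only Mathlib.
`nonisolated_le`.  `O = {x : v x ≤ 1}` the valuation ring (`v.valuationSubring`), `k` its residue field,
of characteristic `p`.  The roots of `g` in `Ω` lie in `O`; let `ȳ ∈ k` be their residues:
`ḡ = ∏ (X - ȳ)` in `k[X]` (`Polynomial.Splits`, map the factorisation over `O`), and `v (x - y) < 1` iff
`x̄ = ȳ`.  So the number of nonisolated roots is `∑_{a : mult_a(ḡ) ≥ 2} mult_a(ḡ)
≤ 2 ∑_a (mult_a(ḡ) - 1)` (over `a` with multiplicity `≥ 2`).  `D := ∏_a (X - a)^{mult_a - 1}` divides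
`ḡ` and `ḡ'` in `k[X]` (`Polynomial.rootMultiplicity`, `(X - a)^(e-1) ∣ f'`), so it divides
`gcd (ḡ, ḡ')` computed over `k`, which is the image of `G := gcd (g mod p, g' mod p) ∈ (ZMod p)[X]`
(`Polynomial.gcd_map`), and `deg D ≤ deg G`.
(You may as well work with `Multiset`/`Finset` of roots: `R = (g.map (algebraMap ℤ Ω)).roots.toFinset`.) -/

namespace Pool.Agent.Lib.MP_7ab245_nt.Solv

open Polynomial

open Classical in
private theorem nonIso_aux {Ω k : Type*} [Field k] (p : ℕ) [Fact p.Prime] [CharP k p]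
    (g : ℤ[X]) (hg : g.Monic) (R : Finset Ω) (ρ : Ω → k)
    (hfac : g.map (Int.castRingHom k) = ∏ x ∈ R, (X - C (ρ x))) :
    ∃ G : (ZMod p)[X], G ∣ g.map (Int.castRingHom (ZMod p)) ∧
      G ∣ derivative (g.map (Int.castRingHom (ZMod p))) ∧
      (R.filter fun x => ∃ y ∈ R, y ≠ x ∧ ρ x = ρ y).card ≤ 2 * G.natDegree := by
  set f : (ZMod p)[X] := g.map (Int.castRingHom (ZMod p)) with hf
  have hfm : f.Monic := hg.map _
  let φ : ZMod p →+* k := ZMod.castHom (dvd_refl p) k
  have hfφ : f.map φ = g.map (Int.castRingHom k) := by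
    rw [hf, Polynomial.map_map]
    congr 1
    exact RingHom.ext_int _ _
  refine ⟨EuclideanDomain.gcd f (derivative f), EuclideanDomain.gcd_dvd_left _ _,
    EuclideanDomain.gcd_dvd_right _ _, ?_⟩
  let m : k → ℕ := fun a => (R.filter fun x => ρ x = a).card
  let A : Finset k := R.image ρ
  have hprod : f.map φ = ∏ a ∈ A, (X - C a) ^ (m a) := by
    rw [hfφ, hfac]
    exact Finset.prod_comp (fun a : k => (X - C a)) ρ
  have hD1 : (∏ a ∈ A, (X - C a) ^ (m a - 1)) ∣ f.map φ := by
    rw [hprod]
    exact Finset.prod_dvd_prod_of_dvd _ _ fun a _ => pow_dvd_pow _ (Nat.sub_le _ _)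
  have hD2 : (∏ a ∈ A, (X - C a) ^ (m a - 1)) ∣ derivative (f.map φ) := by
    refine Finset.prod_dvd_of_coprime ?_ ?_
    · intro a _ b _ hab
      exact (pairwise_coprime_X_sub_C (s := fun a : k => a) Function.injective_id hab).pow
    · intro a ha
      refine pow_sub_one_dvd_derivative_of_pow_dvd ?_
      rw [hprod]
      exact Finset.dvd_prod_of_mem _ ha
  have hD3 : (∏ a ∈ A, (X - C a) ^ (m a - 1)) ∣
      (EuclideanDomain.gcd f (derivative f)).map φ := by
    rw [← gcd_map]
    refine EuclideanDomain.dvd_gcd hD1 ?_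
    rw [← derivative_map]
    exact hD2
  have hG0 : EuclideanDomain.gcd f (derivative f) ≠ 0 := by
    intro h
    rw [EuclideanDomain.gcd_eq_zero_iff] at h
    exact hfm.ne_zero h.1
  have hdeg : ∑ a ∈ A, (m a - 1) ≤ (EuclideanDomain.gcd f (derivative f)).natDegree := by
    have h1 := Polynomial.natDegree_le_of_dvd hD3
      ((Polynomial.map_ne_zero_iff φ.injective).2 hG0)
    rw [Polynomial.natDegree_map, natDegree_prod_of_monic _ _
      (fun a _ => (monic_X_sub_C a).pow _)] at h1
    simpa [natDegree_pow] using h1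
  have hcount : (R.filter fun x => ∃ y ∈ R, y ≠ x ∧ ρ x = ρ y).card ≤
      ∑ a ∈ A, 2 * (m a - 1) := by
    rw [Finset.card_eq_sum_card_fiberwise (f := ρ) (t := A)]
    · refine Finset.sum_le_sum fun a _ => ?_
      by_cases hm : 2 ≤ m a
      · have h1 : (Finset.filter (fun x => ρ x = a)
            (R.filter fun x => ∃ y ∈ R, y ≠ x ∧ ρ x = ρ y)).card ≤ m a :=
          Finset.card_le_card (Finset.filter_subset_filter _ (Finset.filter_subset _ _))
        omega
      · have h1 : Finset.filter (fun x => ρ x = a)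
            (R.filter fun x => ∃ y ∈ R, y ≠ x ∧ ρ x = ρ y) = ∅ := by
          rw [Finset.eq_empty_iff_forall_notMem]
          intro x hx
          simp only [Finset.mem_filter] at hx
          obtain ⟨⟨hxR, y, hyR, hyx, hxy⟩, hxa⟩ := hx
          apply hm
          have h2 : ({x, y} : Finset Ω) ⊆ R.filter fun x => ρ x = a := by
            intro z hz
            simp only [Finset.mem_insert, Finset.mem_singleton] at hz
            rcases hz with rfl | rfl
            · exact Finset.mem_filter.2 ⟨hxR, hxa⟩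
            · exact Finset.mem_filter.2 ⟨hyR, hxy ▸ hxa⟩
          calc 2 = ({x, y} : Finset Ω).card := (Finset.card_pair hyx.symm).symm
            _ ≤ m a := Finset.card_le_card h2
        rw [h1]
        simp
    · intro x hx
      exact Finset.mem_image_of_mem ρ (Finset.mem_filter.1 hx).1
  rw [← Finset.mul_sum] at hcount
  omega

open Classical in
theorem nonisolated_le {Ω : Type*} [Field Ω] [CharZero Ω]
    (v : Valuation Ω (WithZero (Multiplicative ℤ)))
    (hv : ∀ x, IsIntegral ℤ x → v x ≤ 1) (p : ℕ) [Fact p.Prime] (hvp : v (p : Ω) < 1)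
    (g : ℤ[X]) (hg : g.Monic) (hsp : (g.map (algebraMap ℤ Ω)).Splits)
    (hnd : (g.map (algebraMap ℤ Ω)).roots.Nodup) :
    ∃ G : (ZMod p)[X], G ∣ g.map (Int.castRingHom (ZMod p)) ∧
      G ∣ derivative (g.map (Int.castRingHom (ZMod p))) ∧
      ((g.map (algebraMap ℤ Ω)).roots.toFinset.filter fun x =>
        ∃ y ∈ (g.map (algebraMap ℤ Ω)).roots, y ≠ x ∧ v (x - y) < 1).card ≤ 2 * G.natDegree := by
  set R := (g.map (algebraMap ℤ Ω)).roots.toFinset with hR
  let O := v.valuationSubring
  let k := IsLocalRing.ResidueField O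
  have hlt : ∀ x : O, IsLocalRing.residue O x = 0 ↔ v (x : Ω) < 1 := by
    intro x
    rw [IsLocalRing.residue_eq_zero_iff, ValuationSubring.valuation_lt_one_iff,
      ← (Valuation.isEquiv_valuation_valuationSubring v).lt_one_iff_lt_one]
  have hpk : CharP k p := by
    have h0 : ((p : ℕ) : k) = 0 := by
      have h1 : IsLocalRing.residue O ((p : ℕ) : O) = 0 := by
        rw [hlt]
        simpa using hvp
      rw [map_natCast] at h1
      exact h1
    rcases (Nat.dvd_prime (Fact.out : p.Prime)).1 (ringChar.dvd h0) with h | h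
    · exact absurd h (CharP.char_ne_one k (ringChar k))
    · exact ringChar.of_eq h
  have hint : ∀ x ∈ R, v x ≤ 1 := by
    intro x hx
    rw [hR, Multiset.mem_toFinset] at hx
    refine hv x ⟨g, hg, ?_⟩
    have h1 := (mem_roots'.1 hx).2
    rwa [IsRoot.def, eval_map] at h1
  let ρ : Ω → k := fun x => if h : v x ≤ 1 then IsLocalRing.residue O ⟨x, h⟩ else 0
  have hρ : ∀ x (h : v x ≤ 1), ρ x = IsLocalRing.residue O ⟨x, h⟩ := fun x h => dif_pos h
  have hfac : g.map (Int.castRingHom k) = ∏ x ∈ R, (X - C (ρ x)) := by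
    have h1 : g.map (Int.castRingHom O) =
        ∏ x ∈ R.attach, (X - C (⟨x.1, hint x.1 x.2⟩ : O)) := by
      apply Polynomial.map_injective O.subtype Subtype.val_injective
      rw [Polynomial.map_map, Polynomial.map_prod]
      have h2 : O.subtype.comp (Int.castRingHom O) = algebraMap ℤ Ω := RingHom.ext_int _ _
      rw [h2]
      have h3 : g.map (algebraMap ℤ Ω) = ∏ x ∈ R, (X - C x) := by
        conv_lhs => rw [hsp.eq_prod_roots_of_monic (hg.map _)]
        rw [hR, Finset.prod_multiset_map_count]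
        refine Finset.prod_congr rfl fun x hx => ?_
        rw [Multiset.count_eq_one_of_mem hnd (Multiset.mem_toFinset.1 hx), pow_one]
      rw [h3, ← Finset.prod_attach]
      refine Finset.prod_congr rfl fun x _ => ?_
      simp
    have h4 := congrArg (Polynomial.map (IsLocalRing.residue O)) h1
    rw [Polynomial.map_map, Polynomial.map_prod] at h4
    have h5 : (IsLocalRing.residue O).comp (Int.castRingHom O) = Int.castRingHom k :=
      RingHom.ext_int _ _
    rw [h5] at h4
    rw [h4, ← Finset.prod_attach R]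
    refine Finset.prod_congr rfl fun x _ => ?_
    rw [Polynomial.map_sub, Polynomial.map_X, Polynomial.map_C, hρ x.1 (hint x.1 x.2)]
  obtain ⟨G, hG1, hG2, hG3⟩ := nonIso_aux p g hg R ρ hfac
  refine ⟨G, hG1, hG2, le_trans (Finset.card_le_card ?_) hG3⟩
  intro x hx
  rw [Finset.mem_filter] at hx ⊢
  obtain ⟨hxR, y, hy, hyx, hxy⟩ := hx
  have hyR : y ∈ R := by rw [hR, Multiset.mem_toFinset]; exact hy
  refine ⟨hxR, y, hyR, hyx, ?_⟩
  rw [hρ x (hint x hxR), hρ y (hint y hyR), ← sub_eq_zero, ← map_sub, hlt]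
  simpa using hxy

end Pool.Agent.Lib.MP_7ab245_nt.Solv
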