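import Pool.Agent.Lib.MP_7ab245_nt.Solv.Defs
import Pool.Agent.Lib.MP_7ab245_nt.Solv.Frob
import Pool.Agent.Lib.MP_7ab245_nt.Solv.IsoGood
import Pool.Agent.Lib.MP_7ab245_nt.Solv.NonIso

set_option autoImplicit false

/-! # Module SV-GoodOf (0.8 h). Uses Frob, IsoGood, NonIso.
`card_orbit_eq`: `G = Ω ≃ₐ[ℚ] Ω` acts transitively on the roots of the irreducible `g` in `Ω`
(`exists_algEquiv...`, `IsGalois`, `minpoly` conjugates), so for a root `x` and a set `B` of roots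
`#{τ : τ x ∈ B} = |B| · |G| / n` with `n = deg g` roots; stated multiplied out.  (Fibres of `τ ↦ τ x` are
cosets of the stabiliser, of the same cardinality.)
`goodPrime_of`: take `v, φ` from `exists_frob`, `B` = the nonisolated roots, `|B| ≤ 2 deg G` by
`nonisolated_le`; by hypothesis `8 r deg G ≤ n`, so `4 r |B| ≤ n`.  The `τ ∈ G` with all `τ x_i ∉ B` are good:
`σ = φ τ` (`isolated_good` for `τ x_i`).  The others number at most `∑_i #{τ : τ x_i ∈ B} = r |B| |G| / n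
≤ |G| / 4`. So `3 |G| ≤ 4 #good`. -/

namespace Pool.Agent.Lib.MP_7ab245_nt.Solv

open Polynomial

private theorem goodOf_minpoly {Ω : Type*} [Field Ω] [NumberField Ω] (g : ℤ[X])
    (hg : g.Monic) (hirr : Irreducible g) (y : Ω) (hy : aeval y g = 0) :
    minpoly ℚ y = g.map (algebraMap ℤ ℚ) := by
  symm
  apply minpoly.eq_of_irreducible_of_monic
  · exact (hg.irreducible_iff_irreducible_map_fraction_map).1 hirr
  · rw [aeval_map_algebraMap]
    exact hy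
  · exact hg.map _

private theorem goodOf_nodup {Ω : Type*} [Field Ω] [NumberField Ω] (g : ℤ[X])
    (hg : g.Monic) (hirr : Irreducible g) : (g.map (algebraMap ℤ Ω)).roots.Nodup := by
  have h1 : Irreducible (g.map (algebraMap ℤ ℚ)) :=
    (hg.irreducible_iff_irreducible_map_fraction_map).1 hirr
  have h2 : (g.map (algebraMap ℤ ℚ)).Separable := h1.separable
  have h3 : ((g.map (algebraMap ℤ ℚ)).map (algebraMap ℚ Ω)).Separable := h2.map
  rw [Polynomial.map_map] at h3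
  have h4 : (algebraMap ℚ Ω).comp (algebraMap ℤ ℚ) = algebraMap ℤ Ω := Subsingleton.elim _ _
  rw [h4] at h3
  exact nodup_roots h3

private theorem goodOf_root {Ω : Type*} [Field Ω] [NumberField Ω] (g : ℤ[X])
    (ψ : Ω ≃ₐ[ℚ] Ω) (y : Ω) (hy : aeval y g = 0) : aeval (ψ y) g = 0 := by
  have h1 := hom_eval₂ g (algebraMap ℤ Ω) (ψ : Ω →+* Ω) y
  rw [aeval_def] at hy ⊢
  rw [hy, map_zero] at h1
  have h2 : (ψ : Ω →+* Ω).comp (algebraMap ℤ Ω) = algebraMap ℤ Ω := Subsingleton.elim _ _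
  rw [h2] at h1
  exact h1.symm

open Classical in
theorem card_orbit_eq {Ω : Type*} [Field Ω] [NumberField Ω] [IsGalois ℚ Ω] (g : ℤ[X])
    (hg : g.Monic) (hirr : Irreducible g) (hsp : (g.map (algebraMap ℤ Ω)).Splits) (x : Ω)
    (hx : aeval x g = 0) (B : Finset Ω) (hB : ∀ y ∈ B, aeval y g = 0) :
    g.natDegree * Nat.card {τ : Ω ≃ₐ[ℚ] Ω // τ x ∈ B} = B.card * Nat.card (Ω ≃ₐ[ℚ] Ω) := by
  have hcard : ∀ C : Finset Ω, (∀ y ∈ C, aeval y g = 0) →
      Nat.card {τ : Ω ≃ₐ[ℚ] Ω // τ x ∈ C} =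
        C.card * (Finset.univ.filter fun τ : Ω ≃ₐ[ℚ] Ω => τ x = x).card := by
    intro C hC
    rw [Nat.card_eq_fintype_card, Fintype.card_subtype]
    have h1 := Finset.card_eq_sum_card_fiberwise (f := fun τ : Ω ≃ₐ[ℚ] Ω => τ x)
      (s := Finset.univ.filter fun τ : Ω ≃ₐ[ℚ] Ω => τ x ∈ C) (t := C) (fun τ hτ => by
        simpa using hτ)
    rw [h1, ← smul_eq_mul, ← Finset.sum_const]
    refine Finset.sum_congr rfl fun y hy => ?_
    have h2 : ∃ σ : Ω ≃ₐ[ℚ] Ω, σ x = y := by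
      have h3 : minpoly ℚ x = minpoly ℚ y := by
        rw [goodOf_minpoly g hg hirr x hx, goodOf_minpoly g hg hirr y (hC y hy)]
      obtain ⟨σ, hσ⟩ := isConjRoot_iff_exists_algEquiv.1 (h3.symm : IsConjRoot ℚ y x)
      exact ⟨σ, hσ⟩
    obtain ⟨σ, hσ⟩ := h2
    refine Finset.card_bij' (fun τ _ => σ⁻¹ * τ) (fun τ _ => σ * τ) ?_ ?_ ?_ ?_
    · intro τ hτ
      rw [Finset.mem_filter, Finset.mem_filter] at hτ
      rw [Finset.mem_filter]
      refine ⟨Finset.mem_univ _, ?_⟩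
      rw [AlgEquiv.mul_apply, hτ.2, ← hσ, ← AlgEquiv.mul_apply, inv_mul_cancel, AlgEquiv.one_apply]
    · intro τ hτ
      rw [Finset.mem_filter] at hτ
      rw [Finset.mem_filter, Finset.mem_filter]
      have h3 : (σ * τ) x = y := by rw [AlgEquiv.mul_apply, hτ.2, hσ]
      exact ⟨⟨Finset.mem_univ _, by rw [h3]; exact hy⟩, h3⟩
    · intro τ _
      simp
    · intro τ _
      simp
  set R := (g.map (algebraMap ℤ Ω)).roots.toFinset with hR
  have hgm : (g.map (algebraMap ℤ Ω)).Monic := hg.map _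
  have hmem : ∀ y, y ∈ R ↔ aeval y g = 0 := by
    intro y
    rw [hR, Multiset.mem_toFinset, mem_roots hgm.ne_zero, IsRoot.def, eval_map, ← aeval_def]
  have hRc : R.card = g.natDegree := by
    rw [hR, Multiset.toFinset_card_of_nodup (goodOf_nodup g hg hirr),
      ← hsp.natDegree_eq_card_roots, hg.natDegree_map]
  have hall : Nat.card {τ : Ω ≃ₐ[ℚ] Ω // τ x ∈ R} = Nat.card (Ω ≃ₐ[ℚ] Ω) := by
    apply Nat.card_congr
    exact Equiv.subtypeUnivEquiv fun τ => (hmem _).2 (goodOf_root g τ x hx)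
  have h1 := hcard R fun y hy => (hmem y).1 hy
  rw [hall, hRc] at h1
  rw [hcard B hB, h1]
  ring

theorem goodPrime_of {Ω : Type*} [Field Ω] [NumberField Ω] [IsGalois ℚ Ω] {r : ℕ} (g : ℤ[X])
    (hg : g.Monic) (hirr : Irreducible g) (hsp : (g.map (algebraMap ℤ Ω)).Splits)
    (x : Fin r → Ω) (hx : ∀ i, aeval (x i) g = 0) (p : ℕ) [Fact p.Prime]
    (h : ∀ G : (ZMod p)[X], G ∣ g.map (Int.castRingHom (ZMod p)) →
      G ∣ derivative (g.map (Int.castRingHom (ZMod p))) → 8 * r * G.natDegree ≤ g.natDegree) :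
    GoodPrime x p := by
  classical
  have hp : p.Prime := Fact.out
  obtain ⟨v, φ, hv, hvp, hφ⟩ := exists_frob Ω p hp
  have hnd := goodOf_nodup (Ω := Ω) g hg hirr
  obtain ⟨G, hG1, hG2, hG3⟩ := nonisolated_le v hv p hvp g hg hsp hnd
  have h8 := h G hG1 hG2
  have hgm : (g.map (algebraMap ℤ Ω)).Monic := hg.map _
  have hmem : ∀ y, y ∈ (g.map (algebraMap ℤ Ω)).roots ↔ aeval y g = 0 := by
    intro y
    rw [mem_roots hgm.ne_zero, IsRoot.def, eval_map, ← aeval_def]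
  set B := (g.map (algebraMap ℤ Ω)).roots.toFinset.filter fun x =>
        ∃ y ∈ (g.map (algebraMap ℤ Ω)).roots, y ≠ x ∧ v (x - y) < 1 with hB
  have hBroot : ∀ y ∈ B, aeval y g = 0 := by
    intro y hy
    rw [hB, Finset.mem_filter, Multiset.mem_toFinset, hmem] at hy
    exact hy.1
  have hn : 0 < g.natDegree := by
    by_contra hn
    have h0 : g.natDegree = 0 := by omega
    have h1 := hg.natDegree_eq_zero.1 h0
    rw [h1] at hirr
    exact hirr.not_isUnit isUnit_one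
  refine ⟨hp, v, hv, hvp, ?_⟩
  -- good automorphisms
  have hgood : ∀ τ : Ω ≃ₐ[ℚ] Ω, (∀ i, τ (x i) ∉ B) →
      ∃ σ : Ω ≃ₐ[ℚ] Ω, ∀ i, v ((τ (x i)) ^ p - σ (x i)) ≤ v (p : Ω) := by
    intro τ hτ
    refine ⟨φ * τ, fun i => ?_⟩
    have hroot := goodOf_root g τ (x i) (hx i)
    refine isolated_good v hv p hp hvp φ hφ g hg hsp hnd (τ (x i)) hroot ?_
    intro y hy hlt
    by_contra hne
    apply hτ i
    rw [hB, Finset.mem_filter, Multiset.mem_toFinset, hmem]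
    exact ⟨hroot, y, (hmem y).2 hy, hne, hlt⟩
  -- counting
  set gd := Finset.univ.filter fun τ : Ω ≃ₐ[ℚ] Ω =>
      ∃ σ : Ω ≃ₐ[ℚ] Ω, ∀ i, v ((τ (x i)) ^ p - σ (x i)) ≤ v (p : Ω) with hgd
  have hgdc : Nat.card {τ : Ω ≃ₐ[ℚ] Ω // ∃ σ : Ω ≃ₐ[ℚ] Ω, ∀ i,
      v ((τ (x i)) ^ p - σ (x i)) ≤ v (p : Ω)} = gd.card := by
    rw [Nat.card_eq_fintype_card, Fintype.card_subtype]
  rw [hgdc]
  have hcover : (Finset.univ : Finset (Ω ≃ₐ[ℚ] Ω)) ⊆
      gd ∪ (Finset.univ : Finset (Fin r)).biUnion fun i =>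
        Finset.univ.filter fun τ : Ω ≃ₐ[ℚ] Ω => τ (x i) ∈ B := by
    intro τ _
    rw [Finset.mem_union, Finset.mem_biUnion]
    by_cases hτ : ∀ i, τ (x i) ∉ B
    · left
      rw [hgd, Finset.mem_filter]
      exact ⟨Finset.mem_univ _, hgood τ hτ⟩
    · right
      push Not at hτ
      obtain ⟨i, hi⟩ := hτ
      exact ⟨i, Finset.mem_univ _, Finset.mem_filter.2 ⟨Finset.mem_univ _, hi⟩⟩
  have h1 := Finset.card_le_card hcover
  have h2 := h1.trans (Finset.card_union_le _ _)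
  have h3 : (Finset.univ.biUnion fun i : Fin r =>
        Finset.univ.filter fun τ : Ω ≃ₐ[ℚ] Ω => τ (x i) ∈ B).card ≤
      ∑ i : Fin r, (Finset.univ.filter fun τ : Ω ≃ₐ[ℚ] Ω => τ (x i) ∈ B).card :=
    Finset.card_biUnion_le
  have h4 : ∀ i : Fin r, g.natDegree *
      (Finset.univ.filter fun τ : Ω ≃ₐ[ℚ] Ω => τ (x i) ∈ B).card =
        B.card * Nat.card (Ω ≃ₐ[ℚ] Ω) := by
    intro i
    have h5 := card_orbit_eq g hg hirr hsp (x i) (hx i) B hBroot
    rw [Nat.card_eq_fintype_card (α := {τ : Ω ≃ₐ[ℚ] Ω // τ (x i) ∈ B}),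
      Fintype.card_subtype] at h5
    exact h5
  have h6 : g.natDegree * ∑ i : Fin r,
      (Finset.univ.filter fun τ : Ω ≃ₐ[ℚ] Ω => τ (x i) ∈ B).card =
        r * (B.card * Nat.card (Ω ≃ₐ[ℚ] Ω)) := by
    rw [Finset.mul_sum, Finset.sum_congr rfl fun i _ => h4 i, Finset.sum_const, Finset.card_univ,
      Fintype.card_fin, smul_eq_mul]
  have h7 : 4 * r * B.card ≤ g.natDegree := by
    calc 4 * r * B.card ≤ 4 * r * (2 * G.natDegree) := Nat.mul_le_mul_left _ hG3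
      _ = 8 * r * G.natDegree := by ring
      _ ≤ g.natDegree := h8
  obtain ⟨s, hs⟩ : ∃ s, s = ∑ i : Fin r,
      (Finset.univ.filter fun τ : Ω ≃ₐ[ℚ] Ω => τ (x i) ∈ B).card := ⟨_, rfl⟩
  rw [← hs] at h3 h6
  have h9 : Finset.card (Finset.univ : Finset (Ω ≃ₐ[ℚ] Ω)) = Nat.card (Ω ≃ₐ[ℚ] Ω) := by
    rw [Nat.card_eq_fintype_card, Finset.card_univ]
  rw [h9] at h2
  obtain ⟨c, hc⟩ : ∃ c, c = Nat.card (Ω ≃ₐ[ℚ] Ω) := ⟨_, rfl⟩
  rw [← hc] at h2 h6 ⊢
  have h10 : 4 * s ≤ c := by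
    have h11 : g.natDegree * (4 * s) ≤ g.natDegree * c := by
      calc g.natDegree * (4 * s) = 4 * (g.natDegree * s) := by ring
        _ = (4 * r * B.card) * c := by rw [h6]; ring
        _ ≤ g.natDegree * c := Nat.mul_le_mul_right _ h7
    exact Nat.le_of_mul_le_mul_left h11 hn
  omega

end Pool.Agent.Lib.MP_7ab245_nt.Solv
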