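import Pool.Agent.Lib.MP_7ab245_nt.Solv.Vrk

set_option autoImplicit false

/-! # Module SV-GradedStable (0.7 h). Only Mathlib.
Setting as in Translate.  Let `A_k` be the space of `F : Γ →₀ k` supported in the finite set `E` with
`φ(F) := ∑ F(a) φ(a) = 0`, and `T_χ F (a) = ζ^{χ(a)} F(a)`.
PROOF.  The hypothesis says `φ(T_χ F) = 0` for `F ∈ A_k`; as `T_χ F` is again supported in `E`,
`T_χ A_k ⊆ A_k`, so by induction `T_χ^i A_k ⊆ A_k` for all `i ∈ ℕ`.  A rational `F` with
`φ(F) = 0` gives an element of `A_k`.  Since `∑_{i<p} ζ^{i (x - j)} = p` if `x = j` in `ZMod p` and `0`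
otherwise (`IsPrimitiveRoot.geom_sum_eq_zero` for a nontrivial power of `ζ`, which is again a
primitive root), the restriction of `F` to the class `χ = j` is
`F|_{χ = j} = (1/p) ∑_{i < p} ζ^{-i j} T_χ^i F`, so `φ(F|_{χ=j}) = 0`. -/

namespace Pool.Agent.Lib.MP_7ab245_nt.Solv

open Module

private theorem sum_pow_root {k : Type*} [Field k] {p : ℕ} [hp : Fact p.Prime] (ζ : k)
    (hζ : IsPrimitiveRoot ζ p) (x j : ZMod p) :
    ∑ i ∈ Finset.range p, ζ ^ (i * (x.val + (p - j.val))) = if x = j then (p : k) else 0 := by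
  have hpp : p ≠ 0 := hp.out.ne_zero
  have : NeZero p := ⟨hpp⟩
  have hjlt : j.val < p := ZMod.val_lt j
  have hcast : ((x.val + (p - j.val) : ℕ) : ZMod p) = x - j := by
    rw [Nat.cast_add, Nat.cast_sub hjlt.le, ZMod.natCast_zmod_val, ZMod.natCast_zmod_val,
      ZMod.natCast_self]
    ring
  have hiff : ζ ^ (x.val + (p - j.val)) = 1 ↔ x = j := by
    rw [hζ.pow_eq_one_iff_dvd, ← ZMod.natCast_eq_zero_iff, hcast, sub_eq_zero]
  have hsum : ∑ i ∈ Finset.range p, ζ ^ (i * (x.val + (p - j.val))) =
      ∑ i ∈ Finset.range p, (ζ ^ (x.val + (p - j.val))) ^ i := by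
    apply Finset.sum_congr rfl
    intro i _
    rw [← pow_mul, mul_comm]
  rw [hsum]
  split_ifs with hx
  · rw [hiff.2 hx]
    simp
  · have hne : ζ ^ (x.val + (p - j.val)) ≠ 1 := fun h => hx (hiff.1 h)
    rw [geom_sum_eq hne, ← pow_mul, mul_comm, pow_mul, hζ.pow_eq_one, one_pow, sub_self, zero_div]

open Classical in
theorem graded_of_stable {k K Γ : Type*} [Field k] [CharZero k] [Field K] [Algebra k K]
    [Algebra ℚ K] [AddCommGroup Γ] {p : ℕ} [Fact p.Prime] (ζ : k) (hζ : IsPrimitiveRoot ζ p)
    (φ : Γ → K) (E : Finset Γ) (χ : Γ →+ ZMod p)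
    (h : ∀ F : Γ →₀ k, F.support ⊆ E → (F.sum fun a c => algebraMap k K c * φ a) = 0 →
      (F.sum fun a c => algebraMap k K (c * ζ ^ (χ a).val) * φ a) = 0)
    (F : Γ →₀ ℚ) (hF : F.support ⊆ E) (hF0 : (F.sum fun a c => (c : K) * φ a) = 0) (j : ZMod p) :
    ((F.filter fun a => χ a = j).sum fun a c => (c : K) * φ a) = 0 := by
  have : CharZero K := algebraRat.charZero K
  have hp : p ≠ 0 := (Fact.out : p.Prime).ne_zero
  have key : ∀ i : ℕ, ∑ a ∈ F.support, algebraMap k K ((F a : k) * ζ ^ (i * (χ a).val)) * φ a = 0 := by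
    intro i
    induction i with
    | zero =>
      rw [← hF0, Finsupp.sum]
      apply Finset.sum_congr rfl
      intro a _
      rw [Nat.zero_mul, pow_zero, mul_one, map_ratCast]
    | succ i ih =>
      set G : Γ →₀ k := Finsupp.onFinset F.support (fun a => (F a : k) * ζ ^ (i * (χ a).val))
        (by
          intro a ha
          rw [Finsupp.mem_support_iff]
          intro h0
          apply ha
          rw [h0]
          simp) with hG
      have hGs : G.support ⊆ F.support := Finsupp.support_onFinset_subset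
      have hGa : ∀ a, G a = (F a : k) * ζ ^ (i * (χ a).val) := fun a => rfl
      have h1 : (G.sum fun a c => algebraMap k K c * φ a) = 0 := by
        rw [Finsupp.sum_of_support_subset G hGs _ (by intro a _; simp), ← ih]
        rfl
      have h2 := h G (hGs.trans hF) h1
      rw [Finsupp.sum_of_support_subset G hGs _ (by intro a _; simp)] at h2
      rw [← h2]
      apply Finset.sum_congr rfl
      intro a _
      rw [hGa, mul_assoc, ← pow_add, Nat.succ_mul]
  have hfin : (p : K) * ((F.filter fun a => χ a = j).sum fun a c => (c : K) * φ a) = 0 := by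
    have h3 : ∑ i ∈ Finset.range p, algebraMap k K (ζ ^ (i * (p - j.val))) *
        ∑ a ∈ F.support, algebraMap k K ((F a : k) * ζ ^ (i * (χ a).val)) * φ a = 0 := by
      apply Finset.sum_eq_zero
      intro i _
      rw [key i, mul_zero]
    rw [← h3]
    simp_rw [Finset.mul_sum]
    rw [Finset.sum_comm, Finsupp.sum_of_support_subset (F.filter fun a => χ a = j)
      (Finsupp.support_filter (fun a => χ a = j) F ▸ Finset.filter_subset _ _) _
      (by intro a _; simp), Finset.mul_sum]
    apply Finset.sum_congr rfl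
    intro a _
    have h4 : ∑ i ∈ Finset.range p, algebraMap k K (ζ ^ (i * (p - j.val))) *
        (algebraMap k K ((F a : k) * ζ ^ (i * (χ a).val)) * φ a) =
        (F a : K) * φ a * algebraMap k K (∑ i ∈ Finset.range p, ζ ^ (i * ((χ a).val + (p - j.val)))) := by
      rw [map_sum, Finset.mul_sum]
      apply Finset.sum_congr rfl
      intro i _
      rw [map_mul, map_ratCast, Nat.mul_add, pow_add, map_mul]
      ring
    rw [h4, sum_pow_root ζ hζ, Finsupp.filter_apply]
    split_ifs with hx
    · rw [map_natCast]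
      ring
    · simp
  rcases mul_eq_zero.1 hfin with h5 | h5
  · exact absurd h5 (Nat.cast_ne_zero.2 hp)
  · exact h5

end Pool.Agent.Lib.MP_7ab245_nt.Solv
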