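import Pool.Agent.Lib.MP_7ab245_nt.Solv.Vrk

set_option autoImplicit false

/-! # Module SV-HalfA (0.8 h). Only Mathlib.
`V` is a finite-dimensional `ℚ`-subspace of the field `K` with `2 dim(V V) < 3 dim V`.
PROOF of `quot_field`.  Let `d = dim V`.  For `u = x / y` with `x, y ∈ V`, `y ≠ 0`:
`y (V + u V) = y V + x V ⊆ V V`, so `dim (V + uV) ≤ dim VV < 3d/2`; if also `x ≠ 0`, then
`dim (V ∩ uV) = 2d - dim (V + uV) > d/2` (`Submodule.finrank_sup_add_finrank_inf_eq`).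
Let `F = {x / y : x, y ∈ V, y ≠ 0}`.  For `u, u' ∈ F` nonzero the subspaces `V ∩ uV` and `V ∩ u'V` of
`V` have dimension `> d/2`, so they meet: `u v = u' v' ≠ 0` with `v, v' ∈ V`, and
`u / u' = v' / v ∈ F`.  `1 ∈ F` (`V ≠ 0`), `0 ∈ F`; so `F` is closed under division and (with
`u (1/u')⁻¹`) multiplication and inverses; and `u + 1 = (x + y) / y ∈ F`, so
`u + u' = u' (u / u' + 1) ∈ F` for `u' ≠ 0`; negatives are clear.  `F` contains `ℚ`.  So `F` is an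
intermediate field. -/

namespace Pool.Agent.Lib.MP_7ab245_nt.Solv

open Module

private theorem half_fin {K : Type*} [Field K] [Algebra ℚ K] (V : Submodule ℚ K)
    [FiniteDimensional ℚ V] : FiniteDimensional ℚ (V * V : Submodule ℚ K) := by
  have h : V.FG := Submodule.fg_iff_finiteDimensional V |>.2 inferInstance
  exact (Submodule.fg_iff_finiteDimensional _).1 (h.mul h)

private theorem half_finrank_map {K : Type*} [Field K] [Algebra ℚ K] (V : Submodule ℚ K)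
    {u : K} (hu : u ≠ 0) :
    finrank ℚ (V.map (LinearMap.mulLeft ℚ u) : Submodule ℚ K) = finrank ℚ V :=
  (LinearEquiv.finrank_eq (Submodule.equivMapOfInjective (LinearMap.mulLeft ℚ u)
    (fun _ _ h => mul_left_cancel₀ hu h) V)).symm

/-- `dim (V + u V) ≤ dim (V V)` for `u ∈ F` -/
theorem finrank_sup_le {K : Type*} [Field K] [Algebra ℚ K] (V : Submodule ℚ K)
    [FiniteDimensional ℚ V] (x y : K) (hx : x ∈ V) (hy : y ∈ V) (hy0 : y ≠ 0) :
    finrank ℚ (V ⊔ V.map (LinearMap.mulLeft ℚ (x / y)) : Submodule ℚ K) ≤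
      finrank ℚ (V * V : Submodule ℚ K) := by
  have := half_fin V
  rw [← half_finrank_map (V ⊔ V.map (LinearMap.mulLeft ℚ (x / y))) hy0]
  apply Submodule.finrank_mono
  rw [Submodule.map_sup]
  refine sup_le ?_ ?_
  · rintro _ ⟨v, hv, rfl⟩
    exact Submodule.mul_mem_mul hy hv
  · rintro _ ⟨_, ⟨v, hv, rfl⟩, rfl⟩
    have h1 : LinearMap.mulLeft ℚ y (LinearMap.mulLeft ℚ (x / y) v) = x * v := by
      rw [LinearMap.mulLeft_apply, LinearMap.mulLeft_apply, ← mul_assoc, mul_div_cancel₀ _ hy0]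
    rw [h1]
    exact Submodule.mul_mem_mul hx hv

private theorem half_inf {K : Type*} [Field K] [Algebra ℚ K] (V : Submodule ℚ K)
    [FiniteDimensional ℚ V] (h : 2 * finrank ℚ (V * V : Submodule ℚ K) < 3 * finrank ℚ V)
    {u : K} (hu : u ≠ 0) (huF : ∃ x ∈ V, ∃ y ∈ V, y ≠ 0 ∧ u = x / y) :
    finrank ℚ V < 2 * finrank ℚ (V ⊓ V.map (LinearMap.mulLeft ℚ u) : Submodule ℚ K) := by
  obtain ⟨x, hx, y, hy, hy0, rfl⟩ := huF
  have h1 := finrank_sup_le V x y hx hy hy0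
  have h2 := Submodule.finrank_sup_add_finrank_inf_eq V (V.map (LinearMap.mulLeft ℚ (x / y)))
  rw [half_finrank_map V hu] at h2
  omega

private theorem half_div {K : Type*} [Field K] [Algebra ℚ K] (V : Submodule ℚ K)
    [FiniteDimensional ℚ V] (h1 : (1 : K) ∈ V)
    (h : 2 * finrank ℚ (V * V : Submodule ℚ K) < 3 * finrank ℚ V)
    {u u' : K} (hu : ∃ x ∈ V, ∃ y ∈ V, y ≠ 0 ∧ u = x / y)
    (hu' : ∃ x ∈ V, ∃ y ∈ V, y ≠ 0 ∧ u' = x / y) :
    ∃ x ∈ V, ∃ y ∈ V, y ≠ 0 ∧ u / u' = x / y := by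
  by_cases h0 : u = 0
  · exact ⟨0, V.zero_mem, 1, h1, one_ne_zero, by rw [h0]; simp⟩
  by_cases h0' : u' = 0
  · exact ⟨0, V.zero_mem, 1, h1, one_ne_zero, by rw [h0']; simp⟩
  have e1 := half_inf V h h0 hu
  have e2 := half_inf V h h0' hu'
  set A : Submodule ℚ K := V ⊓ V.map (LinearMap.mulLeft ℚ u) with hA
  set B : Submodule ℚ K := V ⊓ V.map (LinearMap.mulLeft ℚ u') with hB
  have hAV : A ≤ V := inf_le_left
  have hBV : B ≤ V := inf_le_left
  have : FiniteDimensional ℚ A := Submodule.finiteDimensional_of_le hAV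
  have : FiniteDimensional ℚ B := Submodule.finiteDimensional_of_le hBV
  have e3 := Submodule.finrank_sup_add_finrank_inf_eq A B
  have e4 : finrank ℚ (A ⊔ B : Submodule ℚ K) ≤ finrank ℚ V :=
    Submodule.finrank_mono (sup_le hAV hBV)
  have e5 : 0 < finrank ℚ (A ⊓ B : Submodule ℚ K) := by omega
  have e6 : A ⊓ B ≠ ⊥ := by
    intro h0
    rw [h0, finrank_bot] at e5
    exact lt_irrefl _ e5
  obtain ⟨z, hz, hz0⟩ := Submodule.exists_mem_ne_zero_of_ne_bot e6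
  obtain ⟨⟨-, v, hv, hvz⟩, ⟨-, v', hv', hvz'⟩⟩ := hz
  rw [LinearMap.mulLeft_apply] at hvz hvz'
  have hv0 : v ≠ 0 := by
    rintro rfl
    rw [mul_zero] at hvz
    exact hz0 hvz.symm
  refine ⟨v', hv', v, hv, hv0, ?_⟩
  rw [div_eq_div_iff h0' hv0, hvz, ← hvz']
  ring

theorem quot_field {K : Type*} [Field K] [Algebra ℚ K] (V : Submodule ℚ K)
    [FiniteDimensional ℚ V] (h1 : (1 : K) ∈ V)
    (h : 2 * finrank ℚ (V * V : Submodule ℚ K) < 3 * finrank ℚ V) :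
    ∃ F : IntermediateField ℚ K, ∀ u : K, u ∈ F ↔ ∃ x ∈ V, ∃ y ∈ V, y ≠ 0 ∧ u = x / y := by
  have hone : ∃ x ∈ V, ∃ y ∈ V, y ≠ 0 ∧ (1 : K) = x / y := ⟨1, h1, 1, h1, one_ne_zero, by simp⟩
  have hinv : ∀ u : K, (∃ x ∈ V, ∃ y ∈ V, y ≠ 0 ∧ u = x / y) →
      ∃ x ∈ V, ∃ y ∈ V, y ≠ 0 ∧ u⁻¹ = x / y := by
    intro u hu
    have := half_div V h1 h hone hu
    rwa [one_div] at this
  have hmul : ∀ u u' : K, (∃ x ∈ V, ∃ y ∈ V, y ≠ 0 ∧ u = x / y) →
      (∃ x ∈ V, ∃ y ∈ V, y ≠ 0 ∧ u' = x / y) → ∃ x ∈ V, ∃ y ∈ V, y ≠ 0 ∧ u * u' = x / y := by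
    intro u u' hu hu'
    have := half_div V h1 h hu (hinv u' hu')
    rwa [div_inv_eq_mul] at this
  have hadd : ∀ u u' : K, (∃ x ∈ V, ∃ y ∈ V, y ≠ 0 ∧ u = x / y) →
      (∃ x ∈ V, ∃ y ∈ V, y ≠ 0 ∧ u' = x / y) → ∃ x ∈ V, ∃ y ∈ V, y ≠ 0 ∧ u + u' = x / y := by
    intro u u' hu hu'
    by_cases h0 : u' = 0
    · rw [h0, add_zero]; exact hu
    obtain ⟨x, hx, y, hy, hy0, hxy⟩ := half_div V h1 h hu hu'
    have h2 : ∃ x ∈ V, ∃ y ∈ V, y ≠ 0 ∧ u / u' + 1 = x / y :=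
      ⟨x + y, V.add_mem hx hy, y, hy, hy0, by rw [hxy]; field_simp⟩
    have h3 := hmul _ _ hu' h2
    have h4 : u' * (u / u' + 1) = u + u' := by field_simp
    rwa [h4] at h3
  have hq : ∀ q : ℚ, ∃ x ∈ V, ∃ y ∈ V, y ≠ 0 ∧ algebraMap ℚ K q = x / y := by
    intro q
    refine ⟨algebraMap ℚ K q, ?_, 1, h1, one_ne_zero, by simp⟩
    rw [Algebra.algebraMap_eq_smul_one]
    exact V.smul_mem q h1
  refine ⟨{ carrier := {u | ∃ x ∈ V, ∃ y ∈ V, y ≠ 0 ∧ u = x / y}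
            mul_mem' := fun {a b} ha hb => hmul a b ha hb
            one_mem' := hone
            add_mem' := fun {a b} ha hb => hadd a b ha hb
            zero_mem' := ⟨0, V.zero_mem, 1, h1, one_ne_zero, by simp⟩
            algebraMap_mem' := hq
            inv_mem' := hinv }, fun u => Iff.rfl⟩

end Pool.Agent.Lib.MP_7ab245_nt.Solv
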