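import Pool.Agent.Lib.MP_7ab245_nt.Solv.HalfA

set_option autoImplicit false

/-! # Module SV-HalfB (1.0 h). Only Mathlib.
`max_rank`: linear algebra over the infinite field `ℚ`.  `A, B : V → W` linear, `V` finite-dimensional,
such that `rank (A + c B) ≤ rank A` for all `c ∈ ℚ`.  Then `B (ker A) ⊆ im A`.
PROOF.  Let `ρ = rank A`, `v_1..v_ρ ∈ V` with `A v_i` a basis of `im A`.  Suppose `v ∈ ker A` with
`B v ∉ im A`.  Then `A v_1, …, A v_ρ, B v` are linearly independent.  For `c ≠ 0` consider
`w_i(c) = (A + cB) v_i` and `w(c) = (1/c) (A + cB) v = B v`.  All lie in `im (A + cB)`.  Choose linear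
forms (a linear map `f : W → ℚ^{ρ+1}`) sending `A v_1, …, A v_ρ, B v` to the standard basis; the
determinant of `f(w_1(c)), …, f(w_ρ(c)), f(B v)` is a polynomial in `c` with value `1` at `c = 0`, so
it is nonzero for some `c ≠ 0` (a nonzero polynomial has finitely many roots).  Then
`rank (A + cB) ≥ ρ + 1`, contradiction. -/

namespace Pool.Agent.Lib.MP_7ab245_nt.Solv

open Module

theorem max_rank {V W : Type*} [AddCommGroup V] [Module ℚ V] [FiniteDimensional ℚ V]
    [AddCommGroup W] [Module ℚ W] (A B : V →ₗ[ℚ] W)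
    (h : ∀ c : ℚ, finrank ℚ (LinearMap.range (A + c • B)) ≤ finrank ℚ (LinearMap.range A))
    (v : V) (hv : A v = 0) : B v ∈ LinearMap.range A := by
  by_contra hBv
  obtain ⟨s, hs⟩ := LinearMap.exists_rightInverse_of_surjective A.rangeRestrict
    A.range_rangeRestrict
  have hs' : ∀ x : LinearMap.range A, A (s x) = x := fun x => by
    have := congrArg (fun g => ((g x : LinearMap.range A) : W)) hs
    simpa using this
  set g : (LinearMap.range A × ℚ) →ₗ[ℚ] W :=
    LinearMap.coprod (LinearMap.range A).subtype (LinearMap.toSpanSingleton ℚ W (B v)) with hg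
  have hgv : ∀ z, g z = z.1 + z.2 • B v := fun z => by simp [hg]
  have hginj : LinearMap.ker g = ⊥ := by
    rw [LinearMap.ker_eq_bot']
    intro z hz
    rw [hgv] at hz
    have h2 : z.2 = 0 := by
      by_contra h2
      apply hBv
      have : B v = -(z.2⁻¹ • (z.1 : W)) := by
        have h3 : z.2 • B v = -(z.1 : W) := by
          rw [eq_neg_iff_add_eq_zero, add_comm]; exact hz
        rw [← smul_neg, ← h3, smul_smul, inv_mul_cancel₀ h2, one_smul]
      rw [this]
      exact Submodule.neg_mem _ (Submodule.smul_mem _ _ z.1.2)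
    have h1 : z.1 = 0 := by
      rw [h2, zero_smul, add_zero] at hz
      exact Subtype.ext (by simpa using hz)
    exact Prod.ext h1 h2
  obtain ⟨f, hf⟩ := LinearMap.exists_leftInverse_of_injective g hginj
  have hf' : ∀ z, f (g z) = z := fun z => by
    have := congrArg (fun l => l z) hf
    simpa using this
  set N : Module.End ℚ (LinearMap.range A × ℚ) :=
    f ∘ₗ B ∘ₗ s ∘ₗ LinearMap.fst ℚ (LinearMap.range A) ℚ with hN
  have hfin := Module.End.finite_hasEigenvalue N
  obtain ⟨μ, hμ⟩ := (hfin.union (Set.finite_singleton (0 : ℚ))).infinite_compl.nonempty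
  have hμ0 : μ ≠ 0 := fun h0 => hμ (Or.inr h0)
  have hμN : ¬ N.HasEigenvalue μ := fun h0 => hμ (Or.inl h0)
  set c : ℚ := -μ⁻¹ with hc
  have hc0 : c ≠ 0 := neg_ne_zero.2 (inv_ne_zero hμ0)
  set L : (LinearMap.range A × ℚ) →ₗ[ℚ] V :=
    LinearMap.coprod s (LinearMap.toSpanSingleton ℚ V (c⁻¹ • v)) with hL
  have hLv : ∀ z, (A + c • B) (L z) = g z + c • B (s z.1) := by
    intro z
    rw [hgv]
    simp only [hL, LinearMap.coprod_apply, LinearMap.toSpanSingleton_apply, LinearMap.add_apply,
      LinearMap.smul_apply, map_add, map_smul, hv, hs', smul_zero, smul_add, smul_smul]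
    rw [inv_mul_cancel_right₀ hc0]
    abel
  have hinj : Function.Injective ((A + c • B).rangeRestrict ∘ₗ L) := by
    rw [← LinearMap.ker_eq_bot, LinearMap.ker_eq_bot']
    intro z hz
    have hz' : (A + c • B) (L z) = 0 := by
      have := congrArg Subtype.val hz
      simpa using this
    rw [hLv] at hz'
    have h3 : z + c • N z = 0 := by
      have := congrArg f hz'
      rw [map_add, hf', map_smul, map_zero] at this
      exact this
    have h4 : N z = μ • z := by
      have h5 : c • N z = -z := by
        rw [eq_neg_iff_add_eq_zero, add_comm]; exact h3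
      have h6 : N z = c⁻¹ • (-z) := by
        rw [← h5, smul_smul, inv_mul_cancel₀ hc0, one_smul]
      rw [h6, hc, inv_neg, inv_inv, smul_neg, neg_smul, neg_neg]
    by_contra hz0
    exact hμN (Module.End.hasEigenvalue_of_hasEigenvector
      (x := z) ⟨Module.End.mem_eigenspace_iff.2 h4, hz0⟩)
  have h1 := LinearMap.finrank_le_finrank_of_injective hinj
  have h2 := h c
  rw [Module.finrank_prod, Module.finrank_self] at h1
  omega

end Pool.Agent.Lib.MP_7ab245_nt.Solv
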