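import Pool.Agent.Lib.MP_7ab245_nt.Solv.HalfB

set_option autoImplicit false

/-! # Module SV-HalfC (1.0 h). Uses HalfA, HalfB.
`three_halves`.  Let `F` be the field of `quot_field`; `V ⊆ F` (`x = x / 1`), so `V V ⊆ F`.
For `u ∈ F` let `Ψ_u : V → K ⧸ V`, `v ↦ u v mod V` (linear in `u`).  Its rank is
`dim (V + uV) - dim V ≤ dim VV - dim V` (`finrank_sup_le`; `Ψ_u` has range the image of `V + uV` in
`K ⧸ V`), so the ranks are bounded; choose `u0 ∈ F` with maximal rank.  For `u ∈ F` and `c ∈ ℚ`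
`u0 + c u ∈ F`, so `rank (Ψ_{u0} + c Ψ_u) ≤ rank Ψ_{u0}` and `max_rank` gives
`Ψ_u (ker Ψ_{u0}) ⊆ im Ψ_{u0}`.  `dim ker Ψ_{u0} = dim V - rank ≥ 2 dim V - dim VV > 0`: take
`0 ≠ v ∈ ker Ψ_{u0}`.  Then `u v ∈ V + u0 V` for every `u ∈ F`: `F v ⊆ V + u0 V`, so `F` is
finite-dimensional with `dim F ≤ dim (V + u0 V) ≤ dim VV ≤ dim F`, hence `VV = F`. -/

namespace Pool.Agent.Lib.MP_7ab245_nt.Solv

open Module

/-- `v ↦ u v mod V` -/
private noncomputable def psi {K : Type*} [Field K] [Algebra ℚ K] (V : Submodule ℚ K) (u : K) :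
    V →ₗ[ℚ] (K ⧸ V) :=
  V.mkQ ∘ₗ LinearMap.mulLeft ℚ u ∘ₗ V.subtype

private theorem psi_apply {K : Type*} [Field K] [Algebra ℚ K] (V : Submodule ℚ K) (u : K)
    (v : V) : psi V u v = V.mkQ (u * v) := rfl

private theorem psi_add_smul {K : Type*} [Field K] [Algebra ℚ K] (V : Submodule ℚ K) (u u' : K)
    (c : ℚ) : psi V u + c • psi V u' = psi V (u + c • u') := by
  ext v
  rw [LinearMap.add_apply, LinearMap.smul_apply, psi_apply, psi_apply, psi_apply, ← map_smul,
    ← map_add, add_mul, smul_mul_assoc]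

theorem three_halves {K : Type*} [Field K] [Algebra ℚ K] (V : Submodule ℚ K)
    [FiniteDimensional ℚ V] (h1 : (1 : K) ∈ V)
    (h : 2 * finrank ℚ (V * V : Submodule ℚ K) < 3 * finrank ℚ V) :
    ∃ F : IntermediateField ℚ K, Subalgebra.toSubmodule F.toSubalgebra = V * V := by
  obtain ⟨F, hF⟩ := quot_field V h1 h
  refine ⟨F, ?_⟩
  have hVF : ∀ x ∈ V, x ∈ F := fun x hx => (hF x).2 ⟨x, hx, 1, h1, one_ne_zero, by simp⟩
  have hVVF : V * V ≤ Subalgebra.toSubmodule F.toSubalgebra := by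
    rw [Submodule.mul_le]
    intro x hx y hy
    exact F.mul_mem (hVF x hx) (hVF y hy)
  -- an element of maximal rank
  obtain ⟨u0, hu0, hmax⟩ : ∃ u0 ∈ F, ∀ u ∈ F, finrank ℚ (LinearMap.range (psi V u)) ≤
      finrank ℚ (LinearMap.range (psi V u0)) := by
    set s : Set ℕ := (fun u => finrank ℚ (LinearMap.range (psi V u))) '' (F : Set K) with hs
    have hne : s.Nonempty := ⟨_, 1, F.one_mem, rfl⟩
    have hb : BddAbove s := by
      refine ⟨finrank ℚ V, ?_⟩
      rintro _ ⟨u, -, rfl⟩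
      exact LinearMap.finrank_range_le _
    obtain ⟨u0, hu0, h0⟩ := Nat.sSup_mem hne hb
    refine ⟨u0, hu0, fun u hu => ?_⟩
    have := le_csSup hb ⟨u, hu, rfl⟩
    rw [← h0] at this
    exact this
  obtain ⟨x0, hx0, y0, hy0, hy00, hu0e⟩ := (hF u0).1 hu0
  set S0 : Submodule ℚ K := V ⊔ V.map (LinearMap.mulLeft ℚ (x0 / y0)) with hS0
  have hker : psi V u0 ⟨y0, hy0⟩ = 0 := by
    rw [psi_apply, hu0e]
    simp only [Submodule.mkQ_apply]
    rw [Submodule.Quotient.mk_eq_zero, div_mul_cancel₀ _ hy00]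
    exact hx0
  have hmem : ∀ u ∈ F, u * y0 ∈ S0 := by
    intro u hu
    have h2 := max_rank (psi V u0) (psi V u) (fun c => by
      rw [psi_add_smul]
      refine hmax _ (F.add_mem hu0 ?_)
      rw [Algebra.smul_def]
      exact F.mul_mem (F.algebraMap_mem c) hu) ⟨y0, hy0⟩ hker
    obtain ⟨v, hv⟩ := h2
    rw [psi_apply, psi_apply] at hv
    have h3 : u * y0 - u0 * v ∈ V := by
      have := hv.symm
      simp only [Submodule.mkQ_apply] at this
      exact (Submodule.Quotient.eq V).1 this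
    have h4 : u * y0 = (u * y0 - u0 * v) + u0 * v := by ring
    rw [h4]
    refine Submodule.add_mem_sup h3 ⟨v, v.2, ?_⟩
    rw [LinearMap.mulLeft_apply, hu0e]
  set L : Subalgebra.toSubmodule F.toSubalgebra →ₗ[ℚ] S0 :=
    LinearMap.codRestrict S0 ((LinearMap.mulRight ℚ y0) ∘ₗ
      (Subalgebra.toSubmodule F.toSubalgebra).subtype) (fun z => hmem z z.2) with hL
  have hLinj : Function.Injective L := by
    intro a b hab
    have := congrArg Subtype.val hab
    simp only [hL, LinearMap.codRestrict_apply, LinearMap.comp_apply, LinearMap.mulRight_apply,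
      Submodule.subtype_apply] at this
    exact Subtype.ext (mul_right_cancel₀ hy00 this)
  have : FiniteDimensional ℚ S0 := inferInstance
  have : FiniteDimensional ℚ (Subalgebra.toSubmodule F.toSubalgebra) :=
    FiniteDimensional.of_injective L hLinj
  symm
  apply Submodule.eq_of_le_of_finrank_le hVVF
  exact (LinearMap.finrank_le_finrank_of_injective hLinj).trans
    (finrank_sup_le V x0 y0 hx0 hy0 hy00)

end Pool.Agent.Lib.MP_7ab245_nt.Solv
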