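import Pool.Agent.Lib.MP_7ab245_nt.Solv.Vrk
import Pool.Agent.Lib.MP_7ab245_nt.Solv.Ball

set_option autoImplicit false

/-! # Module SV-Hilb (0.6 h). Uses Vrk, Ball.
* `exists_rel`: the vectors `mono α m a`, `a ∈ E`, are linearly dependent over `ℚ` when
  `rk ℚ α m E < E.card` (`vrk_eq_card`), and a dependence relation is a finitely supported `F ≠ 0`.
* `ev_translate`: `ev` of the translate by `b` is `mono α m b * ev α m F` (`Finsupp.sum_mapDomain_index`
  or `Finsupp.sum_embDomain`, `mono_add`).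
* `rk_drop`: let `V` be the space of `F` supported on `ball U (N + t)` (dimension the cardinality of
  that ball).  `ev α m : V → K` is linear with image `span (mono '' ball U (N+t))`, so
  `dim ker + rk = card`.  If `Rel α m U t F` the translates of `F` by `a ∈ ball U N` lie in the
  kernel and are linearly independent: a relation `∑ c_a x^a F = 0` says `(∑ c_a x^a) * F = 0` in
  `AddMonoidAlgebra ℚ (Fin r → ℤ)`, which has no zero divisors (`UniqueProds`/ torsion-free ordered
  group instance), so all `c_a = 0`.  (Alternatively: translates of `F` by different `a` have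
  different maximal support elements for the lexicographic order.) -/

namespace Pool.Agent.Lib.MP_7ab245_nt.Solv

open Module

variable {r : ℕ} (α : Fin r → ℂ)

private theorem ev_eq (m : ℕ) (F : (Fin r → ℤ) →₀ ℚ) :
    ev α m F = Finsupp.linearCombination ℚ (mono α m) F := by
  unfold ev
  rw [Finsupp.linearCombination_apply]
  refine Finsupp.sum_congr fun a _ => ?_
  rw [Algebra.smul_def]
  rfl

theorem exists_rel (m : ℕ) (E : Finset (Fin r → ℤ)) (h : rk ℚ α m E < E.card) :
    ∃ F : (Fin r → ℤ) →₀ ℚ, F ≠ 0 ∧ F.support ⊆ E ∧ ev α m F = 0 := by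
  by_contra hcon
  push Not at hcon
  have h1 : LinearIndepOn ℚ (mono α m) (E : Set (Fin r → ℤ)) := by
    rw [linearIndepOn_iff]
    intro l hl hl0
    by_contra hne
    refine hcon l hne ?_ ?_
    · intro a ha
      exact (Finsupp.mem_supported _ _).1 hl ha
    · rw [ev_eq, hl0]
  have h2 := vrk_eq_card (mono α m) E h1
  unfold rk at h
  omega

theorem ev_translate (hα : ∀ i, α i ≠ 0) (m : ℕ) (F : (Fin r → ℤ) →₀ ℚ) (b : Fin r → ℤ) :
    ev α m (F.embDomain (addLeftEmbedding b)) = mono α m b * ev α m F := by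
  unfold ev
  rw [Finsupp.sum_embDomain, Finsupp.mul_sum]
  refine Finsupp.sum_congr fun a _ => ?_
  have h1 : addLeftEmbedding b a = b + a := rfl
  rw [h1, mono_add α hα]
  ring

private theorem emb_apply (F : (Fin r → ℤ) →₀ ℚ) (a y : Fin r → ℤ) :
    (F.embDomain (addLeftEmbedding a)) y = F (y - a) := by
  have h1 : y = addLeftEmbedding a (y - a) := by
    show y = a + (y - a)
    abel
  conv_lhs => rw [h1]
  rw [Finsupp.embDomain_apply_self]

private theorem trans_indep {F : (Fin r → ℤ) →₀ ℚ} (hF : F ≠ 0) (D : Finset (Fin r → ℤ)) :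
    LinearIndependent ℚ (fun a : D => F.embDomain (addLeftEmbedding (a : Fin r → ℤ))) := by
  classical
  rw [Fintype.linearIndependent_iff]
  intro g hg
  by_contra hcon
  push Not at hcon
  let A : Finset (Fin r → ℤ) := D.filter fun a => ∃ h : a ∈ D, g ⟨a, h⟩ ≠ 0
  have hA : A.Nonempty := by
    obtain ⟨i, hi⟩ := hcon
    exact ⟨i, Finset.mem_filter.2 ⟨i.2, i.2, hi⟩⟩
  have hB : F.support.Nonempty := Finsupp.support_nonempty_iff.2 hF
  obtain ⟨a0, ha0, b0, hb0, huniq⟩ := UniqueSums.uniqueAdd_of_nonempty hA hB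
  obtain ⟨ha0D, ha0D', hga0⟩ := Finset.mem_filter.1 ha0
  have h1 := congrArg (fun f : (Fin r → ℤ) →₀ ℚ => f (a0 + b0)) hg
  simp only [Finsupp.coe_finsetSum, Finset.sum_apply, Finsupp.smul_apply, smul_eq_mul,
    Finsupp.coe_zero, Pi.zero_apply] at h1
  rw [Finset.sum_eq_single (⟨a0, ha0D⟩ : D)] at h1
  · rw [emb_apply] at h1
    have h2 : a0 + b0 - a0 = b0 := by abel
    simp only [h2] at h1
    rcases mul_eq_zero.1 h1 with h3 | h3
    · exact hga0 h3
    · exact Finsupp.mem_support_iff.1 hb0 h3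
  · rintro ⟨a, ha⟩ _ hne
    rw [emb_apply]
    by_contra h3
    have h4 : g ⟨a, ha⟩ ≠ 0 := left_ne_zero_of_mul h3
    have h5 : F (a0 + b0 - a) ≠ 0 := right_ne_zero_of_mul h3
    have h6 := huniq (Finset.mem_filter.2 ⟨ha, ha, h4⟩) (Finsupp.mem_support_iff.2 h5)
      (by abel)
    exact hne (Subtype.ext h6.1)
  · intro h
    exact absurd (Finset.mem_univ _) h

theorem rk_drop (hα : ∀ i, α i ≠ 0) {m t : ℕ} {U : AddSubgroup (Fin r → ℤ)}
    {F : (Fin r → ℤ) →₀ ℚ} (hF : Rel α m U t F) (N : ℕ) :
    rk ℚ α m (ball U (N + t)) + (ball U N).card ≤ (ball U (N + t)).card := by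
  classical
  obtain ⟨hF0, hFs, hFe⟩ := hF
  set D := ball U (N + t) with hD
  let V := Finsupp.supported ℚ ℚ (D : Set (Fin r → ℤ))
  let L0 := Finsupp.linearCombination ℚ (mono α m)
  let L := L0.domRestrict V
  have hVfd : Module.Finite ℚ V := by
    have e := Finsupp.supportedEquivFinsupp (M := ℚ) (R := ℚ) (D : Set (Fin r → ℤ))
    exact Module.Finite.equiv e.symm
  have hVdim : finrank ℚ V = D.card := by
    have e := Finsupp.supportedEquivFinsupp (M := ℚ) (R := ℚ) (D : Set (Fin r → ℤ))
    rw [e.finrank_eq, Module.finrank_finsupp_self]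
    simp
  have hrange : finrank ℚ (LinearMap.range L) = rk ℚ α m D := by
    unfold rk vrk
    rw [Finsupp.span_image_eq_map_linearCombination, LinearMap.range_domRestrict]
  have hrn := LinearMap.finrank_range_add_finrank_ker L
  rw [hVdim, hrange] at hrn
  have hsup : ∀ a : ball U N, F.embDomain (addLeftEmbedding (a : Fin r → ℤ)) ∈ V := by
    intro a
    rw [Finsupp.mem_supported, Finsupp.support_embDomain]
    intro y hy
    rw [Finset.mem_coe, Finset.mem_map] at hy
    obtain ⟨b, hb, rfl⟩ := hy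
    exact add_mem_ball a.2 (hFs hb)
  have hker : ∀ a : ball U N,
      (⟨F.embDomain (addLeftEmbedding (a : Fin r → ℤ)), hsup a⟩ : V) ∈ LinearMap.ker L := by
    intro a
    rw [LinearMap.mem_ker]
    show L0 (F.embDomain (addLeftEmbedding (a : Fin r → ℤ))) = 0
    rw [← ev_eq, ev_translate α hα, hFe, mul_zero]
  have hind : LinearIndependent ℚ (fun a : ball U N =>
      (⟨⟨F.embDomain (addLeftEmbedding (a : Fin r → ℤ)), hsup a⟩, hker a⟩ : LinearMap.ker L)) := by
    refine LinearIndependent.of_comp (V.subtype ∘ₗ (LinearMap.ker L).subtype) ?_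
    exact trans_indep hF0 (ball U N)
  have hcard := hind.fintype_card_le_finrank
  rw [Fintype.card_coe] at hcard
  omega

end Pool.Agent.Lib.MP_7ab245_nt.Solv
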