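import Pool.Agent.Lib.MP_7ab245_nt.Solv.Vrk

set_option autoImplicit false

/-! # Module SV-IndepA (0.8 h). Only Mathlib.
Product of the separating elements.  `Γ` is an abelian group with a filtration `b` by finite sets,
`φ_i : Γ → K` are multiplicative.  For `G : Γ →₀ k` write `φ_i(G) = ∑ G(a) φ_i(a)`; on
`AddMonoidAlgebra k Γ` this is the algebra homomorphism `AddMonoidAlgebra.lift k K Γ φ_i`
(argument order depends on the Mathlib version), and `AddMonoidAlgebra k Γ` elements are finitely
supported functions.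
PROOF of `exists_prod`.  Given `j`, let `G = ∏_{i ≠ j} F i j` in `AddMonoidAlgebra k Γ`.  Its support is
in `b ((l - 1) t) ⊆ b (l t)`, `l = card ι` (`AddMonoidAlgebra.support_mul`, induction over the
finset of `i ≠ j`, `hb`, `hbm`, `hb0` for the empty product `1 = single 0 1`).  For `i ≠ j` the factor
`F i j` has `φ_i(F i j) = 0`, so `φ_i(G) = 0`; and `φ_j(G) = ∏ φ_j(F i j) ≠ 0`. -/

namespace Pool.Agent.Lib.MP_7ab245_nt.Solv

open Module

theorem exists_prod {k K Γ ι : Type*} [Field k] [Field K] [Algebra k K] [AddCommGroup Γ]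
    [Fintype ι] [DecidableEq ι] (b : ℕ → Finset Γ) (hb0 : (0 : Γ) ∈ b 0) (hbm : Monotone b)
    (hb : ∀ M N x y, x ∈ b M → y ∈ b N → x + y ∈ b (M + N))
    (φ : ι → Γ → K) (hφ0 : ∀ i, φ i 0 = 1) (hφ : ∀ i x y, φ i (x + y) = φ i x * φ i y) (t : ℕ)
    (F : ι → ι → (Γ →₀ k)) (hF : ∀ i j, i ≠ j → (F i j).support ⊆ b t)
    (h0 : ∀ i j, i ≠ j → ((F i j).sum fun a c => algebraMap k K c * φ i a) = 0)
    (h1 : ∀ i j, i ≠ j → ((F i j).sum fun a c => algebraMap k K c * φ j a) ≠ 0) (j : ι) :
    ∃ G : Γ →₀ k, G.support ⊆ b (Fintype.card ι * t) ∧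
      (∀ i, i ≠ j → (G.sum fun a c => algebraMap k K c * φ i a) = 0) ∧
      (G.sum fun a c => algebraMap k K c * φ j a) ≠ 0 := by
  classical
  let ψ : ι → (Multiplicative Γ →* K) := fun i =>
    { toFun := fun x => φ i (Multiplicative.toAdd x)
      map_one' := hφ0 i
      map_mul' := fun x y => hφ i _ _ }
  let Ψ : ι → (AddMonoidAlgebra k Γ →ₐ[k] K) := fun i => AddMonoidAlgebra.lift k K Γ (ψ i)
  have hΨ : ∀ (i : ι) (G : AddMonoidAlgebra k Γ),
      Ψ i G = G.coeff.sum fun a c => algebraMap k K c * φ i a := by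
    intro i G
    change AddMonoidAlgebra.lift k K Γ (ψ i) G = _
    rw [AddMonoidAlgebra.lift_apply]
    refine Finset.sum_congr rfl fun a _ => ?_
    exact Algebra.smul_def _ _
  let P : Finset ι → AddMonoidAlgebra k Γ := fun s =>
    ∏ i ∈ s, AddMonoidAlgebra.ofCoeff (F i j)
  have hsup : ∀ s : Finset ι, j ∉ s → (P s).coeff.support ⊆ b (s.card * t) := by
    intro s
    induction s using Finset.induction_on with
    | empty =>
      intro _
      intro x hx
      have h2 : (P ∅).coeff = Finsupp.single (0 : Γ) (1 : k) := by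
        change (∏ i ∈ (∅ : Finset ι), AddMonoidAlgebra.ofCoeff (F i j) :
          AddMonoidAlgebra k Γ).coeff = _
        rw [Finset.prod_empty, AddMonoidAlgebra.one_def]
        rfl
      rw [h2] at hx
      have h3 := Finsupp.support_single_subset hx
      rw [Finset.mem_singleton] at h3
      rw [h3, Finset.card_empty, Nat.zero_mul]
      exact hb0
    | insert i s his ih =>
      intro hj
      have hji : i ≠ j := fun h => hj (h ▸ Finset.mem_insert_self i s)
      have hjs : j ∉ s := fun h => hj (Finset.mem_insert_of_mem h)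
      have h2 : P (insert i s) = AddMonoidAlgebra.ofCoeff (F i j) * P s := Finset.prod_insert his
      rw [h2]
      intro x hx
      have h3 := AddMonoidAlgebra.support_coeff_mul_subset _ _ hx
      obtain ⟨y, hy, z, hz, rfl⟩ := Finset.mem_add.1 h3
      have h4 := hb _ _ y z (hF i j hji hy) (ih hjs hz)
      rw [Finset.card_insert_of_notMem his]
      have h5 : t + s.card * t = (s.card + 1) * t := by ring
      rwa [h5] at h4
  refine ⟨(P (Finset.univ.erase j)).coeff, ?_, ?_, ?_⟩
  · refine (hsup _ (Finset.notMem_erase j _)).trans (hbm (Nat.mul_le_mul_right t ?_))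
    exact Finset.card_le_univ _
  · intro i hij
    rw [← hΨ i]
    change Ψ i (∏ l ∈ Finset.univ.erase j, AddMonoidAlgebra.ofCoeff (F l j)) = 0
    rw [map_prod]
    refine Finset.prod_eq_zero (Finset.mem_erase.2 ⟨hij, Finset.mem_univ i⟩) ?_
    rw [hΨ]
    exact h0 i j hij
  · rw [← hΨ j]
    change Ψ j (∏ l ∈ Finset.univ.erase j, AddMonoidAlgebra.ofCoeff (F l j)) ≠ 0
    rw [map_prod]
    refine Finset.prod_ne_zero_iff.2 fun l hl => ?_
    rw [hΨ]
    exact h1 l j (Finset.mem_erase.1 hl).1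

end Pool.Agent.Lib.MP_7ab245_nt.Solv
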