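import Pool.Agent.Lib.MP_7ab245_nt.Solv.IndepA

set_option autoImplicit false

/-! # Module SV-IndepB (0.8 h). Uses Vrk, IndepA.
PROOF of `indep_sum`.  Let `G_j` be from `exists_prod`, `γ_j = φ_j(G_j) ≠ 0`, `M' = M + l t`, and let
`V ⊆ (ι → K)` be the `k`-span of the vectors `Φ(a) = (φ_i(a))_i`, `a ∈ b M'`.  For `a ∈ b M`
`∑_c G_j(c) Φ(a + c) = (φ_i(a) φ_i(G_j))_i = φ_j(a) γ_j e_j` (the vector with one nonzero
coordinate), and `a + c ∈ b M'`, so `φ_j(a) γ_j e_j ∈ V`.  Hence `V ⊇ ⊕_j (γ_j V_j) e_j`, where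
`V_j` is the span of `φ_j(a)`, `a ∈ b M`: this is `Submodule.pi Set.univ (γ_j • V_j)`, of dimension
`∑_j dim V_j = ∑_j vrk k (φ j) (b M)` (`Module.finrank_pi_fintype`, a linear equivalence
`(∀ j, V_j) → Submodule.pi`; or choose bases `A_j ⊆ b M` of `V_j` by `vrk_exists_basis` and check
that the family `(j, a) ↦ φ_j(a) γ_j e_j`, `a ∈ A_j`, is linearly independent). -/

namespace Pool.Agent.Lib.MP_7ab245_nt.Solv

open Module

theorem indep_sum {k K Γ ι : Type*} [Field k] [Field K] [Algebra k K] [AddCommGroup Γ]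
    [Fintype ι] [DecidableEq ι] (b : ℕ → Finset Γ) (hb0 : (0 : Γ) ∈ b 0) (hbm : Monotone b)
    (hb : ∀ M N x y, x ∈ b M → y ∈ b N → x + y ∈ b (M + N))
    (φ : ι → Γ → K) (hφ0 : ∀ i, φ i 0 = 1) (hφ : ∀ i x y, φ i (x + y) = φ i x * φ i y) (t M : ℕ)
    (F : ι → ι → (Γ →₀ k)) (hF : ∀ i j, i ≠ j → (F i j).support ⊆ b t)
    (h0 : ∀ i j, i ≠ j → ((F i j).sum fun a c => algebraMap k K c * φ i a) = 0)
    (h1 : ∀ i j, i ≠ j → ((F i j).sum fun a c => algebraMap k K c * φ j a) ≠ 0) :
    ∑ i, vrk k (φ i) (b M) ≤ vrk k (fun a => fun i => φ i a) (b (M + Fintype.card ι * t)) := by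
  classical
  choose G hGs hG0 hG1 using fun j => exists_prod b hb0 hbm hb φ hφ0 hφ t F hF h0 h1 j
  choose A hAb hAc hAi using fun j => vrk_exists_basis (k := k) (φ j) (b M)
  set γ : ι → K := fun j => (G j).sum fun a c => algebraMap k K c * φ j a with hγ
  set V : Submodule k (ι → K) := Submodule.span k ((fun a => fun i => φ i a) ''
    (b (M + Fintype.card ι * t) : Set Γ)) with hV
  have hVfin : FiniteDimensional k V :=
    FiniteDimensional.span_of_finite k ((Finset.finite_toSet _).image _)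
  have hmem : ∀ (j : ι) (a : Γ), a ∈ b M → (Pi.single j (γ j * φ j a) : ι → K) ∈ V := by
    intro j a ha
    have e : (Pi.single j (γ j * φ j a) : ι → K) =
        ∑ c ∈ (G j).support, (G j c) • (fun i => φ i (a + c)) := by
      funext i
      rw [Finset.sum_apply]
      have e1 : ∀ c ∈ (G j).support, ((G j c) • (fun i => φ i (a + c))) i =
          φ i a * (algebraMap k K (G j c) * φ i c) := by
        intro c _
        rw [Pi.smul_apply, hφ, Algebra.smul_def]
        ring
      rw [Finset.sum_congr rfl e1, ← Finset.mul_sum]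
      by_cases hij : i = j
      · subst hij
        rw [Pi.single_eq_same, mul_comm]
        rfl
      · rw [Pi.single_eq_of_ne hij]
        have e2 := hG0 j i hij
        rw [Finsupp.sum] at e2
        rw [e2, mul_zero]
    rw [e]
    refine Submodule.sum_mem _ fun c hc => Submodule.smul_mem _ _ (Submodule.subset_span ?_)
    exact ⟨a + c, hb M (Fintype.card ι * t) a c ha (hGs j hc), rfl⟩
  have hli : LinearIndependent k (fun ji : Σ j, (A j : Set Γ) =>
      (Pi.single ji.1 (γ ji.1 * φ ji.1 ji.2) : ι → K)) := by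
    refine Pi.linearIndependent_single (R := k) (Ms := fun _ : ι => K)
      (fun j (a : (A j : Set Γ)) => γ j * φ j a) ?_
    intro j
    have h2 : LinearIndependent k (fun a : (A j : Set Γ) => φ j a) := hAi j
    exact h2.map' (LinearMap.mulLeft k (γ j))
      (LinearMap.ker_eq_bot.2 fun _ _ h => mul_left_cancel₀ (hG1 j) h)
  have hli' : LinearIndependent k (fun ji : Σ j, (A j : Set Γ) =>
      (⟨Pi.single ji.1 (γ ji.1 * φ ji.1 ji.2), hmem ji.1 ji.2 (hAb ji.1 ji.2.2)⟩ : V)) := by
    apply LinearIndependent.of_comp V.subtype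
    exact hli
  have hcard := hli'.fintype_card_le_finrank
  have h3 : Fintype.card (Σ j, (A j : Set Γ)) = ∑ j, vrk k (φ j) (b M) := by
    rw [Fintype.card_sigma]
    refine Finset.sum_congr rfl fun j _ => ?_
    rw [← hAc j]
    simp
  rw [← h3]
  exact hcard

end Pool.Agent.Lib.MP_7ab245_nt.Solv
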