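import Pool.Agent.Lib.MP_7ab245_nt.Solv.Lat

set_option autoImplicit false

/-! # Module SV-IndexRank (0.5 h). Uses Lat.
`index_rank`: suppose `finrank ℤ (dspan D) ≥ finrank ℤ U =: s`; `dspan D ≤ U` (`D ⊆ U`), so the ranks
are equal.  By `exists_indep` there are `s` independent differences `v_i` of elements of `D`, in
`ball U (2t)` and with `q v_i = 0` (`q` is constant on `D`).  By `small_rep` every `u ∈ U` has
`u' ∈ ball U (s · 2t) ⊆ ball U (2 r t)` with `q u = q u'`.  So `q` maps `ball U (2rt)` onto `Q` and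
`Nat.card Q ≤ (2(2rt)+1)^r = (4rt+1)^r` (`card_ball_le`). Contradiction.
`prod_surjective`: Chinese remainder: the image of `u ↦ (χ_p u)_p` is a subgroup of `∏ ZMod p` and for
every `p` the coordinate `χ_p` is onto (nonzero into a group of prime order); multiply `u` with
`χ_p u = 1` by `N = ∏_{q ≠ p} q` to get an element whose image is supported at `p` with value a unit
of `ZMod p`; these generate.  `card_prod`: `Nat.card (∀ p : P, ZMod p) = ∏ p ∈ P, p`. -/

namespace Pool.Agent.Lib.MP_7ab245_nt.Solv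

open Module

variable {r : ℕ}

theorem index_rank (U : AddSubgroup (Fin r → ℤ)) (t : ℕ) (D : Finset (Fin r → ℤ))
    (hD : D ⊆ ball U t) {Q : Type*} [AddCommGroup Q] [Finite Q] (q : U →+ Q)
    (hq : Function.Surjective q)
    (hc : ∀ a (ha : a ∈ U) b (hb : b ∈ U), a ∈ D → b ∈ D → q ⟨a, ha⟩ = q ⟨b, hb⟩)
    (hbig : (4 * r * t + 1) ^ r < Nat.card Q) : finrank ℤ (dspan D) < finrank ℤ U := by
  classical
  by_contra hcon
  have hle : finrank ℤ U ≤ finrank ℤ (dspan D) := not_lt.1 hcon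
  have hdU : dspan D ≤ U := by
    rw [dspan, AddSubgroup.closure_le]
    rintro x ⟨a, ha, b, hb, rfl⟩
    exact U.sub_mem (mem_ball.1 (hD ha)).1 (mem_ball.1 (hD hb)).1
  obtain ⟨v, hv, hvb, hvd⟩ := exists_indep D t (hD.trans (ball_subset_box U t))
  let v' : Fin (finrank ℤ U) → (Fin r → ℤ) := fun i => v (Fin.castLE hle i)
  have hv' : LinearIndependent ℤ v' := hv.comp (Fin.castLE hle) (Fin.castLE_injective hle)
  have hvb' : ∀ i, v' i ∈ ball U (2 * t) := by
    intro i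
    have h1 := mem_ball.1 (hvb (Fin.castLE hle i))
    exact mem_ball.2 ⟨hdU h1.1, h1.2⟩
  have hq0 : ∀ x ∈ AddSubgroup.closure (Set.range v'), ∃ hx : x ∈ U, q ⟨x, hx⟩ = 0 := by
    intro x hx
    induction hx using AddSubgroup.closure_induction with
    | mem x hx =>
      obtain ⟨i, rfl⟩ := hx
      obtain ⟨a, ha, b, hb, hab⟩ := hvd (Fin.castLE hle i)
      have haU := (mem_ball.1 (hD ha)).1
      have hbU := (mem_ball.1 (hD hb)).1
      refine ⟨(mem_ball.1 (hvb' i)).1, ?_⟩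
      have h1 : (⟨v' i, (mem_ball.1 (hvb' i)).1⟩ : U) = ⟨a, haU⟩ - ⟨b, hbU⟩ :=
        Subtype.ext hab
      rw [h1, map_sub, hc a haU b hbU ha hb, sub_self]
    | zero => exact ⟨U.zero_mem, map_zero q⟩
    | add x y _ _ h1 h2 =>
      obtain ⟨hx, hx0⟩ := h1
      obtain ⟨hy, hy0⟩ := h2
      refine ⟨U.add_mem hx hy, ?_⟩
      have h3 : (⟨x + y, U.add_mem hx hy⟩ : U) = ⟨x, hx⟩ + ⟨y, hy⟩ := rfl
      rw [h3, map_add, hx0, hy0, add_zero]
    | neg x _ h1 =>
      obtain ⟨hx, hx0⟩ := h1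
      refine ⟨U.neg_mem hx, ?_⟩
      have h3 : (⟨-x, U.neg_mem hx⟩ : U) = -⟨x, hx⟩ := rfl
      rw [h3, map_neg, hx0, neg_zero]
  have hsurj : ∀ y : Q, ∃ u : ball U (2 * r * t), q ⟨u, (mem_ball.1 u.2).1⟩ = y := by
    intro y
    obtain ⟨⟨u, hu⟩, rfl⟩ := hq y
    obtain ⟨u', hu', hcl⟩ := small_rep U v' hv' (2 * t) hvb' u hu
    obtain ⟨hx, hx0⟩ := hq0 _ hcl
    have hu'U := (mem_ball.1 hu').1
    have h1 : u' ∈ ball U (2 * r * t) := by
      refine ball_mono U ?_ hu'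
      calc finrank ℤ U * (2 * t) ≤ r * (2 * t) := Nat.mul_le_mul_right _ (finrank_le_r U)
        _ = 2 * r * t := by ring
    refine ⟨⟨u', h1⟩, ?_⟩
    have h2 : (⟨u - u', hx⟩ : U) = ⟨u, hu⟩ - ⟨u', hu'U⟩ := rfl
    rw [h2, map_sub, sub_eq_zero] at hx0
    exact hx0.symm
  have hcard : Nat.card Q ≤ (ball U (2 * r * t)).card := by
    have h1 := Nat.card_le_card_of_surjective
      (fun u : ball U (2 * r * t) => q ⟨u, (mem_ball.1 u.2).1⟩) hsurj
    rwa [Nat.card_eq_fintype_card (α := ball U (2 * r * t)), Fintype.card_coe] at h1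
  have h2 := card_ball_le U (2 * r * t)
  have h3 : 2 * (2 * r * t) + 1 = 4 * r * t + 1 := by ring
  rw [h3] at h2
  omega

theorem prod_surjective (U : AddSubgroup (Fin r → ℤ)) (P : Finset ℕ) (hP : ∀ p ∈ P, p.Prime)
    (χ : ∀ p : ℕ, U →+ ZMod p) (hχ : ∀ p ∈ P, χ p ≠ 0) :
    Function.Surjective (AddMonoidHom.mk' (fun (u : U) (p : P) => χ (p : ℕ) u)
      (fun a b => by ext p; simp)) := by
  classical
  intro f
  have hone : ∀ p ∈ P, ∃ u : U, χ p u = 1 := by
    intro p hp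
    have := Fact.mk (hP p hp)
    have h1 : ∃ u, χ p u ≠ 0 := by
      by_contra hcon
      push Not at hcon
      exact hχ p hp (AddMonoidHom.ext hcon)
    obtain ⟨u, hu⟩ := h1
    refine ⟨((χ p u)⁻¹).val • u, ?_⟩
    rw [map_nsmul, nsmul_eq_mul, ZMod.natCast_zmod_val, inv_mul_cancel₀ hu]
  have hsingle : ∀ p : P, ∃ u : U, χ p u = f p ∧ ∀ q : P, q ≠ p → χ q u = 0 := by
    rintro ⟨p, hp⟩
    have := Fact.mk (hP p hp)
    obtain ⟨u, hu⟩ := hone p hp
    set N := ∏ q ∈ P.erase p, q with hN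
    have hNp : ((N : ℕ) : ZMod p) ≠ 0 := by
      rw [Ne, ZMod.natCast_eq_zero_iff]
      intro hdvd
      rw [hN, (hP p hp).prime.dvd_finsetProd_iff] at hdvd
      obtain ⟨q, hq, hpq⟩ := hdvd
      rw [Finset.mem_erase] at hq
      exact hq.1 (((Nat.prime_dvd_prime_iff_eq (hP p hp) (hP q hq.2)).1 hpq).symm)
    refine ⟨(N * (((N : ZMod p))⁻¹ * f ⟨p, hp⟩).val) • u, ?_, ?_⟩
    · show χ p _ = _
      rw [map_nsmul, hu, nsmul_eq_mul, mul_one, Nat.cast_mul, ZMod.natCast_zmod_val,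
        ← mul_assoc, mul_inv_cancel₀ hNp, one_mul]
    · rintro ⟨q, hq⟩ hqp
      show χ q _ = 0
      have hqN : q ∣ N := by
        rw [hN]
        apply Finset.dvd_prod_of_mem
        rw [Finset.mem_erase]
        exact ⟨fun h => hqp (Subtype.ext h), hq⟩
      rw [map_nsmul, nsmul_eq_mul, Nat.cast_mul, (ZMod.natCast_eq_zero_iff _ _).2 hqN,
        zero_mul, zero_mul]
  choose w hw1 hw2 using hsingle
  refine ⟨∑ p : P, w p, ?_⟩
  funext p
  show χ p (∑ q : P, w q) = f p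
  rw [map_sum, Finset.sum_eq_single p, hw1]
  · intro q _ hq
    exact hw2 q p (Ne.symm hq)
  · intro h
    exact absurd (Finset.mem_univ _) h

theorem card_prod (P : Finset ℕ) (hP : ∀ p ∈ P, p.Prime) :
    Nat.card (∀ p : P, ZMod (p : ℕ)) = ∏ p ∈ P, p := by
  have _ := hP
  rw [Nat.card_pi]
  simp only [Nat.card_zmod]
  exact Finset.prod_coe_sort P (fun p => p)

end Pool.Agent.Lib.MP_7ab245_nt.Solv
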