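import Pool.Agent.Lib.MP_7ab245_nt.Solv.Ball

set_option autoImplicit false

/-! # Module SV-Lat (0.8 h). Uses Ball.
Subgroups of `ℤ^r`; the rank of `U` is `finrank ℤ U` (`U` is free of finite rank `≤ r`).
* `finrank_eq_zero`: `U` is torsion free.
* `exists_indep`: `dspan D` is the `ℤ`-span of the differences `a - b`, which have norm `≤ 2t`;
  a maximal linearly independent subset has `finrank` many elements (`exists_linearIndependent'`,
  or `Submodule.finrank`/`Module.rank` of a span is attained by a subset; over `ℤ` use the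
  `ℚ`-span in `Fin r → ℚ` if more convenient).
* `small_rep`: `finrank ℤ U = s` and `v_1..v_s ∈ U` independent, so for `u ∈ U` the family
  `v, u` is dependent: `k u = ∑ c_i v_i` with `k ≥ 1`.  Put `u' = u - ∑ (c_i / k) v_i` (integer
  division); then `k u' = ∑ (c_i % k) v_i`, so `k |u'_j| ≤ s k t`, `|u'_j| ≤ s t`. -/

namespace Pool.Agent.Lib.MP_7ab245_nt.Solv

open Module

variable {r : ℕ}

private theorem lat_inj (U : AddSubgroup (Fin r → ℤ)) :
    Function.Injective (U.subtype.toIntLinearMap) := Subtype.val_injective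

private theorem lat_finite (U : AddSubgroup (Fin r → ℤ)) : Module.Finite ℤ U :=
  Module.Finite.of_injective U.subtype.toIntLinearMap (lat_inj U)

theorem finrank_le_r (U : AddSubgroup (Fin r → ℤ)) : finrank ℤ U ≤ r := by
  have h := LinearMap.finrank_le_finrank_of_injective (lat_inj U)
  rwa [Module.finrank_fin_fun] at h

theorem finrank_eq_zero (U : AddSubgroup (Fin r → ℤ)) : finrank ℤ U = 0 ↔ U = ⊥ := by
  have := lat_finite U
  rw [Module.finrank_zero_iff]
  constructor
  · intro h
    rw [AddSubgroup.eq_bot_iff_forall]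
    intro x hx
    exact congrArg Subtype.val (Subsingleton.elim (⟨x, hx⟩ : U) 0)
  · rintro rfl
    exact ⟨fun x y => Subtype.ext ((AddSubgroup.mem_bot.1 x.2).trans
      (AddSubgroup.mem_bot.1 y.2).symm)⟩

theorem exists_indep (D : Finset (Fin r → ℤ)) (t : ℕ) (hD : D ⊆ box r t) :
    ∃ v : Fin (finrank ℤ (dspan D)) → (Fin r → ℤ), LinearIndependent ℤ v ∧
      (∀ i, v i ∈ ball (dspan D) (2 * t)) ∧ ∀ i, ∃ a ∈ D, ∃ b ∈ D, v i = a - b := by
  classical
  have hfin := lat_finite (dspan D)
  let S : Set (Fin r → ℤ) := {x | ∃ a ∈ D, ∃ b ∈ D, x = a - b}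
  have hSfin : S.Finite := by
    have h1 : S ⊆ ((D ×ˢ D).image (fun y => y.1 - y.2) : Finset (Fin r → ℤ)) := by
      rintro x ⟨a, ha, b, hb, rfl⟩
      rw [Finset.mem_coe, Finset.mem_image]
      exact ⟨(a, b), Finset.mem_product.2 ⟨ha, hb⟩, rfl⟩
    exact (Finset.finite_toSet _).subset h1
  let f : (Fin r → ℤ) →ₗ[ℤ] (Fin r → ℚ) :=
    { toFun := fun x i => (x i : ℚ)
      map_add' := fun x y => by ext i; simp
      map_smul' := fun c x => by ext i; simp }
  obtain ⟨B, hBS, hspan, hB⟩ := exists_linearIndependent ℚ (f '' S)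
  have hBfin : B.Finite := (hSfin.image f).subset hBS
  have := hBfin.fintype
  have hmem : ∀ β : B, ∃ x ∈ S, f x = β := fun β => hBS β.2
  choose x hxS hx using hmem
  have hLI : LinearIndependent ℤ x := by
    have h1 : LinearIndependent ℤ (fun β : B => (β : Fin r → ℚ)) :=
      (LinearIndependent.iff_fractionRing ℤ ℚ).2 hB
    have h2 : (fun β : B => (β : Fin r → ℚ)) = f ∘ x := by
      funext β
      exact (hx β).symm
    rw [h2] at h1
    exact LinearIndependent.of_comp f h1
  have hxd : ∀ β, x β ∈ dspan D := fun β => AddSubgroup.subset_closure (hxS β)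
  have hcard : Fintype.card B = finrank ℤ (dspan D) := by
    apply le_antisymm
    · have h1 : LinearIndependent ℤ (fun β : B => (⟨x β, hxd β⟩ : dspan D)) := by
        apply LinearIndependent.of_comp (dspan D).subtype.toIntLinearMap
        exact hLI
      exact h1.fintype_card_le_finrank
    · have h1 : Fintype.card B = finrank ℚ (Submodule.span ℚ (f '' S)) := by
        rw [← hspan]
        have h2 := finrank_span_eq_card hB
        rw [Subtype.range_coe] at h2
        exact h2.symm
      rw [h1]
      let b := Module.finBasis ℤ (dspan D)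
      have h3 : ∀ y ∈ dspan D, f y ∈ Submodule.span ℚ (f '' S) := by
        intro y hy
        induction hy using AddSubgroup.closure_induction with
        | mem y hy => exact Submodule.subset_span ⟨y, hy, rfl⟩
        | zero => rw [map_zero]; exact Submodule.zero_mem _
        | add y z _ _ h1 h2 => rw [map_add]; exact Submodule.add_mem _ h1 h2
        | neg y _ h1 => rw [map_neg]; exact Submodule.neg_mem _ h1
      have hfi : Function.Injective f := by
        intro y z hyz
        funext i
        have h1 : ((y i : ℤ) : ℚ) = (z i : ℤ) := congrFun hyz i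
        exact_mod_cast h1
      have h4 : LinearIndependent ℤ (fun i => f (b i : Fin r → ℤ)) := by
        have h5 : LinearIndependent ℤ ((f ∘ₗ (dspan D).subtype.toIntLinearMap) ∘ b) := by
          refine b.linearIndependent.map' _ ?_
          rw [LinearMap.ker_eq_bot]
          exact hfi.comp (lat_inj (dspan D))
        exact h5
      have h5 : LinearIndependent ℚ (fun i => f (b i : Fin r → ℤ)) :=
        (LinearIndependent.iff_fractionRing ℤ ℚ).1 h4
      have h6 : LinearIndependent ℚ (fun i => (⟨f (b i : Fin r → ℤ), h3 _ (b i).2⟩ :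
          Submodule.span ℚ (f '' S))) := by
        apply LinearIndependent.of_comp (Submodule.subtype _)
        exact h5
      have h7 := h6.fintype_card_le_finrank
      rwa [Fintype.card_fin] at h7
  let e : Fin (finrank ℤ (dspan D)) ≃ B := (Fintype.equivFinOfCardEq hcard).symm
  refine ⟨fun i => x (e i), hLI.comp e e.injective, ?_, ?_⟩
  · intro i
    rw [mem_ball]
    refine ⟨hxd _, ?_⟩
    obtain ⟨a, ha, b, hb, hab⟩ := hxS (e i)
    intro j
    show |x (e i) j| ≤ _
    rw [hab, Pi.sub_apply]
    have h1 := mem_box.1 (hD ha) j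
    have h2 := mem_box.1 (hD hb) j
    calc |a j - b j| ≤ |a j| + |b j| := abs_sub _ _
      _ ≤ (t : ℤ) + t := add_le_add h1 h2
      _ = _ := by push_cast; ring
  · intro i
    exact hxS (e i)

theorem small_rep (U : AddSubgroup (Fin r → ℤ)) (v : Fin (finrank ℤ U) → (Fin r → ℤ))
    (hv : LinearIndependent ℤ v) (t : ℕ) (ht : ∀ i, v i ∈ ball U t) (u : Fin r → ℤ) (hu : u ∈ U) :
    ∃ u' ∈ ball U (finrank ℤ U * t), u - u' ∈ AddSubgroup.closure (Set.range v) := by
  classical
  have hfin := lat_finite U
  have hvU : ∀ i, v i ∈ U := fun i => (mem_ball.1 (ht i)).1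
  -- a dependency
  let w : Option (Fin (finrank ℤ U)) → U := fun o => o.elim ⟨u, hu⟩ (fun i => ⟨v i, hvU i⟩)
  have hdep : ¬ LinearIndependent ℤ w := by
    intro h
    have h1 := h.fintype_card_le_finrank
    rw [Fintype.card_option, Fintype.card_fin] at h1
    omega
  rw [Fintype.not_linearIndependent_iff] at hdep
  obtain ⟨g, hg0, i0, hi0⟩ := hdep
  rw [Fintype.sum_option] at hg0
  have hg1 : g none • u + ∑ i, g (some i) • v i = 0 := by
    have h1 := congrArg (fun y : U => (y : Fin r → ℤ)) hg0
    simpa [w] using h1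
  have hnone : g none ≠ 0 := by
    intro h0
    rw [h0, zero_smul, zero_add] at hg1
    have h1 := Fintype.linearIndependent_iff.1 hv (fun i => g (some i)) hg1
    cases i0 with
    | none => exact hi0 h0
    | some i => exact hi0 (h1 i)
  obtain ⟨k, c, hk, hkc⟩ : ∃ (k : ℤ) (c : Fin (finrank ℤ U) → ℤ), 0 < k ∧
      k • u = ∑ i, c i • v i := by
    rcases lt_or_gt_of_ne hnone with h | h
    · refine ⟨-g none, fun i => g (some i), by omega, ?_⟩
      rw [neg_smul]
      exact (eq_neg_of_add_eq_zero_right hg1).symm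
    · refine ⟨g none, fun i => - g (some i), h, ?_⟩
      simp only [neg_smul, Finset.sum_neg_distrib]
      exact eq_neg_of_add_eq_zero_left hg1
  set y : Fin r → ℤ := ∑ i, (c i / k) • v i with hy
  have hyU : y ∈ U := U.sum_mem fun i _ => U.zsmul_mem (hvU i) _
  refine ⟨u - y, ?_, ?_⟩
  · rw [mem_ball]
    refine ⟨U.sub_mem hu hyU, ?_⟩
    intro j
    have h1 : k * (u - y) j = ∑ i, (c i % k) * v i j := by
      have h2 := congrFun hkc j
      rw [Pi.smul_apply, smul_eq_mul, Finset.sum_apply] at h2
      rw [Pi.sub_apply, mul_sub, h2, hy, Finset.sum_apply, Finset.mul_sum,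
        ← Finset.sum_sub_distrib]
      refine Finset.sum_congr rfl fun i _ => ?_
      rw [Pi.smul_apply, Pi.smul_apply, smul_eq_mul, smul_eq_mul]
      have h3 := Int.emod_add_mul_ediv (c i) k
      linear_combination (- v i j) * h3
    have h2 : k * |(u - y) j| ≤ k * ((finrank ℤ U * t : ℕ) : ℤ) := by
      calc k * |(u - y) j| = |k * (u - y) j| := by rw [abs_mul, abs_of_pos hk]
        _ = |∑ i, (c i % k) * v i j| := by rw [h1]
        _ ≤ ∑ i, |(c i % k) * v i j| := Finset.abs_sum_le_sum_abs _ _
        _ ≤ ∑ _i : Fin (finrank ℤ U), k * (t : ℤ) := by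
            refine Finset.sum_le_sum fun i _ => ?_
            rw [abs_mul, abs_of_nonneg (Int.emod_nonneg _ hk.ne')]
            exact mul_le_mul (Int.emod_lt_of_pos _ hk).le ((mem_ball.1 (ht i)).2 j)
              (abs_nonneg _) hk.le
        _ = k * ((finrank ℤ U * t : ℕ) : ℤ) := by
            rw [Finset.sum_const, Finset.card_univ, Fintype.card_fin, nsmul_eq_mul]
            push_cast
            ring
    exact le_of_mul_le_mul_left h2 hk
  · rw [sub_sub_cancel]
    exact AddSubgroup.sum_mem _ fun i _ =>
      AddSubgroup.zsmul_mem _ (AddSubgroup.subset_closure (Set.mem_range_self i)) _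

end Pool.Agent.Lib.MP_7ab245_nt.Solv
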