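import Pool.Agent.Lib.MP_7ab245_nt.Solv.Lat

set_option autoImplicit false

/-! # Module SV-LatP (0.8 h). Uses Lat.
* `card_hom`: `U ≅ ℤ^s`, `s = finrank ℤ U` (free), so `U →+ ZMod p` is in bijection with
  `(ZMod p)^s` (`Module.Free.chooseBasis`/`finBasis`, `Basis.constr`, or
  `AddMonoidHom.toIntLinearMap`).
* `small_rep_p`: `u - u' = ∑ c_i v_i` by `small_rep`; write `c_i = p q_i + r_i`, `0 ≤ r_i < p`; then
  `u = (u' + ∑ r_i v_i) + p ∑ q_i v_i`, the bracket has norm `≤ s t + s (p - 1) t = p s t`.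
* `exists_reps`: `U / pU` has `p^s` elements (`U ≅ ℤ^s`; or: it embeds in the dual of `U →+ ZMod p`);
  choose for every class a representative in `ball U (p s t)`. -/

namespace Pool.Agent.Lib.MP_7ab245_nt.Solv

open Module

variable {r : ℕ}

private theorem latp_finite (U : AddSubgroup (Fin r → ℤ)) : Module.Finite ℤ U :=
  Module.Finite.of_injective U.subtype.toIntLinearMap Subtype.val_injective

theorem card_hom (U : AddSubgroup (Fin r → ℤ)) (p : ℕ) [Fact p.Prime] :
    Nat.card (U →+ ZMod p) = p ^ finrank ℤ U := by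
  have := latp_finite U
  have e1 : (U →+ ZMod p) ≃ (U →ₗ[ℤ] ZMod p) := (addMonoidHomLequivInt ℤ).toEquiv
  have e2 : (Fin (finrank ℤ U) → ZMod p) ≃ (U →ₗ[ℤ] ZMod p) :=
    (Basis.constr (Module.finBasis ℤ U) ℤ).toEquiv
  rw [Nat.card_congr (e1.trans e2.symm), Nat.card_eq_fintype_card, Fintype.card_fun, ZMod.card,
    Fintype.card_fin]

theorem finite_hom (U : AddSubgroup (Fin r → ℤ)) (p : ℕ) [Fact p.Prime] :
    Finite (U →+ ZMod p) := by
  apply Nat.finite_of_card_ne_zero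
  rw [card_hom]
  exact (pow_pos (Fact.out : p.Prime).pos _).ne'

theorem small_rep_p (U : AddSubgroup (Fin r → ℤ)) (v : Fin (finrank ℤ U) → (Fin r → ℤ))
    (hv : LinearIndependent ℤ v) (t : ℕ) (ht : ∀ i, v i ∈ ball U t) (p : ℕ) (hp : 1 ≤ p)
    (u : Fin r → ℤ) (hu : u ∈ U) :
    ∃ u' ∈ ball U (p * finrank ℤ U * t), ∃ w ∈ U, u = u' + (p : ℤ) • w := by
  classical
  obtain ⟨u1, hu1, hcl⟩ := small_rep U v hv t ht u hu
  have hvU : ∀ i, v i ∈ U := fun i => (mem_ball.1 (ht i)).1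
  have hpz : (0 : ℤ) < p := by exact_mod_cast hp
  have hc : ∃ c : Fin (finrank ℤ U) → ℤ, ∑ i, c i • v i = u - u1 := by
    have h1 : u - u1 ∈ Submodule.span ℤ (Set.range v) := by
      rw [← Submodule.mem_toAddSubgroup, Submodule.span_int_eq_addSubgroupClosure]
      exact hcl
    exact (Submodule.mem_span_range_iff_exists_fun ℤ).1 h1
  obtain ⟨c, hc⟩ := hc
  have hsplit : u = (u1 + ∑ i, (c i % p) • v i) + (p : ℤ) • ∑ i, (c i / p) • v i := by
    have h1 : ∑ i, c i • v i = ∑ i, (c i % p) • v i + (p : ℤ) • ∑ i, (c i / p) • v i := by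
      rw [Finset.smul_sum, ← Finset.sum_add_distrib]
      refine Finset.sum_congr rfl fun i _ => ?_
      rw [smul_smul, ← add_smul, Int.emod_add_mul_ediv]
    rw [add_assoc, ← h1, hc]
    abel
  refine ⟨u1 + ∑ i, (c i % p) • v i, ?_, ∑ i, (c i / p) • v i,
    U.sum_mem fun i _ => U.zsmul_mem (hvU i) _, hsplit⟩
  rw [mem_ball]
  refine ⟨U.add_mem (mem_ball.1 hu1).1 (U.sum_mem fun i _ => U.zsmul_mem (hvU i) _), ?_⟩
  intro j
  have h1 := (mem_ball.1 hu1).2 j
  rw [Pi.add_apply, Finset.sum_apply]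
  have h2 : |∑ i, ((c i % p) • v i) j| ≤ ∑ _i : Fin (finrank ℤ U), ((p : ℤ) - 1) * t := by
    refine (Finset.abs_sum_le_sum_abs _ _).trans (Finset.sum_le_sum fun i _ => ?_)
    rw [Pi.smul_apply, smul_eq_mul, abs_mul, abs_of_nonneg (Int.emod_nonneg _ hpz.ne')]
    have h3 := Int.emod_lt_of_pos (c i) hpz
    exact mul_le_mul (by omega) ((mem_ball.1 (ht i)).2 j) (abs_nonneg _) (by omega)
  rw [Finset.sum_const, Finset.card_univ, Fintype.card_fin, nsmul_eq_mul] at h2
  calc |u1 j + ∑ i, ((c i % p) • v i) j| ≤ |u1 j| + |∑ i, ((c i % p) • v i) j| := abs_add_le _ _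
    _ ≤ ((finrank ℤ U * t : ℕ) : ℤ) + (finrank ℤ U : ℤ) * (((p : ℤ) - 1) * t) :=
        add_le_add h1 h2
    _ = ((p * finrank ℤ U * t : ℕ) : ℤ) := by
        push_cast
        ring

theorem exists_reps (U : AddSubgroup (Fin r → ℤ)) (v : Fin (finrank ℤ U) → (Fin r → ℤ))
    (hv : LinearIndependent ℤ v) (t : ℕ) (ht : ∀ i, v i ∈ ball U t) (p : ℕ) [Fact p.Prime] :
    ∃ R ⊆ ball U (p * finrank ℤ U * t), R.card ≤ p ^ finrank ℤ U ∧
      ∀ u ∈ U, ∃ u' ∈ R, ∃ w ∈ U, u = u' + (p : ℤ) • w := by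
  classical
  have := latp_finite U
  have hp1 : 1 ≤ p := (Fact.out : p.Prime).one_le
  let b := Module.finBasis ℤ U
  let cl : U → (Fin (finrank ℤ U) → ZMod p) := fun u i => ((b.repr u i : ℤ) : ZMod p)
  have hcl : ∀ u w : U, cl u = cl w → ∃ z ∈ U, (u : Fin r → ℤ) = w + (p : ℤ) • z := by
    intro u w h
    have h1 : ∀ i, ∃ k : ℤ, b.repr u i - b.repr w i = p * k := by
      intro i
      have h2 := congrFun h i
      have h3 := (ZMod.intCast_eq_intCast_iff_dvd_sub _ _ _).1 h2.symm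
      exact h3
    choose k hk using h1
    refine ⟨((∑ i, k i • b i : U) : Fin r → ℤ), (∑ i, k i • b i : U).2, ?_⟩
    have h4 : u = w + (p : ℤ) • ∑ i, k i • b i := by
      apply b.repr.injective
      ext i
      rw [map_add, map_smul, map_sum, Finsupp.add_apply, Finsupp.smul_apply,
        Finsupp.finsetSum_apply]
      have h5 : ∑ j, (b.repr (k j • b j)) i = k i := by
        rw [Finset.sum_eq_single i]
        · rw [map_smul, Basis.repr_self, Finsupp.smul_apply, Finsupp.single_eq_same, smul_eq_mul,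
            mul_one]
        · intro j _ hj
          rw [map_smul, Basis.repr_self, Finsupp.smul_apply, Finsupp.single_eq_of_ne (Ne.symm hj),
            smul_zero]
        · intro h
          exact absurd (Finset.mem_univ _) h
      rw [h5, smul_eq_mul, ← hk i]
      ring
    have h6 := congrArg (fun x : U => (x : Fin r → ℤ)) h4
    exact h6
  let P : (Fin (finrank ℤ U) → ZMod p) → (Fin r → ℤ) → Prop := fun κ x =>
    ∃ h : x ∈ ball U (p * finrank ℤ U * t), cl ⟨x, (mem_ball.1 h).1⟩ = κ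
  let g : (Fin (finrank ℤ U) → ZMod p) → (Fin r → ℤ) := fun κ =>
    if h : ∃ x, P κ x then h.choose else 0
  have hg : ∀ κ, g κ ∈ ball U (p * finrank ℤ U * t) := by
    intro κ
    by_cases h : ∃ x, P κ x
    · show (if h : ∃ x, P κ x then h.choose else 0) ∈ _
      rw [dif_pos h]
      exact h.choose_spec.1
    · show (if h : ∃ x, P κ x then h.choose else 0) ∈ _
      rw [dif_neg h]
      exact zero_mem_ball _ _
  refine ⟨Finset.univ.image g, ?_, ?_, ?_⟩
  · intro x hx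
    rw [Finset.mem_image] at hx
    obtain ⟨κ, -, rfl⟩ := hx
    exact hg κ
  · refine Finset.card_image_le.trans ?_
    rw [Finset.card_univ, Fintype.card_fun, ZMod.card, Fintype.card_fin]
  · intro u hu
    obtain ⟨u1, hu1, w, hw, huw⟩ := small_rep_p U v hv t ht p hp1 u hu
    have hu1U := (mem_ball.1 hu1).1
    have hex : ∃ x, P (cl ⟨u1, hu1U⟩) x := ⟨u1, hu1, rfl⟩
    have hgx : g (cl ⟨u1, hu1U⟩) = hex.choose := by
      show (if h : ∃ x, P (cl ⟨u1, hu1U⟩) x then h.choose else 0) = _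
      rw [dif_pos hex]
    obtain ⟨h1, h2⟩ := hex.choose_spec
    obtain ⟨z, hz, hz2⟩ := hcl _ _ h2.symm
    refine ⟨g (cl ⟨u1, hu1U⟩), Finset.mem_image_of_mem _ (Finset.mem_univ _), w + z,
      U.add_mem hw hz, ?_⟩
    rw [hgx, huw, smul_add]
    have hz3 : u1 = hex.choose + (p : ℤ) • z := hz2
    nth_rewrite 1 [hz3]
    abel

end Pool.Agent.Lib.MP_7ab245_nt.Solv
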