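import Pool.Agent.Lib.MP_7ab245_nt.Solv.Ball

set_option autoImplicit false

/-! # Module SV-NormInt (0.6 h). Only Mathlib (+ Ball).
`exists_norm`: `∏ σ y = Algebra.norm ℚ y` (`Algebra.norm_eq_prod_automorphisms`), which is integral over
`ℤ` and rational, hence an integer (`Algebra.isIntegral_norm`, `IsIntegrallyClosed`).
`eq_zero_of_prod_lt`: `∏ ‖ι (σ y)‖ = |N| < 1`, so `N = 0`, so some `σ y = 0`.
`wt` facts: `1 ≤ wt`, and `‖ι (σ (α^{ma}))‖ ≤ wt^(mN)` for `|a_i| ≤ N`: each factor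
`‖ι σ α_i‖^{m a_i} ≤ (max(1,‖·‖) max(1,‖·‖⁻¹))^{mN}`.
`mono_integral`: `mono α m a` is integral (product of powers of `α_i`, `α_i⁻¹`). -/

namespace Pool.Agent.Lib.MP_7ab245_nt.Solv

open Module

variable {Ω : Type*} [Field Ω] [NumberField Ω]

theorem exists_norm [IsGalois ℚ Ω] (y : Ω) (hy : IsIntegral ℤ y) :
    ∃ N : ℤ, (∏ σ : Ω ≃ₐ[ℚ] Ω, σ y) = (N : Ω) ∧ (y ≠ 0 → N ≠ 0) := by
  have h1 := Algebra.norm_eq_prod_automorphisms ℚ y
  have h2 : IsIntegral ℤ (Algebra.norm ℚ y) := Algebra.isIntegral_norm ℚ hy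
  obtain ⟨N, hN⟩ := IsIntegrallyClosed.isIntegral_iff.1 h2
  refine ⟨N, ?_, ?_⟩
  · rw [← h1, ← hN]
    simp
  · rintro hy0 rfl
    have h3 : Algebra.norm ℚ y = 0 := by rw [← hN]; simp
    exact hy0 (Algebra.norm_eq_zero_iff.1 h3)

theorem norm_eq_prod [IsGalois ℚ Ω] (ι : Ω →+* ℂ) (y : Ω) (N : ℤ)
    (hN : (∏ σ : Ω ≃ₐ[ℚ] Ω, σ y) = (N : Ω)) :
    ∏ σ : Ω ≃ₐ[ℚ] Ω, ‖ι (σ y)‖ = |(N : ℝ)| := by
  rw [← norm_prod, ← map_prod, hN, map_intCast, Complex.norm_intCast]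

theorem eq_zero_of_prod_lt [IsGalois ℚ Ω] (ι : Ω →+* ℂ) (y : Ω) (hy : IsIntegral ℤ y)
    (h : ∏ σ : Ω ≃ₐ[ℚ] Ω, ‖ι (σ y)‖ < 1) : y = 0 := by
  obtain ⟨N, hN, hN0⟩ := exists_norm y hy
  by_contra hy0
  have h1 := norm_eq_prod ι y N hN
  rw [h1] at h
  have h2 : |N| < 1 := by exact_mod_cast h
  exact hN0 hy0 (Int.abs_lt_one_iff.1 h2)

variable {r : ℕ} (α : Fin r → Ω)

theorem one_le_wt (ι : Ω →+* ℂ) (σ : Ω ≃ₐ[ℚ] Ω) : 1 ≤ wt ι α σ := by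
  unfold wt
  have h1 : ∀ i ∈ (Finset.univ : Finset (Fin r)),
      (1 : ℝ) ≤ max 1 ‖ι (σ (α i))‖ * max 1 ‖ι (σ (α i))‖⁻¹ := by
    intro i _
    have h2 : (1 : ℝ) ≤ max 1 ‖ι (σ (α i))‖ := le_max_left _ _
    have h3 : (1 : ℝ) ≤ max 1 ‖ι (σ (α i))‖⁻¹ := le_max_left _ _
    nlinarith
  calc (1 : ℝ) = ∏ _i : Fin r, (1 : ℝ) := by simp
    _ ≤ _ := Finset.prod_le_prod (fun _ _ => zero_le_one) h1

theorem norm_mono_le (ι : Ω →+* ℂ) (hα : ∀ i, α i ≠ 0) (σ : Ω ≃ₐ[ℚ] Ω) {m N : ℕ}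
    {a : Fin r → ℤ} (ha : a ∈ box r N) : ‖ι (σ (mono α m a))‖ ≤ wt ι α σ ^ (m * N) := by
  unfold wt mono
  rw [map_prod, map_prod, norm_prod, ← Finset.prod_pow]
  refine Finset.prod_le_prod (fun i _ => norm_nonneg _) (fun i _ => ?_)
  rw [map_zpow₀, map_zpow₀, norm_zpow]
  set x : ℝ := ‖ι (σ (α i))‖ with hx
  have hx0 : 0 < x := by
    rw [hx, norm_pos_iff]
    intro h
    have h1 : σ (α i) = 0 := by
      apply ι.injective
      rw [h, map_zero]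
    exact hα i (by simpa using h1)
  have hai := (mem_box.1 ha) i
  set A : ℝ := max 1 x with hA
  set B : ℝ := max 1 x⁻¹ with hB
  have hA1 : 1 ≤ A := le_max_left _ _
  have hB1 : 1 ≤ B := le_max_left _ _
  have hAB : 1 ≤ A * B := by nlinarith
  rcases le_or_gt 0 (a i) with hpos | hneg
  · obtain ⟨k, hk⟩ := Int.eq_ofNat_of_zero_le hpos
    rw [hk] at hai ⊢
    have hkN : k ≤ N := by
      have h1 : |((k : ℕ) : ℤ)| = (k : ℤ) := abs_of_nonneg (Int.natCast_nonneg k)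
      rw [h1] at hai
      exact_mod_cast hai
    have h2 : ((m : ℤ) * (k : ℤ)) = ((m * k : ℕ) : ℤ) := by push_cast; ring
    rw [h2, zpow_natCast]
    calc x ^ (m * k) ≤ A ^ (m * k) := pow_le_pow_left₀ hx0.le (le_max_right _ _) _
      _ ≤ (A * B) ^ (m * k) := by
          apply pow_le_pow_left₀ (by linarith)
          nlinarith
      _ ≤ (A * B) ^ (m * N) := pow_le_pow_right₀ hAB (Nat.mul_le_mul_left m hkN)
  · obtain ⟨k, hk⟩ := Int.eq_ofNat_of_zero_le (by omega : 0 ≤ -(a i))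
    have hk' : a i = -(k : ℤ) := by omega
    rw [hk'] at hai ⊢
    have hkN : k ≤ N := by
      have h1 : |(-((k : ℕ) : ℤ))| = (k : ℤ) := by
        rw [abs_neg]; exact abs_of_nonneg (Int.natCast_nonneg k)
      rw [h1] at hai
      exact_mod_cast hai
    have h2 : ((m : ℤ) * (-(k : ℤ))) = -((m * k : ℕ) : ℤ) := by push_cast; ring
    rw [h2, zpow_neg, zpow_natCast, ← inv_pow]
    calc x⁻¹ ^ (m * k) ≤ B ^ (m * k) :=
          pow_le_pow_left₀ (inv_nonneg.2 hx0.le) (le_max_right _ _) _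
      _ ≤ (A * B) ^ (m * k) := by
          apply pow_le_pow_left₀ (by linarith)
          nlinarith
      _ ≤ (A * B) ^ (m * N) := pow_le_pow_right₀ hAB (Nat.mul_le_mul_left m hkN)

theorem mono_integral (hint : ∀ i, IsIntegral ℤ (α i)) (hint' : ∀ i, IsIntegral ℤ (α i)⁻¹)
    (m : ℕ) (a : Fin r → ℤ) : IsIntegral ℤ (mono α m a) := by
  unfold mono
  refine IsIntegral.prod _ (fun i _ => ?_)
  rcases le_or_gt 0 ((m : ℤ) * a i) with h | h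
  · obtain ⟨k, hk⟩ := Int.eq_ofNat_of_zero_le h
    rw [hk, zpow_natCast]
    exact (hint i).pow k
  · obtain ⟨k, hk⟩ := Int.eq_ofNat_of_zero_le (by omega : 0 ≤ -((m : ℤ) * a i))
    have hk' : (m : ℤ) * a i = -(k : ℤ) := by omega
    rw [hk', zpow_neg, zpow_natCast, ← inv_pow]
    exact (hint' i).pow k

theorem htOK_mono (ι : Ω →+* ℂ) {X X' : ℕ} (h : X ≤ X') (hX : HtOK ι α X') : HtOK ι α X := by
  unfold HtOK at hX ⊢
  refine le_trans ?_ hX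
  refine Finset.prod_le_prod (fun σ _ => ?_) (fun σ _ => ?_)
  · exact pow_nonneg (zero_le_one.trans (one_le_wt α ι σ)) _
  · exact pow_le_pow_right₀ (one_le_wt α ι σ) h

end Pool.Agent.Lib.MP_7ab245_nt.Solv
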