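import Mathlib

set_option autoImplicit false

/-! # Module SV-Pigeon -/

namespace Pool.Agent.Lib.MP_7ab245_nt.Solv

theorem pigeon {A J : Type*} [Fintype A] [Fintype J] (n B ρ : ℕ) (hρ : 1 ≤ ρ)
    (ℓ : J → (A → ℤ) → ℝ) (hsub : ∀ j c c', ℓ j (c - c') = ℓ j c - ℓ j c')
    (hB : ∀ j (c : A → ℤ), (∀ a, 0 ≤ c a ∧ c a ≤ (n : ℤ)) → |ℓ j c| ≤ B)
    (hcard : (8 * ρ * B + 1) ^ Fintype.card J < (n + 1) ^ Fintype.card A) :
    ∃ c : A → ℤ, c ≠ 0 ∧ (∀ a, |c a| ≤ (n : ℤ)) ∧ ∀ j, |ℓ j c| < 1 / (4 * ρ) := by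
  classical
  have hρ' : (0 : ℝ) < 4 * ρ := by
    have : (1 : ℝ) ≤ ρ := by exact_mod_cast hρ
    linarith
  set s : Finset (A → ℤ) := Fintype.piFinset (fun _ : A => Finset.Icc (0 : ℤ) n) with hs
  set t : Finset (J → ℤ) :=
    Fintype.piFinset (fun _ : J => Finset.Icc (0 : ℤ) ((8 * ρ * B : ℕ) : ℤ)) with ht
  have hscard : s.card = (n + 1) ^ Fintype.card A := by
    rw [hs, Fintype.card_piFinset, Finset.prod_const, Int.card_Icc, Finset.card_univ]
    congr 1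
  have htcard : t.card = (8 * ρ * B + 1) ^ Fintype.card J := by
    rw [ht, Fintype.card_piFinset, Finset.prod_const, Int.card_Icc, Finset.card_univ]
    congr 1
  have hlt : t.card < s.card := by rw [hscard, htcard]; exact hcard
  have hmem : ∀ c ∈ s, ∀ a, 0 ≤ c a ∧ c a ≤ (n : ℤ) := by
    intro c hc a
    have := (Fintype.mem_piFinset.1 hc) a
    exact Finset.mem_Icc.1 this
  have hmaps : ∀ c ∈ s, (fun j => ⌊4 * (ρ : ℝ) * (ℓ j c + B)⌋) ∈ t := by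
    intro c hc
    rw [ht, Fintype.mem_piFinset]
    intro j
    have h1 := abs_le.1 (hB j c (hmem c hc))
    rw [Finset.mem_Icc]
    constructor
    · apply Int.floor_nonneg.2
      apply mul_nonneg hρ'.le
      linarith [h1.1]
    · have h2 : 4 * (ρ : ℝ) * (ℓ j c + B) ≤ (((8 * ρ * B : ℕ) : ℤ) : ℝ) := by
        push_cast
        have h3 : 4 * (ρ : ℝ) * (ℓ j c + B) ≤ 4 * ρ * (B + B) :=
          mul_le_mul_of_nonneg_left (by linarith [h1.2]) hρ'.le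
        linarith
      have h4 := Int.floor_mono h2
      rwa [Int.floor_intCast] at h4
  obtain ⟨c, hc, c', hc', hne, heq⟩ :=
    Finset.exists_ne_map_eq_of_card_lt_of_maps_to hlt hmaps
  refine ⟨c - c', sub_ne_zero.2 hne, ?_, ?_⟩
  · intro a
    have h1 := hmem c hc a
    have h2 := hmem c' hc' a
    rw [Pi.sub_apply, abs_le]
    constructor <;> omega
  · intro j
    have h1 : ⌊4 * (ρ : ℝ) * (ℓ j c + B)⌋ = ⌊4 * (ρ : ℝ) * (ℓ j c' + B)⌋ := congrFun heq j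
    have h2 := Int.abs_sub_lt_one_of_floor_eq_floor h1
    have h3 : 4 * (ρ : ℝ) * (ℓ j c + B) - 4 * (ρ : ℝ) * (ℓ j c' + B) =
        4 * ρ * ℓ j (c - c') := by
      rw [hsub]; ring
    rw [h3, abs_mul, abs_of_pos hρ'] at h2
    rw [lt_div_iff₀ hρ', mul_comm]
    exact h2

end Pool.Agent.Lib.MP_7ab245_nt.Solv
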