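import Pool.Agent.Lib.MP_7ab245_nt.Solv.CoordsField
import Pool.Agent.Lib.MP_7ab245_nt.Solv.Pigeon
import Pool.Agent.Lib.MP_7ab245_nt.Solv.NormInt

set_option autoImplicit false

/-! # Module SV-Siegel (1.2 h). Uses CoordsField, Pigeon, NormInt.
`siegel`.  `G = Ω ≃ₐ[ℚ] Ω`, `w σ = wt ι α σ ^ (m N) ≥ 1`.  Let `J ⊆ G × Bool` be from `coords_field`
(`φ = mono α m`, `E = A`), `|J| ≤ rk ℚ α m A ≤ ρ`.  For `c : ↥A → ℤ` and `b ∈ exps r T` put
`v_b(c) = ∑_{a ∈ A} c_a (∏ a_i^{b_i}) P^{ma}`, an element of `span ℚ (mono α m '' A)`, integral over `ℤ`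
(`mono_integral`), additive in `c`.  Functionals `ℓ_{(b, j)}(c) = coord ι w j (v_b(c))`,
`(b, j) ∈ ↥(exps r T) × ↥J`.  Bound for `0 ≤ c_a ≤ n`: `|∏ a_i^{b_i}| ≤ N^(∑ b_i) ≤ N^T` (`N ≥ 1`),
`‖ι σ P^{ma}‖ ≤ w σ` (`norm_mono_le`), so `‖ι σ v_b‖ ≤ |A| n N^T w σ` and `|ℓ| ≤ |A| n N^T =: B`.
`pigeon` (index type `↥(exps r T) × ↥J` of cardinality `≤ τ ρ`; the base is `≥ 1`) gives `c ≠ 0`,
`|c_a| ≤ n`, `|ℓ_{(b,j)}(c)| < 1/(4ρ)`.  Then for every `i ∈ G × Bool`: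
`|coord i (v_b)| ≤ ∑_{j ∈ J} |coord j (v_b)| ≤ ρ/(4ρ) = 1/4`; by `norm_lt_of_coord`
`‖ι σ v_b‖ < w σ / 2` for all `σ`, so `∏_σ ‖ι σ v_b‖ < 2^{-|G|} ∏ wt^{mN} ≤ 1` (strict since `G` is
nonempty and the right-hand sides are positive: `Finset.prod_lt_prod_of_nonempty`, if some factor on the
left vanishes the product is `0 < 1`), using `HtOK` (`mN ≤ X`: `htOK_mono`).  `eq_zero_of_prod_lt`:
`v_b(c) = 0`.  Extend `c` by `0` outside `A`. -/

namespace Pool.Agent.Lib.MP_7ab245_nt.Solv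

open Module

section aux

variable {Ω : Type*} [Field Ω] [NumberField Ω] {r : ℕ}

/-- the value with the coefficients `c` and the weights `a ^ b` -/
private noncomputable def VV (α : Fin r → Ω) (m : ℕ) (A : Finset (Fin r → ℤ)) (b : Fin r → ℕ)
    (c : A → ℤ) : Ω :=
  ∑ a : A, (c a : Ω) * (∏ i, ((a.1 i : ℤ) : Ω) ^ b i) * mono α m a.1

omit [NumberField Ω] in
private theorem VV_sub (α : Fin r → Ω) (m : ℕ) (A : Finset (Fin r → ℤ)) (b : Fin r → ℕ)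
    (c c' : A → ℤ) : VV α m A b (c - c') = VV α m A b c - VV α m A b c' := by
  unfold VV
  rw [← Finset.sum_sub_distrib]
  refine Finset.sum_congr rfl fun a _ => ?_
  rw [Pi.sub_apply]
  push_cast
  ring

private theorem VV_mem (α : Fin r → Ω) (m : ℕ) (A : Finset (Fin r → ℤ)) (b : Fin r → ℕ)
    (c : A → ℤ) : VV α m A b c ∈ Submodule.span ℚ (mono α m '' (A : Set (Fin r → ℤ))) := by
  unfold VV
  refine Submodule.sum_mem _ fun a _ => ?_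
  have h1 : (c a : Ω) * (∏ i, ((a.1 i : ℤ) : Ω) ^ b i) * mono α m a.1 =
      ((c a : ℚ) * ∏ i, ((a.1 i : ℤ) : ℚ) ^ b i) • mono α m a.1 := by
    rw [Algebra.smul_def, map_mul, map_prod]
    simp
  rw [h1]
  exact Submodule.smul_mem _ _ (Submodule.subset_span ⟨a.1, a.2, rfl⟩)

private theorem VV_int (α : Fin r → Ω) (hint : ∀ i, IsIntegral ℤ (α i))
    (hint' : ∀ i, IsIntegral ℤ (α i)⁻¹) (m : ℕ) (A : Finset (Fin r → ℤ)) (b : Fin r → ℕ)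
    (c : A → ℤ) : IsIntegral ℤ (VV α m A b c) := by
  unfold VV
  refine IsIntegral.sum _ fun a _ => ?_
  have h1 : (c a : Ω) * (∏ i, ((a.1 i : ℤ) : Ω) ^ b i) =
      (((c a) * ∏ i, (a.1 i) ^ b i : ℤ) : Ω) := by
    push_cast
    rfl
  rw [h1]
  exact (isIntegral_algebraMap (R := ℤ) (x := (c a) * ∏ i, (a.1 i) ^ b i)).mul
    (mono_integral α hint hint' m a.1)

private theorem prod_abs_le {N T : ℕ} (hN : 1 ≤ N) (a : Fin r → ℤ) (ha : a ∈ box r N)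
    (b : Fin r → ℕ) (hb : ∑ i, b i < T) : ∏ i, |((a i : ℤ) : ℝ)| ^ b i ≤ (N : ℝ) ^ T := by
  have h1 : ∏ i, |((a i : ℤ) : ℝ)| ^ b i ≤ ∏ i, (N : ℝ) ^ b i := by
    refine Finset.prod_le_prod (fun i _ => by positivity) fun i _ => ?_
    refine pow_le_pow_left₀ (abs_nonneg _) ?_ _
    have h2 := (mem_box.1 ha) i
    have h3 : ((|a i| : ℤ) : ℝ) ≤ ((N : ℤ) : ℝ) := by exact_mod_cast h2
    rw [Int.cast_abs] at h3
    simpa using h3
  refine h1.trans ?_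
  rw [Finset.prod_pow_eq_pow_sum]
  exact pow_le_pow_right₀ (by exact_mod_cast hN) hb.le

private theorem VV_norm (ι : Ω →+* ℂ) (α : Fin r → Ω) (hα : ∀ i, α i ≠ 0) {m N n T : ℕ}
    (hN : 1 ≤ N) (A : Finset (Fin r → ℤ)) (hA : A ⊆ box r N) (b : Fin r → ℕ)
    (hb : ∑ i, b i < T) (c : A → ℤ) (hc : ∀ a, 0 ≤ c a ∧ c a ≤ (n : ℤ)) (σ : Ω ≃ₐ[ℚ] Ω) :
    ‖ι (σ (VV α m A b c))‖ ≤ ((A.card * n * N ^ T : ℕ) : ℝ) * wt ι α σ ^ (m * N) := by
  have h0 : ι (σ (VV α m A b c)) = ∑ a : A, ((c a : ℤ) : ℂ) * (∏ i, ((a.1 i : ℤ) : ℂ) ^ b i) *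
      ι (σ (mono α m a.1)) := by
    unfold VV
    simp only [map_sum, map_mul, map_prod, map_pow, map_intCast]
  rw [h0]
  refine (norm_sum_le _ _).trans ?_
  have h1 : ∀ a ∈ (Finset.univ : Finset A), ‖((c a : ℤ) : ℂ) * (∏ i, ((a.1 i : ℤ) : ℂ) ^ b i) *
      ι (σ (mono α m a.1))‖ ≤ (n : ℝ) * (N : ℝ) ^ T * wt ι α σ ^ (m * N) := by
    intro a _
    rw [norm_mul, norm_mul, norm_prod]
    have e1 : ‖((c a : ℤ) : ℂ)‖ ≤ (n : ℝ) := by
      rw [Complex.norm_intCast]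
      have h2 : ((|c a| : ℤ) : ℝ) ≤ ((n : ℤ) : ℝ) := by
        rw [abs_of_nonneg (hc a).1]
        exact_mod_cast (hc a).2
      rw [Int.cast_abs] at h2
      simpa using h2
    have e2 : ∏ i, ‖((a.1 i : ℤ) : ℂ) ^ b i‖ ≤ (N : ℝ) ^ T := by
      have h3 : ∀ i, ‖((a.1 i : ℤ) : ℂ) ^ b i‖ = |((a.1 i : ℤ) : ℝ)| ^ b i := by
        intro i
        rw [norm_pow, Complex.norm_intCast]
      rw [Finset.prod_congr rfl fun i _ => h3 i]
      exact prod_abs_le hN a.1 (hA a.2) b hb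
    have e3 := norm_mono_le α ι hα σ (m := m) (hA a.2)
    have e4 : (0 : ℝ) ≤ ∏ i, ‖((a.1 i : ℤ) : ℂ) ^ b i‖ :=
      Finset.prod_nonneg fun i _ => norm_nonneg _
    have e5 : (0 : ℝ) ≤ (n : ℝ) * (N : ℝ) ^ T := by positivity
    exact mul_le_mul (mul_le_mul e1 e2 e4 (by positivity)) e3 (norm_nonneg _) e5
  refine (Finset.sum_le_sum h1).trans (le_of_eq ?_)
  rw [Finset.sum_const, Finset.card_univ, Fintype.card_coe, nsmul_eq_mul]
  push_cast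
  ring

end aux

theorem siegel {Ω : Type*} [Field Ω] [NumberField Ω] [IsGalois ℚ Ω] (ι : Ω →+* ℂ) {r : ℕ}
    (α : Fin r → Ω) (hα : ∀ i, α i ≠ 0) (hint : ∀ i, IsIntegral ℤ (α i))
    (hint' : ∀ i, IsIntegral ℤ (α i)⁻¹) (m N n T X : ℕ) (hN : 1 ≤ N) (hX : m * N ≤ X)
    (hht : HtOK ι α X) (A : Finset (Fin r → ℤ)) (hA : A ⊆ box r N) (ρ : ℕ)
    (hρ : rk ℚ α m A ≤ ρ) (hρ1 : 1 ≤ ρ)
    (hcard : (8 * ρ * (A.card * n * N ^ T) + 1) ^ (ρ * (exps r T).card) < (n + 1) ^ A.card) :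
    ∃ c : (Fin r → ℤ) → ℤ, (∃ a ∈ A, c a ≠ 0) ∧ (∀ a, |c a| ≤ n) ∧
      ∀ b : Fin r → ℕ, ∑ i, b i < T →
        ∑ a ∈ A, (c a : Ω) * (∏ i, ((a i : ℤ) : Ω) ^ b i) * mono α m a = 0 := by
  classical
  obtain ⟨w, hw⟩ : ∃ w : (Ω ≃ₐ[ℚ] Ω) → ℝ, ∀ σ, w σ = wt ι α σ ^ (m * N) := ⟨_, fun _ => rfl⟩
  have hw0 : ∀ σ, 0 < w σ := fun σ => by
    rw [hw]
    exact pow_pos (lt_of_lt_of_le one_pos (one_le_wt α ι σ)) _
  obtain ⟨J, hJc, hJ⟩ := coords_field ι w (mono α m) A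
  have hJρ : J.card ≤ ρ := hJc.trans hρ
  have hρR : (0 : ℝ) < (ρ : ℝ) := by exact_mod_cast hρ1
  have hexps : ∀ b : Fin r → ℕ, b ∈ exps r T ↔ ∑ i, b i < T := by
    intro b
    unfold exps
    rw [Finset.mem_filter, Fintype.mem_piFinset]
    constructor
    · exact fun h => h.2
    · intro h
      refine ⟨fun i => ?_, h⟩
      rw [Finset.mem_range]
      exact lt_of_le_of_lt (Finset.single_le_sum (f := b) (fun _ _ => Nat.zero_le _)
        (Finset.mem_univ i)) h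
  obtain ⟨c, hc0, hcn, hcl⟩ := pigeon (A := A) (J := ↥(exps r T) × ↥J) n (A.card * n * N ^ T) ρ hρ1
    (fun j c => coord ι w j.2.1 (VV α m A j.1.1 c))
    (fun j c c' => by
      change coord ι w j.2.1 (VV α m A j.1.1 (c - c')) = _
      rw [VV_sub, coord_sub])
    (fun j c hc => by
      refine (coord_abs_le ι w hw0 j.2.1 _).trans ?_
      rw [div_le_iff₀ (hw0 _), hw]
      exact VV_norm ι α hα hN A hA j.1.1 ((hexps _).1 j.1.2) c hc _)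
    (by
      rw [Fintype.card_prod, Fintype.card_coe, Fintype.card_coe, Fintype.card_coe]
      refine lt_of_le_of_lt (Nat.pow_le_pow_right (by omega) ?_) hcard
      rw [mul_comm]
      exact Nat.mul_le_mul_right _ hJρ)
  have hVz : ∀ b : Fin r → ℕ, ∑ i, b i < T → VV α m A b c = 0 := by
    intro b hb
    have hbe : b ∈ exps r T := (hexps b).2 hb
    have hco : ∀ i, |coord ι w i (VV α m A b c)| ≤ 1 / 4 := by
      intro i
      refine (hJ _ (VV_mem α m A b c) i).trans ?_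
      have h1 : ∀ j ∈ J, |coord ι w j (VV α m A b c)| ≤ 1 / (4 * (ρ : ℝ)) := fun j hj =>
        (hcl (⟨b, hbe⟩, ⟨j, hj⟩)).le
      refine (Finset.sum_le_sum h1).trans ?_
      rw [Finset.sum_const, nsmul_eq_mul]
      have h2 : (J.card : ℝ) ≤ (ρ : ℝ) := by exact_mod_cast hJρ
      calc (J.card : ℝ) * (1 / (4 * (ρ : ℝ))) ≤ (ρ : ℝ) * (1 / (4 * (ρ : ℝ))) := by gcongr
        _ = 1 / 4 := by field_simp
    have hno : ∀ σ : Ω ≃ₐ[ℚ] Ω, ‖ι (σ (VV α m A b c))‖ < w σ / 2 := fun σ =>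
      norm_lt_of_coord ι w hw0 σ _ fun bo => hco (σ, bo)
    refine eq_zero_of_prod_lt ι _ (VV_int α hint hint' m A b c) ?_
    by_cases hz : ∃ σ : Ω ≃ₐ[ℚ] Ω, ‖ι (σ (VV α m A b c))‖ = 0
    · obtain ⟨σ, hσ⟩ := hz
      rw [Finset.prod_eq_zero (Finset.mem_univ σ) hσ]
      exact one_pos
    · push Not at hz
      have h3 : ∏ σ : Ω ≃ₐ[ℚ] Ω, ‖ι (σ (VV α m A b c))‖ < ∏ σ : Ω ≃ₐ[ℚ] Ω, w σ / 2 :=
        Finset.prod_lt_prod_of_nonempty
          (fun σ _ => lt_of_le_of_ne (norm_nonneg _) (Ne.symm (hz σ)))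
          (fun σ _ => hno σ) Finset.univ_nonempty
      refine lt_of_lt_of_le h3 ?_
      rw [Finset.prod_div_distrib, Finset.prod_const, Finset.card_univ,
        div_le_one (by positivity)]
      have h4 := htOK_mono α ι hX hht
      unfold HtOK at h4
      rw [Finset.prod_congr rfl fun σ _ => hw σ]
      exact h4
  refine ⟨fun a => if h : a ∈ A then c ⟨a, h⟩ else 0, ?_, ?_, ?_⟩
  · by_contra hcon
    push Not at hcon
    apply hc0
    funext a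
    have h5 := hcon a.1 a.2
    rw [dif_pos a.2] at h5
    exact h5
  · intro a
    by_cases h : a ∈ A
    · simp only [dif_pos h]
      exact hcn ⟨a, h⟩
    · simp only [dif_neg h]
      simp
  · intro b hb
    rw [← hVz b hb, ← Finset.sum_coe_sort A]
    unfold VV
    refine Finset.sum_congr rfl fun a _ => ?_
    beta_reduce
    rw [dif_pos a.2]

end Pool.Agent.Lib.MP_7ab245_nt.Solv
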