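import Pool.Agent.Lib.MP_7ab245_nt.Solv.Translate
import Pool.Agent.Lib.MP_7ab245_nt.Solv.GradedStable
import Pool.Agent.Lib.MP_7ab245_nt.Solv.CycA
import Pool.Agent.Lib.MP_7ab245_nt.Solv.LatP

set_option autoImplicit false

/-! # Module SV-StepP (1.0 h). Uses Translate, GradedStable, CycA, LatP, Ball, Vrk.
`step_p`.  `s = finrank ℤ U`, `Γ = ↥U`, `b N : Finset ↥U` the elements of norm `≤ N`
(`(ball U N).subtype (· ∈ U)`), `φ : ↥U → ℂ`, `φ u = mono α m u`, `k = cyc p`, `ζ` from `exists_zeta`,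
`X = (U →+ ZMod p)` finite of cardinality `p^s` (`finite_hom`, `card_hom`; `Fintype.ofFinite`).
CASE 1: for every `χ ≠ 0` there is `F : ↥U →₀ k` supported in `b t` with `φ(F) = 0` and
`φ_χ(F) ≠ 0`.  `translate_lower` gives
`p^s · vrk k φ (b M) ≤ vrk k (φ_χ)_χ (b (M + p^s t))`.  `class_upper` with `E = b (M + p^s t)`, `E' = b M'`
and `R` from `exists_reps` (subtype version): for `a ∈ E`, `a = u + p w` with `u ∈ R`, `w ∈ U` and
`p |w_j| ≤ |a_j| + |u_j| ≤ M + p^s t + p s tU ≤ p M'`, so `w ∈ b M'`.  Hence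
`p^s · vrk k φ (b M) ≤ p^s · vrk k (w ↦ φ (p • w)) (b M')`, and `φ (p • w) = mono α (m p) w`
(`mono_mul_exp`).  Transport from `b N` to `ball U N` (`vrk_image` for the coercion) gives
`rk k α m (ball U M) ≤ rk k α (m p) (ball U M')`, and `rk k = rk ℚ` by `rk_cyc`.
CASE 2: for some `χ ≠ 0` every `F : ↥U →₀ k` supported in `b t` with `φ(F) = 0` has `φ_χ(F) = 0`.  Then
`graded_of_stable` gives `Graded α m U t χ` (translate between `F : (Fin r → ℤ) →₀ ℚ` supported in
`ball U t ⊆ U` and its restriction `F' : ↥U →₀ ℚ` (`Finsupp.subtypeDomain` / `comapDomain`):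
`ev α m F = ∑ F' a φ a`, and `part χ j F` corresponds to `F'.filter (χ · = j)`). -/

namespace Pool.Agent.Lib.MP_7ab245_nt.Solv

open Module

variable {r : ℕ} (α : Fin r → ℂ)

/-- the elements of norm at most `N` as a set of elements of `U` -/
private noncomputable def sb (U : AddSubgroup (Fin r → ℤ)) (N : ℕ) : Finset U := by
  classical exact (ball U N).subtype (· ∈ U)

private lemma mem_sb {U : AddSubgroup (Fin r → ℤ)} {N : ℕ} {x : U} :
    x ∈ sb U N ↔ (x : Fin r → ℤ) ∈ ball U N := by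
  classical
  unfold sb
  rw [Finset.mem_subtype]

private lemma image_sb (U : AddSubgroup (Fin r → ℤ)) (N : ℕ) [DecidableEq (Fin r → ℤ)] :
    (sb U N).image (fun u : U => (u : Fin r → ℤ)) = ball U N := by
  ext a
  rw [Finset.mem_image]
  constructor
  · rintro ⟨u, hu, rfl⟩
    exact mem_sb.1 hu
  · intro ha
    exact ⟨⟨a, (mem_ball.1 ha).1⟩, mem_sb.2 ha, rfl⟩

private lemma rk_eq_sb (k : Type*) {K : Type*} [Field k] [Field K] [Algebra k K]
    (β : Fin r → K) (m : ℕ) (U : AddSubgroup (Fin r → ℤ)) (N : ℕ) :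
    rk k β m (ball U N) = vrk k (fun u : U => mono β m (u : Fin r → ℤ)) (sb U N) := by
  classical
  rw [rk, ← image_sb U N, vrk_image]

private lemma graded_aux (m p : ℕ) (U : AddSubgroup (Fin r → ℤ)) (t : ℕ) (χ : U →+ ZMod p)
    (h : ∀ F : U →₀ ℚ, F.support ⊆ sb U t →
      (F.sum fun a c => (c : ℂ) * mono α m (a : Fin r → ℤ)) = 0 → ∀ j : ZMod p,
      ∀ F' : U →₀ ℚ, (∀ a, F' a = if χ a = j then F a else 0) →
        (F'.sum fun a c => (c : ℂ) * mono α m (a : Fin r → ℤ)) = 0) :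
    Graded α m U t χ := by
  classical
  intro F hF h0 j
  have hmem : ∀ x ∈ F.support, x ∈ U := fun x hx => (mem_ball.1 (hF hx)).1
  have h1 : ((F.subtypeDomain (· ∈ U)).sum fun a c => (c : ℂ) * mono α m (a : Fin r → ℤ)) =
      ev α m F := Finsupp.sum_subtypeDomain_index (h := fun a (c : ℚ) => (c : ℂ) * mono α m a) hmem
  have hmem' : ∀ x ∈ (part χ j F).support, x ∈ U := by
    intro x hx
    apply hmem
    rw [Finsupp.mem_support_iff] at hx ⊢
    intro hx0
    apply hx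
    unfold part
    rw [Finsupp.filter_apply, hx0, ite_self]
  have h2 : (((part χ j F).subtypeDomain (· ∈ U)).sum
      fun a c => (c : ℂ) * mono α m (a : Fin r → ℤ)) = ev α m (part χ j F) :=
    Finsupp.sum_subtypeDomain_index (h := fun a (c : ℚ) => (c : ℂ) * mono α m a) hmem'
  rw [← h2]
  refine h (F.subtypeDomain (· ∈ U)) ?_ (h1.trans h0) j _ ?_
  · intro a ha
    rw [mem_sb]
    apply hF
    rw [Finsupp.mem_support_iff] at ha ⊢
    exact ha
  · intro a
    change (part χ j F) (a : Fin r → ℤ) = if χ a = j then F (a : Fin r → ℤ) else 0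
    unfold part
    rw [Finsupp.filter_apply]
    by_cases hj : χ a = j
    · rw [if_pos hj, if_pos ⟨a.2, hj⟩]
    · rw [if_neg hj, if_neg]
      rintro ⟨h3, h4⟩
      exact hj h4

theorem step_p (hα : ∀ i, α i ≠ 0) (hint : ∀ i, IsIntegral ℚ (α i)) (m p : ℕ) (hp : p.Prime)
    (hdis : big α ⊓ cyc p = ⊥) (U : AddSubgroup (Fin r → ℤ))
    (v : Fin (finrank ℤ U) → (Fin r → ℤ)) (hv : LinearIndependent ℤ v) (tU : ℕ)
    (htU : ∀ i, v i ∈ ball U tU) (M M' t : ℕ)
    (hM : M + p ^ finrank ℤ U * t + p * finrank ℤ U * tU ≤ p * M') :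
    rk ℚ α m (ball U M) ≤ rk ℚ α (m * p) (ball U M') ∨
      ∃ χ : U →+ ZMod p, χ ≠ 0 ∧ Graded α m U t χ := by
  classical
  have : Fact p.Prime := ⟨hp⟩
  have : Finite (U →+ ZMod p) := finite_hom U p
  have : Fintype (U →+ ZMod p) := Fintype.ofFinite _
  have hcard : Fintype.card (U →+ ZMod p) = p ^ finrank ℤ U := by
    rw [← Nat.card_eq_fintype_card, card_hom]
  obtain ⟨ζ, hζ⟩ := exists_zeta p hp
  obtain ⟨φ, hφ⟩ : ∃ φ : U → ℂ, ∀ u, φ u = mono α m (u : Fin r → ℤ) := ⟨_, fun _ => rfl⟩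
  have hφf : φ = fun u : U => mono α m (u : Fin r → ℤ) := funext hφ
  have hφ0 : φ 0 = 1 := by rw [hφ]; exact mono_zero α m
  have hφa : ∀ x y, φ (x + y) = φ x * φ y := by
    intro x y
    rw [hφ, hφ, hφ]
    exact mono_add α hα m _ _
  have hb0 : (0 : U) ∈ sb U 0 := mem_sb.2 (zero_mem_ball U 0)
  have hbm : Monotone (sb U) := by
    intro a b hab x hx
    exact mem_sb.2 (ball_mono U hab (mem_sb.1 hx))
  have hba : ∀ M N x y, x ∈ sb U M → y ∈ sb U N → x + y ∈ sb U (M + N) :=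
    fun M N x y hx hy => mem_sb.2 (add_mem_ball (mem_sb.1 hx) (mem_sb.1 hy))
  by_cases hcase : ∀ χ : U →+ ZMod p, χ ≠ 0 → ∃ F : U →₀ cyc p, F.support ⊆ sb U t ∧
      (F.sum fun a c => algebraMap (cyc p) ℂ c * φ a) = 0 ∧
      (F.sum fun a c => algebraMap (cyc p) ℂ (c * ζ ^ (χ a).val) * φ a) ≠ 0
  · left
    have h1 := translate_lower (k := cyc p) ζ hζ (sb U) hb0 hbm hba φ hφ0 hφa t M hcase
    obtain ⟨R, hR1, hR2, hR3⟩ := exists_reps U v hv tU htU p
    have h2 := class_upper (k := cyc p) ζ hζ φ hφa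
      (sb U (M + Fintype.card (U →+ ZMod p) * t)) (sb U M') (R.subtype (· ∈ U)) (by
        intro a ha
        rw [mem_sb, mem_ball, hcard] at ha
        obtain ⟨u, hu, w, hw, huw⟩ := hR3 (a : Fin r → ℤ) a.2
        have hub := mem_ball.1 (hR1 hu)
        refine ⟨⟨u, hub.1⟩, Finset.mem_subtype.2 hu, ⟨w, hw⟩, ?_, ?_⟩
        · rw [mem_sb, mem_ball]
          refine ⟨hw, fun j => ?_⟩
          have h3 : (a : Fin r → ℤ) j = u j + (p : ℤ) * w j := by
            rw [huw]; rfl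
          have h4 := ha.2 j
          have h5 := hub.2 j
          have h6 : (p : ℤ) * |w j| ≤ (p : ℤ) * (M' : ℤ) := by
            have h7 : (p : ℤ) * |w j| = |(a : Fin r → ℤ) j - u j| := by
              rw [h3, add_sub_cancel_left, abs_mul, Nat.abs_cast]
            rw [h7]
            calc |(a : Fin r → ℤ) j - u j| ≤ |(a : Fin r → ℤ) j| + |u j| := abs_sub _ _
              _ ≤ ((M + p ^ finrank ℤ U * t : ℕ) : ℤ) + ((p * finrank ℤ U * tU : ℕ) : ℤ) :=
                  add_le_add h4 h5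
              _ ≤ (p : ℤ) * (M' : ℤ) := by exact_mod_cast hM
          exact le_of_mul_le_mul_left h6 (by exact_mod_cast hp.pos)
        · apply Subtype.ext
          rw [huw]
          simp)
    have hRc : (R.subtype (· ∈ U)).card ≤ p ^ finrank ℤ U := by
      refine le_trans ?_ hR2
      rw [Finset.card_subtype]
      exact Finset.card_filter_le _ _
    have h3 : p ^ finrank ℤ U * vrk (cyc p) φ (sb U M) ≤
        p ^ finrank ℤ U * vrk (cyc p) (fun w => φ (p • w)) (sb U M') := by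
      calc p ^ finrank ℤ U * vrk (cyc p) φ (sb U M) ≤ _ := by rw [← hcard]; exact h1
        _ ≤ _ := h2
        _ ≤ _ := Nat.mul_le_mul_right _ hRc
    have h4 : vrk (cyc p) φ (sb U M) ≤ vrk (cyc p) (fun w => φ (p • w)) (sb U M') :=
      Nat.le_of_mul_le_mul_left h3 (pow_pos hp.pos _)
    have h5 : (fun w : U => φ (p • w)) = fun w : U => mono α (m * p) (w : Fin r → ℤ) := by
      funext w
      rw [hφ, mono_mul_exp]
      congr 1
    rw [h5, hφf, ← rk_eq_sb, ← rk_eq_sb, rk_cyc α p hp hint hdis, rk_cyc α p hp hint hdis] at h4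
    exact h4
  · right
    push Not at hcase
    obtain ⟨χ, hχ, hχ2⟩ := hcase
    refine ⟨χ, hχ, graded_aux α m p U t χ ?_⟩
    intro F hF h0 j F' hF'
    have h1 := graded_of_stable (k := cyc p) (K := ℂ) ζ hζ φ (sb U t) χ
      (fun F h1 h2 => hχ2 F h1 h2) F hF (by simpa only [hφ] using h0) j
    have h2 : F' = F.filter fun a => χ a = j := by
      ext a
      rw [Finsupp.filter_apply, hF']
    rw [h2]
    simpa only [hφ] using h1

end Pool.Agent.Lib.MP_7ab245_nt.Solv
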