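import Pool.Agent.Lib.MP_7ab245_nt.Solv.IndepB

set_option autoImplicit false

/-! # Module SV-Translate (0.8 h). Uses Vrk, IndepB.
Setting: `ζ ∈ k` a primitive `p`-th root of unity, `X = (Γ →+ ZMod p)` finite, `φ : Γ → K`
multiplicative; for `χ ∈ X` the twist `φ_χ(a) = ζ^{χ(a)} φ(a)` is again multiplicative
(`ζ ^ (x + y).val = ζ ^ x.val * ζ ^ y.val` in `ZMod p`).
PROOF of `translate_lower`.  Apply `indep_sum` with `ι = X` and `φ_χ`.  For `i ≠ j` in `X` take
`F = F^{(χ)}` from the hypothesis for `χ = j - i ≠ 0` and put `F_ij(a) = F(a) ζ^{(-i)(a)}`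
(`Finsupp.onFinset` or `F.mapRange`-like; same support as `F`, as `ζ ≠ 0`).  Then
`φ_i(F_ij) = ∑ F(a) ζ^{-i(a)} ζ^{i(a)} φ(a) = φ(F) = 0` and
`φ_j(F_ij) = ∑ F(a) ζ^{(j-i)(a)} φ(a) ≠ 0`.  Finally `vrk k φ_χ (b M) = vrk k φ (b M)` (`vrk_smul`), so the
left-hand side of `indep_sum` is `card X * vrk k φ (b M)`.
PROOF of `class_upper`.  `E ⊆ ⋃_{u ∈ R} {u + p w : w ∈ E'}`.  For fixed `u` the vector
`(φ_χ(u + p w))_χ = (ζ^{χ(u)} φ(u) φ(p w))_χ` is the image of `φ(p w)` under the `k`-linear map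
`K → (X → K)`, `x ↦ (ζ^{χ(u)} φ(u) x)_χ`.  So with `vrk_mono`, `vrk_biUnion_le`, `vrk_image`,
`vrk_comp_le` the rank is at most `∑_{u ∈ R} vrk k (w ↦ φ (p w)) E'`. -/

namespace Pool.Agent.Lib.MP_7ab245_nt.Solv

open Module

private theorem zval_add {k : Type*} [Field k] {p : ℕ} [Fact p.Prime] {ζ : k}
    (hζ : IsPrimitiveRoot ζ p) (x y : ZMod p) :
    ζ ^ (x + y).val = ζ ^ x.val * ζ ^ y.val := by
  rw [ZMod.val_add, ← pow_add, ← pow_eq_pow_mod _ hζ.pow_eq_one]

private theorem zval_neg {k : Type*} [Field k] {p : ℕ} [Fact p.Prime] {ζ : k}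
    (hζ : IsPrimitiveRoot ζ p) (x : ZMod p) : ζ ^ (-x).val * ζ ^ x.val = 1 := by
  rw [← zval_add hζ, neg_add_cancel, ZMod.val_zero, pow_zero]

theorem translate_lower {k K Γ : Type*} [Field k] [Field K] [Algebra k K] [AddCommGroup Γ]
    {p : ℕ} [Fact p.Prime] [Fintype (Γ →+ ZMod p)] (ζ : k) (hζ : IsPrimitiveRoot ζ p)
    (b : ℕ → Finset Γ) (hb0 : (0 : Γ) ∈ b 0) (hbm : Monotone b)
    (hb : ∀ M N x y, x ∈ b M → y ∈ b N → x + y ∈ b (M + N))
    (φ : Γ → K) (hφ0 : φ 0 = 1) (hφ : ∀ x y, φ (x + y) = φ x * φ y) (t M : ℕ)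
    (h : ∀ χ : Γ →+ ZMod p, χ ≠ 0 → ∃ F : Γ →₀ k, F.support ⊆ b t ∧
      (F.sum fun a c => algebraMap k K c * φ a) = 0 ∧
      (F.sum fun a c => algebraMap k K (c * ζ ^ (χ a).val) * φ a) ≠ 0) :
    Fintype.card (Γ →+ ZMod p) * vrk k φ (b M) ≤
      vrk k (fun a => fun χ : Γ →+ ZMod p => algebraMap k K (ζ ^ (χ a).val) * φ a)
        (b (M + Fintype.card (Γ →+ ZMod p) * t)) := by
  classical
  have hζ0 : ζ ≠ 0 := hζ.ne_zero (Fact.out : p.Prime).ne_zero
  choose! F0 hF1 hF2 hF3 using h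
  -- the separating elements
  let F : (Γ →+ ZMod p) → (Γ →+ ZMod p) → (Γ →₀ k) := fun i j =>
    Finsupp.onFinset (F0 (j - i)).support (fun a => F0 (j - i) a * ζ ^ (-(i a)).val) (by
      intro a ha
      rw [Finsupp.mem_support_iff]
      intro h0
      apply ha
      rw [h0, zero_mul])
  have hsum : ∀ (i j : Γ →+ ZMod p) (ψ : Γ → K), ((F i j).sum fun a c => algebraMap k K c * ψ a) =
      ∑ a ∈ (F0 (j - i)).support,
        algebraMap k K (F0 (j - i) a * ζ ^ (-(i a)).val) * ψ a := by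
    intro i j ψ
    exact Finsupp.onFinset_sum _ (fun a => by rw [map_zero, zero_mul])
  have hmain := indep_sum (k := k) (K := K) (ι := Γ →+ ZMod p) b hb0 hbm hb
    (fun χ a => algebraMap k K (ζ ^ (χ a).val) * φ a)
    (by
      intro i
      rw [map_zero, ZMod.val_zero, pow_zero, map_one, one_mul, hφ0])
    (by
      intro i x y
      rw [map_add, zval_add hζ, map_mul, hφ]
      ring) t M F
    (by
      intro i j hij
      refine (Finsupp.support_onFinset_subset).trans ?_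
      exact hF1 (j - i) (sub_ne_zero.2 (Ne.symm hij)))
    (by
      intro i j hij
      have h2 := hF2 (j - i) (sub_ne_zero.2 (Ne.symm hij))
      rw [hsum i j fun a => algebraMap k K (ζ ^ (i a).val) * φ a]
      rw [Finsupp.sum] at h2
      rw [← h2]
      refine Finset.sum_congr rfl fun a _ => ?_
      rw [← mul_assoc, ← map_mul, mul_assoc, zval_neg hζ, mul_one])
    (by
      intro i j hij
      have h3 := hF3 (j - i) (sub_ne_zero.2 (Ne.symm hij))
      rw [hsum i j fun a => algebraMap k K (ζ ^ (j a).val) * φ a]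
      rw [Finsupp.sum] at h3
      intro h4
      apply h3
      rw [← h4]
      refine Finset.sum_congr rfl fun a _ => ?_
      rw [← mul_assoc, ← map_mul, mul_assoc, ← zval_add hζ]
      have : -(i a) + j a = (j - i) a := by
        rw [AddMonoidHom.sub_apply]; ring
      rw [this])
  have hconst : ∀ χ : Γ →+ ZMod p,
      vrk k (fun a => algebraMap k K (ζ ^ (χ a).val) * φ a) (b M) = vrk k φ (b M) := by
    intro χ
    have h5 := vrk_smul (k := k) φ (fun a => ζ ^ (χ a).val) (fun a => pow_ne_zero _ hζ0) (b M)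
    rw [← h5]
    congr 1
    funext a
    rw [Algebra.smul_def]
  calc Fintype.card (Γ →+ ZMod p) * vrk k φ (b M)
      = ∑ χ : Γ →+ ZMod p, vrk k (fun a => algebraMap k K (ζ ^ (χ a).val) * φ a) (b M) := by
        rw [Finset.sum_congr rfl fun χ _ => hconst χ, Finset.sum_const, Finset.card_univ,
          smul_eq_mul]
    _ ≤ _ := hmain

theorem class_upper {k K Γ : Type*} [Field k] [Field K] [Algebra k K] [AddCommGroup Γ]
    {p : ℕ} [Fact p.Prime] [Fintype (Γ →+ ZMod p)] (ζ : k) (hζ : IsPrimitiveRoot ζ p)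
    (φ : Γ → K) (hφ : ∀ x y, φ (x + y) = φ x * φ y) (E E' R : Finset Γ)
    (hR : ∀ a ∈ E, ∃ u ∈ R, ∃ w ∈ E', a = u + p • w) :
    vrk k (fun a => fun χ : Γ →+ ZMod p => algebraMap k K (ζ ^ (χ a).val) * φ a) E ≤
      R.card * vrk k (fun w => φ (p • w)) E' := by
  classical
  have hsub : E ⊆ R.biUnion fun u => E'.image fun w => u + p • w := by
    intro a ha
    obtain ⟨u, hu, w, hw, rfl⟩ := hR a ha
    exact Finset.mem_biUnion.2 ⟨u, hu, Finset.mem_image.2 ⟨w, hw, rfl⟩⟩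
  refine (vrk_mono _ hsub).trans ((vrk_biUnion_le _ R _).trans ?_)
  rw [← smul_eq_mul, ← Finset.sum_const]
  refine Finset.sum_le_sum fun u _ => ?_
  rw [vrk_image]
  let f : K →ₗ[k] ((Γ →+ ZMod p) → K) := LinearMap.pi fun χ : Γ →+ ZMod p =>
    LinearMap.mulLeft k (algebraMap k K (ζ ^ (χ u).val) * φ u)
  have h1 : (fun w : Γ => fun χ : Γ →+ ZMod p =>
      algebraMap k K (ζ ^ (χ (u + p • w)).val) * φ (u + p • w)) = fun w => f (φ (p • w)) := by
    funext w χ
    have h2 : χ (u + p • w) = χ u := by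
      rw [map_add, map_nsmul, nsmul_eq_mul, CharP.cast_eq_zero, zero_mul, add_zero]
    rw [h2, hφ]
    change _ = algebraMap k K (ζ ^ (χ u).val) * φ u * φ (p • w)
    ring
  rw [h1]
  exact vrk_comp_le _ f E'

end Pool.Agent.Lib.MP_7ab245_nt.Solv
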